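import Mathlib

set_option autoImplicit false

namespace Pool.Agent.Helper281.Bo

open Set MeasureTheory

/-- address of length n -/
def adr {X : Type*} (r : X → ℕ → Bool) (n : ℕ) (x : X) : ℕ :=
  Encodable.encode (fun i : Fin n => r x i)

theorem adr_meas {X : Type*} [MeasurableSpace X] {r : X → ℕ → Bool} (hr : Measurable r) (n : ℕ) :
    Measurable (adr r n) := by
  have h1 : Measurable (fun x => (fun i : Fin n => r x i)) :=
    measurable_pi_iff.mpr fun i => (measurable_pi_iff.mp hr) i
  have h2 : Measurable (fun g : Fin n → Bool => Encodable.encode g) := Measurable.of_discrete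
  exact h2.comp h1

theorem adr_sep {X : Type*} {r : X → ℕ → Bool} (hr : Function.Injective r) (x y : X) :
    ∀ᶠ n in Filter.atTop, (adr r n x = adr r n y → x = y) := by
  by_cases hxy : x = y
  · exact Filter.Eventually.of_forall fun _ _ => hxy
  · have h1 : r x ≠ r y := fun h => hxy (hr h)
    obtain ⟨k, hk⟩ := Function.ne_iff.mp h1
    filter_upwards [Filter.eventually_gt_atTop k] with n hn h
    exfalso
    have h2 := Encodable.encode_injective h
    exact hk (congrFun h2 ⟨k, hn⟩)

theorem enc_meas {X : Type*} [MeasurableSpace X] (g : ℕ → X → ℕ) (hg : ∀ m, Measurable (g m))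
    (l : List ℕ) : Measurable (fun x => Encodable.encode (l.map (fun m => g m x))) := by
  induction l with
  | nil => simp only [List.map_nil]; exact measurable_const
  | cons m t ih =>
    have h1 : (fun x => Encodable.encode ((m :: t).map (fun m => g m x))) =
        fun x => (fun p : ℕ × ℕ => Nat.succ (Nat.pair p.1 p.2))
          (g m x, Encodable.encode (t.map (fun m => g m x))) := by
      funext x
      rw [List.map_cons, Encodable.encode_list_cons]
      rfl
    rw [h1]
    exact (Measurable.of_discrete (f := fun p : ℕ × ℕ => Nat.succ (Nat.pair p.1 p.2))).comp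
      ((hg m).prodMk ih)

open Classical in
/-- the number of the first group element that moves x to y -/
noncomputable def kk {X : Type*} (γ : ℕ → X → X) (u v : X) : ℕ :=
  if h : ∃ n, γ n u = v then Nat.find h else 0

theorem kk_spec {X : Type*} {γ : ℕ → X → X} {u v : X} (h : ∃ n, γ n u = v) :
    γ (kk γ u v) u = v := by
  classical
  rw [kk, dif_pos h]
  exact Nat.find_spec h

theorem kk_meas {X : Type*} [MeasurableSpace X] [StandardBorelSpace X] {γ : ℕ → X → X}
    (hγ : ∀ n, Measurable (γ n)) (hE : Equivalence (fun x y : X => ∃ n, γ n x = y)) (m m' : ℕ) :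
    Measurable (fun x => kk γ (γ m x) (γ m' x)) := by
  classical
  have h1 : ∀ x, ∃ n, γ n (γ m x) = γ m' x := fun x =>
    hE.trans (hE.symm ⟨m, rfl⟩) ⟨m', rfl⟩
  have h2 : (fun x => kk γ (γ m x) (γ m' x)) = fun x => Nat.find (h1 x) := by
    funext x
    rw [kk, dif_pos (h1 x)]
  rw [h2]
  exact measurable_find h1 fun k => measurableSet_eq_fun ((hγ k).comp (hγ m)) (hγ m')

/-- separation at level n -/
def Sep {X : Type*} (r : X → ℕ → Bool) (L : List X) (n : ℕ) : Prop :=
  ∀ x ∈ L, ∀ y ∈ L, adr r n x = adr r n y → x = y

theorem exists_sep {X : Type*} {r : X → ℕ → Bool} (hr : Function.Injective r) (L : List X) :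
    ∃ n, Sep r L n := by
  have h : ∀ᶠ n in Filter.atTop, ∀ x ∈ {x | x ∈ L}, ∀ y ∈ {x | x ∈ L},
      adr r n x = adr r n y → x = y := by
    rw [Filter.eventually_all_finite (List.finite_toSet L)]
    intro x _
    rw [Filter.eventually_all_finite (List.finite_toSet L)]
    intro y _
    exact adr_sep hr x y
  exact h.exists

theorem sep_meas {X : Type*} [MeasurableSpace X] [StandardBorelSpace X] {γ : ℕ → X → X}
    (hγ : ∀ n, Measurable (γ n)) {r : X → ℕ → Bool} (hr : Measurable r) (l : List ℕ) (n : ℕ) :
    MeasurableSet {x | Sep r (l.map (fun m => γ m x)) n} := by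
  have h1 : {x | Sep r (l.map (fun m => γ m x)) n} =
      ⋂ m ∈ {m | m ∈ l}, ⋂ m' ∈ {m | m ∈ l},
        ({x | adr r n (γ m x) = adr r n (γ m' x)}ᶜ ∪ {x | γ m x = γ m' x}) := by
    ext x
    simp only [Sep, List.mem_map, forall_exists_index, and_imp, forall_apply_eq_imp_iff₂,
      mem_ofPred_eq, mem_iInter, mem_union, mem_compl_iff]
    constructor
    · intro h m hm m' hm'
      by_cases h2 : adr r n (γ m x) = adr r n (γ m' x)
      · exact Or.inr (h m hm m' hm' h2)
      · exact Or.inl h2
    · intro h m hm m' hm' h2
      rcases h m hm m' hm' with h3 | h3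
      · exact absurd h2 h3
      · exact h3
  rw [h1]
  apply MeasurableSet.biInter (List.finite_toSet l).countable
  intro m _
  apply MeasurableSet.biInter (List.finite_toSet l).countable
  intro m' _
  apply MeasurableSet.union
  · exact (measurableSet_eq_fun ((adr_meas hr n).comp (hγ m))
      ((adr_meas hr n).comp (hγ m'))).compl
  · exact measurableSet_eq_fun (hγ m) (hγ m')

/-- colour with given level -/
noncomputable def colN {X : Type*} (γ : ℕ → X → X) (r : X → ℕ → Bool) (n : ℕ) (L : List X) : ℕ :=
  Nat.pair n (Nat.pair (Encodable.encode (L.map (adr r n)))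
    (Encodable.encode (L.map (fun u => Encodable.encode (L.map (kk γ u))))))

theorem colN_meas {X : Type*} [MeasurableSpace X] [StandardBorelSpace X] {γ : ℕ → X → X}
    (hγ : ∀ n, Measurable (γ n)) (hE : Equivalence (fun x y : X => ∃ n, γ n x = y))
    {r : X → ℕ → Bool} (hr : Measurable r) (l : List ℕ) (n : ℕ) :
    Measurable (fun x => colN γ r n (l.map (fun m => γ m x))) := by
  have h1 : Measurable (fun x => Encodable.encode ((l.map (fun m => γ m x)).map (adr r n))) := by
    have h := enc_meas (fun m x => adr r n (γ m x)) (fun m => (adr_meas hr n).comp (hγ m)) l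
    simpa only [List.map_map, Function.comp_def] using h
  have h2 : Measurable (fun x => Encodable.encode ((l.map (fun m => γ m x)).map
      (fun u => Encodable.encode ((l.map (fun m => γ m x)).map (kk γ u))))) := by
    have h := enc_meas (fun m x => Encodable.encode (l.map (fun m' => kk γ (γ m x) (γ m' x))))
      (fun m => enc_meas (fun m' x => kk γ (γ m x) (γ m' x)) (fun m' => kk_meas hγ hE m m') l) l
    simpa only [List.map_map, Function.comp_def] using h
  have h3 : Measurable (fun p : ℕ × ℕ => Nat.pair n (Nat.pair p.1 p.2)) := Measurable.of_discrete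
  exact h3.comp (h1.prodMk h2)

/-- A Borel colouring of finite sequences inside classes: two sequences with the same colour
which share an element are equal. -/
theorem exists_list_color {X : Type*} [MeasurableSpace X] [StandardBorelSpace X]
    (γ : ℕ → X → X) (hγ : ∀ n, Measurable (γ n))
    (hE : Equivalence (fun x y : X => ∃ n, γ n x = y)) :
    ∃ col : List X → ℕ, (∀ l : List ℕ, Measurable (fun x => col (l.map (fun m => γ m x)))) ∧
      ∀ L L' : List X, (∀ x ∈ L, ∀ y ∈ L, ∃ n, γ n x = y) → (∀ x ∈ L', ∀ y ∈ L', ∃ n, γ n x = y) →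
        col L = col L' → (∃ x, x ∈ L ∧ x ∈ L') → L = L' := by
  classical
  obtain ⟨r, hr, hri⟩ :=
    MeasurableSpace.measurable_injection_nat_bool_of_countablySeparated X
  refine ⟨fun L => colN γ r (Nat.find (exists_sep hri L)) L, ?_, ?_⟩
  · intro l
    exact Measurable.find (f := fun n x => colN γ r n (l.map (fun m => γ m x)))
      (fun n => colN_meas hγ hE hr l n)
      (fun n => sep_meas hγ hr l n) (fun x => exists_sep hri (l.map (fun m => γ m x)))
  · intro L L' hL hL' hcol ⟨z, hz, hz'⟩
    simp only [colN] at hcol
    obtain ⟨h1, h2⟩ := Nat.pair_eq_pair.mp hcol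
    obtain ⟨h3, h4⟩ := Nat.pair_eq_pair.mp h2
    have hS : Sep r L' (Nat.find (exists_sep hri L)) := by
      rw [h1]
      exact Nat.find_spec (exists_sep hri L')
    rw [← h1] at h3
    have h5 := Encodable.encode_injective h3
    have h6 := Encodable.encode_injective h4
    obtain ⟨i, hi, hiz⟩ := List.mem_iff_getElem.mp hz
    have hlen : L.length = L'.length := by
      have := congrArg List.length h5
      simpa using this
    have hi' : i < L'.length := hlen ▸ hi
    have h7 : adr r (Nat.find (exists_sep hri L)) L[i] =
        adr r (Nat.find (exists_sep hri L)) L'[i] := by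
      have h8 : (L.map (adr r (Nat.find (exists_sep hri L))))[i]'(by simpa using hi) =
          (L'.map (adr r (Nat.find (exists_sep hri L))))[i]'(by simpa using hi') := by
        simp only [h5]
      simpa using h8
    have h9 : L'[i] = z := by
      rw [hiz] at h7
      exact (hS z hz' L'[i] (List.getElem_mem hi') h7).symm
    have h10 : Encodable.encode (L.map (kk γ L[i])) = Encodable.encode (L'.map (kk γ L'[i])) := by
      have h8 : (L.map (fun u => Encodable.encode (L.map (kk γ u))))[i]'(by simpa using hi) =
          (L'.map (fun u => Encodable.encode (L'.map (kk γ u))))[i]'(by simpa using hi') := by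
        simp only [h6]
      simpa using h8
    rw [hiz, h9] at h10
    have h11 := Encodable.encode_injective h10
    have h12 : ∀ M : List X, (∀ y ∈ M, ∃ n, γ n z = y) →
        (M.map (kk γ z)).map (fun n => γ n z) = M := by
      intro M hM
      rw [List.map_map]
      conv_rhs => rw [← List.map_id M]
      apply List.map_congr_left
      intro y hy
      exact kk_spec (hM y hy)
    rw [← h12 L (fun y hy => hL z hz y hy), h11, h12 L' (fun y hy => hL' z hz' y hy)]

end Pool.Agent.Helper281.Bo
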