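import Mathlib

set_option autoImplicit false

namespace Pool.Agent.Helper281.Sc

open Set

/-- A family of finite sets is a simplicial complex: no empty set, closed under nonempty subsets. -/
def IsCx {V : Type*} (K : Set (Finset V)) : Prop :=
  (∅ : Finset V) ∉ K ∧ ∀ s ∈ K, ∀ t : Finset V, t ⊆ s → t.Nonempty → t ∈ K

/-- The closed simplex spanned by the finite set `s`, in barycentric coordinates. -/
def Simp {V : Type*} (s : Finset V) : Set (V → ℝ) :=
  {x | (∀ v, 0 ≤ x v) ∧ (∀ v, v ∉ s → x v = 0) ∧ ∑ v ∈ s, x v = 1}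

/-- The points of the geometric realization of `K`. -/
def Rlz {V : Type*} (K : Set (Finset V)) : Type _ := {x : V → ℝ // ∃ s ∈ K, x ∈ Simp s}

/-- The inclusion of a closed simplex. -/
def Rlz.inc {V : Type*} {K : Set (Finset V)} (s : Finset V) (hs : s ∈ K) (x : Simp s) : Rlz K :=
  ⟨x.1, s, hs, x.2⟩

/-- The topology of the geometric realization: the final (weak) topology for the closed
simplices, each with its euclidean topology. -/
instance Rlz.top {V : Type*} (K : Set (Finset V)) : TopologicalSpace (Rlz K) :=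
  ⨆ s : K, TopologicalSpace.coinduced (fun x : Simp (s : Finset V) => Rlz.inc (s : Finset V) s.2 x)
    inferInstance

/-- `A` can be contracted to a point inside `B`. -/
def NullIn {Z : Type*} [TopologicalSpace Z] (A B : Set Z) : Prop :=
  ∃ z0 ∈ B, ∃ H : Z → ℝ → Z, ContinuousOn (fun p : Z × ℝ => H p.1 p.2) (A ×ˢ Icc 0 1) ∧
    (∀ z ∈ A, H z 0 = z) ∧ (∀ z ∈ A, H z 1 = z0) ∧ (∀ z ∈ A, ∀ t ∈ Icc (0:ℝ) 1, H z t ∈ B)

end Pool.Agent.Helper281.Sc
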