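import Mathlib
import Pool.Agent.Helper281.Sc.Defs

set_option autoImplicit false

namespace Pool.Agent.Helper281.Sc

open Set

universe u v w

/-- `E` is a countable Borel equivalence relation: an equivalence relation which is a Borel subset
of `X × X` and all of whose classes are countable. -/
structure IsCBER {X : Type u} [MeasurableSpace X] (E : X → X → Prop) : Prop where
  equiv : Equivalence E
  borel : MeasurableSet {p : X × X | E p.1 p.2}
  countable : ∀ x, {y | E x y}.Countable

open Classical in
/-- `S` is a structuring of `E` by contractible simplicial complexes of dimension at most `n`: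
a simplicial complex whose vertices are all the points of `X`, each simplex lies in one class and
has at most `n + 1` vertices, the `k`-simplices form a Borel family of `(k + 1)`-element sets for
every `k`, and for every class the simplices contained in this class form a complex with
contractible geometric realization. -/
structure Stru {X : Type u} [MeasurableSpace X] (n : ℕ) (E : X → X → Prop)
    (S : Set (Finset X)) : Prop where
  cx : IsCx S
  sing : ∀ x, {x} ∈ S
  cls : ∀ s ∈ S, ∀ x ∈ s, ∀ y ∈ s, E x y
  card : ∀ s ∈ S, s.card ≤ n + 1
  borel : ∀ k : ℕ, MeasurableSet {v : Fin (k + 1) → X | Function.Injective v ∧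
    Finset.univ.image v ∈ S}
  ctr : ∀ x, ContractibleSpace (Rlz {s | s ∈ S ∧ ∀ y ∈ s, E x y})

end Pool.Agent.Helper281.Sc
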