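import Mathlib
import Pool.Agent.Helper281.Sc.Dfn

set_option autoImplicit false

namespace Pool.Agent.Helper281.Sc

open Set

universe u v w

open Classical in
theorem lb_of_borel {X : Type u} {Y : Type u} [MeasurableSpace X] [MeasurableSpace Y]
    [StandardBorelSpace Y] (g : ℕ → X → Y) (hg : ∀ n, Measurable (g n)) (K : Set (Finset Y))
    (hK0 : ∅ ∉ K)
    (hb : ∀ k : ℕ, MeasurableSet {v : Fin (k + 1) → Y | Function.Injective v ∧
      Finset.univ.image v ∈ K}) (l : List ℕ) :
    MeasurableSet {x | (l.map (fun n => g n x)).toFinset ∈ K} := by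
  have heq : ∀ a b, MeasurableSet {x | g a x = g b x} :=
    fun a b => measurableSet_eq_fun (hg a) (hg b)
  have e : {x | (l.map (fun n => g n x)).toFinset ∈ K} =
      ⋃ k : ℕ, ⋃ σ : Fin (k + 1) → ℕ, ⋃ _ : ∀ i, σ i ∈ l,
        ({x | (fun i => g (σ i) x) ∈ {v : Fin (k + 1) → Y | Function.Injective v ∧
          Finset.univ.image v ∈ K}} ∩ ⋂ m ∈ {m | m ∈ l}, ⋃ i : Fin (k + 1),
            {x | g m x = g (σ i) x}) := by
    ext x
    simp only [mem_ofPred_eq, mem_iUnion, mem_inter_iff, mem_iInter]
    constructor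
    · intro h
      have hne : (l.map (fun n => g n x)).toFinset.Nonempty := by
        rw [Finset.nonempty_iff_ne_empty]
        intro h0
        rw [h0] at h
        exact hK0 h
      obtain ⟨k, hk⟩ : ∃ k, (l.map (fun n => g n x)).toFinset.card = k + 1 :=
        ⟨_, (Nat.succ_pred_eq_of_pos (Finset.card_pos.2 hne)).symm⟩
      obtain ⟨e⟩ : Nonempty (Fin (k + 1) ≃ (l.map (fun n => g n x)).toFinset) :=
        ⟨(Finset.equivFinOfCardEq hk).symm⟩
      have h1 : ∀ i, ∃ m ∈ l, g m x = (e i : Y) := by
        intro i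
        have h2 := (e i).2
        rw [List.mem_toFinset, List.mem_map] at h2
        exact h2
      choose σ hσ hσe using h1
      refine ⟨k, σ, hσ, ⟨?_, ?_⟩, ?_⟩
      · intro i j hij
        simp only [hσe] at hij
        exact e.injective (Subtype.ext hij)
      · have : Finset.univ.image (fun i => g (σ i) x) = (l.map (fun n => g n x)).toFinset := by
          ext y
          simp only [Finset.mem_image, Finset.mem_univ, true_and, hσe]
          constructor
          · rintro ⟨i, rfl⟩
            exact (e i).2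
          · intro hy
            exact ⟨e.symm ⟨y, hy⟩, by simp⟩
        rw [this]
        exact h
      · intro m hm
        have h2 : g m x ∈ (l.map (fun n => g n x)).toFinset := by
          rw [List.mem_toFinset, List.mem_map]
          exact ⟨m, hm, rfl⟩
        exact ⟨e.symm ⟨_, h2⟩, by rw [hσe]; simp⟩
    · rintro ⟨k, σ, hσ, ⟨h1, h2⟩, h3⟩
      have : Finset.univ.image (fun i => g (σ i) x) = (l.map (fun n => g n x)).toFinset := by
        ext y
        simp only [Finset.mem_image, Finset.mem_univ, true_and, List.mem_toFinset, List.mem_map]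
        constructor
        · rintro ⟨i, rfl⟩
          exact ⟨σ i, hσ i, rfl⟩
        · rintro ⟨m, hm, rfl⟩
          obtain ⟨i, hi⟩ := h3 m hm
          exact ⟨i, hi.symm⟩
      rw [← this]
      exact h2
  rw [e]
  refine MeasurableSet.iUnion (fun k => MeasurableSet.iUnion (fun σ => MeasurableSet.iUnion
    (fun _ => MeasurableSet.inter ?_ ?_)))
  · exact (measurable_pi_lambda _ (fun i => hg (σ i))) (hb k)
  · refine MeasurableSet.biInter (Set.to_countable _) (fun m _ => MeasurableSet.iUnion
      (fun i => heq _ _))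

open Classical in
theorem borel_of_lb {X : Type u} [MeasurableSpace X] [StandardBorelSpace X] (γ : ℕ → X → X)
    (γm : ∀ n, Measurable (γ n)) (L : Set (Finset X))
    (hcls : ∀ s ∈ L, ∀ x ∈ s, ∀ y ∈ s, ∃ n, γ n x = y)
    (hlb : ∀ l : List ℕ, MeasurableSet {x | (l.map (fun m => γ m x)).toFinset ∈ L}) (k : ℕ) :
    MeasurableSet {v : Fin (k + 1) → X | Function.Injective v ∧ Finset.univ.image v ∈ L} := by
  have e : {v : Fin (k + 1) → X | Function.Injective v ∧ Finset.univ.image v ∈ L} =
      (⋂ p ∈ {p : Fin (k + 1) × Fin (k + 1) | p.1 ≠ p.2}, {v : Fin (k + 1) → X | v p.1 = v p.2}ᶜ) ∩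
      ⋃ σ : Fin (k + 1) → ℕ, ((⋂ i, {v : Fin (k + 1) → X | v i = γ (σ i) (v 0)}) ∩
        (fun v : Fin (k + 1) → X => v 0) ⁻¹'
          {x | ((List.ofFn σ).map (fun m => γ m x)).toFinset ∈ L}) := by
    ext v
    simp only [mem_ofPred_eq, mem_iUnion, mem_inter_iff, mem_iInter, mem_preimage, mem_compl_iff]
    have key : ∀ σ : Fin (k + 1) → ℕ, (∀ i, v i = γ (σ i) (v 0)) →
        Finset.univ.image v = ((List.ofFn σ).map (fun m => γ m (v 0))).toFinset := by
      intro σ hσ
      ext y
      simp only [Finset.mem_image, Finset.mem_univ, true_and, List.mem_toFinset, List.mem_map,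
        List.mem_ofFn]
      constructor
      · rintro ⟨i, rfl⟩
        exact ⟨σ i, ⟨i, rfl⟩, (hσ i).symm⟩
      · rintro ⟨_, ⟨i, rfl⟩, rfl⟩
        exact ⟨i, hσ i⟩
    constructor
    · rintro ⟨h1, h2⟩
      refine ⟨fun p hp h => hp (h1 h), ?_⟩
      have h3 : ∀ i, ∃ m, γ m (v 0) = v i := by
        intro i
        exact hcls _ h2 _ (Finset.mem_image.2 ⟨0, Finset.mem_univ _, rfl⟩) _
          (Finset.mem_image.2 ⟨i, Finset.mem_univ _, rfl⟩)
      choose σ hσ using h3
      refine ⟨σ, fun i => (hσ i).symm, ?_⟩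
      rw [← key σ (fun i => (hσ i).symm)]
      exact h2
    · rintro ⟨h1, σ, h2, h3⟩
      refine ⟨?_, ?_⟩
      · intro i j hij
        by_contra hne
        exact h1 (i, j) hne hij
      · rw [key σ h2]
        exact h3
  rw [e]
  refine MeasurableSet.inter ?_ (MeasurableSet.iUnion (fun σ => MeasurableSet.inter
    (MeasurableSet.iInter (fun i => ?_)) ?_))
  · refine MeasurableSet.biInter (Set.to_countable _) (fun p _ => MeasurableSet.compl ?_)
    exact measurableSet_eq_fun (measurable_pi_apply _) (measurable_pi_apply _)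
  · exact measurableSet_eq_fun (measurable_pi_apply _) ((γm _).comp (measurable_pi_apply _))
  · exact (measurable_pi_apply _) (hlb _)

end Pool.Agent.Helper281.Sc
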