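import Mathlib
import Pool.Agent.Helper281.Sc.Defs

set_option autoImplicit false

namespace Pool.Agent.Helper281.Sc

open Set

universe u v w

/-! ### gadgets -/

/-- Cyclic successor on `0, ..., l`. -/
def nx (l i : ℕ) : ℕ := if i < l then i + 1 else 0

/-- The disc gadget: an annulus between the closed walk `p 0, ..., p l, p 0` and the ring
`y 0, ..., y l`, and a cone with apex `z` on the ring. -/
def Gad {U : Type u} [DecidableEq U] (l : ℕ) (p y : ℕ → U) (z : U) : Set (Finset U) :=
  {s | s.Nonempty ∧ ∃ i ≤ l, s ⊆ {p i, p (nx l i), y i} ∨ s ⊆ {p (nx l i), y i, y (nx l i)} ∨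
    s ⊆ {y i, y (nx l i), z}}

/-- The path `p 0, ..., p l` as a complex. -/
def Pth {U : Type u} [DecidableEq U] (l : ℕ) (p : ℕ → U) : Set (Finset U) :=
  {s | s.Nonempty ∧ ∃ i < l, s ⊆ {p i, p (i + 1)}}

/-- The next complex: `M` pushed forward by `ρ`, and for every vertex `v` of `M` which is not the
chosen representative of its fibre a gadget along the path from `v` to its representative. -/
def Nxt {V : Type u} {X : Type v} {U : Type w} [DecidableEq U] (M : Set (Finset V)) (ρ : V → X)
    (rep : V → V) (len : V → ℕ) (pth : V → ℕ → V) (old : X → U) (nv : V → ℕ → U) :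
    Set (Finset U) :=
  {s | ∃ t ∈ M, s = t.image (fun v => old (ρ v))} ∪
    {s | ∃ v : V, {v} ∈ M ∧ rep v ≠ v ∧
      s ∈ Gad (len v) (fun i => old (ρ (pth v i))) (nv v) (nv v (len v + 1))}

/-- `ρ` is injective on simplices and different simplices of positive dimension have different
images. -/
def UL {V : Type u} {X : Type v} [DecidableEq X] (M : Set (Finset V)) (ρ : V → X) : Prop :=
  (∀ s ∈ M, Set.InjOn ρ (s : Set V)) ∧
    ∀ s ∈ M, ∀ t ∈ M, 2 ≤ s.card → s.image ρ = t.image ρ → s = t

/-! ### systems -/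

/-- The Borel data: a countable Borel equivalence relation on `X` with infinite classes, given by
an enumeration `γ`, and a type `VV` of virtual vertices, also enumerated from the points of `X`. -/
structure Sys (X : Type u) (VV : Type v) [MeasurableSpace X] where
  γ : ℕ → X → X
  γm : ∀ n, Measurable (γ n)
  eqv : Equivalence (fun x y : X => ∃ n, γ n x = y)
  κ : X → ℕ
  κm : Measurable κ
  κs : ∀ x k, ∃ n, κ (γ n x) = k
  col : List X → ℕ
  colm : ∀ l : List ℕ, Measurable (fun x => col (l.map (fun m => γ m x)))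
  colp : ∀ L L' : List X, (∀ x ∈ L, ∀ y ∈ L, ∃ n, γ n x = y) →
    (∀ x ∈ L', ∀ y ∈ L', ∃ n, γ n x = y) → col L = col L' → (∃ x, x ∈ L ∧ x ∈ L') → L = L'
  eqm : ∀ k k', MeasurableSet {x | γ k x = γ k' x}
  cod : X → ℕ → VV
  codm : ∀ k c c', MeasurableSet {x | cod (γ k x) c = cod x c'}
  codE : ∀ x y, (∃ n, γ n x = y) → ∀ v, (∃ c, cod x c = v) → ∃ c, cod y c = v
  codI : ∀ x y v, (∃ c, cod x c = v) → (∃ c, cod y c = v) → ∃ n, γ n x = y
  old : X → VV
  nv : VV → ℕ → VV
  old_inj : Function.Injective old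
  nv_inj : ∀ v w k l, nv v k = nv w l → v = w ∧ k = l
  old_ne : ∀ x v k, old x ≠ nv v k
  old_cl : ∀ x, ∃ c, cod x c = old x
  nv_cl : ∀ x v k, (∃ c, cod x c = v) ↔ ∃ c, cod x c = nv v k
  oldm : ∀ k c, MeasurableSet {x | old (γ k x) = cod x c}
  nvm : ∀ c k c', MeasurableSet {x | nv (cod x c) k = cod x c'}
  base : VV → X
  base_cl : ∀ x v, (∃ c, cod x c = v) → ∃ n, γ n x = base v
  basem : ∀ c k, MeasurableSet {x | base (cod x c) = γ k x}
  jj : VV → ℕ
  jjm : ∀ c m, MeasurableSet {x | jj (cod x c) = m}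
  bj : ∀ v w, (∃ x c, cod x c = v) → (∃ x c, cod x c = w) → base v = base w → jj v = jj w → v = w

namespace Sys

variable {X : Type u} {VV : Type v} [MeasurableSpace X] (S : Sys X VV)

/-- Equivalence of points. -/
def E (x y : X) : Prop := ∃ n, S.γ n x = y

/-- The virtual vertex `v` lives over the class of `x`. -/
def In (x : X) (v : VV) : Prop := ∃ c, S.cod x c = v

theorem ex_κ (w : X) (k : ℕ) : ∃ n, S.κ (S.γ n w) = k := S.κs w k

open Classical in
/-- A point of the class of `w` whose colour codes `k` and the colour of the list `w :: W`. -/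
noncomputable def pick (k : ℕ) (w : X) (W : List X) : X :=
  S.γ (Nat.find (S.ex_κ w (Nat.pair k (S.col (w :: W))))) w

theorem κ_pick (k : ℕ) (w : X) (W : List X) :
    S.κ (S.pick k w W) = Nat.pair k (S.col (w :: W)) := by
  classical
  exact Nat.find_spec (S.ex_κ w (Nat.pair k (S.col (w :: W))))

theorem pick_E (k : ℕ) (w : X) (W : List X) : S.E w (S.pick k w W) := ⟨_, rfl⟩

/-- The key of the `k`-th new vertex at level `lev` with index `j`. -/
def key (lev k j : ℕ) : ℕ := Nat.pair lev (Nat.pair k j)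

open Classical in
/-- The chosen representative of the fibre of `ρ` through `v`. -/
noncomputable def rep (M : Set (Finset VV)) (ρ : VV → X) (v : VV) : VV :=
  if h : {v} ∈ M ∧ ∃ c, {S.cod (ρ v) c} ∈ M ∧ ρ (S.cod (ρ v) c) = ρ v then
    S.cod (ρ v) (Nat.find h.2) else v

/-- `P` is a simple edge path of `M` from `v` to `w`. -/
def IsPth [DecidableEq VV] (M : Set (Finset VV)) (v w : VV) (P : List VV) : Prop :=
  P.Nodup ∧ P.head? = some v ∧ P.getLast? = some w ∧
    ∀ i, ∀ h : i + 1 < P.length, ({P[i], P[i + 1]} : Finset VV) ∈ M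

/-- Decoding of lists of natural numbers. -/
def dl (m : ℕ) : List ℕ := (Encodable.decode (α := List ℕ) m).getD []

open Classical in
/-- The chosen path from `v` to its representative. -/
noncomputable def path (M : Set (Finset VV)) (ρ : VV → X) (v : VV) : List VV :=
  if h : ∃ m, IsPth M v (S.rep M ρ v) ((dl m).map (S.cod (S.base v))) then
    (dl (Nat.find h)).map (S.cod (S.base v)) else [v]

/-- Length of the chosen path. -/
noncomputable def len (M : Set (Finset VV)) (ρ : VV → X) (v : VV) : ℕ :=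
  (S.path M ρ v).length - 1

/-- Points of the chosen path. -/
noncomputable def pth (M : Set (Finset VV)) (ρ : VV → X) (v : VV) (i : ℕ) : VV :=
  (S.path M ρ v).getD i v

/-- Values already used before the `k`-th new vertex over `v`. -/
noncomputable def vals (M : Set (Finset VV)) (ρ : VV → X) (lev : ℕ) (v : VV) : ℕ → List X
  | 0 => (S.path M ρ v).map ρ
  | k + 1 => vals M ρ lev v k ++ [S.pick (key lev k (S.jj v)) (S.base v) (vals M ρ lev v k)]

/-- The value of the `k`-th new vertex over `v`. -/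
noncomputable def nval (M : Set (Finset VV)) (ρ : VV → X) (lev : ℕ) (v : VV) (k : ℕ) : X :=
  S.pick (key lev k (S.jj v)) (S.base v) (S.vals M ρ lev v k)

open Classical in
/-- The next map. -/
noncomputable def rho (M : Set (Finset VV)) (ρ : VV → X) (lev : ℕ) (v : VV) : X :=
  if h : ∃ x, S.old x = v then h.choose
  else if h : ∃ p : VV × ℕ, S.nv p.1 p.2 = v then S.nval M ρ lev h.choose.1 h.choose.2
  else S.base v

open Classical in
/-- The next complex. -/
noncomputable def nxt (M : Set (Finset VV)) (ρ : VV → X) : Set (Finset VV) :=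
  Nxt M ρ (S.rep M ρ) (S.len M ρ) (S.pth M ρ) S.old S.nv

/-- The part of `M` over the class of `x`. -/
def ovr (M : Set (Finset VV)) (x : X) : Set (Finset VV) := {s | s ∈ M ∧ ∀ v ∈ s, S.In x v}

open Classical in
/-- Local Borelness of a family of finite sets of virtual vertices. -/
def LBM (M : Set (Finset VV)) : Prop :=
  ∀ L : List ℕ, MeasurableSet {x | (L.map (S.cod x)).toFinset ∈ M}

/-- Local Borelness of a map to `X`. -/
def LBρ (ρ : VV → X) : Prop := ∀ c k, MeasurableSet {x | ρ (S.cod x c) = S.γ k x}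

/-- The level of a point. -/
def lev (x : X) : ℕ := (Nat.unpair (Nat.unpair (S.κ x)).1).1

open Classical in
/-- The induction hypothesis. -/
structure Good (n i : ℕ) (M : Set (Finset VV)) (ρ : VV → X) : Prop where
  cx : IsCx M
  cls : ∀ s ∈ M, ∃ x, ∀ v ∈ s, S.In x v
  card : ∀ s ∈ M, s.card ≤ n + 1
  lbM : S.LBM M
  lbρ : S.LBρ ρ
  ρE : ∀ x v, S.In x v → S.E x (ρ v)
  ul : UL M ρ
  lv : ∀ v, {v} ∈ M → S.lev (ρ v) ≤ i
  ctr : ∀ x, ContractibleSpace (Rlz (S.ovr M x))

end Sys

end Pool.Agent.Helper281.Sc
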