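import Mathlib
import Pool.Agent.Helper281.Sc.Defs

set_option autoImplicit false

namespace Pool.Agent.Helper281.Sc

open Set Topology

universe u v w

variable {V : Type u} {K : Set (Finset V)}

theorem Rlz.continuous_inc (s : Finset V) (hs : s ∈ K) : Continuous (Rlz.inc (K := K) s hs) := by
  rw [continuous_iff_coinduced_le]
  exact le_iSup (fun s : K => TopologicalSpace.coinduced
    (fun x : Simp (s : Finset V) => Rlz.inc (K := K) (s : Finset V) s.2 x) inferInstance) ⟨s, hs⟩

theorem Rlz.continuous_iff {Z : Type w} [TopologicalSpace Z] {f : Rlz K → Z} :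
    Continuous f ↔ ∀ s (hs : s ∈ K), Continuous (fun x : Simp s => f (Rlz.inc s hs x)) := by
  constructor
  · intro h s hs
    exact h.comp (Rlz.continuous_inc s hs)
  · intro h
    rw [Rlz.top, continuous_iSup_dom]
    rintro ⟨s, hs⟩
    rw [continuous_coinduced_dom]
    exact h s hs

theorem Rlz.isOpen_iff {U : Set (Rlz K)} :
    IsOpen U ↔ ∀ s (hs : s ∈ K), IsOpen {x : Simp s | Rlz.inc s hs x ∈ U} := by
  rw [Rlz.top, isOpen_iSup_iff]
  constructor
  · intro h s hs
    exact isOpen_coinduced.1 (h ⟨s, hs⟩)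
  · rintro h ⟨s, hs⟩
    exact isOpen_coinduced.2 (h s hs)

theorem Rlz.isClosed_iff {U : Set (Rlz K)} :
    IsClosed U ↔ ∀ s (hs : s ∈ K), IsClosed {x : Simp s | Rlz.inc s hs x ∈ U} := by
  rw [← isOpen_compl_iff, Rlz.isOpen_iff]
  constructor
  · intro h s hs
    rw [← isOpen_compl_iff]
    exact h s hs
  · intro h s hs
    have := h s hs
    rw [← isOpen_compl_iff] at this
    exact this

/-- The map from the disjoint union of the closed simplices. -/
def Rlz.glue (K : Set (Finset V)) : (Σ s : K, Simp (s : Finset V)) → Rlz K :=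
  fun p => Rlz.inc (p.1 : Finset V) p.1.2 p.2

theorem Rlz.isQuotientMap_glue (K : Set (Finset V)) : IsQuotientMap (Rlz.glue K) := by
  rw [isQuotientMap_iff]
  constructor
  · refine ⟨?_⟩
    ext U
    rw [isOpen_coinduced, isOpen_sigma_iff, Rlz.isOpen_iff]
    constructor
    · rintro h ⟨s, hs⟩
      exact h s hs
    · intro h s hs
      exact h ⟨s, hs⟩
  · rintro ⟨x, s, hs, hx⟩
    exact ⟨⟨⟨s, hs⟩, ⟨x, hx⟩⟩, rfl⟩

/-- Continuity on a product with a locally compact space can be tested on the simplices. -/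
theorem Rlz.continuous_prod {Y : Type v} {Z : Type w} [TopologicalSpace Y] [LocallyCompactSpace Y]
    [TopologicalSpace Z] {f : Rlz K × Y → Z}
    (h : ∀ s (hs : s ∈ K), Continuous (fun p : Simp s × Y => f (Rlz.inc s hs p.1, p.2))) :
    Continuous f := by
  apply (Rlz.isQuotientMap_glue K).continuous_lift_prod_left
  have h2 : Continuous (fun p : (Σ s : K, (Simp (s : Finset V)) × Y) =>
      f (Rlz.inc (p.1 : Finset V) p.1.2 p.2.1, p.2.2)) := by
    rw [continuous_sigma_iff]
    rintro ⟨s, hs⟩
    exact h s hs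
  exact h2.comp (Homeomorph.sigmaProdDistrib (X := fun s : K => Simp (s : Finset V)) (Y := Y)).continuous

end Pool.Agent.Helper281.Sc
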