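import Mathlib
import Pool.Agent.Helper281.Sc.Defs

set_option autoImplicit false

namespace Pool.Agent.Helper281.Sc.Fill

open Set

theorem radial {X Z : Type*} [TopologicalSpace X] [TopologicalSpace Z] (D bd : Set X) (m : X → ℝ)
    (π : X → X) (hD : IsClosed D) (hm : Continuous m) (hm0 : ∀ x ∈ D, 0 ≤ m x)
    (hπ : ContinuousOn π {x | x ∈ D ∧ 2 * m x ≤ 1})
    (hπb : ∀ x ∈ D, 2 * m x ≤ 1 → π x ∈ bd) (hbd : ∀ x ∈ bd, x ∈ D ∧ m x = 0 ∧ π x = x)
    (A B : Set Z) (hAB : NullIn A B) (f0 : X → Z) (hf0 : ContinuousOn f0 bd)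
    (hA : ∀ x ∈ bd, f0 x ∈ A) :
    ∃ f : X → Z, ContinuousOn f D ∧ (∀ x ∈ bd, f x = f0 x) ∧ ∀ x ∈ D, f x ∈ B := by
  classical
  obtain ⟨z0, hz0, H, hH, H0, H1, HB⟩ := hAB
  set f : X → Z := fun x => if 2 * m x ≤ 1 then H (f0 (π x)) (2 * m x) else z0 with hf
  refine ⟨f, ?_, ?_, ?_⟩
  · have hs : IsClosed (D ∩ {x | 2 * m x ≤ 1}) :=
      hD.inter (isClosed_le (by fun_prop) continuous_const)
    have ht : IsClosed (D ∩ {x | 1 ≤ 2 * m x}) :=
      hD.inter (isClosed_le continuous_const (by fun_prop))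
    have hDu : D = (D ∩ {x | 2 * m x ≤ 1}) ∪ (D ∩ {x | 1 ≤ 2 * m x}) := by
      ext x
      simp only [mem_union, mem_inter_iff, mem_ofPred_eq]
      constructor
      · intro hx
        rcases le_total (2 * m x) 1 with h | h
        · exact Or.inl ⟨hx, h⟩
        · exact Or.inr ⟨hx, h⟩
      · rintro (h | h)
        · exact h.1
        · exact h.1
    rw [hDu]
    refine ContinuousOn.union_of_isClosed ?_ ?_ hs ht
    · have h1 : ContinuousOn (fun x => (fun p : Z × ℝ => H p.1 p.2) (f0 (π x), 2 * m x))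
          (D ∩ {x | 2 * m x ≤ 1}) := by
        refine hH.comp (ContinuousOn.prodMk ?_ ?_) ?_
        · exact hf0.comp hπ (fun x hx => hπb x hx.1 hx.2)
        · exact (continuous_const.mul hm).continuousOn
        · intro x hx
          refine ⟨hA _ (hπb x hx.1 hx.2), ?_, hx.2⟩
          have := hm0 x hx.1
          simp only
          linarith
      refine h1.congr (fun x hx => ?_)
      have : 2 * m x ≤ 1 := hx.2
      simp only [hf, if_pos this]
    · refine (continuousOn_const (c := z0)).congr (fun x hx => ?_)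
      have h2 : 1 ≤ 2 * m x := hx.2
      simp only [hf]
      split_ifs with h3
      · have h4 : 2 * m x = 1 := le_antisymm h3 h2
        rw [h4]
        exact H1 _ (hA _ (hπb x hx.1 h3))
      · rfl
  · intro x hx
    obtain ⟨hx1, hx2, hx3⟩ := hbd x hx
    simp only [hf, hx2, hx3]
    rw [if_pos (by norm_num), mul_zero]
    exact H0 _ (hA x hx)
  · intro x hx
    simp only [hf]
    split_ifs with h
    · refine HB _ (hA _ (hπb x hx h)) _ ⟨?_, h⟩
      have := hm0 x hx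
      linarith
    · exact hz0

theorem isClosed_Simp {V : Type*} (s : Finset V) : IsClosed (Simp s) := by
  have h : Simp s = (⋂ v, {x : V → ℝ | 0 ≤ x v}) ∩ ((⋂ v, {x : V → ℝ | v ∉ s → x v = 0}) ∩
      {x | ∑ v ∈ s, x v = 1}) := by
    ext x
    simp [Simp]
  rw [h]
  refine (isClosed_iInter fun v => isClosed_le continuous_const (continuous_apply v)).inter
    ((isClosed_iInter fun v => ?_).inter (isClosed_eq (by fun_prop) continuous_const))
  by_cases hv : v ∈ s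
  · have : {x : V → ℝ | v ∉ s → x v = 0} = univ := by ext x; simp [hv]
    rw [this]; exact isClosed_univ
  · have : {x : V → ℝ | v ∉ s → x v = 0} = {x | x v = 0} := by ext x; simp [hv]
    rw [this]; exact isClosed_eq (continuous_apply v) continuous_const

open Classical in
/-- barycentre -/
noncomputable def bc {V : Type*} (s : Finset V) : V → ℝ := fun v => if v ∈ s then (s.card : ℝ)⁻¹ else 0

/-- smallest coordinate times the number of vertices -/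
noncomputable def mn {V : Type*} (s : Finset V) (hs : s.Nonempty) (x : V → ℝ) : ℝ :=
  s.card * s.inf' hs x

theorem mn_le {V : Type*} (s : Finset V) (hs : s.Nonempty) (x : V → ℝ) {v : V} (hv : v ∈ s) :
    mn s hs x * (s.card : ℝ)⁻¹ ≤ x v := by
  have hN : (0:ℝ) < s.card := by exact_mod_cast hs.card_pos
  unfold mn
  rw [mul_comm (s.card : ℝ), mul_assoc, mul_inv_cancel₀ hN.ne', mul_one]
  exact Finset.inf'_le _ hv

theorem mn_attained {V : Type*} (s : Finset V) (hs : s.Nonempty) (x : V → ℝ) :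
    ∃ v ∈ s, x v = mn s hs x * (s.card : ℝ)⁻¹ := by
  have hN : (0:ℝ) < s.card := by exact_mod_cast hs.card_pos
  obtain ⟨v, hv, h⟩ := Finset.exists_mem_eq_inf' hs x
  refine ⟨v, hv, ?_⟩
  unfold mn
  rw [h, mul_comm (s.card : ℝ), mul_assoc, mul_inv_cancel₀ hN.ne', mul_one]

theorem mn_nonneg {V : Type*} (s : Finset V) (hs : s.Nonempty) (x : V → ℝ) (hx : x ∈ Simp s) :
    0 ≤ mn s hs x := by
  unfold mn
  refine mul_nonneg (by positivity) ?_
  rw [Finset.le_inf'_iff]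
  exact fun v _ => hx.1 v

theorem mn_zero {V : Type*} (s : Finset V) (hs : s.Nonempty) (x : V → ℝ) (hx : x ∈ Simp s)
    {v : V} (hv : v ∈ s) (h0 : x v = 0) : mn s hs x = 0 := by
  have hN : (0:ℝ) < s.card := by exact_mod_cast hs.card_pos
  have h1 := mn_nonneg s hs x hx
  have h2 := mn_le s hs x hv
  rw [h0] at h2
  have h3 : 0 < (s.card : ℝ)⁻¹ := inv_pos.mpr hN
  nlinarith

theorem continuous_mn {V : Type*} (s : Finset V) (hs : s.Nonempty) : Continuous (mn s hs) := by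
  unfold mn
  refine continuous_const.mul ?_
  exact Continuous.finset_inf'_apply hs (fun v _ => continuous_apply v)

theorem sum_bc {V : Type*} (s : Finset V) (hs : s.Nonempty) : ∑ v ∈ s, bc s v = 1 := by
  have hN : (0:ℝ) < s.card := by exact_mod_cast hs.card_pos
  unfold bc
  rw [Finset.sum_congr rfl (fun v hv => if_pos hv), Finset.sum_const, nsmul_eq_mul,
    mul_inv_cancel₀ hN.ne']

theorem proj_mem {V : Type*} (s : Finset V) (hs : s.Nonempty) (x : V → ℝ) (hx : x ∈ Simp s)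
    (c : ℝ) (hc : c ≤ mn s hs x) (_hc0 : 0 ≤ c) (hc1 : 2 * c ≤ 1) :
    (1 - c)⁻¹ • (x - c • bc s) ∈ Simp s := by
  have h1 : 0 < 1 - c := by linarith
  have hN : (0:ℝ) < s.card := by exact_mod_cast hs.card_pos
  refine ⟨fun v => ?_, fun v hv => ?_, ?_⟩
  · simp only [Pi.smul_apply, Pi.sub_apply, smul_eq_mul]
    refine mul_nonneg (inv_nonneg.mpr h1.le) ?_
    by_cases hv : v ∈ s
    · have h2 := mn_le s hs x hv
      have h3 : c * (s.card : ℝ)⁻¹ ≤ mn s hs x * (s.card : ℝ)⁻¹ :=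
        mul_le_mul_of_nonneg_right hc (by positivity)
      simp only [bc, if_pos hv]
      linarith
    · simp only [bc, if_neg hv, hx.2.1 v hv]
      simp
  · simp only [Pi.smul_apply, Pi.sub_apply, smul_eq_mul, bc, if_neg hv, hx.2.1 v hv]
    simp
  · simp only [Pi.smul_apply, Pi.sub_apply, smul_eq_mul]
    rw [← Finset.mul_sum, Finset.sum_sub_distrib, ← Finset.mul_sum, sum_bc s hs, hx.2.2]
    field_simp

/-- Extension of a map from the boundary of a simplex. -/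
theorem fill_simplex {V Z : Type*} [TopologicalSpace Z] (s : Finset V) (hs : s.Nonempty)
    (A B : Set Z) (hAB : NullIn A B) (f0 : (V → ℝ) → Z)
    (hf0 : ContinuousOn f0 {x | x ∈ Simp s ∧ ∃ v ∈ s, x v = 0})
    (hA : ∀ x ∈ Simp s, (∃ v ∈ s, x v = 0) → f0 x ∈ A) :
    ∃ f : (V → ℝ) → Z, ContinuousOn f (Simp s) ∧
      (∀ x ∈ Simp s, (∃ v ∈ s, x v = 0) → f x = f0 x) ∧ ∀ x ∈ Simp s, f x ∈ B := by
  have e1 : ContinuousOn (fun x => (1 - mn s hs x)⁻¹ • (x - mn s hs x • bc s))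
      {x | x ∈ Simp s ∧ 2 * mn s hs x ≤ 1} := by
    have hc := (continuous_mn s hs)
    have h0 : ContinuousOn (fun x => (1 - mn s hs x)⁻¹) {x | x ∈ Simp s ∧ 2 * mn s hs x ≤ 1} := by
      refine ContinuousOn.inv₀ (by fun_prop) ?_
      rintro x ⟨_, hx⟩
      have : 0 < 1 - mn s hs x := by linarith
      exact this.ne'
    exact h0.smul (by fun_prop)
  have e2 : ∀ x ∈ Simp s, 2 * mn s hs x ≤ 1 → (1 - mn s hs x)⁻¹ • (x - mn s hs x • bc s) ∈
      {x | x ∈ Simp s ∧ ∃ v ∈ s, x v = 0} := by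
    intro x hx hx2
    refine ⟨proj_mem s hs x hx _ le_rfl (mn_nonneg s hs x hx) hx2, ?_⟩
    obtain ⟨v, hv, hv2⟩ := mn_attained s hs x
    refine ⟨v, hv, ?_⟩
    simp only [Pi.smul_apply, Pi.sub_apply, smul_eq_mul, bc, if_pos hv, hv2]
    simp
  have e3 : ∀ x ∈ {x | x ∈ Simp s ∧ ∃ v ∈ s, x v = 0}, x ∈ Simp s ∧ mn s hs x = 0 ∧
      (1 - mn s hs x)⁻¹ • (x - mn s hs x • bc s) = x := by
    rintro x ⟨hx, v, hv, hv0⟩
    have h0 := mn_zero s hs x hx hv hv0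
    refine ⟨hx, h0, ?_⟩
    simp [h0]
  obtain ⟨f, h1, h2, h3⟩ := radial (Simp s) {x | x ∈ Simp s ∧ ∃ v ∈ s, x v = 0} (mn s hs)
    (fun x => (1 - mn s hs x)⁻¹ • (x - mn s hs x • bc s)) (isClosed_Simp s) (continuous_mn s hs)
    (fun x hx => mn_nonneg s hs x hx) e1 e2 e3 A B hAB f0 hf0 (fun x hx => hA x hx.1 hx.2)
  exact ⟨f, h1, fun x hx hv => h2 x ⟨hx, hv⟩, h3⟩

/-- Extension of a map from the boundary of a prism. -/
theorem fill_prism {V Z : Type*} [TopologicalSpace Z] (s : Finset V) (hs : s.Nonempty)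
    (A B : Set Z) (hAB : NullIn A B) (f0 : (V → ℝ) × ℝ → Z)
    (hf0 : ContinuousOn f0 {p | p.1 ∈ Simp s ∧ p.2 ∈ Icc (0:ℝ) 1 ∧
      ((∃ v ∈ s, p.1 v = 0) ∨ p.2 = 0 ∨ p.2 = 1)})
    (hA : ∀ p : (V → ℝ) × ℝ, p.1 ∈ Simp s → p.2 ∈ Icc (0:ℝ) 1 →
      ((∃ v ∈ s, p.1 v = 0) ∨ p.2 = 0 ∨ p.2 = 1) → f0 p ∈ A) :
    ∃ f : (V → ℝ) × ℝ → Z, ContinuousOn f (Simp s ×ˢ Icc (0:ℝ) 1) ∧
      (∀ p : (V → ℝ) × ℝ, p.1 ∈ Simp s → p.2 ∈ Icc (0:ℝ) 1 →
        ((∃ v ∈ s, p.1 v = 0) ∨ p.2 = 0 ∨ p.2 = 1) → f p = f0 p) ∧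
      ∀ p ∈ Simp s ×ˢ Icc (0:ℝ) 1, f p ∈ B := by
  set m : (V → ℝ) × ℝ → ℝ := fun p => min (mn s hs p.1) (2 * min p.2 (1 - p.2)) with hm
  have hmc : Continuous m := by
    have := continuous_mn s hs
    fun_prop
  have hm0 : ∀ p ∈ Simp s ×ˢ Icc (0:ℝ) 1, 0 ≤ m p := by
    rintro p ⟨hp1, hp2, hp3⟩
    refine le_min (mn_nonneg s hs _ hp1) ?_
    have : 0 ≤ min p.2 (1 - p.2) := le_min hp2 (by linarith)
    linarith
  have hma : ∀ p, m p ≤ mn s hs p.1 := fun p => min_le_left _ _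
  have hmb : ∀ p : (V → ℝ) × ℝ, m p ≤ 2 * p.2 := fun p =>
    (min_le_right _ _).trans (mul_le_mul_of_nonneg_left (min_le_left _ _) (by norm_num))
  have hmd : ∀ p : (V → ℝ) × ℝ, m p ≤ 2 * (1 - p.2) := fun p =>
    (min_le_right _ _).trans (mul_le_mul_of_nonneg_left (min_le_right _ _) (by norm_num))
  have e1 : ContinuousOn (fun p : (V → ℝ) × ℝ => (((1 - m p)⁻¹ • (p.1 - m p • bc s) : V → ℝ),
      (1 - m p)⁻¹ * (p.2 - m p / 2))) {x | x ∈ Simp s ×ˢ Icc (0:ℝ) 1 ∧ 2 * m x ≤ 1} := by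
    have hi : ContinuousOn (fun p : (V → ℝ) × ℝ => (1 - m p)⁻¹)
        {x | x ∈ Simp s ×ˢ Icc (0:ℝ) 1 ∧ 2 * m x ≤ 1} := by
      refine ContinuousOn.inv₀ (by fun_prop) ?_
      rintro x ⟨_, hx⟩
      have : 0 < 1 - m x := by linarith
      exact this.ne'
    refine ContinuousOn.prodMk ?_ ?_
    · exact hi.smul (by fun_prop)
    · exact hi.mul (by fun_prop)
  have e2 : ∀ p ∈ Simp s ×ˢ Icc (0:ℝ) 1, 2 * m p ≤ 1 →
      (((1 - m p)⁻¹ • (p.1 - m p • bc s) : V → ℝ), (1 - m p)⁻¹ * (p.2 - m p / 2)) ∈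
      {p : (V → ℝ) × ℝ | p.1 ∈ Simp s ∧ p.2 ∈ Icc (0:ℝ) 1 ∧
        ((∃ v ∈ s, p.1 v = 0) ∨ p.2 = 0 ∨ p.2 = 1)} := by
    rintro p hp hp2
    have hc0 := hm0 p hp
    have h1 : 0 < 1 - m p := by linarith
    refine ⟨proj_mem s hs p.1 hp.1 _ (hma p) hc0 hp2, ⟨?_, ?_⟩, ?_⟩
    · exact mul_nonneg (inv_nonneg.mpr h1.le) (by have := hmb p; linarith)
    · rw [inv_mul_le_iff₀ h1]
      have := hmd p
      linarith
    · rcases min_choice (mn s hs p.1) (2 * min p.2 (1 - p.2)) with h | h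
      · left
        obtain ⟨v, hv, hv2⟩ := mn_attained s hs p.1
        refine ⟨v, hv, ?_⟩
        have h' : m p = mn s hs p.1 := h
        simp only [Pi.smul_apply, Pi.sub_apply, smul_eq_mul, bc, if_pos hv, hv2, h']
        simp
      · right
        rcases min_choice p.2 (1 - p.2) with h4 | h4
        · left
          have h' : m p = 2 * p.2 := by simp only [hm]; rw [h, h4]
          simp only [h']
          simp
        · right
          have h' : m p = 2 * (1 - p.2) := by simp only [hm]; rw [h, h4]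
          simp only
          rw [inv_mul_eq_div, div_eq_one_iff_eq h1.ne']
          linarith
  have e3 : ∀ p ∈ {p : (V → ℝ) × ℝ | p.1 ∈ Simp s ∧ p.2 ∈ Icc (0:ℝ) 1 ∧
        ((∃ v ∈ s, p.1 v = 0) ∨ p.2 = 0 ∨ p.2 = 1)}, p ∈ Simp s ×ˢ Icc (0:ℝ) 1 ∧ m p = 0 ∧
        (((1 - m p)⁻¹ • (p.1 - m p • bc s) : V → ℝ), (1 - m p)⁻¹ * (p.2 - m p / 2)) = p := by
    rintro p ⟨hp1, hp2, hp3⟩
    have h0 : m p = 0 := by
      refine le_antisymm ?_ (hm0 p ⟨hp1, hp2⟩)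
      rcases hp3 with ⟨v, hv, hv0⟩ | h | h
      · rw [← mn_zero s hs p.1 hp1 hv hv0]; exact hma p
      · have := hmb p; rw [h] at this; linarith
      · have := hmd p; rw [h] at this; linarith
    refine ⟨⟨hp1, hp2⟩, h0, ?_⟩
    simp [h0]
  obtain ⟨f, h1, h2, h3⟩ := radial (Simp s ×ˢ Icc (0:ℝ) 1) {p | p.1 ∈ Simp s ∧ p.2 ∈ Icc (0:ℝ) 1 ∧
      ((∃ v ∈ s, p.1 v = 0) ∨ p.2 = 0 ∨ p.2 = 1)} m
    (fun p => ((1 - m p)⁻¹ • (p.1 - m p • bc s), (1 - m p)⁻¹ * (p.2 - m p / 2)))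
    ((isClosed_Simp s).prod isClosed_Icc) hmc hm0
    e1 e2 e3 A B hAB f0 hf0 (fun x hx => hA x hx.1 hx.2.1 hx.2.2)
  exact ⟨f, h1, fun x hx hx2 hv => h2 x ⟨hx, hx2, hv⟩, h3⟩

end Pool.Agent.Helper281.Sc.Fill
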