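import Mathlib
import Pool.Agent.Helper281.Sc.Basic
import Pool.Agent.Helper281.Sc.Fill

set_option autoImplicit false

namespace Pool.Agent.Helper281.Sc.Car

open Set Topology Pool.Agent.Helper281.Sc.Fill

universe u v w

variable {V : Type u} {K : Set (Finset V)}

/-! ### auxiliary lemmas -/

section aux

open Classical in
/-- support as a finset -/
noncomputable def supp (x : V → ℝ) : Finset V :=
  if h : (Function.support x).Finite then h.toFinset else ∅

theorem mem_supp {s : Finset V} {x : V → ℝ} (hx : x ∈ Simp s) (v : V) :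
    v ∈ supp x ↔ x v ≠ 0 := by
  have h : (Function.support x).Finite := by
    apply s.finite_toSet.subset
    intro v hv
    by_contra hcon
    exact hv (hx.2.1 v (fun h => hcon (Finset.mem_coe.2 h)))
  unfold supp
  rw [dif_pos h, Set.Finite.mem_toFinset, Function.mem_support]

theorem supp_subset {s : Finset V} {x : V → ℝ} (hx : x ∈ Simp s) : supp x ⊆ s := by
  intro v hv
  rw [mem_supp hx] at hv
  by_contra hcon
  exact hv (hx.2.1 v hcon)

theorem mem_simp_supp {s : Finset V} {x : V → ℝ} (hx : x ∈ Simp s) : x ∈ Simp (supp x) := by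
  refine ⟨hx.1, ?_, ?_⟩
  · intro v hv
    rw [mem_supp hx] at hv
    push Not at hv
    exact hv
  · rw [← hx.2.2]
    apply Finset.sum_subset (supp_subset hx)
    intro v _ hv
    rw [mem_supp hx] at hv
    push Not at hv
    exact hv

theorem nonempty_of_mem_simp {s : Finset V} {x : V → ℝ} (hx : x ∈ Simp s) : s.Nonempty := by
  rw [Finset.nonempty_iff_ne_empty]
  rintro rfl
  have := hx.2.2
  simp at this

theorem isClosed_simp (s : Finset V) : IsClosed (Simp s) := by
  have e : Simp s = (⋂ v, {x : V → ℝ | 0 ≤ x v}) ∩ ((⋂ v, ⋂ (_ : v ∉ s), {x : V → ℝ | x v = 0}) ∩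
      {x : V → ℝ | ∑ v ∈ s, x v = 1}) := by
    ext x
    simp only [Simp, Set.mem_inter_iff, Set.mem_iInter, Set.mem_ofPred_eq]
  rw [e]
  refine (isClosed_iInter fun v => isClosed_le continuous_const (continuous_apply v)).inter
    ((isClosed_iInter fun v => isClosed_iInter fun _ =>
      isClosed_eq (continuous_apply v) continuous_const).inter ?_)
  exact isClosed_eq (continuous_finsetSum _ fun v _ => continuous_apply v) continuous_const

theorem simp_mono {t s : Finset V} (h : t ⊆ s) : Simp t ⊆ Simp s := by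
  intro x hx
  refine ⟨hx.1, fun v hv => hx.2.1 v fun h2 => hv (h h2), ?_⟩
  rw [← hx.2.2]
  symm
  apply Finset.sum_subset h
  intro v _ hv
  exact hx.2.1 v hv

variable {W : Type*} {Z : Type w} [TopologicalSpace W] [TopologicalSpace Z]

/-- the cell over a simplex -/
def Cl (π : W → V → ℝ) (D : Set W) (s : Finset V) : Set W := {w | π w ∈ Simp s ∧ w ∈ D}

/-- the boundary of the cell -/
def Bd (π : W → V → ℝ) (D E : Set W) (s : Finset V) : Set W :=
  {w | π w ∈ Simp s ∧ w ∈ D ∧ ((∃ v ∈ s, π w v = 0) ∨ w ∈ E)}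

/-- good on the `k`-skeleton -/
def GoodF (K : Set (Finset V)) (π : W → V → ℝ) (D E : Set W) (Φ : Finset V → Set Z) (g0 : W → Z)
    (k : ℕ) (F : W → Z) : Prop :=
  ∀ s ∈ K, s.card ≤ k → ContinuousOn F (Cl π D s) ∧ (∀ w ∈ Cl π D s, F w ∈ Φ s) ∧
    (∀ w ∈ Cl π D s, w ∈ E → F w = g0 w)

theorem continuousOn_biUnion_closed {ι : Type*} (I : Finset ι) (A : ι → Set W) (f : W → Z)
    (hA : ∀ i ∈ I, IsClosed (A i)) (hf : ∀ i ∈ I, ContinuousOn f (A i)) :
    ContinuousOn f (⋃ i ∈ I, A i) := by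
  classical
  induction I using Finset.induction_on with
  | empty => simp
  | insert a I ha ih =>
    rw [Finset.set_biUnion_insert]
    apply ContinuousOn.union_of_isClosed
    · exact hf a (Finset.mem_insert_self _ _)
    · exact ih (fun i hi => hA i (Finset.mem_insert_of_mem hi))
        (fun i hi => hf i (Finset.mem_insert_of_mem hi))
    · exact hA a (Finset.mem_insert_self _ _)
    · exact isClosed_biUnion_finset fun i hi => hA i (Finset.mem_insert_of_mem hi)

theorem skel_step (hK : IsCx K) (π : W → V → ℝ) (hπ : Continuous π) (D E : Set W)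
    (hD : IsClosed D) (hE : IsClosed E) (Ψ Φ : Finset V → Set Z)
    (hmono : ∀ s ∈ K, ∀ t : Finset V, t ⊂ s → t.Nonempty → Φ t ⊆ Ψ s)
    (fill : ∀ s ∈ K, ∀ f0 : W → Z, ContinuousOn f0 (Bd π D E s) → (∀ w ∈ Bd π D E s, f0 w ∈ Ψ s) →
      ∃ f : W → Z, ContinuousOn f (Cl π D s) ∧ (∀ w ∈ Bd π D E s, f w = f0 w) ∧
        ∀ w ∈ Cl π D s, f w ∈ Φ s)
    (g0 : W → Z) (hg0 : ∀ s ∈ K, ContinuousOn g0 (Cl π D s ∩ E))
    (hg0Ψ : ∀ s ∈ K, ∀ w ∈ Cl π D s, w ∈ E → g0 w ∈ Ψ s)
    (k : ℕ) (F : W → Z) (hF : GoodF K π D E Φ g0 k F) :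
    ∃ F' : W → Z, GoodF K π D E Φ g0 (k + 1) F' ∧ ∀ s ∈ K, s.card ≤ k → ∀ w ∈ Cl π D s,
      F' w = F w := by
  classical
  have hCl : ∀ s, IsClosed (Cl π D s) := fun s => ((isClosed_simp s).preimage hπ).inter hD
  set f0 : W → Z := fun w => if w ∈ E then g0 w else F w with hf0
  have key : ∀ s : Finset V, ∃ e : W → Z, s ∈ K → s.card = k + 1 →
      (ContinuousOn e (Cl π D s) ∧ (∀ w ∈ Bd π D E s, e w = f0 w) ∧ ∀ w ∈ Cl π D s, e w ∈ Φ s) := by
    intro s
    by_cases hs : s ∈ K ∧ s.card = k + 1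
    · obtain ⟨hsK, hsc⟩ := hs
      have hface : ∀ v ∈ s, ∀ w ∈ Cl π D (s.erase v), s.erase v ∈ K ∧ (s.erase v).card ≤ k := by
        intro v hv w hw
        refine ⟨hK.2 s hsK _ (Finset.erase_subset _ _) (nonempty_of_mem_simp hw.1), ?_⟩
        rw [Finset.card_erase_of_mem hv, hsc]
        omega
      have hface2 : ∀ v ∈ s, ∀ w ∈ Cl π D (s.erase v), f0 w = F w := by
        intro v hv w hw
        simp only [hf0]
        by_cases hwE : w ∈ E
        · rw [if_pos hwE]
          obtain ⟨h1, h2⟩ := hface v hv w hw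
          exact ((hF _ h1 h2).2.2 w hw hwE).symm
        · rw [if_neg hwE]
      have hBd : ∀ w ∈ Bd π D E s, (∃ v ∈ s, w ∈ Cl π D (s.erase v)) ∨ w ∈ Cl π D s ∩ E := by
        intro w hw
        obtain ⟨h1, h2, h3⟩ := hw
        rcases h3 with ⟨v, hv, h3⟩ | h3
        · left
          refine ⟨v, hv, ⟨h1.1, ?_, ?_⟩, h2⟩
          · intro u hu
            by_cases huv : u = v
            · rw [huv]; exact h3
            · exact h1.2.1 u fun h4 => hu (Finset.mem_erase.2 ⟨huv, h4⟩)
          · rw [← h1.2.2, ← Finset.add_sum_erase s _ hv, h3, zero_add]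
        · exact Or.inr ⟨⟨h1, h2⟩, h3⟩
      obtain ⟨e, he⟩ := fill s hsK f0 (by
        have hc : ContinuousOn f0 ((⋃ v ∈ s, Cl π D (s.erase v)) ∪ (Cl π D s ∩ E)) := by
          apply ContinuousOn.union_of_isClosed
          · apply continuousOn_biUnion_closed
            · exact fun v _ => hCl _
            · intro v hv
              by_cases hne : (Cl π D (s.erase v)).Nonempty
              · obtain ⟨w, hw⟩ := hne
                obtain ⟨h1, h2⟩ := hface v hv w hw
                exact (hF _ h1 h2).1.congr (fun w hw => hface2 v hv w hw)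
              · rw [Set.not_nonempty_iff_eq_empty] at hne
                rw [hne]
                exact continuousOn_empty _
          · refine (hg0 s hsK).congr fun w hw => ?_
            simp only [hf0]
            rw [if_pos hw.2]
          · exact isClosed_biUnion_finset fun v _ => hCl _
          · exact (hCl s).inter hE
        refine hc.mono fun w hw => ?_
        rcases hBd w hw with ⟨v, hv, h1⟩ | h1
        · left
          simp only [Set.mem_iUnion]
          exact ⟨v, hv, h1⟩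
        · exact Or.inr h1) (by
        intro w hw
        rcases hBd w hw with ⟨v, hv, h1⟩ | h1
        · rw [hface2 v hv w h1]
          obtain ⟨h2, h3⟩ := hface v hv w h1
          exact hmono s hsK _ (Finset.erase_ssubset hv) (nonempty_of_mem_simp h1.1)
            ((hF _ h2 h3).2.1 w h1)
        · simp only [hf0]
          rw [if_pos h1.2]
          exact hg0Ψ s hsK w h1.1 h1.2)
      exact ⟨e, fun _ _ => he⟩
    · exact ⟨F, fun h1 h2 => absurd ⟨h1, h2⟩ hs⟩
  choose e he using key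
  set F' : W → Z := fun w => if supp (π w) ∈ K ∧ (supp (π w)).card = k + 1 then e (supp (π w)) w
    else F w with hF'
  -- small faces
  have clB : ∀ s ∈ K, s.card ≤ k → ∀ w ∈ Cl π D s, F' w = F w := by
    intro s hs hsc w hw
    simp only [hF']
    rw [if_neg]
    rintro ⟨_, h1⟩
    have := Finset.card_le_card (supp_subset hw.1)
    omega
  have clA : ∀ s ∈ K, s.card = k + 1 → ∀ w ∈ Cl π D s, F' w = e s w := by
    intro s hs hsc w hw
    by_cases h : supp (π w) = s
    · simp only [hF']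
      rw [if_pos ⟨by rw [h]; exact hs, by rw [h]; exact hsc⟩, h]
    · have hss : supp (π w) ⊂ s := lt_of_le_of_ne (supp_subset hw.1) h
      have hcard := Finset.card_lt_card hss
      have hmem : w ∈ Cl π D (supp (π w)) := ⟨mem_simp_supp hw.1, hw.2⟩
      have hKs : supp (π w) ∈ K := hK.2 s hs _ (supp_subset hw.1) (nonempty_of_mem_simp hmem.1)
      have hb : w ∈ Bd π D E s := by
        refine ⟨hw.1, hw.2, Or.inl ?_⟩
        obtain ⟨v, hv, hv2⟩ := Finset.exists_of_ssubset hss
        refine ⟨v, hv, ?_⟩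
        rw [mem_supp hw.1] at hv2
        push Not at hv2
        exact hv2
      rw [clB _ hKs (by omega) w hmem, (he s hs hsc).2.1 w hb]
      simp only [hf0]
      by_cases hwE : w ∈ E
      · rw [if_pos hwE]
        exact (hF _ hKs (by omega)).2.2 w hmem hwE
      · rw [if_neg hwE]
  refine ⟨F', ?_, clB⟩
  intro s hs hsc
  rcases Nat.lt_or_ge s.card (k + 1) with h | h
  · have hsc' : s.card ≤ k := by omega
    obtain ⟨h1, h2, h3⟩ := hF s hs hsc'
    refine ⟨h1.congr fun w hw => clB s hs hsc' w hw, fun w hw => ?_, fun w hw hwE => ?_⟩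
    · rw [clB s hs hsc' w hw]; exact h2 w hw
    · rw [clB s hs hsc' w hw]; exact h3 w hw hwE
  · have hsc' : s.card = k + 1 := by omega
    obtain ⟨h1, h2, h3⟩ := he s hs hsc'
    refine ⟨h1.congr fun w hw => clA s hs hsc' w hw, fun w hw => ?_, fun w hw hwE => ?_⟩
    · rw [clA s hs hsc' w hw]; exact h3 w hw
    · rw [clA s hs hsc' w hw, h2 w ⟨hw.1, hw.2, Or.inr hwE⟩]
      simp only [hf0]
      rw [if_pos hwE]

theorem skel (hK : IsCx K) (π : W → V → ℝ) (hπ : Continuous π) (D E : Set W)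
    (hD : IsClosed D) (hE : IsClosed E) (Ψ Φ : Finset V → Set Z)
    (hmono : ∀ s ∈ K, ∀ t : Finset V, t ⊂ s → t.Nonempty → Φ t ⊆ Ψ s)
    (fill : ∀ s ∈ K, ∀ f0 : W → Z, ContinuousOn f0 (Bd π D E s) → (∀ w ∈ Bd π D E s, f0 w ∈ Ψ s) →
      ∃ f : W → Z, ContinuousOn f (Cl π D s) ∧ (∀ w ∈ Bd π D E s, f w = f0 w) ∧
        ∀ w ∈ Cl π D s, f w ∈ Φ s)
    (g0 : W → Z) (hg0 : ∀ s ∈ K, ContinuousOn g0 (Cl π D s ∩ E))
    (hg0Ψ : ∀ s ∈ K, ∀ w ∈ Cl π D s, w ∈ E → g0 w ∈ Ψ s) :
    ∃ F : W → Z, ∀ s ∈ K, ContinuousOn F (Cl π D s) ∧ (∀ w ∈ Cl π D s, F w ∈ Φ s) ∧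
      (∀ w ∈ Cl π D s, w ∈ E → F w = g0 w) := by
  classical
  have h0 : GoodF K π D E Φ g0 0 g0 := by
    intro s hs hsc
    have : s = ∅ := Finset.card_eq_zero.1 (by omega)
    rw [this] at hs
    exact absurd hs hK.1
  have hstep := skel_step hK π hπ D E hD hE Ψ Φ hmono fill g0 hg0 hg0Ψ
  let G : (k : ℕ) → {F : W → Z // GoodF K π D E Φ g0 k F} := fun k =>
    Nat.rec (motive := fun k => {F : W → Z // GoodF K π D E Φ g0 k F}) ⟨g0, h0⟩
      (fun k F => ⟨(hstep k F.1 F.2).choose, (hstep k F.1 F.2).choose_spec.1⟩) k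
  have hG : ∀ k, ∀ s ∈ K, s.card ≤ k → ∀ w ∈ Cl π D s, (G (k + 1)).1 w = (G k).1 w :=
    fun k => (hstep k (G k).1 (G k).2).choose_spec.2
  have hG2 : ∀ j k, j ≤ k → ∀ s ∈ K, s.card ≤ j → ∀ w ∈ Cl π D s, (G k).1 w = (G j).1 w := by
    intro j k hjk
    induction k, hjk using Nat.le_induction with
    | base => intro s _ _ w _; rfl
    | succ k hjk ih =>
      intro s hs hsc w hw
      rw [hG k s hs (hsc.trans hjk) w hw, ih s hs hsc w hw]
  refine ⟨fun w => (G (supp (π w)).card).1 w, ?_⟩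
  intro s hs
  have heq : ∀ w ∈ Cl π D s, (G (supp (π w)).card).1 w = (G s.card).1 w := by
    intro w hw
    have hmem : w ∈ Cl π D (supp (π w)) := ⟨mem_simp_supp hw.1, hw.2⟩
    have hKs : supp (π w) ∈ K := hK.2 s hs _ (supp_subset hw.1) (nonempty_of_mem_simp hmem.1)
    exact (hG2 _ _ (Finset.card_le_card (supp_subset hw.1)) _ hKs le_rfl w hmem).symm
  obtain ⟨h1, h2, h3⟩ := (G s.card).2 s hs le_rfl
  refine ⟨h1.congr heq, fun w hw => ?_, fun w hw hwE => ?_⟩
  · simp only; rw [heq w hw]; exact h2 w hw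
  · simp only; rw [heq w hw]; exact h3 w hw hwE

end aux

/-! ### TARGETS -/

/-- Carrier lemma, existence. -/
theorem carrier_exists {Z : Type w} [TopologicalSpace Z] (hK : IsCx K) (Ψ Φ : Finset V → Set Z)
    (hmono : ∀ s ∈ K, ∀ t : Finset V, t ⊂ s → t.Nonempty → Φ t ⊆ Ψ s)
    (hnull : ∀ s ∈ K, NullIn (Ψ s) (Φ s)) :
    ∃ f : Rlz K → Z, Continuous f ∧ ∀ s (hs : s ∈ K) (x : Simp s), f (Rlz.inc s hs x) ∈ Φ s := by
  classical
  by_cases hne : K.Nonempty
  · obtain ⟨s1, hs1⟩ := hne
    obtain ⟨z0, _, _⟩ := hnull s1 hs1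
    obtain ⟨F, hF⟩ := skel (W := V → ℝ) hK id continuous_id Set.univ ∅ isClosed_univ isClosed_empty
      Ψ Φ hmono (by
        intro s hs f0 hf0 hf0Ψ
        have hsne : s.Nonempty := by
          rw [Finset.nonempty_iff_ne_empty]
          rintro rfl
          exact hK.1 hs
        have hb : Bd (id : (V → ℝ) → V → ℝ) Set.univ ∅ s = {x | x ∈ Simp s ∧ ∃ v ∈ s, x v = 0} := by
          ext x
          simp [Bd]
        rw [hb] at hf0
        obtain ⟨f, h1, h2, h3⟩ := fill_simplex s hsne (Ψ s) (Φ s) (hnull s hs) f0 hf0 (by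
          intro x hx hv
          exact hf0Ψ x (by rw [hb]; exact ⟨hx, hv⟩))
        refine ⟨f, ?_, ?_, ?_⟩
        · exact h1.mono fun x hx => hx.1
        · intro x hx
          rw [hb] at hx
          exact h2 x hx.1 hx.2
        · intro x hx
          exact h3 x hx.1)
      (fun _ => z0) (fun s _ => continuousOn_const) (fun s _ w _ h => absurd h (Set.notMem_empty _))
    refine ⟨fun x => F x.1, ?_, ?_⟩
    · rw [Rlz.continuous_iff]
      intro s hs
      have h1 := (hF s hs).1
      exact h1.comp_continuous continuous_subtype_val fun x => ⟨x.2, Set.mem_univ _⟩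
    · intro s hs x
      exact (hF s hs).2.1 x.1 ⟨x.2, Set.mem_univ _⟩
  · rw [Set.not_nonempty_iff_eq_empty] at hne
    have hemp : IsEmpty (Rlz K) := ⟨fun x => by
      obtain ⟨_, s, hs, _⟩ := x
      rw [hne] at hs
      exact hs⟩
    refine ⟨fun x => (hemp.false x).elim, ?_, ?_⟩
    · rw [Rlz.continuous_iff]
      intro s hs
      rw [hne] at hs
      exact absurd hs (Set.notMem_empty _)
    · intro s hs
      rw [hne] at hs
      exact absurd hs (Set.notMem_empty _)

/-- Carrier lemma, uniqueness up to homotopy. -/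
theorem carrier_homotopic {Z : Type w} [TopologicalSpace Z] (hK : IsCx K)
    (Ψ Φ : Finset V → Set Z)
    (hmono : ∀ s ∈ K, ∀ t : Finset V, t ⊂ s → t.Nonempty → Φ t ⊆ Ψ s)
    (hnull : ∀ s ∈ K, NullIn (Ψ s) (Φ s))
    (f g : Rlz K → Z) (hf : Continuous f) (hg : Continuous g)
    (hfΨ : ∀ s (hs : s ∈ K) (x : Simp s), f (Rlz.inc s hs x) ∈ Ψ s)
    (hgΨ : ∀ s (hs : s ∈ K) (x : Simp s), g (Rlz.inc s hs x) ∈ Ψ s) :
    ∃ H : Rlz K × unitInterval → Z, Continuous H ∧ (∀ x, H (x, 0) = f x) ∧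
      ∀ x, H (x, 1) = g x := by
  classical
  by_cases hne : K.Nonempty
  · obtain ⟨s1, hs1⟩ := hne
    obtain ⟨z0, _, _⟩ := hnull s1 hs1
    set D : Set ((V → ℝ) × ℝ) := {p | p.2 ∈ Icc (0:ℝ) 1} with hD
    set E : Set ((V → ℝ) × ℝ) := {p | p.2 = 0 ∨ p.2 = 1} with hE
    have hDc : IsClosed D := isClosed_Icc.preimage continuous_snd
    have hEc : IsClosed E := (isClosed_eq continuous_snd continuous_const).union
      (isClosed_eq continuous_snd continuous_const)
    set g0 : (V → ℝ) × ℝ → Z := fun p => if h : ∃ s ∈ K, p.1 ∈ Simp s then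
      (if p.2 = 0 then f ⟨p.1, h⟩ else g ⟨p.1, h⟩) else z0 with hg0def
    have hg00 : ∀ s (hs : s ∈ K) (p : (V → ℝ) × ℝ) (hp : p.1 ∈ Simp s), p.2 = 0 →
        g0 p = f (Rlz.inc s hs ⟨p.1, hp⟩) := by
      intro s hs p hp h0
      have h : ∃ s ∈ K, p.1 ∈ Simp s := ⟨s, hs, hp⟩
      simp only [hg0def]
      rw [dif_pos h, if_pos h0]
      rfl
    have hg01 : ∀ s (hs : s ∈ K) (p : (V → ℝ) × ℝ) (hp : p.1 ∈ Simp s), p.2 = 1 →
        g0 p = g (Rlz.inc s hs ⟨p.1, hp⟩) := by
      intro s hs p hp h0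
      have h : ∃ s ∈ K, p.1 ∈ Simp s := ⟨s, hs, hp⟩
      simp only [hg0def]
      rw [dif_pos h, if_neg (by rw [h0]; norm_num)]
      rfl
    obtain ⟨F, hF⟩ := skel (W := (V → ℝ) × ℝ) hK Prod.fst continuous_fst D E hDc hEc
      Ψ Φ hmono (by
        intro s hs f0 hf0 hf0Ψ
        have hsne : s.Nonempty := by
          rw [Finset.nonempty_iff_ne_empty]
          rintro rfl
          exact hK.1 hs
        obtain ⟨f, h1, h2, h3⟩ := fill_prism s hsne (Ψ s) (Φ s) (hnull s hs) f0 hf0 (by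
          intro p hp1 hp2 hp3
          exact hf0Ψ p ⟨hp1, hp2, hp3⟩)
        refine ⟨f, ?_, ?_, ?_⟩
        · exact h1
        · intro p hp
          exact h2 p hp.1 hp.2.1 hp.2.2
        · intro p hp
          exact h3 p hp)
      g0 (by
        intro s hs
        have e : Cl (Prod.fst : (V → ℝ) × ℝ → V → ℝ) D s ∩ E =
            {p : (V → ℝ) × ℝ | p.1 ∈ Simp s ∧ p.2 = 0} ∪ {p : (V → ℝ) × ℝ | p.1 ∈ Simp s ∧ p.2 = 1} := by
          ext p
          constructor
          · rintro ⟨⟨h1, h2⟩, h3 | h3⟩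
            · exact Or.inl ⟨h1, h3⟩
            · exact Or.inr ⟨h1, h3⟩
          · rintro (⟨h1, h3⟩ | ⟨h1, h3⟩)
            · exact ⟨⟨h1, by rw [hD, Set.mem_ofPred_eq, h3]; constructor <;> norm_num⟩, Or.inl h3⟩
            · exact ⟨⟨h1, by rw [hD, Set.mem_ofPred_eq, h3]; constructor <;> norm_num⟩, Or.inr h3⟩
        rw [e]
        apply ContinuousOn.union_of_isClosed
        · rw [continuousOn_iff_continuous_restrict]
          have h1 : Continuous fun p : {p : (V → ℝ) × ℝ | p.1 ∈ Simp s ∧ p.2 = 0} =>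
              f (Rlz.inc s hs ⟨p.1.1, p.2.1⟩) :=
            (hf.comp (Rlz.continuous_inc s hs)).comp
              (Continuous.subtype_mk (continuous_fst.comp continuous_subtype_val) _)
          refine h1.congr fun p => ?_
          exact (hg00 s hs p.1 p.2.1 p.2.2).symm
        · rw [continuousOn_iff_continuous_restrict]
          have h1 : Continuous fun p : {p : (V → ℝ) × ℝ | p.1 ∈ Simp s ∧ p.2 = 1} =>
              g (Rlz.inc s hs ⟨p.1.1, p.2.1⟩) :=
            (hg.comp (Rlz.continuous_inc s hs)).comp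
              (Continuous.subtype_mk (continuous_fst.comp continuous_subtype_val) _)
          refine h1.congr fun p => ?_
          exact (hg01 s hs p.1 p.2.1 p.2.2).symm
        · exact ((isClosed_simp s).preimage continuous_fst).inter
            (isClosed_eq continuous_snd continuous_const)
        · exact ((isClosed_simp s).preimage continuous_fst).inter
            (isClosed_eq continuous_snd continuous_const))
      (by
        intro s hs p hp hpE
        rcases hpE with h | h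
        · rw [hg00 s hs p hp.1 h]; exact hfΨ s hs _
        · rw [hg01 s hs p hp.1 h]; exact hgΨ s hs _)
    refine ⟨fun p => F (p.1.1, (p.2 : ℝ)), ?_, ?_, ?_⟩
    · apply Rlz.continuous_prod
      intro s hs
      have h1 := (hF s hs).1
      refine h1.comp_continuous (f := fun p : Simp s × unitInterval => ((p.1.1 : V → ℝ), (p.2 : ℝ)))
        ?_ ?_
      · exact (continuous_subtype_val.comp continuous_fst).prodMk
          (continuous_subtype_val.comp continuous_snd)
      · intro p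
        exact ⟨p.1.2, p.2.2⟩
    · rintro ⟨x, s, hs, hx⟩
      have h1 := (hF s hs).2.2 (x, 0) ⟨hx, by constructor <;> norm_num⟩ (Or.inl rfl)
      rw [hg00 s hs (x, 0) hx rfl] at h1
      exact h1
    · rintro ⟨x, s, hs, hx⟩
      have h1 := (hF s hs).2.2 (x, 1) ⟨hx, by constructor <;> norm_num⟩ (Or.inr rfl)
      rw [hg01 s hs (x, 1) hx rfl] at h1
      exact h1
  · rw [Set.not_nonempty_iff_eq_empty] at hne
    have hemp : IsEmpty (Rlz K) := ⟨fun x => by
      obtain ⟨_, s, hs, _⟩ := x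
      rw [hne] at hs
      exact hs⟩
    refine ⟨fun p => f p.1, hf.comp continuous_fst, fun x => rfl, fun x => (hemp.false x).elim⟩

end Pool.Agent.Helper281.Sc.Car
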