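import Mathlib
import Pool.Agent.Helper281.Sc.Car

set_option autoImplicit false

namespace Pool.Agent.Helper281.Sc

open Set Topology

universe u v w

variable {V : Type u} {K : Set (Finset V)}

/-- Carrier lemma, existence. -/
theorem carrier_exists {Z : Type w} [TopologicalSpace Z] (hK : IsCx K) (Ψ Φ : Finset V → Set Z)
    (hmono : ∀ s ∈ K, ∀ t : Finset V, t ⊂ s → t.Nonempty → Φ t ⊆ Ψ s)
    (hnull : ∀ s ∈ K, NullIn (Ψ s) (Φ s)) :
    ∃ f : Rlz K → Z, Continuous f ∧ ∀ s (hs : s ∈ K) (x : Simp s), f (Rlz.inc s hs x) ∈ Φ s := by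
  exact Car.carrier_exists hK Ψ Φ hmono hnull

/-- Carrier lemma, uniqueness up to homotopy. -/
theorem carrier_homotopic {Z : Type w} [TopologicalSpace Z] (hK : IsCx K)
    (Ψ Φ : Finset V → Set Z)
    (hmono : ∀ s ∈ K, ∀ t : Finset V, t ⊂ s → t.Nonempty → Φ t ⊆ Ψ s)
    (hnull : ∀ s ∈ K, NullIn (Ψ s) (Φ s))
    (f g : Rlz K → Z) (hf : Continuous f) (hg : Continuous g)
    (hfΨ : ∀ s (hs : s ∈ K) (x : Simp s), f (Rlz.inc s hs x) ∈ Ψ s)
    (hgΨ : ∀ s (hs : s ∈ K) (x : Simp s), g (Rlz.inc s hs x) ∈ Ψ s) :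
    ∃ H : Rlz K × unitInterval → Z, Continuous H ∧ (∀ x, H (x, 0) = f x) ∧
      ∀ x, H (x, 1) = g x := by
  exact Car.carrier_homotopic hK Ψ Φ hmono hnull f g hf hg hfΨ hgΨ

end Pool.Agent.Helper281.Sc
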