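import Mathlib
import Pool.Agent.Helper281.Sc.Basic

set_option autoImplicit false

namespace Pool.Agent.Helper281.Sc

open Set Topology

universe u v w

variable {V : Type u} {K P Q : Set (Finset V)}

theorem isClosed_Simp (s : Finset V) : IsClosed (Simp s) := by
  have : Simp s = (⋂ v, {x : V → ℝ | 0 ≤ x v}) ∩ ((⋂ v, ⋂ (_ : v ∉ s), {x : V → ℝ | x v = 0}) ∩
      {x | ∑ v ∈ s, x v = 1}) := by
    ext x
    simp only [Simp, mem_inter_iff, mem_iInter]
    rfl
  rw [this]
  refine IsClosed.inter ?_ (IsClosed.inter ?_ ?_)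
  · exact isClosed_iInter fun v => isClosed_le continuous_const (continuous_apply v)
  · exact isClosed_iInter fun v => isClosed_iInter fun _ =>
      isClosed_eq (continuous_apply v) continuous_const
  · exact isClosed_eq (continuous_finsetSum _ fun v _ => continuous_apply v) continuous_const

theorem Simp_nonempty {s : Finset V} {x : V → ℝ} (hx : x ∈ Simp s) : s.Nonempty := by
  rw [Finset.nonempty_iff_ne_empty]
  rintro rfl
  have := hx.2.2
  simp at this

theorem Simp_mono {s t : Finset V} (h : s ⊆ t) : Simp s ⊆ Simp t := by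
  intro x hx
  refine ⟨hx.1, fun v hv => hx.2.1 v (fun hs => hv (h hs)), ?_⟩
  rw [← hx.2.2]
  exact (Finset.sum_subset h fun v _ hv => hx.2.1 v hv).symm

theorem Simp_inter [DecidableEq V] {s t : Finset V} {x : V → ℝ} (hs : x ∈ Simp s) (ht : x ∈ Simp t) :
    x ∈ Simp (s ∩ t) := by
  refine ⟨hs.1, fun v hv => ?_, ?_⟩
  · by_cases h : v ∈ s
    · exact ht.2.1 v (fun h2 => hv (Finset.mem_inter.2 ⟨h, h2⟩))
    · exact hs.2.1 v h
  · rw [← hs.2.2]
    refine Finset.sum_subset Finset.inter_subset_left fun v h hv => ?_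
    exact ht.2.1 v (fun h2 => hv (Finset.mem_inter.2 ⟨h, h2⟩))

/-- The subspace of the realization of `K` carried by a subfamily. -/
def Sub (K P : Set (Finset V)) : Set (Rlz K) := {x | ∃ s ∈ P, x.1 ∈ Simp s}

/-- The inclusion of the realization of a subfamily. -/
def Rlz.sub (h : P ⊆ K) (x : Rlz P) : Rlz K :=
  ⟨x.1, x.2.choose, h x.2.choose_spec.1, x.2.choose_spec.2⟩

theorem Rlz.sub_val (h : P ⊆ K) (x : Rlz P) : (Rlz.sub h x).1 = x.1 := rfl

theorem Rlz.ext' {x y : Rlz K} (h : x.1 = y.1) : x = y := Subtype.ext h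

/-- A point of the realization of `K` seen in a subfamily. -/
def Rlz.low (x : Rlz K) (hx : x ∈ Sub K P) : Rlz P := ⟨x.1, hx⟩

theorem Rlz.low_val (x : Rlz K) (hx : x ∈ Sub K P) : (Rlz.low x hx).1 = x.1 := rfl

theorem Rlz.sub_injective (h : P ⊆ K) : Function.Injective (Rlz.sub h) := by
  intro x y hxy
  have : (Rlz.sub h x).1 = (Rlz.sub h y).1 := by rw [hxy]
  exact Rlz.ext' this

theorem Rlz.continuous_sub (h : P ⊆ K) : Continuous (Rlz.sub h) := by
  rw [Rlz.continuous_iff]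
  intro s hs
  exact Rlz.continuous_inc s (h hs)

theorem Rlz.range_sub (h : P ⊆ K) : range (Rlz.sub h) = Sub K P := by
  ext x
  constructor
  · rintro ⟨y, rfl⟩
    exact y.2
  · rintro ⟨s, hs, hx⟩
    exact ⟨⟨x.1, s, hs, hx⟩, rfl⟩

theorem Rlz.isClosedEmbedding_sub (hP : IsCx P) (h : P ⊆ K) : IsClosedEmbedding (Rlz.sub h) := by
  classical
  refine IsClosedEmbedding.of_continuous_injective_isClosedMap (Rlz.continuous_sub h)
    (Rlz.sub_injective h) ?_
  intro C hC
  rw [Rlz.isClosed_iff] at hC ⊢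
  intro t ht
  have key : {x : Simp t | Rlz.inc t ht x ∈ Rlz.sub h '' C} =
      ⋃ s ∈ {s : Finset V | s ⊆ t ∧ s ∈ P}, {x : Simp t | ∃ (hs : s ∈ P) (hx : x.1 ∈ Simp s),
        Rlz.inc s hs ⟨x.1, hx⟩ ∈ C} := by
    ext x
    simp only [mem_iUnion]
    constructor
    · rintro ⟨y, hy, hyx⟩
      have e : y.1 = x.1 := congrArg Subtype.val hyx
      obtain ⟨s', hs', hy'⟩ := y.2
      have h1 : x.1 ∈ Simp (s' ∩ t) := Simp_inter (e ▸ hy') x.2
      have h2 : s' ∩ t ∈ P := hP.2 s' hs' _ Finset.inter_subset_left (Simp_nonempty h1)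
      refine ⟨s' ∩ t, ?_, h2, h1, ?_⟩
      · exact ⟨Finset.inter_subset_right, h2⟩
      · have : Rlz.inc (s' ∩ t) h2 ⟨x.1, h1⟩ = y := Subtype.ext e.symm
        rw [this]
        exact hy
    · rintro ⟨s, _, hs, hx, hC'⟩
      exact ⟨_, hC', Subtype.ext rfl⟩
  rw [key]
  refine Set.Finite.isClosed_biUnion ?_ ?_
  · exact (Finset.finite_toSet t.powerset).subset fun s hs =>
      Finset.mem_coe.2 (Finset.mem_powerset.2 hs.1)
  · rintro s ⟨_, hs⟩
    have h1 : IsClosed ((Subtype.val : Simp s → V → ℝ) '' {x | Rlz.inc s hs x ∈ C}) :=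
      (isClosed_Simp s).isClosedEmbedding_subtypeVal.isClosedMap _ (hC s hs)
    have h2 : {x : Simp t | ∃ (hs : s ∈ P) (hx : x.1 ∈ Simp s), Rlz.inc s hs ⟨x.1, hx⟩ ∈ C} =
        (Subtype.val : Simp t → V → ℝ) ⁻¹'
          ((Subtype.val : Simp s → V → ℝ) '' {x | Rlz.inc s hs x ∈ C}) := by
      ext x
      constructor
      · rintro ⟨_, hx, hC'⟩
        exact ⟨⟨x.1, hx⟩, hC', rfl⟩
      · rintro ⟨y, hy, hyx⟩
        refine ⟨hs, hyx ▸ y.2, ?_⟩
        have : (⟨x.1, hyx ▸ y.2⟩ : Simp s) = y := Subtype.ext hyx.symm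
        rw [this]
        exact hy
    rw [h2]
    exact h1.preimage continuous_subtype_val

/-- Homotopies between realizations of subcomplexes give `NullIn`. -/
theorem nullIn_of_homotopy (hP : IsCx P) (hPK : P ⊆ K) (hQK : Q ⊆ K) (z0 : Rlz Q)
    (H : Rlz P × unitInterval → Rlz Q) (hH : Continuous H) (h0 : ∀ x, (H (x, 0)).1 = x.1)
    (h1 : ∀ x, H (x, 1) = z0) : NullIn (Sub K P) (Sub K Q) := by
  classical
  let F : Rlz K → ℝ → Rlz K := fun x t => if hx : x ∈ Sub K P then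
    Rlz.sub hQK (H (Rlz.low x hx, projIcc 0 1 zero_le_one t)) else x
  have hF : ∀ x (hx : x ∈ Sub K P) t, F x t =
      Rlz.sub hQK (H (Rlz.low x hx, projIcc 0 1 zero_le_one t)) := by
    intro x hx t
    exact dif_pos hx
  refine ⟨Rlz.sub hQK z0, z0.2, F, ?_, ?_, ?_, ?_⟩
  · have hemb := (Rlz.isClosedEmbedding_sub hP hPK).toIsEmbedding
    rw [continuousOn_iff_continuous_domRestrict]
    -- lift the domain to `Rlz P × ℝ`
    let lift : (Sub K P ×ˢ Icc (0:ℝ) 1 : Set (Rlz K × ℝ)) → Rlz P :=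
      fun p => Rlz.low p.1.1 p.2.1
    have hl : Continuous lift := by
      rw [hemb.continuous_iff]
      have : (Rlz.sub hPK ∘ lift) = fun p : (Sub K P ×ˢ Icc (0:ℝ) 1 : Set (Rlz K × ℝ)) =>
          p.1.1 := by
        funext p
        exact Rlz.ext' rfl
      rw [this]
      exact continuous_fst.comp continuous_subtype_val
    have h2 : Continuous (fun p : (Sub K P ×ˢ Icc (0:ℝ) 1 : Set (Rlz K × ℝ)) =>
        Rlz.sub hQK (H (lift p, projIcc 0 1 zero_le_one p.1.2))) := by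
      refine (Rlz.continuous_sub hQK).comp (hH.comp ?_)
      exact hl.prodMk (continuous_projIcc.comp (continuous_snd.comp continuous_subtype_val))
    refine h2.congr ?_
    rintro ⟨⟨x, t⟩, hx, ht⟩
    exact (hF x hx t).symm
  · intro z hz
    rw [hF z hz]
    apply Rlz.ext'
    rw [Rlz.sub_val]
    have : (projIcc (0:ℝ) 1 zero_le_one 0) = (0 : unitInterval) := by
      simp
    rw [this, h0]
    rfl
  · intro z hz
    rw [hF z hz]
    have : (projIcc (0:ℝ) 1 zero_le_one 1) = (1 : unitInterval) := by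
      simp
    rw [this, h1]
  · intro z hz t _
    rw [hF z hz]
    exact (H _).2

end Pool.Agent.Helper281.Sc
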