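import Mathlib
import Pool.Agent.Helper281.Sc.Sub
import Pool.Agent.Helper281.Sc.Carrier

set_option autoImplicit false

namespace Pool.Agent.Helper281.Sc

open Set Topology

universe u v w

variable {V : Type u} {W : Type v} {K P Q : Set (Finset V)} {N : Set (Finset W)}

/-- The realization of `K` is contractible (explicit form). -/
def Ctr (K : Set (Finset V)) : Prop :=
  ∃ (z0 : Rlz K) (H : Rlz K × unitInterval → Rlz K), Continuous H ∧ (∀ x, H (x, 0) = x) ∧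
    ∀ x, H (x, 1) = z0

theorem ctr_iff : Ctr K ↔ ContractibleSpace (Rlz K) := by
  rw [contractible_iff_id_nullhomotopic]
  constructor
  · rintro ⟨z0, H, hH, h0, h1⟩
    refine ⟨z0, ⟨⟨⟨fun p => H (p.2, p.1), by fun_prop⟩, ?_, ?_⟩⟩⟩
    · intro x
      exact h0 x
    · intro x
      exact h1 x
  · rintro ⟨z0, ⟨H⟩⟩
    refine ⟨z0, fun p => H (p.2, p.1), by fun_prop, ?_, ?_⟩
    · intro x
      exact H.map_zero_left x
    · intro x
      exact H.map_one_left x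

/-- The closed simplex as a complex. -/
def Cl (s : Finset V) : Set (Finset V) := {t | t ⊆ s ∧ t.Nonempty}

theorem isCx_Cl (s : Finset V) : IsCx (Cl s) := by
  refine ⟨fun h => Finset.not_nonempty_empty h.2, fun t ht r hr hn => ⟨hr.trans ht.1, hn⟩⟩

theorem Cl_sub (hK : IsCx K) {s : Finset V} (hs : s ∈ K) : Cl s ⊆ K :=
  fun t ht => hK.2 s hs t ht.1 ht.2

/-- Contractible carriers from `K` to `N`. -/
structure IsCarrier (K : Set (Finset V)) (N : Set (Finset W))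
    (Φ : Finset V → Set (Finset W)) : Prop where
  cx : ∀ s ∈ K, IsCx (Φ s)
  sub : ∀ s ∈ K, Φ s ⊆ N
  mono : ∀ s ∈ K, ∀ t : Finset V, t ⊆ s → t.Nonempty → Φ t ⊆ Φ s
  ctr : ∀ s ∈ K, Ctr (Φ s)

theorem Sub_mono {P Q : Set (Finset V)} (h : P ⊆ Q) : Sub K P ⊆ Sub K Q := by
  rintro x ⟨s, hs, hx⟩
  exact ⟨s, h hs, hx⟩

theorem nullIn_of_ctr (hP : IsCx P) (hPK : P ⊆ K) (h : Ctr P) : NullIn (Sub K P) (Sub K P) := by
  obtain ⟨z0, H, hH, h0, h1⟩ := h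
  exact nullIn_of_homotopy hP hPK hPK z0 H hH (fun x => by rw [h0]) h1

theorem IsCarrier.exists_map (hK : IsCx K) {Φ : Finset V → Set (Finset W)}
    (hΦ : IsCarrier K N Φ) : ∃ f : Rlz K → Rlz N, Continuous f ∧
      ∀ s (hs : s ∈ K) (x : Simp s), f (Rlz.inc s hs x) ∈ Sub N (Φ s) := by
  refine carrier_exists hK (fun s => Sub N (Φ s)) (fun s => Sub N (Φ s)) ?_ ?_
  · intro s hs t ht hn
    exact Sub_mono (hΦ.mono s hs t ht.1 hn)
  · intro s hs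
    exact nullIn_of_ctr (hΦ.cx s hs) (hΦ.sub s hs) (hΦ.ctr s hs)

theorem IsCarrier.homotopic (hK : IsCx K) {Φ : Finset V → Set (Finset W)}
    (hΦ : IsCarrier K N Φ) (f g : C(Rlz K, Rlz N))
    (hf : ∀ s (hs : s ∈ K) (x : Simp s), f (Rlz.inc s hs x) ∈ Sub N (Φ s))
    (hg : ∀ s (hs : s ∈ K) (x : Simp s), g (Rlz.inc s hs x) ∈ Sub N (Φ s)) : f.Homotopic g := by
  obtain ⟨H, hH, h0, h1⟩ := carrier_homotopic hK (fun s => Sub N (Φ s)) (fun s => Sub N (Φ s))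
    (fun s hs t ht hn => Sub_mono (hΦ.mono s hs t ht.1 hn))
    (fun s hs => nullIn_of_ctr (hΦ.cx s hs) (hΦ.sub s hs) (hΦ.ctr s hs)) f g f.continuous
    g.continuous hf hg
  exact ⟨⟨⟨fun p => H (p.2, p.1), by fun_prop⟩, h0, h1⟩⟩

theorem mem_Sub_of_mem {s : Finset V} (hs : s ∈ K) (hP : s ∈ P) (x : Simp s) :
    Rlz.inc s hs x ∈ Sub K P := ⟨s, hP, x.2⟩

/-- Domination lemma. -/
theorem ctr_of_dominated (hK : IsCx K) (hN : IsCx N) (hNC : Ctr N)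
    {Φ : Finset V → Set (Finset W)} {Ψ : Finset W → Set (Finset V)}
    {Θ : Finset V → Set (Finset V)} (hΦ : IsCarrier K N Φ) (hΨ : IsCarrier N K Ψ)
    (hΘ : IsCarrier K K Θ) (h1 : ∀ s ∈ K, s ∈ Θ s) (h2 : ∀ s ∈ K, ∀ t ∈ Φ s, Ψ t ⊆ Θ s) :
    Ctr K := by
  obtain ⟨f, hf, hfΦ⟩ := hΦ.exists_map hK
  obtain ⟨g, hg, hgΨ⟩ := hΨ.exists_map hN
  have e1 : (ContinuousMap.id (Rlz K)).Homotopic ⟨g ∘ f, hg.comp hf⟩ := by
    apply hΘ.homotopic hK
    · intro s hs x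
      exact mem_Sub_of_mem hs (h1 s hs) x
    · intro s hs x
      obtain ⟨t, ht, hx⟩ := hfΦ s hs x
      have h3 : g (f (Rlz.inc s hs x)) ∈ Sub K (Ψ t) :=
        hgΨ t (hΦ.sub s hs ht) ⟨(f (Rlz.inc s hs x)).1, hx⟩
      exact Sub_mono (h2 s hs t ht) h3
  obtain ⟨z0, H, hH, h0, hH1⟩ := hNC
  have e2 : ContinuousMap.Homotopic (⟨g ∘ f, hg.comp hf⟩ : C(Rlz K, Rlz K))
      (ContinuousMap.const _ (g z0)) := by
    refine ⟨⟨⟨fun p => g (H (f p.2, p.1)), by fun_prop⟩, ?_, ?_⟩⟩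
    · intro x
      show g (H (f x, 0)) = g (f x)
      rw [h0]
    · intro x
      show g (H (f x, 1)) = g z0
      rw [hH1]
  have e3 := e1.trans e2
  rw [ctr_iff, contractible_iff_id_nullhomotopic]
  exact ⟨g z0, e3⟩

end Pool.Agent.Helper281.Sc
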