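import Mathlib
import Pool.Agent.Helper281.Sc.Dom

set_option autoImplicit false

namespace Pool.Agent.Helper281.Sc

open Set Topology

universe u v w

variable {V : Type u} {K : Set (Finset V)}

theorem ctr_cone_line_mem [DecidableEq V] {s : Finset V} (v : V) {x : V → ℝ} (hx : x ∈ Simp s)
    (t : unitInterval) :
    (fun w => (1 - (t:ℝ)) * x w + (t:ℝ) * (if w = v then 1 else 0)) ∈ Simp (insert v s) := by
  refine ⟨fun w => ?_, fun w hw => ?_, ?_⟩
  · have h1 := hx.1 w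
    have h2 : 0 ≤ (t:ℝ) := t.2.1
    have h3 : 0 ≤ 1 - (t:ℝ) := sub_nonneg.2 t.2.2
    dsimp only
    split_ifs
    · positivity
    · positivity
  · dsimp only
    rw [Finset.mem_insert, not_or] at hw
    rw [hx.2.1 w hw.2, if_neg hw.1]
    ring
  · have hx' := (Simp_mono (Finset.subset_insert v s) hx).2.2
    rw [Finset.sum_add_distrib, ← Finset.mul_sum, ← Finset.mul_sum, hx', Finset.sum_ite_eq',
      if_pos (Finset.mem_insert_self v s)]
    ring

/-- Cones are contractible. -/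
theorem ctr_cone [DecidableEq V] (hK : IsCx K) (v : V) (hv : {v} ∈ K)
    (h : ∀ s ∈ K, insert v s ∈ K) : Ctr K := by
  have hz : (fun w => if w = v then (1:ℝ) else 0) ∈ Simp ({v} : Finset V) := by
    refine ⟨fun w => ?_, fun w hw => ?_, ?_⟩
    · dsimp only
      split_ifs <;> norm_num
    · rw [Finset.mem_singleton] at hw
      exact if_neg hw
    · simp
  refine ⟨⟨fun w => if w = v then (1:ℝ) else 0, {v}, hv, hz⟩,
    fun p => ⟨fun w => (1 - (p.2:ℝ)) * p.1.1 w + (p.2:ℝ) * (if w = v then 1 else 0),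
      insert v p.1.2.choose, h _ p.1.2.choose_spec.1,
      ctr_cone_line_mem v p.1.2.choose_spec.2 p.2⟩, ?_, ?_, ?_⟩
  · apply Rlz.continuous_prod
    intro s hs
    have key : Continuous (fun p : Simp s × unitInterval =>
        Rlz.inc (K := K) (insert v s) (h s hs)
          ⟨fun w => (1 - (p.2:ℝ)) * p.1.1 w + (p.2:ℝ) * (if w = v then 1 else 0),
            ctr_cone_line_mem v p.1.2 p.2⟩) := by
      refine (Rlz.continuous_inc (insert v s) (h s hs)).comp ?_
      refine Continuous.subtype_mk ?_ _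
      refine continuous_pi fun w => ?_
      have hw : Continuous (fun p : Simp s × unitInterval => p.1.1 w) :=
        (continuous_apply w).comp (continuous_subtype_val.comp continuous_fst)
      have ht : Continuous (fun p : Simp s × unitInterval => (p.2:ℝ)) :=
        continuous_subtype_val.comp continuous_snd
      exact ((continuous_const.sub ht).mul hw).add (ht.mul continuous_const)
    exact key
  · intro x
    apply Rlz.ext'
    funext w
    simp
  · intro x
    apply Rlz.ext'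
    funext w
    simp

theorem ctr_Cl {s : Finset V} (hs : s.Nonempty) : Ctr (Cl s) := by
  classical
  obtain ⟨v, hv⟩ := hs
  refine ctr_cone (isCx_Cl s) v ⟨Finset.singleton_subset_iff.2 hv, Finset.singleton_nonempty v⟩ ?_
  intro t ht
  exact ⟨Finset.insert_subset hv ht.1, Finset.insert_nonempty v t⟩

theorem IsCx.nonempty (hK : IsCx K) {s : Finset V} (hs : s ∈ K) : s.Nonempty := by
  rw [Finset.nonempty_iff_ne_empty]
  rintro rfl
  exact hK.1 hs

/-- The barycentric subdivision: nonempty finite chains of simplices. -/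
def Sd (K : Set (Finset V)) : Set (Finset (Finset V)) :=
  {c | c.Nonempty ∧ (∀ s ∈ c, s ∈ K) ∧ ∀ s ∈ c, ∀ t ∈ c, s ⊆ t ∨ t ⊆ s}

theorem isCx_Sd (K : Set (Finset V)) : IsCx (Sd K) := by
  refine ⟨fun h => Finset.not_nonempty_empty h.1, fun c hc d hd hn => ⟨hn, ?_, ?_⟩⟩
  · intro s hs
    exact hc.2.1 s (hd hs)
  · intro s hs t ht
    exact hc.2.2 s (hd hs) t (hd ht)

theorem Sd_top {c : Finset (Finset V)} (hc : c ∈ Sd K) : ∃ s ∈ c, ∀ t ∈ c, t ⊆ s := by
  classical
  obtain ⟨s, hs, hmax⟩ := Finset.exists_max_image c Finset.card hc.1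
  refine ⟨s, hs, fun t ht => ?_⟩
  rcases hc.2.2 s hs t ht with h | h
  · rw [Finset.eq_of_subset_of_card_le h (hmax t ht)]
  · exact h

open Classical in
/-- the largest member of a chain -/
noncomputable def Sdtop (c : Finset (Finset V)) : Finset V :=
  if h : ∃ s ∈ c, ∀ t ∈ c, t ⊆ s then h.choose else ∅

theorem Sdtop_mem {c : Finset (Finset V)} (hc : c ∈ Sd K) : Sdtop c ∈ c := by
  have h := Sd_top hc
  rw [Sdtop, dif_pos h]
  exact h.choose_spec.1

theorem le_Sdtop {c : Finset (Finset V)} (hc : c ∈ Sd K) {t : Finset V} (ht : t ∈ c) :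
    t ⊆ Sdtop c := by
  have h := Sd_top hc
  rw [Sdtop, dif_pos h]
  exact h.choose_spec.2 t ht

theorem Sdtop_mono {c d : Finset (Finset V)} (hc : c ∈ Sd K) (hd : d ⊆ c) (hn : d.Nonempty) :
    Sdtop d ⊆ Sdtop c :=
  le_Sdtop hc (hd (Sdtop_mem ((isCx_Sd K).2 c hc d hd hn)))

theorem Cl_mono {s t : Finset V} (h : s ⊆ t) : Cl s ⊆ Cl t := fun _ hr => ⟨hr.1.trans h, hr.2⟩

theorem Sd_mono {P Q : Set (Finset V)} (h : P ⊆ Q) : Sd P ⊆ Sd Q :=
  fun _ hc => ⟨hc.1, fun s hs => h (hc.2.1 s hs), hc.2.2⟩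

theorem ctr_Sd_Cl {s : Finset V} (hs : s.Nonempty) : Ctr (Sd (Cl s)) := by
  classical
  have hss : s ∈ Cl s := ⟨Finset.Subset.refl s, hs⟩
  refine ctr_cone (isCx_Sd _) s ?_ ?_
  · refine ⟨Finset.singleton_nonempty s, ?_, ?_⟩
    · intro t ht
      rw [Finset.mem_singleton.1 ht]
      exact hss
    · intro t ht r hr
      rw [Finset.mem_singleton.1 ht, Finset.mem_singleton.1 hr]
      exact Or.inl (Finset.Subset.refl s)
  · intro c hc
    refine ⟨Finset.insert_nonempty s c, ?_, ?_⟩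
    · intro t ht
      rcases Finset.mem_insert.1 ht with ht1 | ht1
      · rw [ht1]
        exact hss
      · exact hc.2.1 t ht1
    · intro t ht r hr
      rcases Finset.mem_insert.1 ht with ht1 | ht1
      · rcases Finset.mem_insert.1 hr with hr1 | hr1
        · rw [ht1, hr1]
          exact Or.inl (Finset.Subset.refl _)
        · rw [ht1]
          exact Or.inr (hc.2.1 r hr1).1
      · rcases Finset.mem_insert.1 hr with hr1 | hr1
        · rw [hr1]
          exact Or.inl (hc.2.1 t ht1).1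
        · exact hc.2.2 t ht1 r hr1

/-- The barycentric subdivision of a contractible complex is contractible. -/
theorem ctr_Sd (hK : IsCx K) (h : Ctr K) : Ctr (Sd K) := by
  have htop : ∀ c ∈ Sd K, Sdtop c ∈ K := fun c hc => hc.2.1 _ (Sdtop_mem hc)
  refine ctr_of_dominated (isCx_Sd K) hK h (Φ := fun c => Cl (Sdtop c)) (Ψ := fun s => Sd (Cl s))
    (Θ := fun c => Sd (Cl (Sdtop c))) ?_ ?_ ?_ ?_ ?_
  · refine ⟨fun c _ => isCx_Cl _, fun c hc => Cl_sub hK (htop c hc), ?_, ?_⟩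
    · intro c hc d hd hn
      exact Cl_mono (Sdtop_mono hc hd hn)
    · intro c hc
      exact ctr_Cl (hK.nonempty (htop c hc))
  · refine ⟨fun s _ => isCx_Sd _, fun s hs => Sd_mono (Cl_sub hK hs), ?_, ?_⟩
    · intro s _ t ht _
      exact Sd_mono (Cl_mono ht)
    · intro s hs
      exact ctr_Sd_Cl (hK.nonempty hs)
  · refine ⟨fun c _ => isCx_Sd _, fun c hc => Sd_mono (Cl_sub hK (htop c hc)), ?_, ?_⟩
    · intro c hc d hd hn
      exact Sd_mono (Cl_mono (Sdtop_mono hc hd hn))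
    · intro c hc
      exact ctr_Sd_Cl (hK.nonempty (htop c hc))
  · intro c hc
    exact ⟨hc.1, fun s hs => ⟨le_Sdtop hc hs, hK.nonempty (hc.2.1 s hs)⟩, hc.2.2⟩
  · intro c _ t ht
    exact Sd_mono (Cl_mono ht.1)

/-- Gluing contractible pieces along contractible intersections. -/
theorem ctr_union {ι : Type w} {X X1 : Set (Finset V)} {Y : ι → Set (Finset V)} (hX : IsCx X)
    (hX1 : IsCx X1) (hY : ∀ i, IsCx (Y i)) (hU : ∀ s, s ∈ X ↔ s ∈ X1 ∨ ∃ i, s ∈ Y i)
    (hd : ∀ i j, i ≠ j → Y i ∩ Y j ⊆ X1) (hc : ∀ i, Ctr (Y i)) (hi : ∀ i, Ctr (X1 ∩ Y i))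
    (h1 : Ctr X1) : Ctr X := by
  classical
  have hI : ∀ i, IsCx (X1 ∩ Y i) := fun i =>
    ⟨fun h => hX1.1 h.1, fun s hs t ht hn => ⟨hX1.2 s hs.1 t ht hn, (hY i).2 s hs.2 t ht hn⟩⟩
  have hX1X : X1 ⊆ X := fun s hs => (hU s).2 (Or.inl hs)
  have hYX : ∀ i, Y i ⊆ X := fun i s hs => (hU s).2 (Or.inr ⟨i, hs⟩)
  -- the two families
  let Φ : Finset V → Set (Finset V) := fun s => if s ∈ X1 then Cl s else
    {t | t ∈ X1 ∧ ∃ i, s ∈ Y i ∧ t ∈ Y i}
  let Θ : Finset V → Set (Finset V) := fun s => if s ∈ X1 then Cl s else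
    {t | ∃ i, s ∈ Y i ∧ t ∈ Y i}
  have hΦ1 : ∀ s, s ∈ X1 → Φ s = Cl s := fun s hs => if_pos hs
  have hΘ1 : ∀ s, s ∈ X1 → Θ s = Cl s := fun s hs => if_pos hs
  have huniq : ∀ s, s ∉ X1 → ∀ i j, s ∈ Y i → s ∈ Y j → i = j := by
    intro s hs i j hsi hsj
    by_contra hne
    exact hs (hd i j hne ⟨hsi, hsj⟩)
  have hΦ2 : ∀ s, s ∉ X1 → ∀ i, s ∈ Y i → Φ s = X1 ∩ Y i := by
    intro s hs i hsi
    have : Φ s = {t | t ∈ X1 ∧ ∃ i, s ∈ Y i ∧ t ∈ Y i} := if_neg hs
    rw [this]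
    ext t
    constructor
    · rintro ⟨ht, j, hj, htj⟩
      rw [huniq s hs i j hsi hj]
      exact ⟨ht, htj⟩
    · rintro ⟨ht, hti⟩
      exact ⟨ht, i, hsi, hti⟩
  have hΘ2 : ∀ s, s ∉ X1 → ∀ i, s ∈ Y i → Θ s = Y i := by
    intro s hs i hsi
    have : Θ s = {t | ∃ i, s ∈ Y i ∧ t ∈ Y i} := if_neg hs
    rw [this]
    ext t
    constructor
    · rintro ⟨j, hj, htj⟩
      rw [huniq s hs i j hsi hj]
      exact htj
    · intro hti
      exact ⟨i, hsi, hti⟩
  have hcase : ∀ s ∈ X, s ∈ X1 ∨ (s ∉ X1 ∧ ∃ i, s ∈ Y i) := by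
    intro s hs
    by_cases h : s ∈ X1
    · exact Or.inl h
    · rcases (hU s).1 hs with h' | h'
      · exact absurd h' h
      · exact Or.inr ⟨h, h'⟩
  refine ctr_of_dominated hX hX1 h1 (Φ := Φ) (Ψ := fun t => Cl t) (Θ := Θ) ?_ ?_ ?_ ?_ ?_
  · refine ⟨?_, ?_, ?_, ?_⟩
    · intro s hs
      rcases hcase s hs with h | ⟨h, i, hsi⟩
      · rw [hΦ1 s h]
        exact isCx_Cl s
      · rw [hΦ2 s h i hsi]
        exact hI i
    · intro s hs
      rcases hcase s hs with h | ⟨h, i, hsi⟩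
      · rw [hΦ1 s h]
        exact Cl_sub hX1 h
      · rw [hΦ2 s h i hsi]
        exact Set.inter_subset_left
    · intro s hs t ht hn
      rcases hcase s hs with h | ⟨h, i, hsi⟩
      · have htX : t ∈ X1 := hX1.2 s h t ht hn
        rw [hΦ1 s h, hΦ1 t htX]
        exact Cl_mono ht
      · have hti : t ∈ Y i := (hY i).2 s hsi t ht hn
        rw [hΦ2 s h i hsi]
        by_cases htX : t ∈ X1
        · rw [hΦ1 t htX]
          exact Cl_sub (hI i) ⟨htX, hti⟩
        · rw [hΦ2 t htX i hti]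
    · intro s hs
      rcases hcase s hs with h | ⟨h, i, hsi⟩
      · rw [hΦ1 s h]
        exact ctr_Cl (hX1.nonempty h)
      · rw [hΦ2 s h i hsi]
        exact hi i
  · refine ⟨fun t _ => isCx_Cl t, fun t ht => (Cl_sub hX1 ht).trans hX1X, ?_, ?_⟩
    · intro s _ t ht _
      exact Cl_mono ht
    · intro s hs
      exact ctr_Cl (hX1.nonempty hs)
  · refine ⟨?_, ?_, ?_, ?_⟩
    · intro s hs
      rcases hcase s hs with h | ⟨h, i, hsi⟩
      · rw [hΘ1 s h]
        exact isCx_Cl s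
      · rw [hΘ2 s h i hsi]
        exact hY i
    · intro s hs
      rcases hcase s hs with h | ⟨h, i, hsi⟩
      · rw [hΘ1 s h]
        exact (Cl_sub hX1 h).trans hX1X
      · rw [hΘ2 s h i hsi]
        exact hYX i
    · intro s hs t ht hn
      rcases hcase s hs with h | ⟨h, i, hsi⟩
      · have htX : t ∈ X1 := hX1.2 s h t ht hn
        rw [hΘ1 s h, hΘ1 t htX]
        exact Cl_mono ht
      · have hti : t ∈ Y i := (hY i).2 s hsi t ht hn
        rw [hΘ2 s h i hsi]
        by_cases htX : t ∈ X1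
        · rw [hΘ1 t htX]
          exact Cl_sub (hY i) hti
        · rw [hΘ2 t htX i hti]
    · intro s hs
      rcases hcase s hs with h | ⟨h, i, hsi⟩
      · rw [hΘ1 s h]
        exact ctr_Cl (hX1.nonempty h)
      · rw [hΘ2 s h i hsi]
        exact hc i
  · intro s hs
    rcases hcase s hs with h | ⟨h, i, hsi⟩
    · rw [hΘ1 s h]
      exact ⟨Finset.Subset.refl s, hX1.nonempty h⟩
    · rw [hΘ2 s h i hsi]
      exact hsi
  · intro s hs t ht
    rcases hcase s hs with h | ⟨h, i, hsi⟩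
    · rw [hΦ1 s h] at ht
      rw [hΘ1 s h]
      exact Cl_mono ht.1
    · rw [hΦ2 s h i hsi] at ht
      rw [hΘ2 s h i hsi]
      exact Cl_sub (hY i) ht.2

end Pool.Agent.Helper281.Sc
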