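import Mathlib
import Pool.Agent.Helper281.Sc.Tl
import Pool.Agent.Helper281.Sc.Constr

set_option autoImplicit false

namespace Pool.Agent.Helper281.Sc

open Set

universe u v w

variable {V : Type u} {U : Type w} {K : Set (Finset V)}

/-- Relabelling of the vertices. -/
theorem ctr_image [DecidableEq U] (hK : IsCx K) (h : Ctr K) (g : V → U)
    (hg : Function.Injective g) : Ctr {s : Finset U | ∃ t ∈ K, s = t.image g} := by
  classical
  have hK' : IsCx {s : Finset U | ∃ t ∈ K, s = t.image g} := by
    refine ⟨?_, ?_⟩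
    · rintro ⟨t, ht, h1⟩
      have : t = ∅ := Finset.image_eq_empty.1 h1.symm
      exact hK.1 (this ▸ ht)
    · rintro s ⟨t, ht, rfl⟩ r hr hn
      have h2 : r = (t.filter (fun v => g v ∈ r)).image g := by
        ext x
        simp only [Finset.mem_image, Finset.mem_filter]
        constructor
        · intro hx
          obtain ⟨v, hv, rfl⟩ := Finset.mem_image.1 (hr hx)
          exact ⟨v, ⟨hv, hx⟩, rfl⟩
        · rintro ⟨v, ⟨_, hv⟩, rfl⟩
          exact hv
      refine ⟨t.filter (fun v => g v ∈ r), hK.2 t ht _ (Finset.filter_subset _ _) ?_, h2⟩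
      rw [h2] at hn
      exact Finset.image_nonempty.1 hn
  have hsub : ∀ t t0 : Finset V, t.image g ⊆ t0.image g ↔ t ⊆ t0 := by
    intro t t0
    exact Finset.image_subset_image_iff hg
  have hΦ : ∀ t0 : Finset V, {t : Finset V | t.Nonempty ∧ t.image g ⊆ t0.image g} = Cl t0 := by
    intro t0
    ext t
    simp only [mem_setOf_eq, Cl, hsub]
    exact and_comm
  refine ctr_of_dominated (N := K) (Φ := fun s => {t : Finset V | t.Nonempty ∧ t.image g ⊆ s})
    (Ψ := fun t => Cl (t.image g)) (Θ := fun s => Cl s) hK' hK h ?_ ?_ ?_ ?_ ?_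
  · refine ⟨?_, ?_, ?_, ?_⟩
    · rintro s ⟨t0, ht0, rfl⟩
      rw [hΦ]
      exact isCx_Cl t0
    · rintro s ⟨t0, ht0, rfl⟩
      rw [hΦ]
      exact Cl_sub hK ht0
    · intro s _ t hts _ r hr
      exact ⟨hr.1, hr.2.trans hts⟩
    · rintro s ⟨t0, ht0, rfl⟩
      rw [hΦ]
      exact ctr_Cl (hK.nonempty ht0)
  · refine ⟨?_, ?_, ?_, ?_⟩
    · intro t _
      exact isCx_Cl _
    · intro t ht
      exact Cl_sub hK' ⟨t, ht, rfl⟩
    · intro s _ t hts _
      exact Cl_mono (Finset.image_subset_image hts)
    · intro t ht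
      exact ctr_Cl (Finset.image_nonempty.2 (hK.nonempty ht))
  · refine ⟨?_, ?_, ?_, ?_⟩
    · intro t _
      exact isCx_Cl _
    · intro t ht
      exact Cl_sub hK' ht
    · intro s _ t hts _
      exact Cl_mono hts
    · intro t ht
      exact ctr_Cl (hK'.nonempty ht)
  · intro s hs
    exact ⟨subset_rfl, hK'.nonempty hs⟩
  · intro s _ t ht
    exact Cl_mono ht.2

theorem isCx_Pth [DecidableEq U] (l : ℕ) (p : ℕ → U) : IsCx (Pth l p) := by
  refine ⟨fun h => Finset.not_nonempty_empty h.1, ?_⟩
  rintro s ⟨_, i, hi, h⟩ t hts hn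
  exact ⟨hn, i, hi, hts.trans h⟩

theorem isCx_Gad [DecidableEq U] (l : ℕ) (p y : ℕ → U) (z : U) : IsCx (Gad l p y z) := by
  refine ⟨fun h => Finset.not_nonempty_empty h.1, ?_⟩
  rintro s ⟨_, i, hi, h⟩ t hts hn
  refine ⟨hn, i, hi, ?_⟩
  rcases h with h | h | h
  · exact Or.inl (hts.trans h)
  · exact Or.inr (Or.inl (hts.trans h))
  · exact Or.inr (Or.inr (hts.trans h))

/-- A simple path is contractible. -/
theorem ctr_Pth [DecidableEq U] (l : ℕ) (hl : 1 ≤ l) (p : ℕ → U) (hp : InjOn p (Iic l)) :
    Ctr (Pth l p) := by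
  induction l, hl using Nat.le_induction with
  | base =>
    have : Pth 1 p = Cl {p 0, p 1} := by
      ext s
      constructor
      · rintro ⟨hn, i, hi, h⟩
        have : i = 0 := by omega
        subst this
        exact ⟨h, hn⟩
      · rintro ⟨h, hn⟩
        exact ⟨hn, 0, by omega, h⟩
    rw [this]
    exact ctr_Cl ⟨p 0, by simp⟩
  | succ l hl ih =>
    have ih' := ih (hp.mono (Iic_subset_Iic.2 (Nat.le_succ l)))
    refine ctr_union (ι := Unit) (X1 := Pth l p) (Y := fun _ => Cl {p l, p (l + 1)})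
      (isCx_Pth _ _) (isCx_Pth _ _) (fun _ => isCx_Cl _) ?_ ?_ ?_ ?_ ih'
    · intro s
      constructor
      · rintro ⟨hn, i, hi, h⟩
        rcases Nat.lt_succ_iff_lt_or_eq.1 hi with h1 | h1
        · exact Or.inl ⟨hn, i, h1, h⟩
        · subst h1
          exact Or.inr ⟨(), h, hn⟩
      · rintro (⟨hn, i, hi, h⟩ | ⟨_, h, hn⟩)
        · exact ⟨hn, i, by omega, h⟩
        · exact ⟨hn, l, by omega, h⟩
    · intro i j hij
      exact absurd rfl hij
    · intro _
      exact ctr_Cl ⟨p l, by simp⟩
    · intro _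
      have : Pth l p ∩ Cl {p l, p (l + 1)} = Cl {p l} := by
        ext s
        constructor
        · rintro ⟨⟨hn, i, hi, h⟩, h2, _⟩
          refine ⟨?_, hn⟩
          intro x hx
          have h3 := h2 hx
          rw [Finset.mem_insert, Finset.mem_singleton] at h3
          rcases h3 with h3 | h3
          · rw [h3]; simp
          · exfalso
            have h4 := h hx
            rw [Finset.mem_insert, Finset.mem_singleton, h3] at h4
            rcases h4 with h4 | h4
            · have := hp (by simp) (by simp; omega) h4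
              omega
            · have := hp (by simp) (by simp; omega) h4
              omega
        · rintro ⟨h, hn⟩
          refine ⟨⟨hn, l - 1, by omega, ?_⟩, ?_, hn⟩
          · refine h.trans ?_
            have : l - 1 + 1 = l := by omega
            rw [this]
            simp
          · exact h.trans (by simp)
      rw [this]
      exact ctr_Cl ⟨p l, by simp⟩

theorem nx_le {l i : ℕ} (hi : i ≤ l) : nx l i ≤ l := by
  unfold nx
  split_ifs <;> omega

theorem nx_inj {l i j : ℕ} (hi : i ≤ l) (hj : j ≤ l) (h : nx l i = nx l j) : i = j := by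
  unfold nx at h
  split_ifs at h <;> omega

theorem nx_ne {l i : ℕ} (hl : 1 ≤ l) (hi : i ≤ l) : nx l i ≠ i := by
  unfold nx
  split_ifs <;> omega

theorem nx_nx_ne {l i : ℕ} (hl : 2 ≤ l) (hi : i ≤ l) : nx l (nx l i) ≠ i := by
  unfold nx
  split_ifs <;> omega

theorem nx_surj {l i : ℕ} (hi : i ≤ l) : ∃ j ≤ l, nx l j = i := by
  rcases Nat.eq_zero_or_pos i with h | h
  · exact ⟨l, le_rfl, by unfold nx; split_ifs <;> omega⟩
  · exact ⟨i - 1, by omega, by unfold nx; split_ifs <;> omega⟩

/-- The disc gadget is contractible. -/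
theorem ctr_Gad [DecidableEq U] (l : ℕ) (hl : 2 ≤ l) (p y : ℕ → U) (z : U)
    (hp : InjOn p (Iic l)) (hy : InjOn y (Iic l)) (hpy : ∀ i ≤ l, ∀ j ≤ l, p i ≠ y j)
    (hpz : ∀ i ≤ l, p i ≠ z) (hyz : ∀ i ≤ l, y i ≠ z) : Ctr (Gad l p y z) := by
  have hp' : ∀ i ≤ l, ∀ j ≤ l, p i = p j → i = j := fun i hi j hj h => hp hi hj h
  have hy' : ∀ i ≤ l, ∀ j ≤ l, y i = y j → i = j := fun i hi j hj h => hy hi hj h
  let X1 : Set (Finset U) := {s | s.Nonempty ∧ ∃ i ≤ l, s ⊆ {y i, y (nx l i), z}}
  let X2 : Set (Finset U) := {s | s.Nonempty ∧ ∃ i ≤ l, s ⊆ {p (nx l i), y i, y (nx l i)} ∨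
    s ⊆ {y i, y (nx l i), z}}
  have cx1 : IsCx X1 := by
    refine ⟨fun h => Finset.not_nonempty_empty h.1, ?_⟩
    rintro s ⟨_, i, hi, h⟩ t hts hn
    exact ⟨hn, i, hi, hts.trans h⟩
  have cx2 : IsCx X2 := by
    refine ⟨fun h => Finset.not_nonempty_empty h.1, ?_⟩
    rintro s ⟨_, i, hi, h⟩ t hts hn
    exact ⟨hn, i, hi, h.imp hts.trans hts.trans⟩
  have c1 : Ctr X1 := by
    refine ctr_cone cx1 z ?_ ?_
    · exact ⟨⟨z, by simp⟩, 0, by omega, by simp⟩
    · rintro s ⟨_, i, hi, h⟩
      refine ⟨⟨z, by simp⟩, i, hi, ?_⟩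
      rw [Finset.insert_subset_iff]
      exact ⟨by simp, h⟩
  have c2 : Ctr X2 := by
    refine ctr_union (ι := {i // i ≤ l}) (X1 := X1)
      (Y := fun i => Cl {p (nx l i), y i, y (nx l i)}) cx2 cx1 (fun _ => isCx_Cl _) ?_ ?_ ?_ ?_ c1
    · intro s
      constructor
      · rintro ⟨hn, i, hi, h | h⟩
        · exact Or.inr ⟨⟨i, hi⟩, h, hn⟩
        · exact Or.inl ⟨hn, i, hi, h⟩
      · rintro (⟨hn, i, hi, h⟩ | ⟨i, h, hn⟩)
        · exact ⟨hn, i, hi, Or.inr h⟩
        · exact ⟨hn, i.1, i.2, Or.inl h⟩
    · rintro ⟨i, hi⟩ ⟨j, hj⟩ hij s ⟨⟨h1, hn⟩, h2, _⟩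
      refine ⟨hn, i, hi, fun x hx => ?_⟩
      have e1 := h1 hx
      have e2 := h2 hx
      simp only [Finset.mem_insert, Finset.mem_singleton] at e1 e2 ⊢
      rcases e1 with e1 | e1 | e1
      · exfalso
        rcases e2 with e2 | e2 | e2
        · have := nx_inj hi hj (hp' _ (nx_le hi) _ (nx_le hj) (e1.symm.trans e2))
          exact hij (Subtype.ext this)
        · exact hpy _ (nx_le hi) _ hj (e1.symm.trans e2)
        · exact hpy _ (nx_le hi) _ (nx_le hj) (e1.symm.trans e2)
      · exact Or.inl e1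
      · exact Or.inr (Or.inl e1)
    · intro i
      exact ctr_Cl ⟨y i, by simp⟩
    · rintro ⟨i, hi⟩
      have : X1 ∩ Cl {p (nx l i), y i, y (nx l i)} = Cl {y i, y (nx l i)} := by
        ext s
        constructor
        · rintro ⟨⟨hn, j, hj, h1⟩, h2, _⟩
          refine ⟨fun x hx => ?_, hn⟩
          have e1 := h1 hx
          have e2 := h2 hx
          simp only [Finset.mem_insert, Finset.mem_singleton] at e1 e2 ⊢
          rcases e2 with e2 | e2 | e2
          · exfalso
            rcases e1 with e1 | e1 | e1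
            · exact hpy _ (nx_le hi) _ hj (e2.symm.trans e1)
            · exact hpy _ (nx_le hi) _ (nx_le hj) (e2.symm.trans e1)
            · exact hpz _ (nx_le hi) (e2.symm.trans e1)
          · exact Or.inl e2
          · exact Or.inr e2
        · rintro ⟨h, hn⟩
          refine ⟨⟨hn, i, hi, h.trans ?_⟩, h.trans ?_, hn⟩
          · intro x hx
            simp only [Finset.mem_insert, Finset.mem_singleton] at hx ⊢
            tauto
          · intro x hx
            simp only [Finset.mem_insert, Finset.mem_singleton] at hx ⊢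
            tauto
      show Ctr (X1 ∩ Cl {p (nx l i), y i, y (nx l i)})
      rw [this]
      exact ctr_Cl ⟨y i, by simp⟩
  refine ctr_union (ι := {i // i ≤ l}) (X1 := X2)
      (Y := fun i => Cl {p i, p (nx l i), y i}) (isCx_Gad _ _ _ _) cx2 (fun _ => isCx_Cl _)
      ?_ ?_ ?_ ?_ c2
  · intro s
    constructor
    · rintro ⟨hn, i, hi, h | h | h⟩
      · exact Or.inr ⟨⟨i, hi⟩, h, hn⟩
      · exact Or.inl ⟨hn, i, hi, Or.inl h⟩
      · exact Or.inl ⟨hn, i, hi, Or.inr h⟩
    · rintro (⟨hn, i, hi, h | h⟩ | ⟨i, h, hn⟩)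
      · exact ⟨hn, i, hi, Or.inr (Or.inl h)⟩
      · exact ⟨hn, i, hi, Or.inr (Or.inr h)⟩
      · exact ⟨hn, i.1, i.2, Or.inl h⟩
  · rintro ⟨i, hi⟩ ⟨j, hj⟩ hij s ⟨⟨h1, hn⟩, h2, _⟩
    have hij' : i ≠ j := fun h => hij (Subtype.ext h)
    have hin := nx_le hi
    have hjn := nx_le hj
    have key : ∀ x ∈ s, (x = p i ∨ x = p (nx l i)) ∧ (x = p j ∨ x = p (nx l j)) := by
      intro x hx
      have e1 := h1 hx
      have e2 := h2 hx
      simp only [Finset.mem_insert, Finset.mem_singleton] at e1 e2
      rcases e1 with e1 | e1 | e1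
      · refine ⟨Or.inl e1, ?_⟩
        rcases e2 with e2 | e2 | e2
        · exact Or.inl e2
        · exact Or.inr e2
        · exact absurd (e1.symm.trans e2) (hpy _ hi _ hj)
      · refine ⟨Or.inr e1, ?_⟩
        rcases e2 with e2 | e2 | e2
        · exact Or.inl e2
        · exact Or.inr e2
        · exact absurd (e1.symm.trans e2) (hpy _ hin _ hj)
      · exfalso
        rcases e2 with e2 | e2 | e2
        · exact hpy _ hj _ hi (e2.symm.trans e1)
        · exact hpy _ hjn _ hi (e2.symm.trans e1)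
        · exact hij' (hy' _ hi _ hj (e1.symm.trans e2))
    by_cases ha : p i ∈ s
    · by_cases hb : p (nx l i) ∈ s
      · exfalso
        have k1 := (key _ ha).2
        have k2 := (key _ hb).2
        rcases k1 with k1 | k1
        · exact hij' (hp' _ hi _ hj k1)
        · have k1' := hp' _ hi _ hjn k1
          rcases k2 with k2 | k2
          · have k2' := hp' _ hin _ hj k2
            rw [k1'] at k2'
            exact nx_nx_ne hl hj k2'
          · exact hij' (nx_inj hi hj (hp' _ hin _ hjn k2))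
      · obtain ⟨m, hm, hmi⟩ := nx_surj hi
        refine ⟨hn, m, hm, Or.inl fun x hx => ?_⟩
        rcases (key x hx).1 with k | k
        · rw [hmi, k]; simp
        · exact absurd (k ▸ hx) hb
    · refine ⟨hn, i, hi, Or.inl fun x hx => ?_⟩
      rcases (key x hx).1 with k | k
      · exact absurd (k ▸ hx) ha
      · rw [k]; simp
  · intro i
    exact ctr_Cl ⟨y i, by simp⟩
  · rintro ⟨i, hi⟩
    have hin := nx_le hi
    obtain ⟨m, hm, hmi⟩ := nx_surj hi
    show Ctr (X2 ∩ Cl {p i, p (nx l i), y i})
    have cx3 : IsCx (X2 ∩ Cl {p i, p (nx l i), y i}) := by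
      refine ⟨fun h => cx2.1 h.1, fun s hs t hts hn => ⟨cx2.2 s hs.1 t hts hn, ?_⟩⟩
      exact (isCx_Cl _).2 s hs.2 t hts hn
    refine ctr_cone cx3 (y i) ?_ ?_
    · refine ⟨⟨⟨y i, by simp⟩, i, hi, Or.inl (by simp)⟩, by simp, ⟨y i, by simp⟩⟩
    · rintro s ⟨⟨hn, j, hj, h⟩, h2, _⟩
      refine ⟨⟨⟨y i, by simp⟩, ?_⟩, ?_, ⟨y i, by simp⟩⟩
      · by_cases ha : p i ∈ s
        · have hb : p (nx l i) ∉ s := by
            intro hb
            rcases h with h | h
            · have e1 := h ha
              have e2 := h hb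
              simp only [Finset.mem_insert, Finset.mem_singleton] at e1 e2
              rcases e1 with e1 | e1 | e1
              · rcases e2 with e2 | e2 | e2
                · exact nx_ne (by omega) hi (hp' _ hin _ hi (e2.trans e1.symm))
                · exact hpy _ hin _ hj e2
                · exact hpy _ hin _ (nx_le hj) e2
              · exact hpy _ hi _ hj e1
              · exact hpy _ hi _ (nx_le hj) e1
            · have e1 := h ha
              simp only [Finset.mem_insert, Finset.mem_singleton] at e1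
              rcases e1 with e1 | e1 | e1
              · exact hpy _ hi _ hj e1
              · exact hpy _ hi _ (nx_le hj) e1
              · exact hpz _ hi e1
          refine ⟨m, hm, Or.inl ?_⟩
          rw [hmi]
          intro x hx
          rw [Finset.mem_insert] at hx
          simp only [Finset.mem_insert, Finset.mem_singleton]
          rcases hx with hx | hx
          · exact Or.inr (Or.inr hx)
          · have e := h2 hx
            simp only [Finset.mem_insert, Finset.mem_singleton] at e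
            rcases e with e | e | e
            · exact Or.inl e
            · exact absurd (e ▸ hx) hb
            · exact Or.inr (Or.inr e)
        · refine ⟨i, hi, Or.inl ?_⟩
          intro x hx
          rw [Finset.mem_insert] at hx
          simp only [Finset.mem_insert, Finset.mem_singleton]
          rcases hx with hx | hx
          · exact Or.inr (Or.inl hx)
          · have e := h2 hx
            simp only [Finset.mem_insert, Finset.mem_singleton] at e
            rcases e with e | e | e
            · exact absurd (e ▸ hx) ha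
            · exact Or.inl e
            · exact Or.inr (Or.inl e)
      · rw [Finset.insert_subset_iff]
        exact ⟨by simp, h2⟩

end Pool.Agent.Helper281.Sc
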