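import Mathlib
import Pool.Agent.Helper281.Sc.Constr

set_option autoImplicit false

namespace Pool.Agent.Helper281.Sc

open Set

universe u v w

/-- The input data: a countable Borel equivalence relation on `X` with infinite classes, one on
`Y`, and an injective Borel reduction. -/
structure Inp (X Y : Type u) [MeasurableSpace X] [MeasurableSpace Y] where
  γ : ℕ → X → X
  γm : ∀ n, Measurable (γ n)
  eqv : Equivalence (fun x y : X => ∃ n, γ n x = y)
  κ : X → ℕ
  κm : Measurable κ
  κs : ∀ x k, ∃ n, κ (γ n x) = k
  col : List X → ℕ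
  colm : ∀ l : List ℕ, Measurable (fun x => col (l.map (fun m => γ m x)))
  colp : ∀ L L' : List X, (∀ x ∈ L, ∀ y ∈ L, ∃ n, γ n x = y) →
    (∀ x ∈ L', ∀ y ∈ L', ∃ n, γ n x = y) → col L = col L' → (∃ x, x ∈ L ∧ x ∈ L') → L = L'
  δ : ℕ → Y → Y
  δm : ∀ n, Measurable (δ n)
  eqvY : Equivalence (fun x y : Y => ∃ n, δ n x = y)
  f : X → Y
  fm : Measurable f
  finj : Function.Injective f
  red : ∀ x y, (∃ n, γ n x = y) ↔ ∃ n, δ n (f x) = f y
  r : Y → ℝ
  rm : Measurable r
  rinj : Function.Injective r

/-- The type of virtual vertices. -/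
abbrev VVt (X Y : Type u) : Type u := (Finset (Finset Y) ⊕ X) × List ℕ

namespace Inp

variable {X Y : Type u} [MeasurableSpace X] [MeasurableSpace Y] (D : Inp X Y)

open Classical in
/-- The finite family of finite subsets of `Y` coded by `L`, relative to `x`. -/
noncomputable def codA (x : X) (L : List (List ℕ)) : Finset (Finset Y) :=
  (L.map (fun l => (l.map (fun n => D.δ n (D.f x))).toFinset)).toFinset

/-- Enumeration of the virtual vertices over the class of `x`. -/
noncomputable def cod (x : X) (n : ℕ) : VVt X Y :=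
  match (Encodable.decode n : Option ((List (List ℕ) ⊕ ℕ) × List ℕ)) with
  | some (Sum.inl L, t) => if L.any (fun l => !l.isEmpty) then (Sum.inl (D.codA x L), t)
      else (Sum.inr (D.γ 0 x), t)
  | some (Sum.inr k, t) => (Sum.inr (D.γ k x), t)
  | none => (Sum.inr (D.γ 0 x), [])

/-- The vertex `x`. -/
def old (x : X) : VVt X Y := (Sum.inr x, [])

/-- The new vertices over a virtual vertex. -/
def nv (v : VVt X Y) (k : ℕ) : VVt X Y := (v.1, k :: v.2)

open Classical in
/-- The `r`-least element of the union of a family. -/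
noncomputable def mn (c : Finset (Finset Y)) : Option Y :=
  if h : (c.biUnion id).Nonempty then some ((c.biUnion id).exists_min_image D.r h).choose
  else none

open Classical in
/-- A point of `X` over the class of a point of `Y`. -/
noncomputable def bp [Nonempty X] (y : Y) : X :=
  if h : ∃ n, ∃ x, D.f x = D.δ n y then (Nat.find_spec h).choose else Classical.arbitrary X

/-- The base point of a virtual vertex. -/
noncomputable def base [Nonempty X] (v : VVt X Y) : X :=
  match v.1 with
  | Sum.inr x => x
  | Sum.inl c => match D.mn c with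
    | some y => D.bp y
    | none => Classical.arbitrary X

open Classical in
/-- The index of a virtual vertex relative to its base point. -/
noncomputable def jj [Nonempty X] (v : VVt X Y) : ℕ :=
  match v.1 with
  | Sum.inr _ => Nat.pair 1 (Encodable.encode v.2)
  | Sum.inl c => Nat.pair 0 (Nat.pair
      (if h : ∃ m : ℕ, D.codA (D.base v) ((Encodable.decode (α := List (List ℕ)) m).getD []) = c
        then Nat.find h else 0) (Encodable.encode v.2))

/-- The barycentric subdivision: nonempty finite chains of simplices. -/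
def Sd0 {V : Type u} (K : Set (Finset V)) : Set (Finset (Finset V)) :=
  {c | c.Nonempty ∧ (∀ s ∈ c, s ∈ K) ∧ ∀ s ∈ c, ∀ t ∈ c, s ⊆ t ∨ t ⊆ s}

/-- The part of `K` over classes which meet the image of `X`. -/
def Kx (K : Set (Finset Y)) : Set (Finset Y) :=
  {s | s ∈ K ∧ ∃ x, ∀ y ∈ s, ∃ n, D.δ n (D.f x) = y}

open Classical in
/-- The initial complex: the second barycentric subdivision of `K`. -/
def M0 (K : Set (Finset Y)) : Set (Finset (VVt X Y)) :=
  {s | ∃ t ∈ Sd0 (Sd0 (D.Kx K)), s = t.image (fun c => (Sum.inl c, ([] : List ℕ)))}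

/-- The set of cardinalities in a chain. -/
def typ (c : Finset (Finset Y)) : Finset ℕ := c.image Finset.card

/-- The proper nonempty subsets of a finite set of natural numbers, as a list. -/
noncomputable def pss (T : Finset ℕ) : List (Finset ℕ) :=
  (T.ssubsets.filter (fun T' => T'.Nonempty)).toList

theorem filter_card_lt {c : Finset (Finset Y)} {T : Finset ℕ} (h : T ∈ pss (typ c)) :
    (c.filter (fun s => s.card ∈ T)).card < c.card := by
  unfold pss at h
  rw [Finset.mem_toList, Finset.mem_filter, Finset.mem_ssubsets] at h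
  obtain ⟨⟨h1, h2⟩, _⟩ := h
  obtain ⟨a, ha, haT⟩ := Finset.not_subset.1 h2
  unfold typ at ha
  obtain ⟨s, hs, rfl⟩ := Finset.mem_image.1 ha
  apply Finset.card_lt_card
  refine ⟨Finset.filter_subset _ _, fun h => haT ?_⟩
  exact (Finset.mem_filter.1 (h hs)).2

end Inp

end Pool.Agent.Helper281.Sc
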