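import Mathlib
import Pool.Agent.Helper281.Sc.Lev

set_option autoImplicit false

namespace Pool.Agent.Helper281.Sc

open Set

universe u v w

namespace Inp

variable {X Y : Type u} [MeasurableSpace X] [MeasurableSpace Y] (D : Inp X Y)

theorem cod_ms_ball {α : Type*} {ι : Type*} [MeasurableSpace α] [Countable ι] (s : ι → Prop)
    (p : ι → α → Prop) (hp : ∀ i, MeasurableSet {x | p i x}) :
    MeasurableSet {x | ∀ i, s i → p i x} := by
  have h : {x | ∀ i, s i → p i x} = ⋂ i, {x | s i → p i x} := by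
    ext x
    simp
  rw [h]
  apply MeasurableSet.iInter
  intro i
  by_cases hs : s i
  · have : {x | s i → p i x} = {x | p i x} := by
      ext x
      simp [hs]
    rw [this]
    exact hp i
  · have : {x | s i → p i x} = Set.univ := by
      ext x
      simp [hs]
    rw [this]
    exact MeasurableSet.univ

theorem cod_ms_bex {α : Type*} {ι : Type*} [MeasurableSpace α] [Countable ι] (s : ι → Prop)
    (p : ι → α → Prop) (hp : ∀ i, MeasurableSet {x | p i x}) :
    MeasurableSet {x | ∃ i, s i ∧ p i x} := by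
  have h : {x | ∃ i, s i ∧ p i x} = ⋃ i, {x | s i ∧ p i x} := by
    ext x
    simp
  rw [h]
  apply MeasurableSet.iUnion
  intro i
  by_cases hs : s i
  · have : {x | s i ∧ p i x} = {x | p i x} := by
      ext x
      simp [hs]
    rw [this]
    exact hp i
  · have : {x | s i ∧ p i x} = ∅ := by
      ext x
      simp [hs]
    rw [this]
    exact MeasurableSet.empty

include D in
theorem cod_ms_eqY {g h : X → Y} (hg : Measurable g) (hh : Measurable h) :
    MeasurableSet {x | g x = h x} := by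
  have h1 : {x | g x = h x} = {x | D.r (g x) = D.r (h x)} := by
    ext x
    exact ⟨fun h => congrArg D.r h, fun h => D.rinj h⟩
  rw [h1]
  exact measurableSet_eq_fun (D.rm.comp hg) (D.rm.comp hh)

include D in
theorem cod_ms_eqX {g h : X → X} (hg : Measurable g) (hh : Measurable h) :
    MeasurableSet {x | g x = h x} := by
  have h1 : {x | g x = h x} = {x | D.f (g x) = D.f (h x)} := by
    ext x
    exact ⟨fun h => congrArg D.f h, fun h => D.finj h⟩
  rw [h1]
  exact D.cod_ms_eqY (D.fm.comp hg) (D.fm.comp hh)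

open Classical in
/-- one finite set -/
noncomputable def codS (y : Y) (l : List ℕ) : Finset Y := (l.map (fun n => D.δ n y)).toFinset

open Classical in
/-- the family -/
noncomputable def codB (y : Y) (L : List (List ℕ)) : Finset (Finset Y) :=
  (L.map (fun l => D.codS y l)).toFinset

theorem codA_eq (x : X) (L : List (List ℕ)) : D.codA x L = D.codB (D.f x) L := rfl

theorem mem_codS {y z : Y} {l : List ℕ} : z ∈ D.codS y l ↔ ∃ n, n ∈ l ∧ D.δ n y = z := by
  classical
  unfold codS
  rw [List.mem_toFinset, List.mem_map]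

theorem mem_codB {y : Y} {s : Finset Y} {L : List (List ℕ)} :
    s ∈ D.codB y L ↔ ∃ l, l ∈ L ∧ D.codS y l = s := by
  classical
  unfold codB
  rw [List.mem_toFinset, List.mem_map]

theorem cod_ms_S {g h : X → Y} (hg : Measurable g) (hh : Measurable h) (l l' : List ℕ) :
    MeasurableSet {x | D.codS (g x) l = D.codS (h x) l'} := by
  have h1 : {x | D.codS (g x) l = D.codS (h x) l'} =
      {x | ∀ a, a ∈ l → ∃ b, b ∈ l' ∧ D.δ b (h x) = D.δ a (g x)} ∩
      {x | ∀ b, b ∈ l' → ∃ a, a ∈ l ∧ D.δ a (g x) = D.δ b (h x)} := by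
    ext x
    constructor
    · intro hx
      have hx' : D.codS (g x) l = D.codS (h x) l' := hx
      constructor
      · intro a ha
        have : D.δ a (g x) ∈ D.codS (g x) l := D.mem_codS.2 ⟨a, ha, rfl⟩
        rw [hx'] at this
        exact D.mem_codS.1 this
      · intro b hb
        have : D.δ b (h x) ∈ D.codS (h x) l' := D.mem_codS.2 ⟨b, hb, rfl⟩
        rw [← hx'] at this
        exact D.mem_codS.1 this
    · rintro ⟨h2, h3⟩
      show D.codS (g x) l = D.codS (h x) l'
      ext z
      rw [D.mem_codS, D.mem_codS]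
      constructor
      · rintro ⟨a, ha, rfl⟩
        exact h2 a ha
      · rintro ⟨b, hb, rfl⟩
        exact h3 b hb
  rw [h1]
  apply MeasurableSet.inter
  · apply cod_ms_ball
    intro a
    apply cod_ms_bex
    intro b
    exact D.cod_ms_eqY ((D.δm b).comp hh) ((D.δm a).comp hg)
  · apply cod_ms_ball
    intro b
    apply cod_ms_bex
    intro a
    exact D.cod_ms_eqY ((D.δm a).comp hg) ((D.δm b).comp hh)

theorem cod_ms_B {g h : X → Y} (hg : Measurable g) (hh : Measurable h) (L L' : List (List ℕ)) :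
    MeasurableSet {x | D.codB (g x) L = D.codB (h x) L'} := by
  have h1 : {x | D.codB (g x) L = D.codB (h x) L'} =
      {x | ∀ a, a ∈ L → ∃ b, b ∈ L' ∧ D.codS (h x) b = D.codS (g x) a} ∩
      {x | ∀ b, b ∈ L' → ∃ a, a ∈ L ∧ D.codS (g x) a = D.codS (h x) b} := by
    ext x
    constructor
    · intro hx
      have hx' : D.codB (g x) L = D.codB (h x) L' := hx
      constructor
      · intro a ha
        have : D.codS (g x) a ∈ D.codB (g x) L := D.mem_codB.2 ⟨a, ha, rfl⟩
        rw [hx'] at this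
        exact D.mem_codB.1 this
      · intro b hb
        have : D.codS (h x) b ∈ D.codB (h x) L' := D.mem_codB.2 ⟨b, hb, rfl⟩
        rw [← hx'] at this
        exact D.mem_codB.1 this
    · rintro ⟨h2, h3⟩
      show D.codB (g x) L = D.codB (h x) L'
      ext z
      rw [D.mem_codB, D.mem_codB]
      constructor
      · rintro ⟨a, ha, rfl⟩
        exact h2 a ha
      · rintro ⟨b, hb, rfl⟩
        exact h3 b hb
  rw [h1]
  apply MeasurableSet.inter
  · apply cod_ms_ball
    intro a
    apply cod_ms_bex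
    intro b
    exact D.cod_ms_S hh hg b a
  · apply cod_ms_ball
    intro b
    apply cod_ms_bex
    intro a
    exact D.cod_ms_S hg hh a b

theorem cod_form (n : ℕ) :
    (∃ L t, (∃ l ∈ L, l ≠ []) ∧ ∀ x, D.cod x n = (Sum.inl (D.codA x L), t)) ∨
    (∃ k t, ∀ x, D.cod x n = (Sum.inr (D.γ k x), t)) := by
  unfold cod
  rcases (Encodable.decode n : Option ((List (List ℕ) ⊕ ℕ) × List ℕ)) with _ | ⟨L | k, t⟩
  · right
    exact ⟨0, [], fun x => rfl⟩
  · by_cases h : (L.any (fun l => !l.isEmpty)) = true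
    · left
      refine ⟨L, t, ?_, fun x => ?_⟩
      · rw [List.any_eq_true] at h
        obtain ⟨l, hl, hl'⟩ := h
        refine ⟨l, hl, ?_⟩
        rintro rfl
        simp at hl'
      · simp only
        rw [if_pos h]
    · right
      refine ⟨0, t, fun x => ?_⟩
      simp only
      rw [if_neg h]
  · right
    exact ⟨k, t, fun x => rfl⟩

theorem cod_inl (x : X) (L : List (List ℕ)) (hL : ∃ l ∈ L, l ≠ []) (t : List ℕ) :
    D.cod x (Encodable.encode ((Sum.inl L, t) : (List (List ℕ) ⊕ ℕ) × List ℕ)) =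
      (Sum.inl (D.codA x L), t) := by
  have h : (L.any (fun l => !l.isEmpty)) = true := by
    rw [List.any_eq_true]
    obtain ⟨l, hl, hl'⟩ := hL
    exact ⟨l, hl, by simpa using hl'⟩
  unfold cod
  rw [Encodable.encodek]
  simp only
  rw [if_pos h]

theorem cod_inr (x : X) (k : ℕ) (t : List ℕ) :
    D.cod x (Encodable.encode ((Sum.inr k, t) : (List (List ℕ) ⊕ ℕ) × List ℕ)) =
      (Sum.inr (D.γ k x), t) := by
  unfold cod
  rw [Encodable.encodek]

theorem codm [StandardBorelSpace X] [StandardBorelSpace Y] (k c c' : ℕ) :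
    MeasurableSet {x | D.cod (D.γ k x) c = D.cod x c'} := by
  rcases D.cod_form c with ⟨L, t, -, h⟩ | ⟨a, t, h⟩ <;>
    rcases D.cod_form c' with ⟨L', t', -, h'⟩ | ⟨a', t', h'⟩
  · by_cases ht : t = t'
    · have h1 : {x | D.cod (D.γ k x) c = D.cod x c'} =
          {x | D.codB (D.f (D.γ k x)) L = D.codB (D.f x) L'} := by
        ext x
        rw [Set.mem_ofPred_eq, Set.mem_ofPred_eq, h, h', Prod.mk.injEq, Sum.inl.injEq, codA_eq,
          codA_eq]
        exact ⟨fun h => h.1, fun h => ⟨h, ht⟩⟩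
      rw [h1]
      exact D.cod_ms_B (D.fm.comp (D.γm k)) D.fm L L'
    · have h1 : {x | D.cod (D.γ k x) c = D.cod x c'} = ∅ := by
        ext x
        rw [Set.mem_ofPred_eq, h, h', Prod.mk.injEq]
        exact ⟨fun h => ht h.2, fun h => h.elim⟩
      rw [h1]
      exact MeasurableSet.empty
  · have h1 : {x | D.cod (D.γ k x) c = D.cod x c'} = ∅ := by
      ext x
      rw [Set.mem_ofPred_eq, h, h', Prod.mk.injEq]
      exact ⟨fun h => Sum.inl_ne_inr h.1, fun h => h.elim⟩
    rw [h1]
    exact MeasurableSet.empty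
  · have h1 : {x | D.cod (D.γ k x) c = D.cod x c'} = ∅ := by
      ext x
      rw [Set.mem_ofPred_eq, h, h', Prod.mk.injEq]
      exact ⟨fun h => Sum.inr_ne_inl h.1, fun h => h.elim⟩
    rw [h1]
    exact MeasurableSet.empty
  · by_cases ht : t = t'
    · have h1 : {x | D.cod (D.γ k x) c = D.cod x c'} =
          {x | D.γ a (D.γ k x) = D.γ a' x} := by
        ext x
        rw [Set.mem_ofPred_eq, Set.mem_ofPred_eq, h, h', Prod.mk.injEq, Sum.inr.injEq]
        exact ⟨fun h => h.1, fun h => ⟨h, ht⟩⟩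
      rw [h1]
      exact D.cod_ms_eqX ((D.γm a).comp (D.γm k)) (D.γm a')
    · have h1 : {x | D.cod (D.γ k x) c = D.cod x c'} = ∅ := by
        ext x
        rw [Set.mem_ofPred_eq, h, h', Prod.mk.injEq]
        exact ⟨fun h => ht h.2, fun h => h.elim⟩
      rw [h1]
      exact MeasurableSet.empty

/-- Description of the virtual vertices over the class of `x`. -/
theorem cod_iff_inl (x : X) (c : Finset (Finset Y)) (t : List ℕ) :
    (∃ n, D.cod x n = (Sum.inl c, t)) ↔
      (∃ s ∈ c, s.Nonempty) ∧ ∀ s ∈ c, ∀ y ∈ s, ∃ n, D.δ n (D.f x) = y := by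
  classical
  constructor
  · rintro ⟨n, hn⟩
    rcases D.cod_form n with ⟨L, t', ⟨l, hl, hl'⟩, h⟩ | ⟨a, t', h⟩
    · rw [h, Prod.mk.injEq, Sum.inl.injEq] at hn
      obtain ⟨rfl, -⟩ := hn
      rw [codA_eq]
      refine ⟨⟨D.codS (D.f x) l, D.mem_codB.2 ⟨l, hl, rfl⟩, ?_⟩, ?_⟩
      · obtain ⟨m, hm⟩ := List.exists_mem_of_ne_nil l hl'
        exact ⟨_, D.mem_codS.2 ⟨m, hm, rfl⟩⟩
      · intro s hs y hy
        obtain ⟨l', -, rfl⟩ := D.mem_codB.1 hs
        obtain ⟨m, -, hm⟩ := D.mem_codS.1 hy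
        exact ⟨m, hm⟩
    · rw [h, Prod.mk.injEq] at hn
      exact absurd hn.1 Sum.inr_ne_inl
  · rintro ⟨⟨s0, hs0, hs0'⟩, hc⟩
    let ν : Y → ℕ := fun y => if h : ∃ n, D.δ n (D.f x) = y then Nat.find h else 0
    have hν : ∀ s ∈ c, ∀ y ∈ s, D.δ (ν y) (D.f x) = y := by
      intro s hs y hy
      have h := hc s hs y hy
      have h1 : ν y = Nat.find h := dif_pos h
      rw [h1]
      exact Nat.find_spec h
    set L : List (List ℕ) := c.toList.map (fun s => s.toList.map ν) with hL
    have hLne : ∃ l ∈ L, l ≠ [] := by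
      refine ⟨s0.toList.map ν, ?_, ?_⟩
      · rw [hL, List.mem_map]
        exact ⟨s0, Finset.mem_toList.2 hs0, rfl⟩
      · intro h
        rw [List.map_eq_nil_iff, Finset.toList_eq_nil] at h
        exact hs0'.ne_empty h
    refine ⟨_, (D.cod_inl x L hLne t).trans ?_⟩
    congr 2
    rw [codA_eq]
    have hS : ∀ s ∈ c, D.codS (D.f x) (s.toList.map ν) = s := by
      intro s hs
      ext y
      rw [D.mem_codS]
      constructor
      · rintro ⟨m, hm, rfl⟩
        rw [List.mem_map] at hm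
        obtain ⟨y', hy', rfl⟩ := hm
        rw [Finset.mem_toList] at hy'
        rw [hν s hs y' hy']
        exact hy'
      · intro hy
        exact ⟨ν y, List.mem_map.2 ⟨y, Finset.mem_toList.2 hy, rfl⟩, hν s hs y hy⟩
    ext s
    rw [D.mem_codB]
    constructor
    · rintro ⟨l, hl, rfl⟩
      rw [hL, List.mem_map] at hl
      obtain ⟨s', hs', rfl⟩ := hl
      rw [Finset.mem_toList] at hs'
      rw [hS s' hs']
      exact hs'
    · intro hs
      exact ⟨s.toList.map ν, by rw [hL, List.mem_map]; exact ⟨s, Finset.mem_toList.2 hs, rfl⟩,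
        hS s hs⟩

theorem cod_iff_inr (x y : X) (t : List ℕ) :
    (∃ n, D.cod x n = (Sum.inr y, t)) ↔ ∃ n, D.γ n x = y := by
  constructor
  · rintro ⟨n, hn⟩
    rcases D.cod_form n with ⟨L, t', -, h⟩ | ⟨a, t', h⟩
    · rw [h, Prod.mk.injEq] at hn
      exact absurd hn.1 Sum.inl_ne_inr
    · rw [h, Prod.mk.injEq, Sum.inr.injEq] at hn
      exact ⟨a, hn.1⟩
  · rintro ⟨n, rfl⟩
    exact ⟨_, D.cod_inr x n t⟩

theorem codE (x y : X) (h : ∃ n, D.γ n x = y) (v : VVt X Y) (hv : ∃ c, D.cod x c = v) :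
    ∃ c, D.cod y c = v := by
  obtain ⟨v1 | v1, t⟩ := v
  · rw [cod_iff_inl] at hv ⊢
    refine ⟨hv.1, ?_⟩
    intro s hs z hz
    have h1 := hv.2 s hs z hz
    have h2 := (D.red x y).1 h
    exact D.eqvY.trans (D.eqvY.symm h2) h1
  · rw [cod_iff_inr] at hv ⊢
    exact D.eqv.trans (D.eqv.symm h) hv

theorem codI (x y : X) (v : VVt X Y) (hx : ∃ c, D.cod x c = v) (hy : ∃ c, D.cod y c = v) :
    ∃ n, D.γ n x = y := by
  obtain ⟨v1 | v1, t⟩ := v
  · rw [cod_iff_inl] at hx hy
    obtain ⟨⟨s, hs, z, hz⟩, h1⟩ := hx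
    have h2 := h1 s hs z hz
    have h3 := hy.2 s hs z hz
    exact (D.red x y).2 (D.eqvY.trans h2 (D.eqvY.symm h3))
  · rw [cod_iff_inr] at hx hy
    exact D.eqv.trans hx (D.eqv.symm hy)

theorem old_inj : Function.Injective (old : X → VVt X Y) := by
  intro x y h
  unfold old at h
  rw [Prod.mk.injEq, Sum.inr.injEq] at h
  exact h.1

theorem nv_inj (v w : VVt X Y) (k l : ℕ) (h : nv v k = nv w l) : v = w ∧ k = l := by
  unfold nv at h
  rw [Prod.mk.injEq, List.cons.injEq] at h
  exact ⟨Prod.ext h.1 h.2.2, h.2.1⟩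

theorem old_ne (x : X) (v : VVt X Y) (k : ℕ) : old x ≠ nv v k := by
  intro h
  unfold old nv at h
  rw [Prod.mk.injEq] at h
  exact List.cons_ne_nil _ _ h.2.symm

theorem old_cl (x : X) : ∃ c, D.cod x c = old x := by
  unfold old
  rw [cod_iff_inr]
  exact D.eqv.refl x

theorem nv_cl (x : X) (v : VVt X Y) (k : ℕ) :
    (∃ c, D.cod x c = v) ↔ ∃ c, D.cod x c = nv v k := by
  obtain ⟨v1 | v1, t⟩ := v
  · unfold nv
    simp only
    rw [cod_iff_inl, cod_iff_inl]
  · unfold nv
    simp only
    rw [cod_iff_inr, cod_iff_inr]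

theorem oldm [StandardBorelSpace X] [StandardBorelSpace Y] (k c : ℕ) :
    MeasurableSet {x | old (D.γ k x) = D.cod x c} := by
  rcases D.cod_form c with ⟨L, t, -, h⟩ | ⟨a, t, h⟩
  · have h1 : {x | old (D.γ k x) = D.cod x c} = ∅ := by
      ext x
      rw [Set.mem_ofPred_eq, h]
      unfold old
      rw [Prod.mk.injEq]
      exact ⟨fun h => Sum.inr_ne_inl h.1, fun h => h.elim⟩
    rw [h1]
    exact MeasurableSet.empty
  · by_cases ht : [] = t
    · have h1 : {x | old (D.γ k x) = D.cod x c} = {x | D.γ k x = D.γ a x} := by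
        ext x
        rw [Set.mem_ofPred_eq, Set.mem_ofPred_eq, h]
        unfold old
        rw [Prod.mk.injEq, Sum.inr.injEq]
        exact ⟨fun h => h.1, fun h => ⟨h, ht⟩⟩
      rw [h1]
      exact D.cod_ms_eqX (D.γm k) (D.γm a)
    · have h1 : {x | old (D.γ k x) = D.cod x c} = ∅ := by
        ext x
        rw [Set.mem_ofPred_eq, h]
        unfold old
        rw [Prod.mk.injEq]
        exact ⟨fun h => ht h.2, fun h => h.elim⟩
      rw [h1]
      exact MeasurableSet.empty

theorem nvm [StandardBorelSpace X] [StandardBorelSpace Y] (c k c' : ℕ) :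
    MeasurableSet {x | nv (D.cod x c) k = D.cod x c'} := by
  rcases D.cod_form c with ⟨L, t, -, h⟩ | ⟨a, t, h⟩ <;>
    rcases D.cod_form c' with ⟨L', t', -, h'⟩ | ⟨a', t', h'⟩
  · by_cases ht : k :: t = t'
    · have h1 : {x | nv (D.cod x c) k = D.cod x c'} =
          {x | D.codB (D.f x) L = D.codB (D.f x) L'} := by
        ext x
        rw [Set.mem_ofPred_eq, Set.mem_ofPred_eq, h, h']
        unfold nv
        simp only
        rw [Prod.mk.injEq, Sum.inl.injEq, codA_eq, codA_eq]
        exact ⟨fun h => h.1, fun h => ⟨h, ht⟩⟩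
      rw [h1]
      exact D.cod_ms_B D.fm D.fm L L'
    · have h1 : {x | nv (D.cod x c) k = D.cod x c'} = ∅ := by
        ext x
        rw [Set.mem_ofPred_eq, h, h']
        unfold nv
        simp only
        rw [Prod.mk.injEq]
        exact ⟨fun h => ht h.2, fun h => h.elim⟩
      rw [h1]
      exact MeasurableSet.empty
  · have h1 : {x | nv (D.cod x c) k = D.cod x c'} = ∅ := by
      ext x
      rw [Set.mem_ofPred_eq, h, h']
      unfold nv
      simp only
      rw [Prod.mk.injEq]
      exact ⟨fun h => Sum.inl_ne_inr h.1, fun h => h.elim⟩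
    rw [h1]
    exact MeasurableSet.empty
  · have h1 : {x | nv (D.cod x c) k = D.cod x c'} = ∅ := by
      ext x
      rw [Set.mem_ofPred_eq, h, h']
      unfold nv
      simp only
      rw [Prod.mk.injEq]
      exact ⟨fun h => Sum.inr_ne_inl h.1, fun h => h.elim⟩
    rw [h1]
    exact MeasurableSet.empty
  · by_cases ht : k :: t = t'
    · have h1 : {x | nv (D.cod x c) k = D.cod x c'} =
          {x | D.γ a x = D.γ a' x} := by
        ext x
        rw [Set.mem_ofPred_eq, Set.mem_ofPred_eq, h, h']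
        unfold nv
        simp only
        rw [Prod.mk.injEq, Sum.inr.injEq]
        exact ⟨fun h => h.1, fun h => ⟨h, ht⟩⟩
      rw [h1]
      exact D.cod_ms_eqX (D.γm a) (D.γm a')
    · have h1 : {x | nv (D.cod x c) k = D.cod x c'} = ∅ := by
        ext x
        rw [Set.mem_ofPred_eq, h, h']
        unfold nv
        simp only
        rw [Prod.mk.injEq]
        exact ⟨fun h => ht h.2, fun h => h.elim⟩
      rw [h1]
      exact MeasurableSet.empty

end Inp

end Pool.Agent.Helper281.Sc
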