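import Mathlib
import Pool.Agent.Helper281.Sc.L16a

set_option autoImplicit false

namespace Pool.Agent.Helper281.Sc

open Set

universe u v w

namespace Inp

variable {X Y : Type u} [MeasurableSpace X] [MeasurableSpace Y] (D : Inp X Y)

theorem bb_mn {c : Finset (Finset Y)} {y : Y} (h : D.mn c = some y) :
    (∃ s ∈ c, y ∈ s) ∧ ∀ s ∈ c, ∀ z ∈ s, D.r y ≤ D.r z := by
  classical
  unfold mn at h
  split_ifs at h with h1
  have h2 := ((c.biUnion id).exists_min_image D.r h1).choose_spec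
  obtain rfl : ((c.biUnion id).exists_min_image D.r h1).choose = y := by
    simpa using h
  obtain ⟨h3, h4⟩ := h2
  constructor
  · obtain ⟨s, hs, hys⟩ := Finset.mem_biUnion.1 h3
    exact ⟨s, hs, hys⟩
  · intro s hs z hz
    exact h4 z (Finset.mem_biUnion.2 ⟨s, hs, hz⟩)

theorem bb_mn_some {c : Finset (Finset Y)} (h : ∃ s ∈ c, s.Nonempty) : ∃ y, D.mn c = some y := by
  classical
  obtain ⟨s, hs, y, hy⟩ := h
  have h1 : (c.biUnion id).Nonempty := ⟨y, Finset.mem_biUnion.2 ⟨s, hs, hy⟩⟩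
  unfold mn
  rw [dif_pos h1]
  exact ⟨_, rfl⟩

theorem bb_bp [Nonempty X] (x : X) (y : Y) (h : ∃ n, D.δ n (D.f x) = y) :
    ∃ n, D.f (D.bp y) = D.δ n y ∧ ∀ k < n, ¬ ∃ x', D.f x' = D.δ k y := by
  classical
  have h1 : ∃ n, ∃ x, D.f x = D.δ n y := by
    obtain ⟨n, hn⟩ := D.eqvY.symm h
    exact ⟨n, x, hn.symm⟩
  unfold bp
  rw [dif_pos h1]
  refine ⟨Nat.find h1, (Nat.find_spec h1).choose_spec, fun k hk => Nat.find_min h1 hk⟩

theorem base_cl [Nonempty X] (x : X) (v : VVt X Y) (h : ∃ c, D.cod x c = v) :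
    ∃ n, D.γ n x = D.base v := by
  classical
  obtain ⟨v1 | v1, t⟩ := v
  · rw [D.cod_iff_inl] at h
    obtain ⟨h1, h2⟩ := h
    obtain ⟨y, hy⟩ := D.bb_mn_some h1
    obtain ⟨⟨s, hs, hys⟩, -⟩ := D.bb_mn hy
    have h3 := h2 s hs y hys
    obtain ⟨n, hn, -⟩ := D.bb_bp x y h3
    have h4 : D.base (Sum.inl v1, t) = D.bp y := by
      simp only [base, hy]
    rw [h4, D.red]
    exact D.eqvY.trans h3 ⟨n, hn.symm⟩
  · rw [D.cod_iff_inr] at h
    exact h

theorem bj [Nonempty X] (v w : VVt X Y) (hv : ∃ x c, D.cod x c = v) (hw : ∃ x c, D.cod x c = w)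
    (h1 : D.base v = D.base w) (h2 : D.jj v = D.jj w) : v = w := by
  classical
  have key : ∀ (c : Finset (Finset Y)) (t : List ℕ), (∃ x n, D.cod x n = (Sum.inl c, t)) →
      ∃ m : ℕ, D.codA (D.base (Sum.inl c, t)) ((Encodable.decode (α := List (List ℕ)) m).getD [])
        = c := by
    intro c t h
    obtain ⟨x, n, hn⟩ := h
    have hb := D.base_cl x _ ⟨n, hn⟩
    obtain ⟨m, hm⟩ := D.codE x _ hb _ ⟨n, hn⟩
    rcases D.cod_form m with ⟨L, t', -, h⟩ | ⟨a, t', h⟩
    · rw [h, Prod.mk.injEq, Sum.inl.injEq] at hm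
      exact ⟨Encodable.encode L, by rw [Encodable.encodek]; exact hm.1⟩
    · rw [h, Prod.mk.injEq] at hm
      exact absurd hm.1 Sum.inr_ne_inl
  obtain ⟨v1 | v1, t⟩ := v <;> obtain ⟨w1 | w1, t'⟩ := w
  · have hv' := key v1 t hv
    have hw' := key w1 t' hw
    simp only [jj, Nat.pair_eq_pair, true_and] at h2
    rw [dif_pos hv', dif_pos hw'] at h2
    obtain ⟨h3, h4⟩ := h2
    have h5 := Nat.find_spec hv'
    have h6 := Nat.find_spec hw'
    rw [h3, h1] at h5
    have h7 : v1 = w1 := h5.symm.trans h6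
    rw [Encodable.encode_injective h4, h7]
  · simp only [jj, Nat.pair_eq_pair] at h2
    exact absurd h2.1 (by norm_num)
  · simp only [jj, Nat.pair_eq_pair] at h2
    exact absurd h2.1 (by norm_num)
  · simp only [jj, Nat.pair_eq_pair, true_and] at h2
    simp only [base] at h1
    rw [Encodable.encode_injective h2, h1]

theorem basem [StandardBorelSpace X] [StandardBorelSpace Y] [Nonempty X] (c k : ℕ) :
    MeasurableSet {x | D.base (D.cod x c) = D.γ k x} := by
  rcases D.cod_form c with ⟨L, t, hne, h⟩ | ⟨a, t, h⟩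
  · have h1 : {x | D.base (D.cod x c) = D.γ k x} =
        {x | ∃ m, m ∈ L.flatten ∧ ∃ n, True ∧
          x ∈ {x | ∀ m', m' ∈ L.flatten → D.r (D.δ m (D.f x)) ≤ D.r (D.δ m' (D.f x))} ∩
            ({x | ∀ j, j < n → x ∈ {x | ∃ i, True ∧ D.f (D.γ i x) = D.δ j (D.δ m (D.f x))}ᶜ} ∩
              {x | D.f (D.γ k x) = D.δ n (D.δ m (D.f x))})} := by
      ext x
      have hx := D.cod_iff_inl x (D.codA x L) t
      have hx1 := hx.1 ⟨c, h x⟩
      obtain ⟨y, hy⟩ := D.bb_mn_some hx1.1
      obtain ⟨⟨s, hs, hys⟩, hmin⟩ := D.bb_mn hy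
      have h4 : D.base (Sum.inl (D.codA x L), t) = D.bp y := by
        simp only [base, hy]
      obtain ⟨n0, hn0, hn0'⟩ := D.bb_bp x y (hx1.2 s hs y hys)
      have hcl := D.base_cl x _ ⟨c, h x⟩
      rw [h4] at hcl
      simp only [Set.mem_ofPred_eq, Set.mem_inter_iff, Set.mem_compl_iff, true_and]
      rw [h, h4]
      have hmem : ∀ m ∈ L.flatten, ∃ s ∈ D.codA x L, D.δ m (D.f x) ∈ s := by
        intro m hm
        obtain ⟨l, hl, hml⟩ := List.mem_flatten.1 hm
        exact ⟨D.codS (D.f x) l, D.mem_codB.2 ⟨l, hl, rfl⟩, D.mem_codS.2 ⟨m, hml, rfl⟩⟩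
      constructor
      · intro he
        obtain ⟨l, hl, rfl⟩ := D.mem_codB.1 hs
        obtain ⟨m, hm, hm2⟩ := D.mem_codS.1 hys
        refine ⟨m, List.mem_flatten.2 ⟨l, hl, hm⟩, n0, ?_, ?_, ?_⟩
        · intro m' hm'
          obtain ⟨s', hs', hm''⟩ := hmem m' hm'
          rw [hm2]
          exact hmin s' hs' _ hm''
        · rintro j hj ⟨i, hi⟩
          rw [hm2] at hi
          exact hn0' j hj ⟨_, hi⟩
        · rw [← he, hm2]
          exact hn0
      · rintro ⟨m, hm, n, h5, h6, h7⟩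
        have hym : y = D.δ m (D.f x) := by
          apply D.rinj
          apply le_antisymm
          · obtain ⟨s', hs', hm''⟩ := hmem m hm
            exact hmin s' hs' _ hm''
          · obtain ⟨l, hl, rfl⟩ := D.mem_codB.1 hs
            obtain ⟨m', hm', hm2⟩ := D.mem_codS.1 hys
            rw [← hm2]
            exact h5 m' (List.mem_flatten.2 ⟨l, hl, hm'⟩)
        rw [← hym] at h6 h7
        have hnn : n = n0 := by
          rcases lt_trichotomy n n0 with h8 | h8 | h8
          · exact absurd ⟨_, h7⟩ (hn0' n h8)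
          · exact h8
          · obtain ⟨i, hi⟩ := hcl
            exact absurd ⟨i, by rw [hi]; exact hn0⟩ (h6 n0 h8)
        apply D.finj
        rw [hn0, h7, hnn]
    rw [h1]
    apply cod_ms_bex
    intro m
    apply cod_ms_bex
    intro n
    refine MeasurableSet.inter ?_ (MeasurableSet.inter ?_ ?_)
    · apply cod_ms_ball
      intro m'
      exact measurableSet_le (D.rm.comp ((D.δm m).comp D.fm)) (D.rm.comp ((D.δm m').comp D.fm))
    · apply cod_ms_ball
      intro j
      apply MeasurableSet.compl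
      apply cod_ms_bex
      intro i
      exact D.cod_ms_eqY (D.fm.comp (D.γm i)) ((D.δm j).comp ((D.δm m).comp D.fm))
    · exact D.cod_ms_eqY (D.fm.comp (D.γm k)) ((D.δm n).comp ((D.δm m).comp D.fm))
  · have h1 : {x | D.base (D.cod x c) = D.γ k x} = {x | D.γ a x = D.γ k x} := by
      ext x
      rw [Set.mem_ofPred_eq, Set.mem_ofPred_eq, h]
      rfl
    rw [h1]
    exact D.cod_ms_eqX (D.γm a) (D.γm k)

theorem bb_ex [Nonempty X] (c : Finset (Finset Y)) (t : List ℕ)
    (h : ∃ x n, D.cod x n = (Sum.inl c, t)) :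
    ∃ m : ℕ, D.codA (D.base (Sum.inl c, t)) ((Encodable.decode (α := List (List ℕ)) m).getD [])
      = c := by
  obtain ⟨x, n, hn⟩ := h
  have hb := D.base_cl x _ ⟨n, hn⟩
  obtain ⟨m, hm⟩ := D.codE x _ hb _ ⟨n, hn⟩
  rcases D.cod_form m with ⟨L, t', -, h⟩ | ⟨a, t', h⟩
  · rw [h, Prod.mk.injEq, Sum.inl.injEq] at hm
    exact ⟨Encodable.encode L, by rw [Encodable.encodek]; exact hm.1⟩
  · rw [h, Prod.mk.injEq] at hm
    exact absurd hm.1 Sum.inr_ne_inl

theorem jjm [StandardBorelSpace X] [StandardBorelSpace Y] [Nonempty X] (c m : ℕ) :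
    MeasurableSet {x | D.jj (D.cod x c) = m} := by
  classical
  rcases D.cod_form c with ⟨L, t, hne, h⟩ | ⟨a, t, h⟩
  · have h1 : {x | D.jj (D.cod x c) = m} =
        {x | ∃ m0, Nat.pair 0 (Nat.pair m0 (Encodable.encode t)) = m ∧ ∃ k, True ∧
          x ∈ {x | D.base (D.cod x c) = D.γ k x} ∩
            ({x | D.codB (D.f (D.γ k x))
                ((Encodable.decode (α := List (List ℕ)) m0).getD []) = D.codB (D.f x) L} ∩
              {x | ∀ j, j < m0 → x ∈ {x | D.codB (D.f (D.γ k x))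
                ((Encodable.decode (α := List (List ℕ)) j).getD []) = D.codB (D.f x) L}ᶜ})} := by
      ext x
      have hex := D.bb_ex (D.codA x L) t ⟨x, c, h x⟩
      obtain ⟨k0, hk0⟩ := D.base_cl x _ ⟨c, h x⟩
      have hjj : D.jj (Sum.inl (D.codA x L), t) =
          Nat.pair 0 (Nat.pair (Nat.find hex) (Encodable.encode t)) := by
        simp only [jj]
        rw [dif_pos hex]
      simp only [Set.mem_ofPred_eq, Set.mem_inter_iff, Set.mem_compl_iff, true_and]
      rw [h, hjj]
      constructor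
      · intro he
        refine ⟨Nat.find hex, he, k0, hk0.symm, ?_, ?_⟩
        · rw [hk0]
          exact Nat.find_spec hex
        · intro j hj
          rw [hk0]
          exact Nat.find_min hex hj
      · rintro ⟨m0, hm0, k, hk, h2, h3⟩
        have hf : Nat.find hex = m0 := by
          rw [Nat.find_eq_iff]
          constructor
          · rw [hk]
            exact h2
          · intro j hj
            rw [hk]
            exact h3 j hj
        rw [hf]
        exact hm0
    rw [h1]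
    apply cod_ms_bex
    intro m0
    apply cod_ms_bex
    intro k
    refine MeasurableSet.inter (D.basem c k) (MeasurableSet.inter ?_ ?_)
    · exact D.cod_ms_B (D.fm.comp (D.γm k)) D.fm _ _
    · apply cod_ms_ball
      intro j
      exact (D.cod_ms_B (D.fm.comp (D.γm k)) D.fm _ _).compl
  · have h1 : {x | D.jj (D.cod x c) = m} = {x | Nat.pair 1 (Encodable.encode t) = m} := by
      ext x
      rw [Set.mem_ofPred_eq, Set.mem_ofPred_eq, h]
      rfl
    rw [h1]
    exact MeasurableSet.const _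

end Inp

end Pool.Agent.Helper281.Sc
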