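import Mathlib
import Pool.Agent.Helper281.Sc.L16a
import Pool.Agent.Helper281.Sc.L16b

set_option autoImplicit false

namespace Pool.Agent.Helper281.Sc

open Set

universe u v w

namespace Inp

variable {X Y : Type u} [MeasurableSpace X] [MeasurableSpace Y] (D : Inp X Y)

/-- The system attached to the input data. -/
noncomputable def sys [StandardBorelSpace X] [StandardBorelSpace Y] [Nonempty X] :
    Sys X (VVt X Y) where
  γ := D.γ
  γm := D.γm
  eqv := D.eqv
  κ := D.κ
  κm := D.κm
  κs := D.κs
  col := D.col
  colm := D.colm
  colp := D.colp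
  eqm := fun k k' => measurableSet_eq_fun (D.γm k) (D.γm k')
  cod := D.cod
  codm := D.codm
  codE := D.codE
  codI := D.codI
  old := old
  nv := nv
  old_inj := old_inj
  nv_inj := nv_inj
  old_ne := old_ne
  old_cl := D.old_cl
  nv_cl := D.nv_cl
  oldm := D.oldm
  nvm := D.nvm
  base := D.base
  base_cl := D.base_cl
  basem := D.basem
  jj := D.jj
  jjm := D.jjm
  bj := D.bj

variable [StandardBorelSpace X] [StandardBorelSpace Y] [Nonempty X]

/-- The initial map on chains. -/
noncomputable def rho00 (c : Finset (Finset Y)) : X :=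
  D.sys.pick (Sys.key 0 (Encodable.encode (typ c)) (D.jj (Sum.inl c, [])))
    (D.base (Sum.inl c, []))
    ((pss (typ c)).attach.map (fun T => rho00 (c.filter (fun s => s.card ∈ T.1))))
termination_by c.card
decreasing_by exact filter_card_lt T.2

open Classical in
/-- The initial map. -/
noncomputable def rho0 (v : VVt X Y) : X :=
  match v.1 with
  | Sum.inl c => if v.2 = [] ∧ (∅ : Finset Y) ∉ c then D.rho00 c else D.base v
  | Sum.inr _ => D.base v

end Inp

end Pool.Agent.Helper281.Sc
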