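import Mathlib
import Pool.Agent.Helper281.Sc.Lev2

set_option autoImplicit false

namespace Pool.Agent.Helper281.Sc

open Set

universe u v w

namespace Inp

variable {X Y : Type u} [MeasurableSpace X] [MeasurableSpace Y] (D : Inp X Y)
  [StandardBorelSpace X] [StandardBorelSpace Y] [Nonempty X]

omit [StandardBorelSpace X] [StandardBorelSpace Y] [Nonempty X] in
theorem j17_all {ι : Type*} (L : List ι) (p : ι → X → Prop)
    (h : ∀ i ∈ L, MeasurableSet {x | p i x}) : MeasurableSet {x | ∀ i ∈ L, p i x} := by
  induction L with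
  | nil => simp
  | cons a L ih =>
    have : {x | ∀ i ∈ a :: L, p i x} = {x | p a x} ∩ {x | ∀ i ∈ L, p i x} := by
      ext x; simp
    rw [this]
    exact (h a List.mem_cons_self).inter (ih fun i hi => h i (List.mem_cons_of_mem _ hi))

omit [StandardBorelSpace X] [StandardBorelSpace Y] [Nonempty X] in
theorem j17_ex {ι : Type*} (L : List ι) (p : ι → X → Prop)
    (h : ∀ i ∈ L, MeasurableSet {x | p i x}) : MeasurableSet {x | ∃ i ∈ L, p i x} := by
  induction L with
  | nil => simp
  | cons a L ih =>
    have : {x | ∃ i ∈ a :: L, p i x} = {x | p a x} ∪ {x | ∃ i ∈ L, p i x} := by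
      ext x; simp
    rw [this]
    exact (h a List.mem_cons_self).union (ih fun i hi => h i (List.mem_cons_of_mem _ hi))

open Classical in
/-- the finite set coded by a list -/
noncomputable def j17S (x : X) (l : List ℕ) : Finset Y := (l.map (fun n => D.δ n (D.f x))).toFinset

omit [StandardBorelSpace X] [StandardBorelSpace Y] [Nonempty X] in
theorem j17_codA (x : X) (L : List (List ℕ)) :
    ∀ s, s ∈ D.codA x L ↔ ∃ l ∈ L, D.j17S x l = s := by
  intro s
  unfold codA j17S
  simp

omit [StandardBorelSpace X] [StandardBorelSpace Y] [Nonempty X] in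
theorem j17_mem_S (x : X) (l : List ℕ) (y : Y) :
    y ∈ D.j17S x l ↔ ∃ n ∈ l, D.δ n (D.f x) = y := by
  unfold j17S
  simp

omit [StandardBorelSpace X] [Nonempty X] in
theorem j17_eqδ (a b : ℕ) : MeasurableSet {x | D.δ a (D.f x) = D.δ b (D.f x)} :=
  measurableSet_eq_fun ((D.δm a).comp D.fm) ((D.δm b).comp D.fm)

omit [StandardBorelSpace X] [Nonempty X] in
theorem j17_memS (a : ℕ) (l : List ℕ) : MeasurableSet {x | D.δ a (D.f x) ∈ D.j17S x l} := by
  have : {x | D.δ a (D.f x) ∈ D.j17S x l} = {x | ∃ n ∈ l, D.δ n (D.f x) = D.δ a (D.f x)} := by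
    ext x; exact D.j17_mem_S x l _
  rw [this]
  exact j17_ex l _ fun n _ => D.j17_eqδ n a

omit [StandardBorelSpace X] [Nonempty X] in
theorem j17_subS (l l' : List ℕ) : MeasurableSet {x | D.j17S x l ⊆ D.j17S x l'} := by
  have : {x | D.j17S x l ⊆ D.j17S x l'} = {x | ∀ n ∈ l, D.δ n (D.f x) ∈ D.j17S x l'} := by
    ext x
    constructor
    · intro h n hn
      exact h ((D.j17_mem_S x l _).2 ⟨n, hn, rfl⟩)
    · intro h y hy
      obtain ⟨n, hn, rfl⟩ := (D.j17_mem_S x l y).1 hy
      exact h n hn
  rw [this]
  exact j17_all l _ fun n _ => D.j17_memS n l'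

omit [StandardBorelSpace X] [Nonempty X] in
theorem j17_eqS (l l' : List ℕ) : MeasurableSet {x | D.j17S x l = D.j17S x l'} := by
  have : {x | D.j17S x l = D.j17S x l'} = {x | D.j17S x l ⊆ D.j17S x l'} ∩
      {x | D.j17S x l' ⊆ D.j17S x l} := by
    ext x; exact Finset.Subset.antisymm_iff
  rw [this]
  exact (D.j17_subS l l').inter (D.j17_subS l' l)

omit [StandardBorelSpace X] [Nonempty X] in
theorem j17_subA (L L' : List (List ℕ)) : MeasurableSet {x | D.codA x L ⊆ D.codA x L'} := by
  have : {x | D.codA x L ⊆ D.codA x L'} = {x | ∀ l ∈ L, ∃ l' ∈ L', D.j17S x l' = D.j17S x l} := by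
    ext x
    constructor
    · intro h l hl
      exact (D.j17_codA x L' _).1 (h ((D.j17_codA x L _).2 ⟨l, hl, rfl⟩))
    · intro h s hs
      obtain ⟨l, hl, rfl⟩ := (D.j17_codA x L s).1 hs
      exact (D.j17_codA x L' _).2 (h l hl)
  rw [this]
  exact j17_all L _ fun l _ => j17_ex L' _ fun l' _ => D.j17_eqS l' l

omit [StandardBorelSpace X] [Nonempty X] in
theorem j17_card (l : List ℕ) : ∀ n, MeasurableSet {x | (D.j17S x l).card = n} := by
  classical
  induction l with
  | nil =>
    intro n
    have : {x | (D.j17S x []).card = n} = {x | (0 : ℕ) = n} := by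
      ext x; unfold j17S; simp
    rw [this]
    exact MeasurableSet.const _
  | cons a l ih =>
    intro n
    have hS : ∀ x, D.j17S x (a :: l) = insert (D.δ a (D.f x)) (D.j17S x l) := by
      intro x; unfold j17S; simp
    have : {x | (D.j17S x (a :: l)).card = n} =
        ({x | D.δ a (D.f x) ∈ D.j17S x l} ∩ {x | (D.j17S x l).card = n}) ∪
        ({x | D.δ a (D.f x) ∈ D.j17S x l}ᶜ ∩ ⋃ m : ℕ, ({x | (D.j17S x l).card = m} ∩
          {x | m + 1 = n})) := by
      ext x
      simp only [Set.mem_ofPred_eq, mem_union, mem_inter_iff, mem_compl_iff, mem_iUnion, hS]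
      by_cases h : D.δ a (D.f x) ∈ D.j17S x l
      · rw [Finset.insert_eq_of_mem h]
        simp [h]
      · rw [Finset.card_insert_of_notMem h]
        simp [h]
    rw [this]
    exact ((D.j17_memS a l).inter (ih n)).union ((D.j17_memS a l).compl.inter
      (MeasurableSet.iUnion fun m => (ih m).inter (MeasurableSet.const _)))

omit [StandardBorelSpace X] [Nonempty X] in
theorem j17_cards (L : List (List ℕ)) : ∀ v : List ℕ,
    MeasurableSet {x | L.map (fun l => (D.j17S x l).card) = v} := by
  induction L with
  | nil =>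
    intro v
    have : {x : X | ([] : List (List ℕ)).map (fun l => (D.j17S x l).card) = v} =
        {x | ([] : List ℕ) = v} := by
      ext x; simp
    rw [this]
    exact MeasurableSet.const _
  | cons a L ih =>
    intro v
    cases v with
    | nil =>
      have : {x : X | (a :: L).map (fun l => (D.j17S x l).card) = []} = ∅ := by
        ext x; simp
      rw [this]
      exact MeasurableSet.empty
    | cons b v =>
      have : {x : X | (a :: L).map (fun l => (D.j17S x l).card) = b :: v} =
          {x | (D.j17S x a).card = b} ∩ {x | L.map (fun l => (D.j17S x l).card) = v} := by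
        ext x; simp
      rw [this]
      exact (D.j17_card a b).inter (ih v)

omit [StandardBorelSpace X] [StandardBorelSpace Y] [Nonempty X] in
theorem j17_typ_eq (x : X) (L : List (List ℕ)) :
    typ (D.codA x L) = (L.map (fun l => (D.j17S x l).card)).toFinset := by
  classical
  ext n
  unfold typ
  rw [Finset.mem_image, List.mem_toFinset, List.mem_map]
  constructor
  · rintro ⟨s, hs, rfl⟩
    obtain ⟨l, hl, rfl⟩ := (D.j17_codA x L s).1 hs
    exact ⟨l, hl, rfl⟩
  · rintro ⟨l, hl, rfl⟩
    exact ⟨_, (D.j17_codA x L _).2 ⟨l, hl, rfl⟩, rfl⟩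

omit [StandardBorelSpace X] [Nonempty X] in
theorem j17_typ (L : List (List ℕ)) (T : Finset ℕ) : MeasurableSet {x | typ (D.codA x L) = T} := by
  classical
  have : {x | typ (D.codA x L) = T} = ⋃ v : List ℕ,
      ({x | L.map (fun l => (D.j17S x l).card) = v} ∩ {x | v.toFinset = T}) := by
    ext x
    simp only [Set.mem_ofPred_eq, mem_iUnion, mem_inter_iff]
    rw [D.j17_typ_eq]
    constructor
    · intro h; exact ⟨_, rfl, h⟩
    · rintro ⟨v, h1, h2⟩; rw [h1]; exact h2
  rw [this]
  exact MeasurableSet.iUnion fun v => (D.j17_cards L v).inter (MeasurableSet.const _)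

omit [StandardBorelSpace X] [StandardBorelSpace Y] [Nonempty X] in
theorem j17_filter {ι : Type*} (L : List ι) (p : ι → X → Prop) [∀ i x, Decidable (p i x)]
    (h : ∀ i ∈ L, MeasurableSet {x | p i x}) :
    ∀ L' : List ι, MeasurableSet {x | L.filter (fun i => decide (p i x)) = L'} := by
  induction L with
  | nil => intro L'; simp
  | cons a L ih =>
    intro L'
    have ih' := ih fun i hi => h i (List.mem_cons_of_mem _ hi)
    have ha := h a List.mem_cons_self
    have : {x | (a :: L).filter (fun i => decide (p i x)) = L'} =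
        ({x | p a x} ∩ {x | a :: L.filter (fun i => decide (p i x)) = L'}) ∪
        ({x | p a x}ᶜ ∩ {x | L.filter (fun i => decide (p i x)) = L'}) := by
      ext x
      simp only [Set.mem_ofPred_eq, mem_union, mem_inter_iff, mem_compl_iff, List.filter_cons]
      by_cases hp : p a x <;> simp [hp]
    rw [this]
    refine (ha.inter ?_).union (ha.compl.inter (ih' L'))
    cases L' with
    | nil =>
      have : {x : X | a :: L.filter (fun i => decide (p i x)) = []} = ∅ := by
        ext x; simp
      rw [this]
      exact MeasurableSet.empty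
    | cons b L' =>
      have : {x : X | a :: L.filter (fun i => decide (p i x)) = b :: L'} =
          {x | a = b} ∩ {x | L.filter (fun i => decide (p i x)) = L'} := by
        ext x; simp
      rw [this]
      exact (MeasurableSet.const _).inter (ih' L')

omit [StandardBorelSpace X] [StandardBorelSpace Y] [Nonempty X] in
theorem j17_maps {ι : Type*} (A : Set X) (hA : MeasurableSet A) (Ts : List ι) (H : ι → X → X)
    (h : ∀ T ∈ Ts, ∀ k, MeasurableSet (A ∩ {x | H T x = D.γ k x})) :
    ∀ l : List ℕ, MeasurableSet (A ∩ {x | Ts.map (fun T => H T x) = l.map (fun k => D.γ k x)}) := by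
  induction Ts with
  | nil =>
    intro l
    have : {x : X | ([] : List ι).map (fun T => H T x) = l.map (fun k => D.γ k x)} =
        {x | ([] : List ℕ) = l} := by
      ext x; cases l <;> simp
    rw [this]
    exact hA.inter (MeasurableSet.const _)
  | cons T Ts ih =>
    intro l
    cases l with
    | nil =>
      have : {x : X | (T :: Ts).map (fun T => H T x) = ([] : List ℕ).map (fun k => D.γ k x)} =
          ∅ := by
        ext x; simp
      rw [this]
      simp
    | cons b l =>
      have : A ∩ {x : X | (T :: Ts).map (fun T => H T x) = (b :: l).map (fun k => D.γ k x)} =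
          (A ∩ {x | H T x = D.γ b x}) ∩
            (A ∩ {x | Ts.map (fun T => H T x) = l.map (fun k => D.γ k x)}) := by
        ext x
        simp only [mem_inter_iff, Set.mem_ofPred_eq, List.map_cons, List.cons.injEq]
        tauto
      rw [this]
      exact (h T List.mem_cons_self b).inter
        (ih (fun T' hT' => h T' (List.mem_cons_of_mem _ hT')) l)

omit [StandardBorelSpace X] [StandardBorelSpace Y] [Nonempty X] in
open Classical in
theorem j17_codA_filter (x : X) (L : List (List ℕ)) (T : Finset ℕ) :
    (D.codA x L).filter (fun s => s.card ∈ T) =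
      D.codA x (L.filter (fun l => decide ((D.j17S x l).card ∈ T))) := by
  ext s
  rw [Finset.mem_filter, D.j17_codA, D.j17_codA]
  constructor
  · rintro ⟨⟨l, hl, rfl⟩, h⟩
    exact ⟨l, List.mem_filter.2 ⟨hl, by simpa using h⟩, rfl⟩
  · rintro ⟨l, hl, rfl⟩
    have := List.mem_filter.1 hl
    exact ⟨⟨l, this.1, rfl⟩, by simpa using this.2⟩

theorem j17_rho00 (c : Finset (Finset Y)) : D.rho00 c =
    D.sys.pick (Sys.key 0 (Encodable.encode (typ c)) (D.jj (Sum.inl c, [])))
    (D.base (Sum.inl c, []))
    ((pss (typ c)).map (fun T => D.rho00 (c.filter (fun s => s.card ∈ T)))) := by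
  rw [rho00]
  congr 1
  exact List.attach_map_val (l := pss (typ c)) (f := fun T => D.rho00 (c.filter (fun s => s.card ∈ T)))

omit [StandardBorelSpace X] [StandardBorelSpace Y] [Nonempty X] in
theorem j17_cod (x : X) (L : List (List ℕ)) (t : List ℕ) (hL : L ≠ []) (hl : ∀ l ∈ L, l ≠ []) :
    D.cod x (Encodable.encode ((Sum.inl L, t) : (List (List ℕ) ⊕ ℕ) × List ℕ)) =
      (Sum.inl (D.codA x L), t) := by
  unfold cod
  rw [Encodable.encodek]
  have : L.any (fun l => !l.isEmpty) = true := by
    obtain ⟨a, L', rfl⟩ := List.exists_cons_of_ne_nil hL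
    rw [List.any_eq_true]
    refine ⟨a, List.mem_cons_self, ?_⟩
    have := hl a List.mem_cons_self
    cases a with
    | nil => exact absurd rfl this
    | cons _ _ => rfl
  simp only [this, if_true]

theorem j17_rho00_E (x : X) (L : List (List ℕ)) (hL : L ≠ []) (hl : ∀ l ∈ L, l ≠ []) :
    ∃ n, D.γ n x = D.rho00 (D.codA x L) := by
  obtain ⟨n, hn⟩ := D.base_cl x (Sum.inl (D.codA x L), []) ⟨_, D.j17_cod x L [] hL hl⟩
  rw [D.j17_rho00]
  exact D.eqv.trans ⟨n, hn⟩ (D.sys.pick_E _ _ _)

theorem j17_main (N : ℕ) : ∀ L : List (List ℕ), L.length ≤ N → L ≠ [] → (∀ l ∈ L, l ≠ []) →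
    ∀ k, MeasurableSet {x | D.rho00 (D.codA x L) = D.γ k x} := by
  classical
  induction N with
  | zero =>
    intro L h1 h2
    exact absurd (List.length_eq_zero_iff.1 (Nat.le_zero.1 h1)) h2
  | succ N ih =>
    intro L hN hL hl k
    set W : X → List X := fun x => (pss (typ (D.codA x L))).map
      (fun T => D.rho00 ((D.codA x L).filter (fun s => s.card ∈ T))) with hW
    -- values of the recursion
    have hsub : ∀ x T, T ∈ pss (typ (D.codA x L)) →
        (L.filter (fun l => decide ((D.j17S x l).card ∈ T))).length ≤ N ∧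
        L.filter (fun l => decide ((D.j17S x l).card ∈ T)) ≠ [] := by
      intro x T hT
      unfold pss at hT
      rw [Finset.mem_toList, Finset.mem_filter, Finset.mem_ssubsets] at hT
      obtain ⟨⟨h1, h2⟩, h3⟩ := hT
      constructor
      · obtain ⟨a, ha, haT⟩ := Finset.not_subset.1 h2
        rw [D.j17_typ_eq, List.mem_toFinset, List.mem_map] at ha
        obtain ⟨l, hl1, rfl⟩ := ha
        have : (L.filter (fun l => decide ((D.j17S x l).card ∈ T))).length < L.length := by
          rw [List.length_filter_lt_length_iff_exists]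
          exact ⟨l, hl1, by simpa using haT⟩
        omega
      · obtain ⟨a, ha⟩ := h3
        have ha2 := h1 ha
        rw [D.j17_typ_eq, List.mem_toFinset, List.mem_map] at ha2
        obtain ⟨l, hl1, rfl⟩ := ha2
        intro he
        have : l ∈ L.filter (fun l => decide ((D.j17S x l).card ∈ T)) :=
          List.mem_filter.2 ⟨hl1, by simpa using ha⟩
        rw [he] at this
        simp at this
    have hWE : ∀ x, ∃ l : List ℕ, W x = l.map (fun m => D.γ m x) := by
      intro x
      have : ∀ Ts : List (Finset ℕ), (∀ T ∈ Ts, T ∈ pss (typ (D.codA x L))) →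
          ∃ l : List ℕ, Ts.map (fun T => D.rho00 ((D.codA x L).filter (fun s => s.card ∈ T))) =
            l.map (fun m => D.γ m x) := by
        intro Ts
        induction Ts with
        | nil => intro _; exact ⟨[], rfl⟩
        | cons T Ts ihT =>
          intro h
          obtain ⟨l, hl'⟩ := ihT fun T' hT' => h T' (List.mem_cons_of_mem _ hT')
          have hT := hsub x T (h T List.mem_cons_self)
          obtain ⟨n, hn⟩ := D.j17_rho00_E x _ hT.2
            (fun l hl1 => hl l (List.mem_filter.1 hl1).1)
          refine ⟨n :: l, ?_⟩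
          rw [List.map_cons, List.map_cons, hl', D.j17_codA_filter, hn]
      exact this _ fun _ h => h
    have hWm : ∀ l : List ℕ, MeasurableSet {x | W x = l.map (fun m => D.γ m x)} := by
      intro l
      have e1 : {x | W x = l.map (fun m => D.γ m x)} = ⋃ T0 : Finset ℕ,
          ({x | typ (D.codA x L) = T0} ∩ {x | (pss T0).map
            (fun T => D.rho00 ((D.codA x L).filter (fun s => s.card ∈ T))) =
              l.map (fun m => D.γ m x)}) := by
        ext x
        simp only [Set.mem_ofPred_eq, mem_iUnion, mem_inter_iff, hW]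
        constructor
        · intro h; exact ⟨_, rfl, h⟩
        · rintro ⟨T0, h1, h2⟩; rw [h1]; exact h2
      rw [e1]
      refine MeasurableSet.iUnion fun T0 => ?_
      refine D.j17_maps _ (D.j17_typ L T0) (pss T0)
        (fun T x => D.rho00 ((D.codA x L).filter (fun s => s.card ∈ T))) ?_ l
      intro T hT k
      have e2 : {x | typ (D.codA x L) = T0} ∩
          {x | D.rho00 ((D.codA x L).filter (fun s => s.card ∈ T)) = D.γ k x} =
          ⋃ L' : List (List ℕ), ({x | typ (D.codA x L) = T0} ∩
            ({x | L.filter (fun l => decide ((D.j17S x l).card ∈ T)) = L'} ∩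
              {x | D.rho00 (D.codA x L') = D.γ k x})) := by
        ext x
        simp only [Set.mem_ofPred_eq, mem_iUnion, mem_inter_iff]
        rw [D.j17_codA_filter]
        constructor
        · rintro ⟨h1, h2⟩; exact ⟨_, h1, rfl, h2⟩
        · rintro ⟨L', h1, h2, h3⟩; rw [h2]; exact ⟨h1, h3⟩
      rw [e2]
      refine MeasurableSet.iUnion fun L' => ?_
      by_cases hL' : L'.length ≤ N ∧ L' ≠ [] ∧ ∀ l ∈ L', l ≠ []
      · refine (D.j17_typ L T0).inter (MeasurableSet.inter ?_ (ih L' hL'.1 hL'.2.1 hL'.2.2 k))
        refine j17_filter L (fun l x => (D.j17S x l).card ∈ T) ?_ L'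
        intro l _
        have : {x | (D.j17S x l).card ∈ T} = ⋃ n : ℕ, ({x | (D.j17S x l).card = n} ∩
            {x | n ∈ T}) := by
          ext x; simp
        rw [this]
        exact MeasurableSet.iUnion fun n => (D.j17_card l n).inter (MeasurableSet.const _)
      · have : {x | typ (D.codA x L) = T0} ∩
            ({x | L.filter (fun l => decide ((D.j17S x l).card ∈ T)) = L'} ∩
              {x | D.rho00 (D.codA x L') = D.γ k x}) = ∅ := by
          ext x
          simp only [mem_inter_iff, Set.mem_ofPred_eq, mem_empty_iff_false, iff_false]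
          rintro ⟨h1, h2, _⟩
          apply hL'
          rw [← h1] at hT
          have h3 := hsub x T hT
          rw [h2] at h3
          refine ⟨h3.1, h3.2, fun l hl' => hl l ?_⟩
          rw [← h2] at hl'
          exact (List.mem_filter.1 hl').1
        rw [this]
        exact MeasurableSet.empty
    set n0 := Encodable.encode ((Sum.inl L, []) : (List (List ℕ) ⊕ ℕ) × List ℕ) with hn0
    have hcod : ∀ x, D.cod x n0 = (Sum.inl (D.codA x L), []) := fun x => D.j17_cod x L [] hL hl
    have e3 : {x | D.rho00 (D.codA x L) = D.γ k x} =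
        ⋃ (a : ℕ) (l : List ℕ) (T0 : Finset ℕ) (j : ℕ) (m : ℕ) (d : ℕ),
          ({x | D.base (D.cod x n0) = D.γ a x} ∩ ({x | W x = l.map (fun m => D.γ m x)} ∩
          ({x | typ (D.codA x L) = T0} ∩ ({x | D.jj (D.cod x n0) = j} ∩
          ({x | D.col ((a :: l).map (fun m => D.γ m x)) = m} ∩
          ({x | D.κ (D.γ d (D.γ a x)) = Nat.pair (Sys.key 0 (Encodable.encode T0) j) m} ∩
          ({x | ∀ d' ∈ List.range d,
            D.κ (D.γ d' (D.γ a x)) ≠ Nat.pair (Sys.key 0 (Encodable.encode T0) j) m} ∩
          {x | D.γ d (D.γ a x) = D.γ k x}))))))) := by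
      ext x
      simp only [mem_iUnion, mem_inter_iff, Set.mem_ofPred_eq, hcod, List.mem_range]
      constructor
      · intro hx
        obtain ⟨a, ha⟩ := D.base_cl x (Sum.inl (D.codA x L), []) ⟨n0, hcod x⟩
        obtain ⟨l, hl'⟩ := hWE x
        rw [D.j17_rho00] at hx
        unfold Sys.pick at hx
        have hfs := Nat.find_spec (D.sys.ex_κ (D.base (Sum.inl (D.codA x L), []))
          (Nat.pair (Sys.key 0 (Encodable.encode (typ (D.codA x L)))
            (D.jj (Sum.inl (D.codA x L), [])))
            (D.sys.col (D.base (Sum.inl (D.codA x L), []) :: W x))))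
        have hfm := fun d' => Nat.find_min (m := d') (D.sys.ex_κ (D.base (Sum.inl (D.codA x L), []))
          (Nat.pair (Sys.key 0 (Encodable.encode (typ (D.codA x L)))
            (D.jj (Sum.inl (D.codA x L), [])))
            (D.sys.col (D.base (Sum.inl (D.codA x L), []) :: W x))))
        refine ⟨a, l, _, _, _, Nat.find (D.sys.ex_κ (D.base (Sum.inl (D.codA x L), []))
          (Nat.pair (Sys.key 0 (Encodable.encode (typ (D.codA x L)))
            (D.jj (Sum.inl (D.codA x L), [])))
            (D.sys.col (D.base (Sum.inl (D.codA x L), []) :: W x)))),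
            ha.symm, hl', rfl, rfl, rfl, ?_, ?_, ?_⟩
        · rw [List.map_cons, ← hl', ha]; exact hfs
        · intro d' hd'
          rw [List.map_cons, ← hl', ha]; exact hfm d' hd'
        · rw [ha]; exact hx
      · rintro ⟨a, l, T0, j, m, d, h1, h2, h3, h4, h5, h6, h7, h8⟩
        rw [← h8, D.j17_rho00]
        unfold Sys.pick
        change D.γ _ _ = _
        rw [← h1]
        congr 1
        rw [Nat.find_eq_iff]
        rw [List.map_cons, ← h2, ← h1] at h5
        constructor
        · change D.κ (D.γ d _) = Nat.pair _ (D.col (_ :: W x))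
          rw [h5, h4, h3, h1]; exact h6
        · intro d' hd'
          change ¬ (D.κ (D.γ d' _) = Nat.pair _ (D.col (_ :: W x)))
          rw [h5, h4, h3, h1]; exact h7 d' hd'
    rw [e3]
    refine MeasurableSet.iUnion fun a => MeasurableSet.iUnion fun l => MeasurableSet.iUnion fun T0 =>
      MeasurableSet.iUnion fun j => MeasurableSet.iUnion fun m => MeasurableSet.iUnion fun d => ?_
    have hκ : ∀ d n, MeasurableSet {x | D.κ (D.γ d (D.γ a x)) = n} := fun d n =>
      (D.κm.comp ((D.γm d).comp (D.γm a))) (MeasurableSet.singleton n)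
    refine (D.basem n0 a).inter ((hWm l).inter ((D.j17_typ L T0).inter ((D.jjm n0 j).inter
      (MeasurableSet.inter ?_ ((hκ d _).inter (MeasurableSet.inter ?_ ?_))))))
    · exact (D.colm (a :: l)) (MeasurableSet.singleton m)
    · exact j17_all (List.range d) _ fun d' _ => (hκ d' _).compl
    · exact measurableSet_eq_fun ((D.γm d).comp (D.γm a)) (D.γm k)

theorem rho0_E (x : X) (v : VVt X Y) (h : D.sys.In x v) : D.sys.E x (D.rho0 v) := by
  classical
  have hb : ∃ n, D.γ n x = D.base v := D.base_cl x v h
  obtain ⟨v1, t⟩ := v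
  unfold rho0
  cases v1 with
  | inr y => exact hb
  | inl c =>
    simp only
    split_ifs with hc
    · obtain ⟨h1, h2⟩ := hc
      have h1' : t = [] := h1
      subst h1'
      rw [D.j17_rho00]
      exact D.eqv.trans hb (D.sys.pick_E _ _ _)
    · exact hb

/-- The initial map is locally Borel. -/
theorem rho0_lb : D.sys.LBρ D.rho0 := by
  classical
  intro n k
  change MeasurableSet {x | D.rho0 (D.cod x n) = D.γ k x}
  have hbase : (∀ x, D.rho0 (D.cod x n) = D.base (D.cod x n)) →
      MeasurableSet {x | D.rho0 (D.cod x n) = D.γ k x} := by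
    intro h
    simp only [h]
    exact D.basem n k
  rcases hdec : (Encodable.decode n : Option ((List (List ℕ) ⊕ ℕ) × List ℕ)) with _ | ⟨a, t⟩
  · apply hbase
    intro x
    unfold cod
    rw [hdec]
    rfl
  · cases a with
    | inr m =>
      apply hbase
      intro x
      unfold cod
      rw [hdec]
      rfl
    | inl L =>
      by_cases hany : L.any (fun l => !l.isEmpty) = true
      · have hc : ∀ x, D.cod x n = (Sum.inl (D.codA x L), t) := by
          intro x
          unfold cod
          rw [hdec]
          simp only [hany, if_true]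
        by_cases ht : t = [] ∧ [] ∉ L
        · obtain ⟨rfl, hnil⟩ := ht
          have hL : L ≠ [] := by rintro rfl; simp at hany
          have hl : ∀ l ∈ L, l ≠ [] := by
            intro l hl he
            rw [he] at hl
            exact hnil hl
          have hval : ∀ x, D.rho0 (D.cod x n) = D.rho00 (D.codA x L) := by
            intro x
            rw [hc x]
            unfold rho0
            simp only
            rw [if_pos]
            refine ⟨trivial, ?_⟩
            intro hmem
            obtain ⟨l, hl1, hl2⟩ := (D.j17_codA x L ∅).1 hmem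
            obtain ⟨a, l', rfl⟩ := List.exists_cons_of_ne_nil (hl l hl1)
            have : D.δ a (D.f x) ∈ D.j17S x (a :: l') :=
              (D.j17_mem_S x _ _).2 ⟨a, List.mem_cons_self, rfl⟩
            rw [hl2] at this
            simp at this
          simp only [hval]
          exact D.j17_main L.length L le_rfl hL hl k
        · apply hbase
          intro x
          rw [hc x]
          unfold rho0
          simp only
          rw [if_neg]
          rintro ⟨h1, h2⟩
          apply ht
          refine ⟨h1, fun hnil => h2 ?_⟩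
          refine (D.j17_codA x L ∅).2 ⟨[], hnil, ?_⟩
          unfold j17S
          simp
      · apply hbase
        intro x
        have : D.cod x n = (Sum.inr (D.γ 0 x), t) := by
          unfold cod
          rw [hdec]
          simp only [hany, if_false, Bool.false_eq_true]
        rw [this]
        rfl

/-- good codes -/
def j17good (n : ℕ) (L : List (List ℕ)) : Prop :=
  (Encodable.decode n : Option ((List (List ℕ) ⊕ ℕ) × List ℕ)) = some (Sum.inl L, []) ∧
    L.any (fun l => !l.isEmpty) = true

omit [StandardBorelSpace X] [StandardBorelSpace Y] [Nonempty X] in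
theorem j17_good_cod {n : ℕ} {L : List (List ℕ)} (h : j17good n L) (x : X) :
    D.cod x n = (Sum.inl (D.codA x L), []) := by
  unfold cod
  rw [h.1]
  simp only [h.2, if_true]

omit [StandardBorelSpace X] [StandardBorelSpace Y] [Nonempty X] in
theorem j17_good_of {n : ℕ} {x : X} {c : Finset (Finset Y)} (h : D.cod x n = (Sum.inl c, [])) :
    ∃ L, j17good n L := by
  unfold cod at h
  rcases hdec : (Encodable.decode n : Option ((List (List ℕ) ⊕ ℕ) × List ℕ)) with _ | ⟨a, t⟩
  · rw [hdec] at h
    simp at h
  · rw [hdec] at h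
    cases a with
    | inr m => simp at h
    | inl L =>
      simp only at h
      split_ifs at h with hany
      · simp only [Prod.mk.injEq] at h
        refine ⟨L, ?_, hany⟩
        rw [hdec, h.2]
      · simp at h

omit [MeasurableSpace Y] [StandardBorelSpace X] [StandardBorelSpace Y] [Nonempty X] in
theorem j17_inst {V : Type*} (i1 i2 : DecidableEq V) (l : X → List V) (M : Set (Finset V))
    (h : MeasurableSet {x | (@List.toFinset _ i1 (l x)) ∈ M}) :
    MeasurableSet {x | (@List.toFinset _ i2 (l x)) ∈ M} := by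
  have e : i1 = i2 := Subsingleton.elim _ _
  subst e
  exact h

open Classical in
/-- The initial complex is locally Borel. -/
theorem M0_lb (K : Set (Finset Y)) (hK : ∀ L : List ℕ,
    MeasurableSet {x | (L.map (fun n => D.δ n (D.f x))).toFinset ∈ K}) :
    D.sys.LBM (D.M0 K) := by
  intro L
  suffices hmain : MeasurableSet {x | (L.map (D.cod x)).toFinset ∈ D.M0 K} by
    exact j17_inst _ _ (fun x => L.map (D.cod x)) (D.M0 K) hmain
  by_cases hgood : ∀ n ∈ L, ∃ Ln, j17good n Ln
  swap
  · have : {x | (L.map (D.cod x)).toFinset ∈ D.M0 K} = ∅ := by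
      ext x
      simp only [Set.mem_ofPred_eq, mem_empty_iff_false, iff_false]
      rintro ⟨t, _, ht⟩
      apply hgood
      intro n hn
      have : D.cod x n ∈ (L.map (D.cod x)).toFinset :=
        List.mem_toFinset.2 (List.mem_map.2 ⟨n, hn, rfl⟩)
      rw [ht, Finset.mem_image] at this
      obtain ⟨c, _, hc⟩ := this
      exact D.j17_good_of hc.symm
    rw [this]
    exact MeasurableSet.empty
  have hex : ∀ n, ∃ Ln, n ∈ L → j17good n Ln := by
    intro n
    by_cases hn : n ∈ L
    · obtain ⟨Ln, h⟩ := hgood n hn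
      exact ⟨Ln, fun _ => h⟩
    · exact ⟨[], fun h => absurd h hn⟩
  choose Ls hLs using hex
  have key : {x | (L.map (D.cod x)).toFinset ∈ D.M0 K} =
      {x | L ≠ []} ∩ ({x | ∀ n ∈ L, ∀ l ∈ Ls n, D.j17S x l ∈ K} ∩
        ({x | ∀ n ∈ L, ∀ l ∈ Ls n, ∀ l' ∈ Ls n, D.j17S x l ⊆ D.j17S x l' ∨ D.j17S x l' ⊆ D.j17S x l} ∩
        {x | ∀ n ∈ L, ∀ n' ∈ L, D.codA x (Ls n) ⊆ D.codA x (Ls n') ∨
          D.codA x (Ls n') ⊆ D.codA x (Ls n)})) := by
    ext x
    have hcod : ∀ n ∈ L, D.cod x n = (Sum.inl (D.codA x (Ls n)), []) :=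
      fun n hn => D.j17_good_cod (hLs n hn) x
    have hset : (L.map (D.cod x)).toFinset =
        ((L.map (fun n => D.codA x (Ls n))).toFinset).image
          (fun c => ((Sum.inl c, ([] : List ℕ)) : VVt X Y)) := by
      ext v
      rw [List.mem_toFinset, List.mem_map, Finset.mem_image]
      constructor
      · rintro ⟨n, hn, rfl⟩
        exact ⟨_, List.mem_toFinset.2 (List.mem_map.2 ⟨n, hn, rfl⟩), (hcod n hn).symm⟩
      · rintro ⟨c, hc, rfl⟩
        obtain ⟨n, hn, rfl⟩ := List.mem_map.1 (List.mem_toFinset.1 hc)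
        exact ⟨n, hn, hcod n hn⟩
    have hinj : Function.Injective (fun c : Finset (Finset Y) =>
        ((Sum.inl c, ([] : List ℕ)) : VVt X Y)) := by
      intro a b h
      simpa using h
    have hmem : ∀ c, c ∈ (L.map (fun n => D.codA x (Ls n))).toFinset ↔
        ∃ n ∈ L, D.codA x (Ls n) = c := by
      intro c
      rw [List.mem_toFinset, List.mem_map]
    simp only [Set.mem_ofPred_eq, mem_inter_iff]
    constructor
    · rintro ⟨t, ht, he⟩
      rw [hset] at he
      have he' := Finset.image_injective hinj he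
      obtain ⟨h1, h2, h3⟩ := ht
      rw [← he'] at h1 h2 h3
      refine ⟨?_, ?_, ?_, ?_⟩
      · rintro rfl
        simp at h1
      · intro n hn l hl
        have h4 := h2 _ ((hmem _).2 ⟨n, hn, rfl⟩)
        exact (h4.2.1 _ ((D.j17_codA x _ _).2 ⟨l, hl, rfl⟩)).1
      · intro n hn l hl l' hl'
        have h4 := h2 _ ((hmem _).2 ⟨n, hn, rfl⟩)
        exact h4.2.2 _ ((D.j17_codA x _ _).2 ⟨l, hl, rfl⟩) _ ((D.j17_codA x _ _).2 ⟨l', hl', rfl⟩)
      · intro n hn n' hn'
        exact h3 _ ((hmem _).2 ⟨n, hn, rfl⟩) _ ((hmem _).2 ⟨n', hn', rfl⟩)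
    · rintro ⟨h1, h2, h3, h4⟩
      refine ⟨(L.map (fun n => D.codA x (Ls n))).toFinset, ⟨?_, ?_, ?_⟩, hset⟩
      · obtain ⟨a, L', rfl⟩ := List.exists_cons_of_ne_nil h1
        exact ⟨_, (hmem _).2 ⟨a, List.mem_cons_self, rfl⟩⟩
      · intro c hc
        obtain ⟨n, hn, rfl⟩ := (hmem c).1 hc
        refine ⟨?_, ?_, ?_⟩
        · have hany := (hLs n hn).2
          rw [List.any_eq_true] at hany
          obtain ⟨l, hl, _⟩ := hany
          exact ⟨_, (D.j17_codA x _ _).2 ⟨l, hl, rfl⟩⟩
        · intro s hs
          obtain ⟨l, hl, rfl⟩ := (D.j17_codA x _ _).1 hs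
          refine ⟨h2 n hn l hl, x, ?_⟩
          intro y hy
          obtain ⟨m, _, hm⟩ := (D.j17_mem_S x l y).1 hy
          exact ⟨m, hm⟩
        · intro s hs t ht
          obtain ⟨l, hl, rfl⟩ := (D.j17_codA x _ _).1 hs
          obtain ⟨l', hl', rfl⟩ := (D.j17_codA x _ _).1 ht
          exact h3 n hn l hl l' hl'
      · intro c hc c' hc'
        obtain ⟨n, hn, rfl⟩ := (hmem c).1 hc
        obtain ⟨n', hn', rfl⟩ := (hmem c').1 hc'
        exact h4 n hn n' hn'
  rw [key]
  refine (MeasurableSet.const _).inter (MeasurableSet.inter ?_ (MeasurableSet.inter ?_ ?_))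
  · exact j17_all L _ fun n _ => j17_all (Ls n) _ fun l _ => hK l
  · exact j17_all L _ fun n _ => j17_all (Ls n) _ fun l _ => j17_all (Ls n) _ fun l' _ =>
      (D.j17_subS l l').union (D.j17_subS l' l)
  · exact j17_all L _ fun n _ => j17_all L _ fun n' _ =>
      (D.j17_subA _ _).union (D.j17_subA _ _)

end Inp

end Pool.Agent.Helper281.Sc
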