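import Mathlib
import Pool.Agent.Helper281.Sc.Lev2

set_option autoImplicit false

namespace Pool.Agent.Helper281.Sc

open Set

universe u v w

namespace Inp

variable {X Y : Type u} [MeasurableSpace X] [MeasurableSpace Y] (D : Inp X Y)
  [StandardBorelSpace X] [StandardBorelSpace Y] [Nonempty X]

theorem j3557_eq {α : Type*} {s t : Finset α} (h : s ⊆ t ∨ t ⊆ s) (hc : s.card = t.card) :
    s = t := by
  rcases h with h | h
  · exact Finset.eq_of_subset_of_card_le h hc.ge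
  · exact (Finset.eq_of_subset_of_card_le h hc.le).symm

theorem j3557_max {α : Type*} {t : Finset (Finset α)} (hne : t.Nonempty)
    (hch : ∀ s ∈ t, ∀ s' ∈ t, s ⊆ s' ∨ s' ⊆ s) : ∃ m ∈ t, ∀ c ∈ t, c ⊆ m := by
  obtain ⟨m, hm, hmax⟩ := t.exists_max_image Finset.card hne
  refine ⟨m, hm, fun c hc => ?_⟩
  rcases hch c hc m hm with h | h
  · exact h
  · exact (Finset.eq_of_subset_of_card_le h (hmax c hc)).symm.subset

theorem j3557_card {α : Type*} {t : Finset (Finset α)}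
    (hch : ∀ s ∈ t, ∀ s' ∈ t, s ⊆ s' ∨ s' ⊆ s) {N : ℕ} (h1 : ∀ s ∈ t, 1 ≤ s.card)
    (h2 : ∀ s ∈ t, s.card ≤ N) : t.card ≤ N := by
  have h3 : t.card ≤ (Finset.Icc 1 N).card :=
    Finset.card_le_card_of_injOn Finset.card
      (fun s hs => Finset.mem_coe.2 (Finset.mem_Icc.2 ⟨h1 s hs, h2 s hs⟩))
      (fun s hs s' hs' hss => j3557_eq (hch s hs s' hs') hss)
  rwa [Nat.card_Icc, Nat.add_sub_cancel] at h3

theorem j3557_sd {V : Type u} {K : Set (Finset V)} {c c' : Finset (Finset V)} (h : c ∈ Sd0 K)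
    (hs : c' ⊆ c) (hne : c'.Nonempty) : c' ∈ Sd0 K :=
  ⟨hne, fun s hs' => h.2.1 s (hs hs'), fun s hs1 t ht => h.2.2 s (hs hs1) t (hs ht)⟩

theorem j3557_mem {K : Set (Finset Y)} {s : Finset (VVt X Y)} (h : s ∈ D.M0 K) :
    ∃ t ∈ Sd0 (Sd0 (D.Kx K)), ∀ v, v ∈ s ↔ ∃ c ∈ t, v = (Sum.inl c, ([] : List ℕ)) := by
  classical
  obtain ⟨t, ht, rfl⟩ := h
  refine ⟨t, ht, fun v => ?_⟩
  rw [Finset.mem_image]
  constructor
  · rintro ⟨c, hc, rfl⟩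
    exact ⟨c, hc, rfl⟩
  · rintro ⟨c, hc, rfl⟩
    exact ⟨c, hc, rfl⟩

theorem j3557_mem' {K : Set (Finset Y)} {s : Finset (VVt X Y)} {t : Finset (Finset (Finset Y))}
    (ht : t ∈ Sd0 (Sd0 (D.Kx K)))
    (h : ∀ v, v ∈ s ↔ ∃ c ∈ t, v = (Sum.inl c, ([] : List ℕ))) : s ∈ D.M0 K := by
  classical
  refine ⟨t, ht, ?_⟩
  ext v
  rw [Finset.mem_image, h]
  constructor
  · rintro ⟨c, hc, rfl⟩
    exact ⟨c, hc, rfl⟩
  · rintro ⟨c, hc, rfl⟩
    exact ⟨c, hc, rfl⟩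

theorem j3557_inj {c d : Finset (Finset Y)}
    (h : ((Sum.inl c, ([] : List ℕ)) : VVt X Y) = (Sum.inl d, [])) : c = d :=
  Sum.inl_injective (congrArg Prod.fst h)

theorem M0_cx (K : Set (Finset Y)) : IsCx (D.M0 K) := by
  classical
  constructor
  · intro h
    obtain ⟨t, ht, hv⟩ := D.j3557_mem h
    obtain ⟨c, hc⟩ := ht.1
    exact Finset.notMem_empty _ ((hv (Sum.inl c, [])).2 ⟨c, hc, rfl⟩)
  · intro s hs u hus hne
    obtain ⟨t, ht, hv⟩ := D.j3557_mem hs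
    refine D.j3557_mem' (t := t.filter (fun c => ((Sum.inl c, ([] : List ℕ)) : VVt X Y) ∈ u))
      (j3557_sd ht (Finset.filter_subset _ _) ?_) ?_
    · obtain ⟨v, hvu⟩ := hne
      obtain ⟨c, hc, rfl⟩ := (hv v).1 (hus hvu)
      exact ⟨c, Finset.mem_filter.2 ⟨hc, hvu⟩⟩
    · intro v
      constructor
      · intro hvu
        obtain ⟨c, hc, rfl⟩ := (hv v).1 (hus hvu)
        exact ⟨c, Finset.mem_filter.2 ⟨hc, hvu⟩, rfl⟩
      · rintro ⟨c, hc, rfl⟩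
        exact (Finset.mem_filter.1 hc).2

theorem j3557_In {K : Set (Finset Y)} (hne : IsCx K) {c : Finset (Finset Y)}
    (hc : c ∈ Sd0 (D.Kx K)) {x : X} (hx : ∀ s ∈ c, ∀ y ∈ s, ∃ n, D.δ n (D.f x) = y) :
    ∃ n, D.cod x n = (Sum.inl c, ([] : List ℕ)) := by
  rw [D.cod_iff_inl]
  refine ⟨?_, hx⟩
  obtain ⟨s, hs⟩ := hc.1
  refine ⟨s, hs, ?_⟩
  rw [Finset.nonempty_iff_ne_empty]
  intro h0
  exact hne.1 (h0 ▸ (hc.2.1 s hs).1)

theorem j3557_over {K : Set (Finset Y)} {t : Finset (Finset (Finset Y))}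
    (ht : t ∈ Sd0 (Sd0 (D.Kx K))) :
    ∃ x, ∀ c ∈ t, ∀ s ∈ c, ∀ y ∈ s, ∃ n, D.δ n (D.f x) = y := by
  obtain ⟨c₀, hc₀, hmax⟩ := j3557_max ht.1 ht.2.2
  obtain ⟨s₀, hs₀, hmax'⟩ := j3557_max (ht.2.1 c₀ hc₀).1 (ht.2.1 c₀ hc₀).2.2
  obtain ⟨x, hx⟩ := ((ht.2.1 c₀ hc₀).2.1 s₀ hs₀).2
  exact ⟨x, fun c hc s hs y hy => hx y (hmax' s (hmax c hc hs) hy)⟩

theorem M0_cls (K : Set (Finset Y)) (hne : IsCx K) :
    ∀ s ∈ D.M0 K, ∃ x, ∀ v ∈ s, D.sys.In x v := by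
  intro s hs
  obtain ⟨t, ht, hv⟩ := D.j3557_mem hs
  obtain ⟨x, hx⟩ := D.j3557_over ht
  refine ⟨x, fun v hvs => ?_⟩
  obtain ⟨c, hc, rfl⟩ := (hv v).1 hvs
  exact D.j3557_In hne (ht.2.1 c hc) (hx c hc)

theorem M0_card (K : Set (Finset Y)) (hK : IsCx K) (n : ℕ) (hc : ∀ s ∈ K, s.card ≤ n + 1) :
    ∀ s ∈ D.M0 K, s.card ≤ n + 1 := by
  classical
  intro s hs
  obtain ⟨t, ht, rfl⟩ := hs
  refine Finset.card_image_le.trans ?_
  have h1 : ∀ c ∈ t, c.card ≤ n + 1 := by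
    intro c hct
    have h2 := ht.2.1 c hct
    refine j3557_card h2.2.2 (fun s hs => ?_) (fun s hs => hc s (h2.2.1 s hs).1)
    rw [Nat.one_le_iff_ne_zero, Ne, Finset.card_eq_zero]
    intro h0
    exact hK.1 (h0 ▸ (h2.2.1 s hs).1)
  exact j3557_card ht.2.2 (fun c hct => (ht.2.1 c hct).1.card_pos) h1

theorem j3557_empty {K : Set (Finset Y)} (hK : IsCx K) {c : Finset (Finset Y)}
    (hc : c ∈ Sd0 (D.Kx K)) : (∅ : Finset Y) ∉ c := fun h => hK.1 (hc.2.1 _ h).1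

theorem j3557_rho0 {c : Finset (Finset Y)} (hc : (∅ : Finset Y) ∉ c) :
    D.rho0 (Sum.inl c, []) = D.rho00 c := by
  unfold rho0
  simp only [if_pos (show (([] : List ℕ) = [] ∧ (∅ : Finset Y) ∉ c) from ⟨rfl, hc⟩)]

/-- the list of the values at the proper faces -/
noncomputable def j3557_W (c : Finset (Finset Y)) : List X :=
  (pss (typ c)).attach.map (fun T => D.rho00 (c.filter (fun s => s.card ∈ T.1)))

theorem j3557_rho00 (c : Finset (Finset Y)) :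
    D.rho00 c = D.sys.pick (Sys.key 0 (Encodable.encode (typ c)) (D.jj (Sum.inl c, [])))
      (D.base (Sum.inl c, [])) (D.j3557_W c) := by
  unfold j3557_W
  rw [rho00]

theorem j3557_κ (c : Finset (Finset Y)) :
    D.κ (D.rho00 c) = Nat.pair (Sys.key 0 (Encodable.encode (typ c)) (D.jj (Sum.inl c, [])))
      (D.col (D.base (Sum.inl c, []) :: D.j3557_W c)) := by
  rw [j3557_rho00]
  exact D.sys.κ_pick _ _ _

theorem M0_lv (K : Set (Finset Y)) (hK : IsCx K) :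
    ∀ v, {v} ∈ D.M0 K → D.sys.lev (D.rho0 v) ≤ 0 := by
  intro v hv
  obtain ⟨t, ht, h⟩ := D.j3557_mem hv
  obtain ⟨c, hc, rfl⟩ := (h v).1 (Finset.mem_singleton_self v)
  rw [D.j3557_rho0 (D.j3557_empty hK (ht.2.1 c hc))]
  unfold Sys.lev
  have h1 : D.sys.κ (D.rho00 c) = _ := D.j3557_κ c
  rw [h1, Nat.unpair_pair]
  unfold Sys.key
  rw [Nat.unpair_pair]

theorem j3557_mem_pss {T U : Finset ℕ} : T ∈ pss U ↔ T ⊂ U ∧ T.Nonempty := by
  unfold pss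
  rw [Finset.mem_toList, Finset.mem_filter, Finset.mem_ssubsets]

theorem j3557_mem_W {c : Finset (Finset Y)} {x : X} : x ∈ D.j3557_W c ↔
    ∃ T ∈ pss (typ c), x = D.rho00 (c.filter (fun s => s.card ∈ T)) := by
  unfold j3557_W
  rw [List.mem_map]
  constructor
  · rintro ⟨⟨T, hT⟩, _, rfl⟩
    exact ⟨T, hT, rfl⟩
  · rintro ⟨T, hT, rfl⟩
    exact ⟨⟨T, hT⟩, List.mem_attach _ _, rfl⟩

theorem j3557_filter {e c : Finset (Finset Y)} (he : ∀ s ∈ e, ∀ t ∈ e, s ⊆ t ∨ t ⊆ s)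
    (hc : c ⊆ e) : e.filter (fun s => s.card ∈ typ c) = c := by
  ext s
  rw [Finset.mem_filter]
  constructor
  · rintro ⟨h1, h2⟩
    unfold typ at h2
    obtain ⟨s', hs', h3⟩ := Finset.mem_image.1 h2
    have h4 : s' = s := j3557_eq (he s' (hc hs') s h1) h3
    exact h4 ▸ hs'
  · intro h
    exact ⟨hc h, Finset.mem_image_of_mem _ h⟩

theorem j3557_typ {e c d : Finset (Finset Y)} (he : ∀ s ∈ e, ∀ t ∈ e, s ⊆ t ∨ t ⊆ s)
    (hc : c ⊆ e) (hd : d ⊆ e) (h : typ c = typ d) : c = d := by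
  rw [← j3557_filter he hc, h, j3557_filter he hd]

theorem j3557_rho00_E {K : Set (Finset Y)} (hK : IsCx K) {c : Finset (Finset Y)}
    (hc : c ∈ Sd0 (D.Kx K)) {x : X} (hx : ∀ s ∈ c, ∀ y ∈ s, ∃ n, D.δ n (D.f x) = y) :
    (∃ n, D.γ n x = D.base (Sum.inl c, [])) ∧ ∃ n, D.γ n x = D.rho00 c := by
  have h1 : ∃ n, D.γ n x = D.base (Sum.inl c, []) := D.base_cl x _ (D.j3557_In hK hc hx)
  refine ⟨h1, D.eqv.trans h1 ?_⟩
  rw [j3557_rho00]
  exact D.sys.pick_E _ _ _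

theorem j3557_list {K : Set (Finset Y)} (hK : IsCx K) {c : Finset (Finset Y)}
    (hc : c ∈ Sd0 (D.Kx K)) :
    ∀ x ∈ D.base (Sum.inl c, []) :: D.j3557_W c, ∀ y ∈ D.base (Sum.inl c, []) :: D.j3557_W c,
      ∃ n, D.γ n x = y := by
  obtain ⟨x₀, hx₀⟩ : ∃ x, ∀ s ∈ c, ∀ y ∈ s, ∃ n, D.δ n (D.f x) = y := by
    obtain ⟨s₀, hs₀, hmax⟩ := j3557_max hc.1 hc.2.2
    obtain ⟨x, hx⟩ := (hc.2.1 s₀ hs₀).2
    exact ⟨x, fun s hs y hy => hx y (hmax s hs hy)⟩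
  have key : ∀ x ∈ D.base (Sum.inl c, []) :: D.j3557_W c, ∃ n, D.γ n x₀ = x := by
    intro x hx
    rw [List.mem_cons] at hx
    rcases hx with rfl | hx
    · exact (D.j3557_rho00_E hK hc hx₀).1
    · obtain ⟨T, hT, rfl⟩ := D.j3557_mem_W.1 hx
      obtain ⟨hT1, hT2⟩ := j3557_mem_pss.1 hT
      refine (D.j3557_rho00_E hK (j3557_sd hc (Finset.filter_subset _ _) ?_)
        (fun s hs => hx₀ s (Finset.mem_filter.1 hs).1)).2
      obtain ⟨a, ha⟩ := hT2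
      have h2 := hT1.1 ha
      unfold typ at h2
      obtain ⟨s, hs, rfl⟩ := Finset.mem_image.1 h2
      exact ⟨s, Finset.mem_filter.2 ⟨hs, ha⟩⟩
  intro x hx y hy
  exact D.eqv.trans (D.eqv.symm (key x hx)) (key y hy)

theorem j3557_P1 {c d : Finset (Finset Y)} (h : D.rho00 c = D.rho00 d) :
    typ c = typ d ∧ D.jj (Sum.inl c, []) = D.jj (Sum.inl d, []) ∧
      D.col (D.base (Sum.inl c, []) :: D.j3557_W c) =
        D.col (D.base (Sum.inl d, []) :: D.j3557_W d) := by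
  have h1 := congrArg D.κ h
  rw [j3557_κ, j3557_κ, Nat.pair_eq_pair] at h1
  obtain ⟨h2, h3⟩ := h1
  unfold Sys.key at h2
  rw [Nat.pair_eq_pair, Nat.pair_eq_pair] at h2
  exact ⟨Encodable.encode_injective h2.2.1, h2.2.2, h3⟩

theorem j3557_P2 {K : Set (Finset Y)} (hK : IsCx K) {c d : Finset (Finset Y)}
    (hc : c ∈ Sd0 (D.Kx K)) (hd : d ∈ Sd0 (D.Kx K)) (h : D.rho00 c = D.rho00 d)
    (hx : ∃ x, x ∈ D.j3557_W c ∧ x ∈ D.j3557_W d) : c = d := by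
  obtain ⟨h1, h2, h3⟩ := D.j3557_P1 h
  obtain ⟨x, hx1, hx2⟩ := hx
  have h4 := D.colp _ _ (D.j3557_list hK hc) (D.j3557_list hK hd) h3
    ⟨x, List.mem_cons_of_mem _ hx1, List.mem_cons_of_mem _ hx2⟩
  have h5 : D.base (Sum.inl c, []) = D.base (Sum.inl d, []) := (List.cons.inj h4).1
  have hin : ∀ e ∈ Sd0 (D.Kx K), ∃ x n, D.cod x n = (Sum.inl e, ([] : List ℕ)) := by
    intro e he
    obtain ⟨s₀, hs₀, hmax⟩ := j3557_max he.1 he.2.2
    obtain ⟨x, hx⟩ := (he.2.1 s₀ hs₀).2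
    exact ⟨x, D.j3557_In hK he (fun s hs y hy => hx y (hmax s hs hy))⟩
  exact j3557_inj (D.bj _ _ (hin c hc) (hin d hd) h5 h2)

/-- two nested pairs with the same values: the larger chains agree -/
theorem j3557_P3 {K : Set (Finset Y)} (hK : IsCx K) {c c' d d' : Finset (Finset Y)}
    (hc : c ∈ Sd0 (D.Kx K)) (hc' : c' ∈ Sd0 (D.Kx K)) (hd : d ∈ Sd0 (D.Kx K))
    (hd' : d' ∈ Sd0 (D.Kx K)) (h : D.rho00 c = D.rho00 d) (h' : D.rho00 c' = D.rho00 d')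
    (hcc : c ⊆ c') (hne : c ≠ c') (hdd : d ⊆ d' ∨ d' ⊆ d) : c' = d' ∧ c = d := by
  have ht := (D.j3557_P1 h).1
  have ht' := (D.j3557_P1 h').1
  have hsub : typ c ⊆ typ c' := Finset.image_subset_image hcc
  have hne' : typ c ≠ typ c' := fun h0 =>
    hne (j3557_typ hc'.2.2 hcc (Finset.Subset.refl _) h0)
  have hdd' : d ⊆ d' := by
    rcases hdd with h0 | h0
    · exact h0
    · exfalso
      apply hne'
      apply Finset.Subset.antisymm hsub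
      rw [ht, ht']
      exact Finset.image_subset_image h0
  have hm1 : D.rho00 c ∈ D.j3557_W c' := by
    rw [j3557_mem_W]
    refine ⟨typ c, j3557_mem_pss.2 ⟨Finset.ssubset_iff_subset_ne.2 ⟨hsub, hne'⟩,
      hc.1.image _⟩, ?_⟩
    rw [j3557_filter hc'.2.2 hcc]
  have hm2 : D.rho00 d ∈ D.j3557_W d' := by
    rw [j3557_mem_W]
    refine ⟨typ d, j3557_mem_pss.2 ⟨Finset.ssubset_iff_subset_ne.2
      ⟨Finset.image_subset_image hdd', ?_⟩, hd.1.image _⟩, ?_⟩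
    · rw [← ht, ← ht']
      exact hne'
    · rw [j3557_filter hd'.2.2 hdd']
  have h1 : c' = d' := D.j3557_P2 hK hc' hd' h' ⟨D.rho00 c, hm1, h ▸ hm2⟩
  refine ⟨h1, ?_⟩
  subst h1
  exact j3557_typ hc'.2.2 hcc hdd' ht

theorem j3557_injOn {K : Set (Finset Y)} (hK : IsCx K) {s : Finset (VVt X Y)} (hs : s ∈ D.M0 K) :
    Set.InjOn D.rho0 (s : Set (VVt X Y)) := by
  obtain ⟨t, ht, hv⟩ := D.j3557_mem hs
  intro v hvs w hws hvw
  obtain ⟨c, hc, rfl⟩ := (hv v).1 hvs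
  obtain ⟨d, hd, rfl⟩ := (hv w).1 hws
  rw [D.j3557_rho0 (D.j3557_empty hK (ht.2.1 c hc)),
    D.j3557_rho0 (D.j3557_empty hK (ht.2.1 d hd))] at hvw
  have h1 := (D.j3557_P1 hvw).1
  have h2 : c = d := by
    rcases ht.2.2 c hc d hd with h | h
    · exact j3557_typ (ht.2.1 d hd).2.2 h (Finset.Subset.refl _) h1
    · exact j3557_typ (ht.2.1 c hc).2.2 (Finset.Subset.refl _) h h1
  rw [h2]

open Classical in
theorem M0_ul (K : Set (Finset Y)) (hK : IsCx K) : UL (D.M0 K) D.rho0 := by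
  refine ⟨fun s hs => D.j3557_injOn hK hs, ?_⟩
  intro s hs t ht h2 him
  have hsub : s ⊆ t := by
    obtain ⟨S, hS, hvS⟩ := D.j3557_mem hs
    obtain ⟨T, hT, hvT⟩ := D.j3557_mem ht
    have hpart : ∀ c ∈ S, ∃ d ∈ T, D.rho00 c = D.rho00 d := by
      intro c hc
      have h3 : D.rho0 (Sum.inl c, []) ∈ t.image D.rho0 := by
        rw [← him]
        exact Finset.mem_image_of_mem _ ((hvS _).2 ⟨c, hc, rfl⟩)
      obtain ⟨w, hw, h4⟩ := Finset.mem_image.1 h3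
      obtain ⟨d, hd, rfl⟩ := (hvT w).1 hw
      rw [D.j3557_rho0 (D.j3557_empty hK (hS.2.1 c hc)),
        D.j3557_rho0 (D.j3557_empty hK (hT.2.1 d hd))] at h4
      exact ⟨d, hd, h4.symm⟩
    intro v hv
    obtain ⟨c, hc, rfl⟩ := (hvS v).1 hv
    obtain ⟨w, hw, hwv⟩ := Finset.exists_mem_ne (by omega : 1 < s.card)
      ((Sum.inl c, ([] : List ℕ)) : VVt X Y)
    obtain ⟨c', hc', rfl⟩ := (hvS w).1 hw
    have hne : c' ≠ c := fun h0 => hwv (by rw [h0])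
    obtain ⟨d, hd, hcd⟩ := hpart c hc
    obtain ⟨d', hd', hcd'⟩ := hpart c' hc'
    have h5 : c = d := by
      rcases hS.2.2 c hc c' hc' with h0 | h0
      · exact (D.j3557_P3 hK (hS.2.1 c hc) (hS.2.1 c' hc') (hT.2.1 d hd) (hT.2.1 d' hd') hcd hcd'
          h0 hne.symm (hT.2.2 d hd d' hd')).2
      · exact (D.j3557_P3 hK (hS.2.1 c' hc') (hS.2.1 c hc) (hT.2.1 d' hd') (hT.2.1 d hd) hcd' hcd
          h0 hne (hT.2.2 d' hd' d hd)).1
    exact (hvT _).2 ⟨c, h5 ▸ hd, rfl⟩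
  apply Finset.eq_of_subset_of_card_le hsub
  rw [← Finset.card_image_of_injOn (D.j3557_injOn hK hs),
    ← Finset.card_image_of_injOn (D.j3557_injOn hK ht), him]

open Classical in
/-- Over one class, `M0` is a relabelling of the second subdivision of the complex over this
class. -/
theorem M0_ovr (K : Set (Finset Y)) (hK : IsCx K) (x : X) :
    D.sys.ovr (D.M0 K) x = {s | ∃ t ∈ Sd0 (Sd0 {s ∈ K | ∀ y ∈ s, ∃ n, D.δ n (D.f x) = y}),
      s = t.image (fun c => ((Sum.inl c : Finset (Finset Y) ⊕ X), ([] : List ℕ)))} := by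
  ext s
  constructor
  · rintro ⟨hs, hIn⟩
    obtain ⟨t, ht, hv⟩ := D.j3557_mem hs
    refine ⟨t, ⟨ht.1, fun c hc => ?_, ht.2.2⟩, ?_⟩
    · have h1 : ∃ n, D.cod x n = (Sum.inl c, ([] : List ℕ)) :=
        hIn _ ((hv _).2 ⟨c, hc, rfl⟩)
      rw [D.cod_iff_inl] at h1
      have h2 := ht.2.1 c hc
      exact ⟨h2.1, fun s' hs' => ⟨(h2.2.1 s' hs').1, h1.2 s' hs'⟩, h2.2.2⟩
    · ext v
      rw [Finset.mem_image, hv]
      constructor
      · rintro ⟨c, hc, rfl⟩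
        exact ⟨c, hc, rfl⟩
      · rintro ⟨c, hc, rfl⟩
        exact ⟨c, hc, rfl⟩
  · rintro ⟨t, ht, rfl⟩
    have ht' : t ∈ Sd0 (Sd0 (D.Kx K)) :=
      ⟨ht.1, fun c hc => ⟨(ht.2.1 c hc).1, fun s hs => ⟨((ht.2.1 c hc).2.1 s hs).1, x,
        ((ht.2.1 c hc).2.1 s hs).2⟩, (ht.2.1 c hc).2.2⟩, ht.2.2⟩
    refine ⟨D.j3557_mem' ht' ?_, ?_⟩
    · intro v
      rw [Finset.mem_image]
      constructor
      · rintro ⟨c, hc, rfl⟩
        exact ⟨c, hc, rfl⟩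
      · rintro ⟨c, hc, rfl⟩
        exact ⟨c, hc, rfl⟩
    · intro v hv
      obtain ⟨c, hc, rfl⟩ := Finset.mem_image.1 hv
      exact D.j3557_In hK (ht'.2.1 c hc) (fun s hs => ((ht.2.1 c hc).2.1 s hs).2)

end Inp

end Pool.Agent.Helper281.Sc
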