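import Mathlib
import Pool.Agent.Helper281.Sc.Dom

set_option autoImplicit false

namespace Pool.Agent.Helper281.Sc.Un

open Set Topology

universe u v w

variable {V : Type u} {K : Set (Finset V)}

/-- the vertex point -/
theorem vtx_mem [DecidableEq V] {s : Finset V} {v : V} (hv : v ∈ s) :
    (fun u => if u = v then (1 : ℝ) else 0) ∈ Simp s := by
  refine ⟨fun u => ?_, fun u hu => ?_, ?_⟩
  · show (0 : ℝ) ≤ if u = v then (1 : ℝ) else 0
    split_ifs
    · exact zero_le_one
    · exact le_rfl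
  · show (if u = v then (1 : ℝ) else 0) = 0
    rw [if_neg]
    rintro rfl
    exact hu hv
  · rw [Finset.sum_ite_eq' s v, if_pos hv]

/-- An increasing union of complexes, each null-homotopic in the next one, is contractible. -/
theorem ctr_iUnion (L : ℕ → Set (Finset V)) (hL : ∀ i, IsCx (L i)) (hmono : ∀ i, L i ⊆ L (i + 1))
    (hnull : ∀ i, ∃ (z0 : Rlz (L (i + 1))) (H : Rlz (L i) × unitInterval → Rlz (L (i + 1))),
      Continuous H ∧ (∀ x, (H (x, 0)).1 = x.1) ∧ ∀ x, H (x, 1) = z0)
    (hne : (L 0).Nonempty) : Ctr (⋃ i, L i) := by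
  classical
  have hmonoL : Monotone L := monotone_nat_of_le_succ hmono
  have hU : IsCx (⋃ i, L i) := by
    constructor
    · intro h
      obtain ⟨i, hi⟩ := mem_iUnion.1 h
      exact (hL i).1 hi
    · intro s hs t ht hn
      obtain ⟨i, hi⟩ := mem_iUnion.1 hs
      exact mem_iUnion.2 ⟨i, (hL i).2 s hi t ht hn⟩
  set U : Set (Finset V) := ⋃ i, L i with hUdef
  have hLU : ∀ i, L i ⊆ U := fun i => subset_iUnion L i
  let ι : Finset V → ℕ := fun s => sInf {i | s ∈ L i}
  have hι : ∀ s ∈ U, s ∈ L (ι s) := by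
    intro s hs
    obtain ⟨i, hi⟩ := mem_iUnion.1 hs
    exact Nat.sInf_mem (s := {i | s ∈ L i}) ⟨i, hi⟩
  have hιle : ∀ s i, s ∈ L i → ι s ≤ i := fun s i hi => Nat.sInf_le hi
  have hcard : ∀ s ∈ U, 1 ≤ s.card := by
    intro s hs
    rw [Nat.one_le_iff_ne_zero, Ne, Finset.card_eq_zero]
    rintro rfl
    exact hU.1 hs
  obtain ⟨s0, hs0⟩ := hne
  have hs0n : s0.Nonempty := by
    rw [Finset.nonempty_iff_ne_empty]
    rintro rfl
    exact (hL 0).1 hs0
  obtain ⟨v0, hv0⟩ := hs0n
  let z : Rlz U := Rlz.inc s0 (hLU 0 hs0) ⟨_, vtx_mem hv0⟩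
  have hz : ∀ i, z ∈ Sub U (L i) := by
    intro i
    exact ⟨s0, hmonoL (Nat.zero_le i) hs0, vtx_mem hv0⟩
  obtain ⟨H, hH, h0, h1⟩ := carrier_homotopic hU (fun s => Sub U (L (ι s + s.card - 1)))
    (fun s => Sub U (L (ι s + s.card))) (by
      intro s hs t ht hn
      apply Sub_mono
      apply hmonoL
      have h1 : ι t ≤ ι s := hιle t _ ((hL _).2 s (hι s hs) t ht.1 hn)
      have h2 : t.card < s.card := Finset.card_lt_card ht
      omega) (by
      intro s hs
      have h1 := hcard s hs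
      obtain ⟨k, hk⟩ : ∃ k, ι s + s.card = k + 1 := ⟨ι s + s.card - 1, by omega⟩
      obtain ⟨z0, H, hH, h0, h1⟩ := hnull k
      show NullIn (Sub U (L (ι s + s.card - 1))) (Sub U (L (ι s + s.card)))
      rw [hk, Nat.add_sub_cancel]
      exact nullIn_of_homotopy (hL k) (hLU k) (hLU (k + 1)) z0 H hH h0 h1)
    id (fun _ => z) continuous_id continuous_const (by
      intro s hs x
      have h1 := hcard s hs
      exact mem_Sub_of_mem hs (hmonoL (by omega : ι s ≤ ι s + s.card - 1) (hι s hs)) x) (by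
      intro s hs x
      exact hz _)
  exact ⟨z, H, hH, h0, h1⟩

/-- closed simplices are contractible -/
theorem ctr_Cl {s : Finset V} (hs : s.Nonempty) : Ctr (Cl s) := by
  classical
  obtain ⟨v, hv⟩ := hs
  have hsC : s ∈ Cl s := ⟨Finset.Subset.refl s, ⟨v, hv⟩⟩
  have hx : ∀ x : Rlz (Cl s), x.1 ∈ Simp s := by
    rintro ⟨x, t, ht, hx⟩
    exact Simp_mono ht.1 hx
  have hmem : ∀ (x : V → ℝ), x ∈ Simp s → ∀ t : unitInterval,
      (fun u => (1 - (t : ℝ)) * x u + (t : ℝ) * (if u = v then (1 : ℝ) else 0)) ∈ Simp s := by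
    intro x hx t
    have hv' := vtx_mem hv
    refine ⟨fun u => ?_, fun u hu => ?_, ?_⟩
    · exact add_nonneg (mul_nonneg (sub_nonneg.2 t.2.2) (hx.1 u)) (mul_nonneg t.2.1 (hv'.1 u))
    · have h1 := hx.2.1 u hu
      have h2 := hv'.2.1 u hu
      simp only at h2
      show (1 - (t : ℝ)) * x u + (t : ℝ) * (if u = v then (1 : ℝ) else 0) = 0
      rw [h1, h2, mul_zero, mul_zero, add_zero]
    · rw [Finset.sum_add_distrib, ← Finset.mul_sum, ← Finset.mul_sum, hx.2.2, hv'.2.2]
      ring
  refine ⟨Rlz.inc s hsC ⟨_, vtx_mem hv⟩,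
    fun p => Rlz.inc s hsC ⟨_, hmem p.1.1 (hx p.1) p.2⟩, ?_, ?_, ?_⟩
  · apply Rlz.continuous_prod
    intro t ht
    have h1 : Continuous (fun p : Simp t × unitInterval =>
        (⟨_, hmem p.1.1 (Simp_mono ht.1 p.1.2) p.2⟩ : Simp s)) := by
      apply Continuous.subtype_mk
      apply continuous_pi
      intro u
      have h2 : Continuous (fun p : Simp t × unitInterval => p.1.1 u) :=
        (continuous_apply u).comp (continuous_subtype_val.comp continuous_fst)
      have h3 : Continuous (fun p : Simp t × unitInterval => ((p.2 : unitInterval) : ℝ)) :=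
        continuous_subtype_val.comp continuous_snd
      exact ((continuous_const.sub h3).mul h2).add (h3.mul continuous_const)
    exact (Rlz.continuous_inc s hsC).comp h1
  · intro x
    apply Rlz.ext'
    show (fun u => (1 - ((0 : unitInterval) : ℝ)) * x.1 u +
      ((0 : unitInterval) : ℝ) * (if u = v then (1 : ℝ) else 0)) = x.1
    funext u
    simp
  · intro x
    apply Rlz.ext'
    show (fun u => (1 - ((1 : unitInterval) : ℝ)) * x.1 u +
      ((1 : unitInterval) : ℝ) * (if u = v then (1 : ℝ) else 0)) = fun u => if u = v then (1 : ℝ) else 0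
    funext u
    simp

theorem Cl_mono {s t : Finset V} (h : s ⊆ t) : Cl s ⊆ Cl t :=
  fun _ hr => ⟨hr.1.trans h, hr.2⟩

theorem nonempty_of_mem (hK : IsCx K) {s : Finset V} (hs : s ∈ K) : s.Nonempty := by
  rw [Finset.nonempty_iff_ne_empty]
  rintro rfl
  exact hK.1 hs

theorem carrier_image {W : Type v} [DecidableEq W] {P : Set (Finset V)} {N : Set (Finset W)}
    (hP : IsCx P) (hN : IsCx N) (a : V → W) (ha : ∀ s ∈ P, s.image a ∈ N) :
    IsCarrier P N (fun s => Cl (s.image a)) where
  cx s _ := isCx_Cl _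
  sub s hs := Cl_sub hN (ha s hs)
  mono s _ t ht _ := Cl_mono (Finset.image_subset_image ht)
  ctr s hs := ctr_Cl ((nonempty_of_mem hP hs).image a)

/-- If an inclusion of complexes factors, simplicially, through a contractible complex, then it
is null-homotopic. -/
theorem null_of_factor {W : Type v} [DecidableEq V] [DecidableEq W] {P Q : Set (Finset V)}
    {N : Set (Finset W)} (hP : IsCx P) (hQ : IsCx Q) (hN : IsCx N) (hPQ : P ⊆ Q) (hNC : Ctr N)
    (a : V → W) (b : W → V) (ha : ∀ s ∈ P, s.image a ∈ N) (hb : ∀ t ∈ N, t.image b ∈ Q)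
    (hab : ∀ v, b (a v) = v) :
    ∃ (z0 : Rlz Q) (H : Rlz P × unitInterval → Rlz Q),
      Continuous H ∧ (∀ x, (H (x, 0)).1 = x.1) ∧ ∀ x, H (x, 1) = z0 := by
  obtain ⟨f, hf, hfc⟩ := (carrier_image hP hN a ha).exists_map hP
  obtain ⟨g, hg, hgc⟩ := (carrier_image hN hQ b hb).exists_map hN
  have hΘ : IsCarrier P Q (fun s => Cl s) :=
    { cx := fun s _ => isCx_Cl _
      sub := fun s hs => Cl_sub hQ (hPQ hs)
      mono := fun s _ t ht _ => Cl_mono ht
      ctr := fun s hs => ctr_Cl (nonempty_of_mem hP hs) }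
  have himg : ∀ s : Finset V, (s.image a).image b = s := by
    intro s
    rw [Finset.image_image]
    have : b ∘ a = id := funext hab
    rw [this, Finset.image_id]
  have e1 : ContinuousMap.Homotopic (⟨Rlz.sub hPQ, Rlz.continuous_sub hPQ⟩ : C(Rlz P, Rlz Q))
      ⟨g ∘ f, hg.comp hf⟩ := by
    apply hΘ.homotopic hP
    · intro s hs x
      exact ⟨s, ⟨Finset.Subset.refl s, nonempty_of_mem hP hs⟩, x.2⟩
    · intro s hs x
      obtain ⟨t, ht, hx⟩ := hfc s hs x
      have htN : t ∈ N := Cl_sub hN (ha s hs) ht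
      have h3 : g (f (Rlz.inc s hs x)) ∈ Sub Q (Cl (t.image b)) :=
        hgc t htN ⟨(f (Rlz.inc s hs x)).1, hx⟩
      refine Sub_mono (Cl_mono ?_) h3
      calc t.image b ⊆ (s.image a).image b := Finset.image_subset_image ht.1
        _ = s := himg s
  obtain ⟨z0, H, hH, h0, hH1⟩ := hNC
  have e2 : ContinuousMap.Homotopic (⟨g ∘ f, hg.comp hf⟩ : C(Rlz P, Rlz Q))
      (ContinuousMap.const _ (g z0)) := by
    refine ⟨⟨⟨fun p => g (H (f p.2, p.1)), by fun_prop⟩, ?_, ?_⟩⟩
    · intro x
      show g (H (f x, 0)) = g (f x)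
      rw [h0]
    · intro x
      show g (H (f x, 1)) = g z0
      rw [hH1]
  obtain ⟨F⟩ := e1.trans e2
  refine ⟨g z0, fun p => F (p.2, p.1), by fun_prop, ?_, ?_⟩
  · intro x
    show (F (0, x)).1 = x.1
    rw [F.apply_zero]
    rfl
  · intro x
    show F (1, x) = g z0
    rw [F.apply_one]
    rfl

/-- The 1-skeleton of a contractible complex is connected. -/
theorem connected_of_ctr [DecidableEq V] (hK : IsCx K) (h : Ctr K) (v w : V) (hv : {v} ∈ K)
    (hw : {w} ∈ K) : Relation.ReflTransGen (fun x y => ({x, y} : Finset V) ∈ K) v w := by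
  have : ContractibleSpace (Rlz K) := ctr_iff.1 h
  set R : V → V → Prop := fun x y => ({x, y} : Finset V) ∈ K with hR
  let U : Set (Rlz K) := {x | ∀ u, x.1 u ≠ 0 → Relation.ReflTransGen R v u}
  have hUmem : ∀ x : Rlz K, x ∈ U ↔ ∀ u, x.1 u ≠ 0 → Relation.ReflTransGen R v u := fun x => Iff.rfl
  have htr : ∀ s (hs : s ∈ K), {x : Simp s | Rlz.inc s hs x ∈ U} = univ ∨
      {x : Simp s | Rlz.inc s hs x ∈ U} = ∅ := by
    intro s hs
    by_cases hsC : ∃ u ∈ s, Relation.ReflTransGen R v u
    · left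
      obtain ⟨u0, hu0, hC⟩ := hsC
      rw [eq_univ_iff_forall]
      intro x
      show Rlz.inc s hs x ∈ U
      rw [hUmem]
      intro u hu
      have hus : u ∈ s := by
        by_contra hcon
        exact hu (x.2.2.1 u hcon)
      refine hC.tail ?_
      apply hK.2 s hs
      · intro y hy
        rw [Finset.mem_insert, Finset.mem_singleton] at hy
        rcases hy with rfl | rfl
        · exact hu0
        · exact hus
      · exact Finset.insert_nonempty _ _
    · right
      rw [eq_empty_iff_forall_notMem]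
      intro x hx
      have hx' : Rlz.inc s hs x ∈ U := hx
      rw [hUmem] at hx'
      have h1 : ∃ u ∈ s, x.1 u ≠ 0 := by
        by_contra hcon
        push Not at hcon
        have := x.2.2.2
        rw [Finset.sum_eq_zero hcon] at this
        exact zero_ne_one this
      obtain ⟨u, hu, hxu⟩ := h1
      exact hsC ⟨u, hu, hx' u hxu⟩
  have hclopen : IsClopen U := by
    constructor
    · rw [Rlz.isClosed_iff]
      intro s hs
      rcases htr s hs with h1 | h1
      · rw [h1]; exact isClosed_univ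
      · rw [h1]; exact isClosed_empty
    · rw [Rlz.isOpen_iff]
      intro s hs
      rcases htr s hs with h1 | h1
      · rw [h1]; exact isOpen_univ
      · rw [h1]; exact isOpen_empty
  have hvU : Rlz.inc {v} hv ⟨_, vtx_mem (Finset.mem_singleton_self v)⟩ ∈ U := by
    rw [hUmem]
    intro u hu
    have : u = v := by
      by_contra hcon
      apply hu
      show (if u = v then (1 : ℝ) else 0) = 0
      rw [if_neg hcon]
    rw [this]
  have hUuniv : U = univ := by
    rcases isClopen_iff.1 hclopen with h1 | h1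
    · rw [h1] at hvU
      exact absurd hvU (notMem_empty _)
    · exact h1
  have hwU : Rlz.inc {w} hw ⟨_, vtx_mem (Finset.mem_singleton_self w)⟩ ∈ U := by
    rw [hUuniv]; exact mem_univ _
  rw [hUmem] at hwU
  apply hwU w
  show (if w = w then (1 : ℝ) else 0) ≠ 0
  rw [if_pos rfl]
  exact one_ne_zero

end Pool.Agent.Helper281.Sc.Un
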