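import Mathlib
import Pool.Agent.Helper281.Sc.Dom
import Pool.Agent.Helper281.Sc.Un
import Pool.Agent.Helper281.Sc.Constr

set_option autoImplicit false

namespace Pool.Agent.Helper281.Sc

open Set

universe u v w

namespace Sys

variable {X : Type u} {VV : Type v} [MeasurableSpace X] (S : Sys X VV) {n i : ℕ}
  {M : Set (Finset VV)} {ρ : VV → X}

theorem in_rho (hG : S.Good n i M ρ) (v : VV) (hv : {v} ∈ M) : S.In (ρ v) v := by
  obtain ⟨x, hx⟩ := hG.cls _ hv
  have h1 : S.In x v := hx v (Finset.mem_singleton_self v)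
  exact S.codE x (ρ v) (hG.ρE x v h1) v h1

theorem in_base (hG : S.Good n i M ρ) (v : VV) (hv : {v} ∈ M) : S.In (S.base v) v := by
  have h1 := S.in_rho hG v hv
  exact S.codE (ρ v) (S.base v) (S.base_cl _ v h1) v h1

theorem rep_cond (hG : S.Good n i M ρ) (v : VV) (hv : {v} ∈ M) :
    {v} ∈ M ∧ ∃ c, {S.cod (ρ v) c} ∈ M ∧ ρ (S.cod (ρ v) c) = ρ v := by
  obtain ⟨c, hc⟩ := S.in_rho hG v hv
  refine ⟨hv, c, ?_, ?_⟩
  · rw [hc]; exact hv
  · rw [hc]

open Classical in
theorem rep_eq (v : VV)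
    (h : {v} ∈ M ∧ ∃ c, {S.cod (ρ v) c} ∈ M ∧ ρ (S.cod (ρ v) c) = ρ v) :
    S.rep M ρ v = S.cod (ρ v) (Nat.find h.2) := by
  unfold rep
  rw [dif_pos h]

open Classical in
theorem find_congr {x y : X} (hxy : x = y) (hx : ∃ c, {S.cod x c} ∈ M ∧ ρ (S.cod x c) = x)
    (hy : ∃ c, {S.cod y c} ∈ M ∧ ρ (S.cod y c) = y) :
    S.cod x (Nat.find hx) = S.cod y (Nat.find hy) := by
  subst hxy
  rfl

/-- The representative is a vertex of `M` in the same fibre. -/
theorem rep_spec (hG : S.Good n i M ρ) (v : VV) (hv : {v} ∈ M) :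
    {S.rep M ρ v} ∈ M ∧ ρ (S.rep M ρ v) = ρ v ∧ S.In (ρ v) (S.rep M ρ v) := by
  classical
  have h := S.rep_cond hG v hv
  rw [S.rep_eq v h]
  have h2 := Nat.find_spec h.2
  exact ⟨h2.1, h2.2, ⟨_, rfl⟩⟩

theorem rep_congr (hG : S.Good n i M ρ) (v w : VV) (hv : {v} ∈ M) (hw : {w} ∈ M)
    (h : ρ v = ρ w) : S.rep M ρ v = S.rep M ρ w := by
  classical
  have h1 := S.rep_cond hG v hv
  have h2 := S.rep_cond hG w hw
  rw [S.rep_eq v h1, S.rep_eq w h2]
  exact S.find_congr h h1.2 h2.2

/-- Two virtual vertices of one simplex of `M` lie over the same classes. -/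
theorem In_iff_of_mem (hG : S.Good n i M ρ) {s : Finset VV} (hs : s ∈ M) {v w : VV} (hv : v ∈ s)
    (hw : w ∈ s) (x : X) : S.In x v ↔ S.In x w := by
  obtain ⟨y, hy⟩ := hG.cls s hs
  constructor
  · intro h
    have h1 : S.E y x := S.codI y x v (hy v hv) h
    exact S.codE y x h1 w (hy w hw)
  · intro h
    have h1 : S.E y x := S.codI y x w (hy w hw) h
    exact S.codE y x h1 v (hy v hv)

theorem isCx_ovr (hG : S.Good n i M ρ) (x : X) : IsCx (S.ovr M x) := by
  refine ⟨fun h => hG.cx.1 h.1, fun s hs t ht hn => ⟨hG.cx.2 s hs.1 t ht hn, ?_⟩⟩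
  intro v hv
  exact hs.2 v (ht hv)

open Classical in
/-- the graph of the edges over the class of `x` -/
def gr (M : Set (Finset VV)) (x : X) : SimpleGraph VV where
  Adj a b := a ≠ b ∧ ({a, b} : Finset VV) ∈ S.ovr M x
  symm := ⟨by
    rintro a b ⟨h1, h2⟩
    refine ⟨h1.symm, ?_⟩
    rw [Finset.pair_comm]
    exact h2⟩
  loopless := ⟨fun a h => h.1 rfl⟩

open Classical in
theorem reach_gr (x : X) (v w : VV)
    (h : Relation.ReflTransGen (fun a b => ({a, b} : Finset VV) ∈ S.ovr M x) v w) :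
    (S.gr M x).Reachable v w := by
  induction h with
  | refl => exact SimpleGraph.Reachable.refl _
  | tail _ hbc ih =>
    rename_i b c _
    by_cases e : b = c
    · rw [← e]; exact ih
    · have hadj : (S.gr M x).Adj b c := ⟨e, hbc⟩
      exact ih.trans hadj.reachable

theorem walk_in (x : X) {v w : VV} (p : (S.gr M x).Walk v w) (hv : S.In x v) :
    ∀ u ∈ p.support, S.In x u := by
  classical
  induction p with
  | nil =>
    intro u hu
    rw [SimpleGraph.Walk.support_nil, List.mem_singleton] at hu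
    rw [hu]; exact hv
  | cons hadj p ih =>
    intro u hu
    rw [SimpleGraph.Walk.support_cons, List.mem_cons] at hu
    rcases hu with hu | hu
    · rw [hu]; exact hv
    · refine ih ?_ u hu
      have h2 := hadj.2
      exact h2.2 _ (by simp)

theorem exists_codes (x : X) (P : List VV) (hP : ∀ u ∈ P, S.In x u) :
    ∃ L : List ℕ, L.map (S.cod x) = P := by
  induction P with
  | nil => exact ⟨[], rfl⟩
  | cons a P ih =>
    obtain ⟨L, hL⟩ := ih (fun u hu => hP u (List.mem_cons_of_mem _ hu))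
    obtain ⟨c, hc⟩ := hP a List.mem_cons_self
    exact ⟨c :: L, by rw [List.map_cons, hL, hc]⟩

theorem in_base_rep (hG : S.Good n i M ρ) (v : VV) (hv : {v} ∈ M) :
    S.In (S.base v) (S.rep M ρ v) := by
  have h1 := (S.rep_spec hG v hv).2.2
  have h2 := S.in_rho hG v hv
  exact S.codE (ρ v) (S.base v) (S.base_cl _ v h2) _ h1

open Classical in
theorem exists_path (hG : S.Good n i M ρ) (v : VV) (hv : {v} ∈ M) :
    ∃ m, IsPth M v (S.rep M ρ v) ((dl m).map (S.cod (S.base v))) := by
  have hr := S.rep_spec hG v hv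
  have hinv := S.in_base hG v hv
  have hinr := S.in_base_rep hG v hv
  have hv' : {v} ∈ S.ovr M (S.base v) := ⟨hv, fun u hu => by
    rw [Finset.mem_singleton] at hu; rw [hu]; exact hinv⟩
  have hr' : {S.rep M ρ v} ∈ S.ovr M (S.base v) := ⟨hr.1, fun u hu => by
    rw [Finset.mem_singleton] at hu; rw [hu]; exact hinr⟩
  have hctr : Ctr (S.ovr M (S.base v)) := ctr_iff.2 (hG.ctr (S.base v))
  have hconn := Un.connected_of_ctr (S.isCx_ovr hG (S.base v)) hctr v (S.rep M ρ v) hv' hr'
  have hreach := S.reach_gr (S.base v) v (S.rep M ρ v) hconn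
  obtain ⟨p0⟩ := hreach
  let p := p0.toPath
  obtain ⟨L, hL⟩ := S.exists_codes (S.base v) p.1.support
    (S.walk_in (S.base v) p.1 hinv)
  refine ⟨Encodable.encode L, ?_⟩
  have hdl : dl (Encodable.encode L) = L := by
    unfold dl
    rw [Encodable.encodek]
    rfl
  rw [hdl, hL]
  refine ⟨p.2.support_nodup, ?_, ?_, ?_⟩
  · rw [SimpleGraph.Walk.support_eq_cons]
    rfl
  · rw [List.getLast?_eq_getLast_of_ne_nil p.1.support_ne_nil, SimpleGraph.Walk.getLast_support]
  · intro j hj
    have h := (p.1.isChain_adj_support).getElem j hj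
    exact h.2.1

open Classical in
/-- The chosen path is a simple edge path from `v` to its representative, over the class of
`base v`. -/
theorem path_spec (hG : S.Good n i M ρ) (v : VV) (hv : {v} ∈ M) :
    IsPth M v (S.rep M ρ v) (S.path M ρ v) ∧ ∀ w ∈ S.path M ρ v, S.In (S.base v) w := by
  have h := S.exists_path hG v hv
  have e : S.path M ρ v = (dl (Nat.find h)).map (S.cod (S.base v)) := by
    unfold path
    rw [dif_pos h]
  rw [e]
  refine ⟨Nat.find_spec h, ?_⟩
  intro w hw
  obtain ⟨c, _, hc⟩ := List.mem_map.1 hw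
  exact ⟨c, hc⟩

open Classical in
/-- The same in terms of `len` and `pth`. -/
theorem pth_spec (hG : S.Good n i M ρ) (v : VV) (hv : {v} ∈ M) (hr : S.rep M ρ v ≠ v) :
    S.pth M ρ v 0 = v ∧ S.pth M ρ v (S.len M ρ v) = S.rep M ρ v ∧
      InjOn (S.pth M ρ v) (Iic (S.len M ρ v)) ∧
      (∀ i < S.len M ρ v, ({S.pth M ρ v i, S.pth M ρ v (i + 1)} : Finset VV) ∈ M) ∧
      ∀ i, S.pth M ρ v i ∈ S.path M ρ v := by
  obtain ⟨⟨hnd, hhd, hlast, hedge⟩, -⟩ := S.path_spec hG v hv
  have hlen : S.len M ρ v = (S.path M ρ v).length - 1 := rfl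
  have hpth : ∀ i, S.pth M ρ v i = (S.path M ρ v).getD i v := fun i => rfl
  generalize hP : S.path M ρ v = P at *
  have hne : P ≠ [] := by
    rintro rfl
    simp at hhd
  have hpos : 0 < P.length := List.length_pos_iff.2 hne
  have hget : ∀ i (hi : i < P.length), S.pth M ρ v i = P[i] := by
    intro i hi
    rw [hpth, List.getD_eq_getElem _ _ hi]
  have hvP : v ∈ P := List.mem_of_mem_head? (by rw [hhd]; rfl)
  refine ⟨?_, ?_, ?_, ?_, ?_⟩
  · rw [hget 0 hpos]
    have := List.head?_eq_getElem? (l := P)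
    rw [hhd, List.getElem?_eq_getElem hpos] at this
    exact (Option.some.inj this).symm
  · rw [hlen, hget (P.length - 1) (by omega)]
    have := List.getLast?_eq_getElem? (l := P)
    rw [hlast, List.getElem?_eq_getElem (by omega)] at this
    exact (Option.some.inj this).symm
  · intro a ha b hb hab
    rw [mem_Iic, hlen] at ha hb
    have ha' : a < P.length := by omega
    have hb' : b < P.length := by omega
    rw [hget a ha', hget b hb'] at hab
    exact (hnd.getElem_inj_iff).1 hab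
  · intro j hj
    rw [hlen] at hj
    have hj1 : j + 1 < P.length := by omega
    rw [hget j (by omega), hget (j + 1) hj1]
    exact hedge j hj1
  · intro j
    by_cases hj : j < P.length
    · rw [hget j hj]
      exact List.getElem_mem hj
    · rw [hpth, List.getD_eq_default _ _ (by omega)]
      exact hvP

end Sys

end Pool.Agent.Helper281.Sc
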