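import Mathlib
import Pool.Agent.Helper281.Sc.Rp

set_option autoImplicit false

namespace Pool.Agent.Helper281.Sc

open Set

universe u v w

section Names

variable {X : Type*} [MeasurableSpace X] {A B ι ι' : Type*}

/-- `t x` is one of the names `N x c`, and it is decided in a measurable way which one. -/
structure Nm (N : X → ι → A) (t : X → A) : Prop where
  mem : ∀ x, ∃ c, t x = N x c
  ms : ∀ c, Measurable fun x => t x = N x c

/-- names of lists -/
def NL (N : X → ι → A) : X → List ι → List A := fun x L => L.map (N x)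

theorem Nm.red [Countable ι] {N : X → ι → A} {t : X → A} (ht : Nm N t) {P : A → X → Prop}
    (hP : ∀ c, Measurable fun x => P (N x c) x) : Measurable fun x => P (t x) x := by
  have : (fun x => P (t x) x) = fun x => ∃ c, t x = N x c ∧ P (N x c) x := by
    funext x
    apply propext
    constructor
    · intro h
      obtain ⟨c, hc⟩ := ht.mem x
      exact ⟨c, hc, hc ▸ h⟩
    · rintro ⟨c, hc, h⟩
      rw [hc]
      exact h
  rw [this]
  exact Measurable.exists fun c => (ht.ms c).and (hP c)

theorem Nm.bind [Countable ι] {N : X → ι → A} {N' : X → ι' → B} {t : X → A} (ht : Nm N t)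
    (F : X → A → B) (hF : ∀ c, Nm N' fun x => F x (N x c)) : Nm N' fun x => F x (t x) := by
  refine ⟨fun x => ?_, fun c' => ?_⟩
  · obtain ⟨c, hc⟩ := ht.mem x
    obtain ⟨c', hc'⟩ := (hF c).mem x
    exact ⟨c', by rw [hc]; exact hc'⟩
  · exact ht.red (P := fun a x => F x a = N' x c') fun c => (hF c).ms c'

theorem Nm.eq [Countable ι] {N : X → ι → A} {t t' : X → A} (ht : Nm N t) (ht' : Nm N t') :
    Measurable fun x => t x = t' x :=
  ht'.red (P := fun a x => t x = a) fun c => ht.ms c

theorem Nm.pw {κ : Type*} [Countable κ] {N : X → ι → A} (s : κ → X → A) (hs : ∀ m, Nm N (s m))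
    (Q : κ → X → Prop) (hQ : ∀ m, Measurable (Q m)) (t : X → A) (h : ∀ x, ∃ m, Q m x)
    (h' : ∀ m x, Q m x → t x = s m x) : Nm N t := by
  refine ⟨fun x => ?_, fun c => ?_⟩
  · obtain ⟨m, hm⟩ := h x
    obtain ⟨c, hc⟩ := (hs m).mem x
    exact ⟨c, by rw [h' m x hm]; exact hc⟩
  · have : (fun x => t x = N x c) = fun x => ∃ m, Q m x ∧ s m x = N x c := by
      funext x
      apply propext
      constructor
      · intro hx
        obtain ⟨m, hm⟩ := h x
        exact ⟨m, hm, by rw [← h' m x hm]; exact hx⟩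
      · rintro ⟨m, hm, hx⟩
        rw [h' m x hm]
        exact hx
    rw [this]
    exact Measurable.exists fun m => (hQ m).and ((hs m).ms c)

theorem Nm.find {N : X → ι → A} (P : ℕ → X → Prop) (hP : ∀ m, Measurable (P m)) (P0 : X → Prop)
    (hP0 : Measurable P0) (s : ℕ → X → A) (hs : ∀ m, Nm N (s m)) (s0 : X → A) (hs0 : Nm N s0)
    (t : X → A) (h1 : ∀ x m, P0 x → P m x → (∀ m' < m, ¬ P m' x) → t x = s m x)
    (h0 : ∀ x, ¬ (P0 x ∧ ∃ m, P m x) → t x = s0 x) : Nm N t := by
  classical
  refine Nm.pw (κ := Option ℕ) (fun o => o.elim s0 s) ?_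
    (fun o => o.elim (fun x => ¬ (P0 x ∧ ∃ m, P m x)) fun m x => P0 x ∧ P m x ∧ ∀ m' : ℕ, m' < m → ¬ P m' x)
    ?_ t ?_ ?_
  · rintro (_ | m)
    · exact hs0
    · exact hs m
  · rintro (_ | m)
    · exact (hP0.and (Measurable.exists hP)).not
    · exact hP0.and ((hP m).and (Measurable.forall fun m' => measurable_const.imp (hP m').not))
  · intro x
    by_cases h : P0 x ∧ ∃ m, P m x
    · exact ⟨some (Nat.find h.2), h.1, Nat.find_spec h.2, fun m' hm' => Nat.find_min h.2 hm'⟩
    · exact ⟨none, h⟩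
  · rintro (_ | m) x hx
    · exact h0 x hx
    · exact h1 x m hx.1 hx.2.1 hx.2.2

theorem nl_eq {N : X → ι → A} (hN : ∀ c c', Measurable fun x => N x c = N x c') (L L' : List ι) :
    Measurable fun x => L.map (N x) = L'.map (N x) := by
  induction L generalizing L' with
  | nil =>
    cases L' with
    | nil => simp
    | cons c' L' => simp
  | cons c L ih =>
    cases L' with
    | nil => simp
    | cons c' L' =>
      simp only [List.map_cons, List.cons.injEq]
      exact (hN c c').and (ih L')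

theorem Nm.nil {N : X → ι → A} : Nm (NL N) fun _ => [] := by
  refine ⟨fun x => ⟨[], rfl⟩, fun L => ?_⟩
  cases L with
  | nil => simp [NL]
  | cons c L => simp [NL]

theorem Nm.cons {N : X → ι → A} {t : X → A} {T : X → List A} (ht : Nm N t) (hT : Nm (NL N) T) :
    Nm (NL N) fun x => t x :: T x := by
  refine ⟨fun x => ?_, fun L => ?_⟩
  · obtain ⟨c, hc⟩ := ht.mem x
    obtain ⟨L, hL⟩ := hT.mem x
    exact ⟨c :: L, by rw [hc, hL]; rfl⟩
  · cases L with
    | nil => simp [NL]
    | cons c L =>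
      simp only [NL, List.map_cons, List.cons.injEq]
      exact (ht.ms c).and (hT.ms L)

theorem Nm.nameL {N : X → ι → A} (hN : ∀ c c', Measurable fun x => N x c = N x c') (L : List ι) :
    Nm (NL N) fun x => L.map (N x) :=
  ⟨fun _ => ⟨L, rfl⟩, fun L' => nl_eq hN L L'⟩

theorem Nm.append [Countable ι] {N : X → ι → A} (hN : ∀ c c', Measurable fun x => N x c = N x c')
    {T T' : X → List A} (hT : Nm (NL N) T) (hT' : Nm (NL N) T') : Nm (NL N) fun x => T x ++ T' x := by
  refine hT.bind (fun x l => l ++ T' x) fun L => ?_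
  refine hT'.bind (fun x l => L.map (N x) ++ l) fun L' => ?_
  have := Nm.nameL hN (L ++ L')
  simpa only [NL, List.map_append] using this

theorem Nm.mapL [Countable ι] {N : X → ι → A} {N' : X → ι' → B} (f : A → B)
    (hf : ∀ c, Nm N' fun x => f (N x c)) {T : X → List A} (hT : Nm (NL N) T) :
    Nm (NL N') fun x => (T x).map f := by
  refine hT.bind (fun _ l => l.map f) fun L => ?_
  simp only [NL]
  induction L with
  | nil => exact Nm.nil
  | cons c L ih =>
    simp only [List.map_cons]
    exact (hf c).cons ih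

theorem meas_nat {f : X → ℕ} (h : ∀ m, Measurable fun x => f x = m) : Measurable f :=
  measurable_to_countable' fun m => measurableSet_setOfPred.2 (h m)

theorem Nm.mem_map [Countable ι] {N : X → ι → A} {t : X → A} (ht : Nm N t) (L : List ι) :
    Measurable fun x => t x ∈ L.map (N x) := by
  induction L with
  | nil => simp
  | cons c L ih =>
    simp only [List.map_cons, List.mem_cons]
    exact (ht.ms c).or ih

theorem Nm.mem_list [Countable ι] {N : X → ι → A} {t : X → A} {T : X → List A} (ht : Nm N t)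
    (hT : Nm (NL N) T) : Measurable fun x => t x ∈ T x :=
  hT.red (P := fun l x => t x ∈ l) fun L => ht.mem_map L

theorem nl_subset [Countable ι] {N : X → ι → A} (hN : ∀ c c', Measurable fun x => N x c = N x c')
    {T : X → List A} (hT : Nm (NL N) T) (L : List ι) : Measurable fun x => ∀ a ∈ L.map (N x), a ∈ T x := by
  induction L with
  | nil => simp
  | cons c L ih =>
    simp only [List.map_cons, List.forall_mem_cons]
    exact (Nm.mem_list ⟨fun x => ⟨c, rfl⟩, hN c⟩ hT).and ih

theorem Nm.subset [Countable ι] {N : X → ι → A} (hN : ∀ c c', Measurable fun x => N x c = N x c')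
    {T T' : X → List A} (hT : Nm (NL N) T) (hT' : Nm (NL N) T') :
    Measurable fun x => ∀ a ∈ T x, a ∈ T' x :=
  hT.red (P := fun l x => ∀ a ∈ l, a ∈ T' x) fun L => nl_subset hN hT' L

theorem nl_nodup {N : X → ι → A} [Countable ι] (hN : ∀ c c', Measurable fun x => N x c = N x c')
    (L : List ι) : Measurable fun x => (L.map (N x)).Nodup := by
  induction L with
  | nil => simp
  | cons c L ih =>
    simp only [List.map_cons, List.nodup_cons]
    exact (Nm.mem_map ⟨fun x => ⟨c, rfl⟩, hN c⟩ L).not.and ih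

end Names

namespace Sys

variable {X : Type u} {VV : Type v} [MeasurableSpace X] (S : Sys X VV) {n i : ℕ}
  {M : Set (Finset VV)} {ρ : VV → X}

/-- names of points -/
def NG : X → ℕ → X := fun x k => S.γ k x

theorem codeq (c c' : ℕ) : Measurable fun x => S.cod x c = S.cod x c' := by
  have : (fun x => S.cod x c = S.cod x c') =
      fun x => ∃ d, S.nv (S.cod x c) 0 = S.cod x d ∧ S.nv (S.cod x c') 0 = S.cod x d := by
    funext x
    apply propext
    constructor
    · intro h
      obtain ⟨d, hd⟩ := (S.nv_cl x (S.cod x c) 0).1 ⟨c, rfl⟩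
      exact ⟨d, hd.symm, by rw [← h]; exact hd.symm⟩
    · rintro ⟨d, h1, h2⟩
      exact (S.nv_inj _ _ 0 0 (h1.trans h2.symm)).1
  rw [this]
  exact Measurable.exists fun d => (measurableSet_setOfPred.1 (S.nvm c 0 d)).and
    (measurableSet_setOfPred.1 (S.nvm c' 0 d))

theorem gameq (k k' : ℕ) : Measurable fun x => S.NG x k = S.NG x k' :=
  measurableSet_setOfPred.1 (S.eqm k k')

theorem nCod (c : ℕ) : Nm S.cod fun x => S.cod x c := ⟨fun _ => ⟨c, rfl⟩, S.codeq c⟩

theorem nGam (k : ℕ) : Nm S.NG fun x => S.γ k x := ⟨fun _ => ⟨k, rfl⟩, S.gameq k⟩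

theorem E_symm_b {x y : X} (h : S.E x y) : S.E y x := S.eqv.symm h

theorem E_trans_b {x y z : X} (h : S.E x y) (h' : S.E y z) : S.E x z := S.eqv.trans h h'

theorem In_E {x y : X} {v : VV} (h : S.In x v) (hE : S.E x y) : S.In y v := S.codE x y hE v h

theorem In_EI {x y : X} {v : VV} (h : S.In x v) (h' : S.In y v) : S.E x y := S.codI x y v h h'

theorem Nm_In {t : X → VV} (ht : Nm S.cod t) (x : X) : S.In x (t x) := by
  obtain ⟨c, hc⟩ := ht.mem x
  exact ⟨c, hc.symm⟩

theorem Nm_E {g : X → X} (hg : Nm S.NG g) (x : X) : S.E x (g x) := by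
  obtain ⟨c, hc⟩ := hg.mem x
  exact ⟨c, hc.symm⟩

theorem nCodG {g : X → X} (hg : Nm S.NG g) (c : ℕ) : Nm S.cod fun x => S.cod (g x) c := by
  refine hg.bind (fun _ y => S.cod y c) fun k => ⟨fun x => ?_, fun c' => ?_⟩
  · obtain ⟨c', hc'⟩ := S.codE (S.γ k x) x (S.eqv.symm ⟨k, rfl⟩) _ ⟨c, rfl⟩
    exact ⟨c', hc'.symm⟩
  · exact measurableSet_setOfPred.1 (S.codm k c c')

theorem nOld {g : X → X} (hg : Nm S.NG g) : Nm S.cod fun x => S.old (g x) := by
  refine hg.bind (fun _ y => S.old y) fun k => ⟨fun x => ?_, fun c' => ?_⟩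
  · obtain ⟨c', hc'⟩ := S.codE (S.γ k x) x (S.eqv.symm ⟨k, rfl⟩) _ (S.old_cl (S.γ k x))
    exact ⟨c', hc'.symm⟩
  · exact measurableSet_setOfPred.1 (S.oldm k c')

theorem nGG (j m : ℕ) : Nm S.NG fun x => S.γ j (S.γ m x) := by
  refine ⟨fun x => ?_, fun k => ?_⟩
  · obtain ⟨k, hk⟩ := S.eqv.trans (⟨m, rfl⟩ : ∃ n, S.γ n x = S.γ m x) ⟨j, rfl⟩
    exact ⟨k, hk.symm⟩
  · have : (fun x => S.γ j (S.γ m x) = S.NG x k) =
        fun x => ∃ c c', S.old (S.γ j (S.γ m x)) = S.cod (S.γ m x) c ∧
          S.cod (S.γ m x) c = S.cod x c' ∧ S.old (S.γ k x) = S.cod x c' := by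
      funext x
      apply propext
      constructor
      · intro h
        obtain ⟨c, hc⟩ := S.Nm_In (S.nOld (S.nGam j)) (S.γ m x)
        obtain ⟨c', hc'⟩ := S.Nm_In (S.nOld (S.nGam k)) x
        have h' : S.γ j (S.γ m x) = S.γ k x := h
        refine ⟨c, c', hc.symm, ?_, hc'.symm⟩
        rw [hc, hc', h']
      · rintro ⟨c, c', h1, h2, h3⟩
        exact S.old_inj (h1.trans (h2.trans h3.symm))
    rw [this]
    refine Measurable.exists fun c => Measurable.exists fun c' => ?_
    have a1 : Measurable fun x => S.old (S.γ j (S.γ m x)) = S.cod (S.γ m x) c :=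
      (measurableSet_setOfPred.1 (S.oldm j c)).comp (S.γm m)
    exact a1.and ((measurableSet_setOfPred.1 (S.codm m c c')).and (measurableSet_setOfPred.1 (S.oldm k c')))

theorem nGamG {g : X → X} (hg : Nm S.NG g) (j : ℕ) : Nm S.NG fun x => S.γ j (g x) :=
  hg.bind (fun _ y => S.γ j y) fun m => S.nGG j m

theorem nNv {t : X → VV} (ht : Nm S.cod t) (k : ℕ) : Nm S.cod fun x => S.nv (t x) k := by
  refine ht.bind (fun _ y => S.nv y k) fun c => ⟨fun x => ?_, fun c' => ?_⟩
  · obtain ⟨d, hd⟩ := (S.nv_cl x (S.cod x c) k).1 ⟨c, rfl⟩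
    exact ⟨d, hd.symm⟩
  · exact measurableSet_setOfPred.1 (S.nvm c k c')

theorem nBase {t : X → VV} (ht : Nm S.cod t) : Nm S.NG fun x => S.base (t x) := by
  refine ht.bind (fun _ y => S.base y) fun c => ⟨fun x => ?_, fun k => ?_⟩
  · obtain ⟨d, hd⟩ := S.base_cl x (S.cod x c) ⟨c, rfl⟩
    exact ⟨d, hd.symm⟩
  · exact measurableSet_setOfPred.1 (S.basem c k)

theorem nRho {f : VV → X} (hf : S.LBρ f) (hE : ∀ x v, S.In x v → S.E x (f v)) {t : X → VV}
    (ht : Nm S.cod t) : Nm S.NG fun x => f (t x) := by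
  refine ht.bind (fun _ y => f y) fun c => ⟨fun x => ?_, fun k => ?_⟩
  · obtain ⟨d, hd⟩ := hE x (S.cod x c) ⟨c, rfl⟩
    exact ⟨d, hd.symm⟩
  · exact measurableSet_setOfPred.1 (hf c k)

theorem mJj {t : X → VV} (ht : Nm S.cod t) : Measurable fun x => S.jj (t x) :=
  meas_nat fun m => ht.red (P := fun v _ => S.jj v = m) fun c => measurableSet_setOfPred.1 (S.jjm c m)

theorem mKap {g : X → X} (hg : Nm S.NG g) : Measurable fun x => S.κ (g x) :=
  meas_nat fun m => hg.red (P := fun y _ => S.κ y = m) fun k =>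
    measurableSet_setOfPred.1 ((S.κm.comp (S.γm k)) (measurableSet_singleton m))

theorem mCol {W : X → List X} (hW : Nm (NL S.NG) W) : Measurable fun x => S.col (W x) :=
  meas_nat fun m => hW.red (P := fun y _ => S.col y = m) fun L =>
    measurableSet_setOfPred.1 ((S.colm L) (measurableSet_singleton m))

open Classical in
theorem mM (hM : S.LBM M) {T : X → List VV} (hT : Nm (NL S.cod) T) :
    Measurable fun x => (T x).toFinset ∈ M :=
  hT.red (P := fun l _ => l.toFinset ∈ M) fun L => measurableSet_setOfPred.1 (hM L)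

theorem mM1 (hM : S.LBM M) {t : X → VV} (ht : Nm S.cod t) : Measurable fun x => ({t x} : Finset VV) ∈ M := by
  classical
  have := S.mM hM (ht.cons Nm.nil)
  simpa using this

open Classical in
theorem mM2 (hM : S.LBM M) {t t' : X → VV} (ht : Nm S.cod t) (ht' : Nm S.cod t') :
    Measurable fun x => ({t x, t' x} : Finset VV) ∈ M := by
  have := S.mM hM (ht.cons (ht'.cons Nm.nil))
  simpa using this

/-- the representative -/
theorem nRep (hM : S.LBM M) (hρ : S.LBρ ρ) (hE : ∀ x v, S.In x v → S.E x (ρ v)) {t : X → VV}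
    (ht : Nm S.cod t) : Nm S.cod fun x => S.rep M ρ (t x) := by
  classical
  have hg : Nm S.NG fun x => ρ (t x) := S.nRho hρ hE ht
  refine Nm.find (fun m x => ({S.cod (ρ (t x)) m} : Finset VV) ∈ M ∧ ρ (S.cod (ρ (t x)) m) = ρ (t x))
    (fun m => (S.mM1 hM (S.nCodG hg m)).and ((S.nRho hρ hE (S.nCodG hg m)).eq hg))
    (fun x => ({t x} : Finset VV) ∈ M) (S.mM1 hM ht) (fun m x => S.cod (ρ (t x)) m)
    (fun m => S.nCodG hg m) t ht _ ?_ ?_
  · intro x m h0 hm hlt
    have hex : ({t x} : Finset VV) ∈ M ∧ ∃ c, ({S.cod (ρ (t x)) c} : Finset VV) ∈ M ∧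
        ρ (S.cod (ρ (t x)) c) = ρ (t x) := ⟨h0, m, hm⟩
    unfold rep
    rw [dif_pos hex]
    congr 1
    exact (Nat.find_eq_iff hex.2).2 ⟨hm, hlt⟩
  · intro x h0
    unfold rep
    exact dif_neg h0

open Classical in
theorem mIsPth (hM : S.LBM M) {t r : X → VV} (ht : Nm S.cod t) (hr : Nm S.cod r) {T : X → List VV}
    (hT : Nm (NL S.cod) T) : Measurable fun x => IsPth M (t x) (r x) (T x) := by
  refine hT.red (P := fun l x => IsPth M (t x) (r x) l) fun L => ?_
  simp only [NL, IsPth]
  refine (nl_nodup S.codeq L).and (Measurable.and ?_ (Measurable.and ?_ ?_))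
  · cases L with
    | nil => simp
    | cons c L =>
      simp only [List.map_cons, List.head?_cons, Option.some.injEq]
      exact (S.nCod c).eq ht
  · rw [show (fun x => (List.map (S.cod x) L).getLast? = some (r x)) =
      fun x => (L.getLast?.map (S.cod x)) = some (r x) from by
        funext x; rw [List.getLast?_map]]
    cases hL : L.getLast? with
    | none => simp
    | some c =>
      simp only [Option.map_some, Option.some.injEq]
      exact (S.nCod c).eq hr
  · refine Measurable.forall fun j => ?_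
    by_cases hj : j + 1 < L.length
    · have h1 : (fun x => ∀ h : j + 1 < (List.map (S.cod x) L).length,
          ({(List.map (S.cod x) L)[j], (List.map (S.cod x) L)[j + 1]} : Finset VV) ∈ M) =
          fun x => ({S.cod x (L[j]), S.cod x (L[j + 1])} : Finset VV) ∈ M := by
        funext x
        apply propext
        constructor
        · intro h
          have := h (by simpa using hj)
          simpa only [List.getElem_map] using this
        · intro h _
          simpa only [List.getElem_map] using h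
      rw [h1]
      exact S.mM2 hM (S.nCod _) (S.nCod _)
    · have h1 : (fun x => ∀ h : j + 1 < (List.map (S.cod x) L).length,
          ({(List.map (S.cod x) L)[j], (List.map (S.cod x) L)[j + 1]} : Finset VV) ∈ M) =
          fun _ => True := by
        funext x
        apply propext
        constructor
        · intro _
          trivial
        · intro _ h
          exact absurd (by simpa using h) hj
      rw [h1]
      exact measurable_const

/-- the path -/
theorem nPath (hM : S.LBM M) (hρ : S.LBρ ρ) (hE : ∀ x v, S.In x v → S.E x (ρ v)) {t : X → VV}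
    (ht : Nm S.cod t) : Nm (NL S.cod) fun x => S.path M ρ (t x) := by
  classical
  have hb : Nm S.NG fun x => S.base (t x) := S.nBase ht
  have hl : ∀ m, Nm (NL S.cod) fun x => (dl m).map (S.cod (S.base (t x))) := by
    intro m
    induction dl m with
    | nil => exact Nm.nil
    | cons c L ih =>
      simp only [List.map_cons]
      exact (S.nCodG hb c).cons ih
  refine Nm.find (fun m x => IsPth M (t x) (S.rep M ρ (t x)) ((dl m).map (S.cod (S.base (t x)))))
    (fun m => S.mIsPth hM ht (S.nRep hM hρ hE ht) (hl m)) (fun _ => True) measurable_const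
    (fun m x => (dl m).map (S.cod (S.base (t x)))) hl (fun x => [t x]) (ht.cons Nm.nil) _ ?_ ?_
  · intro x m _ hm hlt
    have hex : ∃ m, IsPth M (t x) (S.rep M ρ (t x)) ((dl m).map (S.cod (S.base (t x)))) := ⟨m, hm⟩
    unfold path
    rw [dif_pos hex]
    congr 2
    exact (Nat.find_eq_iff hex).2 ⟨hm, hlt⟩
  · intro x h0
    unfold path
    refine dif_neg fun h => h0 ⟨trivial, h⟩

theorem mLen (hM : S.LBM M) (hρ : S.LBρ ρ) (hE : ∀ x v, S.In x v → S.E x (ρ v)) {t : X → VV}
    (ht : Nm S.cod t) (m : ℕ) : Measurable fun x => S.len M ρ (t x) = m := by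
  refine (S.nPath hM hρ hE ht).red (P := fun l _ => l.length - 1 = m) fun L => ?_
  simp only [NL, List.length_map]
  exact measurable_const

theorem nPth (hM : S.LBM M) (hρ : S.LBρ ρ) (hE : ∀ x v, S.In x v → S.E x (ρ v)) {t : X → VV}
    (ht : Nm S.cod t) (j : ℕ) : Nm S.cod fun x => S.pth M ρ (t x) j := by
  refine (S.nPath hM hρ hE ht).bind (fun x l => l.getD j (t x)) fun L => ?_
  simp only [NL]
  by_cases hj : j < L.length
  · have : (fun x => (List.map (S.cod x) L).getD j (t x)) = fun x => S.cod x (L[j]) := by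
      funext x
      rw [List.getD_eq_getElem _ _ (by simpa using hj), List.getElem_map]
    rw [this]
    exact S.nCod _
  · have : (fun x => (List.map (S.cod x) L).getD j (t x)) = t := by
      funext x
      rw [List.getD_eq_default _ _ (by simpa using hj)]
    rw [this]
    exact ht

theorem nPick {j : X → ℕ} (hj : Measurable j) {g : X → X} (hg : Nm S.NG g) {W : X → List X}
    (hW : Nm (NL S.NG) W) : Nm S.NG fun x => S.pick (j x) (g x) (W x) := by
  classical
  have hc : Measurable fun x => S.col (g x :: W x) := S.mCol (hg.cons hW)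
  have hp : Measurable fun x => Nat.pair (j x) (S.col (g x :: W x)) :=
    (measurable_of_countable (fun p : ℕ × ℕ => Nat.pair p.1 p.2)).comp (hj.prodMk hc)
  refine Nm.find (fun m x => S.κ (S.γ m (g x)) = Nat.pair (j x) (S.col (g x :: W x)))
    (fun m => Measurable.eq (S.mKap (S.nGamG hg m)) hp)
    (fun _ => True) measurable_const (fun m x => S.γ m (g x)) (fun m => S.nGamG hg m) g hg _ ?_ ?_
  · intro x m _ hm hlt
    unfold pick
    congr 1
    exact (Nat.find_eq_iff _).2 ⟨hm, hlt⟩
  · intro x h0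
    exact absurd ⟨trivial, S.ex_κ _ _⟩ h0

theorem nVals (hM : S.LBM M) (hρ : S.LBρ ρ) (hE : ∀ x v, S.In x v → S.E x (ρ v)) {t : X → VV}
    (ht : Nm S.cod t) (l k : ℕ) : Nm (NL S.NG) fun x => S.vals M ρ l (t x) k := by
  induction k with
  | zero =>
    exact (S.nPath hM hρ hE ht).mapL ρ fun c => S.nRho hρ hE (S.nCod c)
  | succ k ih =>
    refine Nm.append S.gameq ih (Nm.cons ?_ Nm.nil)
    refine S.nPick ?_ (S.nBase ht) ih
    exact (measurable_of_countable (fun p : ℕ => key l k p)).comp (S.mJj ht)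

theorem nNval (hM : S.LBM M) (hρ : S.LBρ ρ) (hE : ∀ x v, S.In x v → S.E x (ρ v)) {t : X → VV}
    (ht : Nm S.cod t) (l k : ℕ) : Nm S.NG fun x => S.nval M ρ l (t x) k := by
  refine S.nPick ?_ (S.nBase ht) (S.nVals hM hρ hE ht l k)
  exact (measurable_of_countable (fun p : ℕ => key l k p)).comp (S.mJj ht)

theorem rho_old_b (l : ℕ) (y : X) : S.rho M ρ l (S.old y) = y := by
  classical
  unfold rho
  have h : ∃ x, S.old x = S.old y := ⟨y, rfl⟩
  rw [dif_pos h]
  exact S.old_inj h.choose_spec

theorem rho_nv_b (l : ℕ) (w : VV) (k : ℕ) : S.rho M ρ l (S.nv w k) = S.nval M ρ l w k := by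
  classical
  unfold rho
  have h : ¬ ∃ x, S.old x = S.nv w k := fun ⟨x, hx⟩ => S.old_ne x w k hx
  have h' : ∃ p : VV × ℕ, S.nv p.1 p.2 = S.nv w k := ⟨(w, k), rfl⟩
  rw [dif_neg h, dif_pos h']
  obtain ⟨h1, h2⟩ := S.nv_inj _ _ _ _ h'.choose_spec
  rw [h1, h2]

theorem rho_other (l : ℕ) (v : VV) (h : ¬ ∃ x, S.old x = v) (h' : ¬ ∃ p : VV × ℕ, S.nv p.1 p.2 = v) :
    S.rho M ρ l v = S.base v := by
  classical
  unfold rho
  rw [dif_neg h, dif_neg h']

/-- The next map is locally Borel. -/
theorem lbρ_rho (hG : S.Good n i M ρ) (l : ℕ) : S.LBρ (S.rho M ρ l) := by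
  intro c k
  apply measurableSet_setOfPred.2
  have key : (fun x => S.rho M ρ l (S.cod x c) = S.γ k x) = fun x =>
      (∃ m, S.old (S.γ m x) = S.cod x c ∧ S.γ m x = S.γ k x) ∨
      (∃ c' j, S.nv (S.cod x c') j = S.cod x c ∧ S.nval M ρ l (S.cod x c') j = S.γ k x) ∨
      ((∀ m, ¬ S.old (S.γ m x) = S.cod x c) ∧ (∀ c' j, ¬ S.nv (S.cod x c') j = S.cod x c) ∧
        S.base (S.cod x c) = S.γ k x) := by
    funext x
    apply propext
    constructor
    · intro h
      by_cases h1 : ∃ y, S.old y = S.cod x c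
      · obtain ⟨y, hy⟩ := h1
        left
        obtain ⟨m, hm⟩ : S.E x y := by
          refine S.In_EI (v := S.cod x c) ⟨c, rfl⟩ ?_
          rw [← hy]
          exact S.old_cl y
        refine ⟨m, by rw [hm, hy], ?_⟩
        rw [hm, ← h, ← hy, rho_old_b]
      · by_cases h2 : ∃ p : VV × ℕ, S.nv p.1 p.2 = S.cod x c
        · obtain ⟨⟨w, j⟩, hw⟩ := h2
          simp only at hw
          right
          left
          obtain ⟨c', hc'⟩ := (S.nv_cl x w j).2 ⟨c, hw.symm⟩
          refine ⟨c', j, by rw [hc', hw], ?_⟩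
          rw [hc', ← h, ← hw, rho_nv_b]
        · right
          right
          refine ⟨fun m hm => h1 ⟨_, hm⟩, fun c' j hj => h2 ⟨(_, j), hj⟩, ?_⟩
          rw [← h, S.rho_other l _ h1 h2]
    · rintro (⟨m, h1, h2⟩ | ⟨c', j, h1, h2⟩ | ⟨h1, h2, h3⟩)
      · rw [← h1, rho_old_b, h2]
      · rw [← h1, rho_nv_b, h2]
      · rw [S.rho_other l _ ?_ ?_, h3]
        · rintro ⟨y, hy⟩
          obtain ⟨m, hm⟩ : S.E x y := by
            refine S.In_EI (v := S.cod x c) ⟨c, rfl⟩ ?_
            rw [← hy]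
            exact S.old_cl y
          exact h1 m (by rw [hm, hy])
        · rintro ⟨⟨w, j⟩, hw⟩
          simp only at hw
          obtain ⟨c', hc'⟩ := (S.nv_cl x w j).2 ⟨c, hw.symm⟩
          exact h2 c' j (by rw [hc', hw])
  rw [key]
  refine Measurable.or ?_ (Measurable.or ?_ ?_)
  · exact Measurable.exists fun m => (measurableSet_setOfPred.1 (S.oldm m c)).and (S.gameq m k)
  · exact Measurable.exists fun c' => Measurable.exists fun j =>
      (measurableSet_setOfPred.1 (S.nvm c' j c)).and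
        ((S.nNval hG.lbM hG.lbρ hG.ρE (S.nCod c') l j).ms k)
  · refine Measurable.and ?_ (Measurable.and ?_ (measurableSet_setOfPred.1 (S.basem c k)))
    · exact Measurable.forall fun m => (measurableSet_setOfPred.1 (S.oldm m c)).not
    · exact Measurable.forall fun c' => Measurable.forall fun j =>
        (measurableSet_setOfPred.1 (S.nvm c' j c)).not

/-- finite sets over the class are named by lists of codes -/
theorem ex_list (x : X) (s : Finset VV) (h : ∀ v ∈ s, S.In x v) :
    ∃ L : List ℕ, ∀ v, v ∈ L.map (S.cod x) ↔ v ∈ s := by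
  classical
  induction s using Finset.induction_on with
  | empty => exact ⟨[], by simp⟩
  | insert a s ha ih =>
    obtain ⟨L, hL⟩ := ih fun v hv => h v (Finset.mem_insert_of_mem hv)
    obtain ⟨c, hc⟩ := h a (Finset.mem_insert_self a s)
    refine ⟨c :: L, fun v => ?_⟩
    rw [List.map_cons, List.mem_cons, hL, hc, Finset.mem_insert]

open Classical in
theorem lbM_a (hG : S.Good n i M ρ) (L : List ℕ) :
    Measurable fun x => ∃ t ∈ M, (L.map (S.cod x)).toFinset = t.image (fun v => S.old (ρ v)) := by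
  have key : (fun x => ∃ t ∈ M, (L.map (S.cod x)).toFinset = t.image (fun v => S.old (ρ v))) =
      fun x => ∃ L' : List ℕ, (L'.map (S.cod x)).toFinset ∈ M ∧
        (∀ a ∈ L.map (S.cod x), a ∈ (L'.map (S.cod x)).map (fun v => S.old (ρ v))) ∧
        (∀ a ∈ (L'.map (S.cod x)).map (fun v => S.old (ρ v)), a ∈ L.map (S.cod x)) := by
    funext x
    apply propext
    constructor
    · rintro ⟨t, ht, hs⟩
      have hne : t.Nonempty := by
        rw [Finset.nonempty_iff_ne_empty]
        rintro rfl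
        exact hG.cx.1 ht
      obtain ⟨v0, hv0⟩ := hne
      obtain ⟨x', hx'⟩ := hG.cls t ht
      have h1 : S.E x' (ρ v0) := hG.ρE x' v0 (hx' v0 hv0)
      have h2 : S.In x (S.old (ρ v0)) := by
        have : S.old (ρ v0) ∈ (L.map (S.cod x)).toFinset := by
          rw [hs]
          exact Finset.mem_image_of_mem _ hv0
        rw [List.mem_toFinset, List.mem_map] at this
        obtain ⟨c, _, hc⟩ := this
        exact ⟨c, hc⟩
      have h3 : S.E x (ρ v0) := S.In_EI h2 (S.old_cl (ρ v0))
      have h4 : S.E x' x := S.E_trans_b h1 (S.E_symm_b h3)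
      obtain ⟨L', hL'⟩ := S.ex_list x t fun v hv => S.In_E (hx' v hv) h4
      have h5 : (L'.map (S.cod x)).toFinset = t := by
        ext v
        rw [List.mem_toFinset, hL']
      refine ⟨L', by rw [h5]; exact ht, fun a ha => ?_, fun a ha => ?_⟩
      · have : a ∈ t.image (fun v => S.old (ρ v)) := by
          rw [← hs, List.mem_toFinset]
          exact ha
        obtain ⟨v, hv, rfl⟩ := Finset.mem_image.1 this
        exact List.mem_map_of_mem ((hL' v).2 hv)
      · obtain ⟨v, hv, rfl⟩ := List.mem_map.1 ha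
        have : S.old (ρ v) ∈ (L.map (S.cod x)).toFinset := by
          rw [hs]
          exact Finset.mem_image_of_mem _ ((hL' v).1 hv)
        rwa [List.mem_toFinset] at this
    · rintro ⟨L', h1, h2, h3⟩
      refine ⟨_, h1, ?_⟩
      ext a
      rw [List.mem_toFinset, Finset.mem_image]
      constructor
      · intro ha
        obtain ⟨v, hv, rfl⟩ := List.mem_map.1 (h2 a ha)
        exact ⟨v, List.mem_toFinset.2 hv, rfl⟩
      · rintro ⟨v, hv, rfl⟩
        exact h3 _ (List.mem_map_of_mem (List.mem_toFinset.1 hv))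
  rw [key]
  refine Measurable.exists fun L' => ?_
  have n1 : Nm (NL S.cod) fun x => L'.map (S.cod x) := Nm.nameL S.codeq L'
  have n0 : Nm (NL S.cod) fun x => L.map (S.cod x) := Nm.nameL S.codeq L
  have n2 : Nm (NL S.cod) fun x => (L'.map (S.cod x)).map (fun v => S.old (ρ v)) :=
    Nm.mapL (fun v => S.old (ρ v)) (fun c => S.nOld (S.nRho hG.lbρ hG.ρE (S.nCod c))) n1
  exact (S.mM hG.lbM n1).and ((Nm.subset S.codeq n0 n2).and (Nm.subset S.codeq n2 n0))

/-- membership in a gadget over `v` forces `v` to live over the class -/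
theorem gad_In (hG : S.Good n i M ρ) (x : X) (v : VV) (hv : ({v} : Finset VV) ∈ M) (u0 : VV)
    (hu : S.In x u0) (h : (∃ j, u0 = S.old (ρ (S.pth M ρ v j))) ∨ ∃ j, u0 = S.nv v j) : S.In x v := by
  rcases h with ⟨j, rfl⟩ | ⟨j, rfl⟩
  · obtain ⟨x', hx'⟩ := hG.cls _ hv
    have h1 : S.In x' v := hx' v (Finset.mem_singleton_self v)
    obtain ⟨c, hc⟩ := h1
    have h2 : S.In x' (S.pth M ρ (S.cod x' c) j) :=
      S.Nm_In (S.nPth hG.lbM hG.lbρ hG.ρE (S.nCod c) j) x'
    rw [hc] at h2
    have h3 : S.E x' (ρ (S.pth M ρ v j)) := hG.ρE _ _ h2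
    have h4 : S.E x (ρ (S.pth M ρ v j)) := S.In_EI hu (S.old_cl _)
    exact S.In_E ⟨c, hc⟩ (S.E_trans_b h3 (S.E_symm_b h4))
  · exact (S.nv_cl x v j).2 hu

open Classical in
theorem m3 {a b c : X → VV} (ha : Nm S.cod a) (hb : Nm S.cod b) (hc : Nm S.cod c) (L : List ℕ) :
    Measurable fun x => (L.map (S.cod x)).toFinset ⊆ ({a x, b x, c x} : Finset VV) := by
  have h := Nm.subset S.codeq (Nm.nameL S.codeq L) (ha.cons (hb.cons (hc.cons Nm.nil)))
  have key : (fun x => (L.map (S.cod x)).toFinset ⊆ ({a x, b x, c x} : Finset VV)) =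
      fun x => ∀ d ∈ L.map (S.cod x), d ∈ [a x, b x, c x] := by
    funext x
    apply propext
    constructor
    · intro h d hd
      have := h (List.mem_toFinset.2 hd)
      simpa using this
    · intro h d hd
      have := h d (List.mem_toFinset.1 hd)
      simpa using this
  rw [key]
  exact h

open Classical in
theorem lbM_b (hG : S.Good n i M ρ) (L : List ℕ) :
    Measurable fun x => ∃ v : VV, {v} ∈ M ∧ S.rep M ρ v ≠ v ∧
      (L.map (S.cod x)).toFinset ∈ Gad (S.len M ρ v) (fun i => S.old (ρ (S.pth M ρ v i))) (S.nv v)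
        (S.nv v (S.len M ρ v + 1)) := by
  have key : (fun x => ∃ v : VV, {v} ∈ M ∧ S.rep M ρ v ≠ v ∧
      (L.map (S.cod x)).toFinset ∈ Gad (S.len M ρ v) (fun i => S.old (ρ (S.pth M ρ v i))) (S.nv v)
        (S.nv v (S.len M ρ v + 1))) = fun x => ∃ c m : ℕ, ({S.cod x c} : Finset VV) ∈ M ∧
      (¬ S.rep M ρ (S.cod x c) = S.cod x c) ∧ S.len M ρ (S.cod x c) = m ∧ L ≠ [] ∧
      ∃ j, j ≤ m ∧ ((L.map (S.cod x)).toFinset ⊆ {S.old (ρ (S.pth M ρ (S.cod x c) j)),
          S.old (ρ (S.pth M ρ (S.cod x c) (nx m j))), S.nv (S.cod x c) j} ∨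
        (L.map (S.cod x)).toFinset ⊆ {S.old (ρ (S.pth M ρ (S.cod x c) (nx m j))), S.nv (S.cod x c) j,
          S.nv (S.cod x c) (nx m j)} ∨
        (L.map (S.cod x)).toFinset ⊆ {S.nv (S.cod x c) j, S.nv (S.cod x c) (nx m j),
          S.nv (S.cod x c) (m + 1)}) := by
    funext x
    apply propext
    constructor
    · rintro ⟨v, h1, h2, h3, j, hj, h4⟩
      have hL : L ≠ [] := by
        rintro rfl
        simp at h3
      obtain ⟨u0, hu0⟩ := h3
      have hIn : S.In x u0 := by
        rw [List.mem_toFinset, List.mem_map] at hu0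
        obtain ⟨c, _, hc⟩ := hu0
        exact ⟨c, hc⟩
      have hv : S.In x v := by
        refine S.gad_In hG x v h1 u0 hIn ?_
        rcases h4 with h4 | h4 | h4
        · have := h4 hu0
          simp only [Finset.mem_insert, Finset.mem_singleton] at this
          rcases this with h | h | h
          · exact Or.inl ⟨_, h⟩
          · exact Or.inl ⟨_, h⟩
          · exact Or.inr ⟨_, h⟩
        · have := h4 hu0
          simp only [Finset.mem_insert, Finset.mem_singleton] at this
          rcases this with h | h | h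
          · exact Or.inl ⟨_, h⟩
          · exact Or.inr ⟨_, h⟩
          · exact Or.inr ⟨_, h⟩
        · have := h4 hu0
          simp only [Finset.mem_insert, Finset.mem_singleton] at this
          rcases this with h | h | h
          · exact Or.inr ⟨_, h⟩
          · exact Or.inr ⟨_, h⟩
          · exact Or.inr ⟨_, h⟩
      obtain ⟨c, rfl⟩ := hv
      exact ⟨c, _, h1, h2, rfl, hL, j, hj, h4⟩
    · rintro ⟨c, m, h1, h2, rfl, hL, j, hj, h4⟩
      refine ⟨S.cod x c, h1, h2, ?_, j, hj, h4⟩
      obtain ⟨a, L', rfl⟩ := List.exists_cons_of_ne_nil hL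
      exact ⟨S.cod x a, by simp⟩
  rw [key]
  refine Measurable.exists fun c => Measurable.exists fun m => ?_
  have nc := S.nCod c
  have np : ∀ j, Nm S.cod fun x => S.old (ρ (S.pth M ρ (S.cod x c) j)) := fun j =>
    S.nOld (S.nRho hG.lbρ hG.ρE (S.nPth hG.lbM hG.lbρ hG.ρE nc j))
  have nn : ∀ j, Nm S.cod fun x => S.nv (S.cod x c) j := fun j => S.nNv nc j
  refine (S.mM1 hG.lbM nc).and (((S.nRep hG.lbM hG.lbρ hG.ρE nc).eq nc).not.and
    ((S.mLen hG.lbM hG.lbρ hG.ρE nc m).and (measurable_const.and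
      (Measurable.exists fun j => measurable_const.and ?_))))
  exact (S.m3 (np j) (np _) (nn j) L).or ((S.m3 (np _) (nn j) (nn _) L).or
    (S.m3 (nn j) (nn _) (nn _) L))

/-- The next complex is locally Borel. -/
theorem lbM_nxt (hG : S.Good n i M ρ) : S.LBM (S.nxt M ρ) := by
  classical
  intro L
  apply measurableSet_setOfPred.2
  exact (S.lbM_a hG L).or (S.lbM_b hG L)

end Sys

end Pool.Agent.Helper281.Sc
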