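import Mathlib
import Pool.Agent.Helper281.Sc.Gc

set_option autoImplicit false

namespace Pool.Agent.Helper281.Sc

open Set

universe u v w

variable {V : Type u}

/-- `M` with the gadgets attached, before merging. -/
def Hat [DecidableEq V] (M : Set (Finset V)) (R : Set V) (len : V → ℕ) (pth : V → ℕ → V) :
    Set (Finset (V ⊕ (V × ℕ))) :=
  {s | ∃ t ∈ M, s = t.image Sum.inl} ∪
    {s | ∃ v ∈ R, s ∈ Gad (len v) (fun i => Sum.inl (pth v i)) (fun i => Sum.inr (v, i))
      (Sum.inr (v, len v + 1))}

theorem isCx_imgInl [DecidableEq V] {M : Set (Finset V)} (hM : IsCx M) :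
    IsCx {s : Finset (V ⊕ (V × ℕ)) | ∃ t ∈ M, s = t.image Sum.inl} := by
  refine ⟨?_, ?_⟩
  · rintro ⟨t, ht, h⟩
    have : t = ∅ := Finset.image_eq_empty.1 h.symm
    subst this
    exact hM.1 ht
  · rintro s ⟨t, ht, rfl⟩ r hr hn
    obtain ⟨t', ht', rfl⟩ := Finset.subset_image_iff.1 hr
    refine ⟨t', hM.2 t ht t' ht' ?_, rfl⟩
    exact Finset.image_nonempty.1 hn

theorem isCx_Hat [DecidableEq V] {M : Set (Finset V)} (hM : IsCx M) (R : Set V) (len : V → ℕ)
    (pth : V → ℕ → V) : IsCx (Hat M R len pth) := by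
  refine ⟨?_, ?_⟩
  · rintro (h | ⟨v, _, h⟩)
    · exact (isCx_imgInl hM).1 h
    · exact (isCx_Gad _ _ _ _).1 h
  · rintro s (h | ⟨v, hv, h⟩) r hr hn
    · exact Or.inl ((isCx_imgInl hM).2 s h r hr hn)
    · exact Or.inr ⟨v, hv, (isCx_Gad _ _ _ _).2 s h r hr hn⟩

/-- Members of the gadget without `inr` vertices. -/
theorem gad_inl [DecidableEq V] (l : ℕ) (p : ℕ → V) (v : V) (s : Finset (V ⊕ (V × ℕ)))
    (hs : s ∈ Gad l (fun i => (Sum.inl (p i) : V ⊕ (V × ℕ))) (fun i => Sum.inr (v, i))
      (Sum.inr (v, l + 1))) (hn : ∀ x ∈ s, ∃ a, x = Sum.inl a) :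
    ∃ i ≤ l, s ⊆ ({Sum.inl (p i), Sum.inl (p (nx l i))} : Finset (V ⊕ (V × ℕ))) := by
  obtain ⟨hne, i, hi, h | h | h⟩ := hs
  · refine ⟨i, hi, fun x hx => ?_⟩
    have h1 := h hx
    obtain ⟨a, rfl⟩ := hn x hx
    simpa using h1
  · refine ⟨i, hi, fun x hx => ?_⟩
    have h1 := h hx
    obtain ⟨a, rfl⟩ := hn x hx
    simp at h1
    simp [h1]
  · obtain ⟨x, hx⟩ := hne
    have h1 := h hx
    obtain ⟨a, rfl⟩ := hn x hx
    simp at h1

/-- Corrected statement: the closing edges of different gadgets must be different (`hdis`). -/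
theorem ctr_Hat [DecidableEq V] {M : Set (Finset V)} (hM : IsCx M) (hMC : Ctr M) (R : Set V)
    (len : V → ℕ) (pth : V → ℕ → V) (h2 : ∀ v ∈ R, 2 ≤ len v)
    (hinj : ∀ v ∈ R, InjOn (pth v) (Iic (len v)))
    (hedge : ∀ v ∈ R, ∀ i < len v, ({pth v i, pth v (i + 1)} : Finset V) ∈ M)
    (hne : ∀ v ∈ R, ({pth v (len v), pth v 0} : Finset V) ∉ M)
    (hdis : ∀ v ∈ R, ∀ w ∈ R, v ≠ w →
      ({pth v (len v), pth v 0} : Finset V) ≠ {pth w (len w), pth w 0}) :
    Ctr (Hat M R len pth) := by
  classical
  -- the image of a nonempty subset of an edge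
  have hEdgeIn : ∀ v ∈ R, ∀ i < len v, ∀ s : Finset (V ⊕ (V × ℕ)), s.Nonempty →
      s ⊆ ({Sum.inl (pth v i), Sum.inl (pth v (i+1))} : Finset (V ⊕ (V × ℕ))) →
      ∃ t ∈ M, s = t.image Sum.inl := by
    intro v hv i hi s hsn hs
    have e : ({Sum.inl (pth v i), Sum.inl (pth v (i+1))} : Finset (V ⊕ (V × ℕ))) =
        ({pth v i, pth v (i+1)} : Finset V).image Sum.inl := by
      simp [Finset.image_insert]
    rw [e] at hs
    exact (isCx_imgInl hM).2 _ ⟨_, hedge v hv i hi, rfl⟩ s hs hsn
  -- members of gadget without inr vertices: in `Pth` or equal to the closing edge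
  have hkey : ∀ v ∈ R, ∀ s : Finset (V ⊕ (V × ℕ)),
      s ∈ Gad (len v) (fun i => (Sum.inl (pth v i) : V ⊕ (V × ℕ))) (fun i => Sum.inr (v, i))
      (Sum.inr (v, len v + 1)) → (∀ x ∈ s, ∃ a, x = Sum.inl a) →
      s ∈ Pth (len v) (fun i => (Sum.inl (pth v i) : V ⊕ (V × ℕ))) ∨
        s = ({pth v (len v), pth v 0} : Finset V).image Sum.inl := by
    intro v hv s hs hn
    obtain ⟨i, hi, h⟩ := gad_inl _ _ _ _ hs hn
    have hsn : s.Nonempty := hs.1
    have hl : 2 ≤ len v := h2 v hv
    rcases Nat.lt_or_ge i (len v) with hlt | hge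
    · left
      refine ⟨hsn, i, hlt, ?_⟩
      have : nx (len v) i = i + 1 := by simp [nx, hlt]
      rw [this] at h
      exact h
    · have hi' : i = len v := le_antisymm hi hge
      subst hi'
      have e0 : nx (len v) (len v) = 0 := by simp [nx]
      rw [e0] at h
      -- s ⊆ {a, b}
      by_cases h1 : (Sum.inl (pth v (len v)) : V ⊕ (V × ℕ)) ∈ s
      · by_cases h3 : (Sum.inl (pth v 0) : V ⊕ (V × ℕ)) ∈ s
        · right
          rw [Finset.image_insert, Finset.image_singleton]
          apply Finset.Subset.antisymm h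
          intro x hx
          rw [Finset.mem_insert, Finset.mem_singleton] at hx
          rcases hx with rfl | rfl
          · exact h1
          · exact h3
        · left
          refine ⟨hsn, len v - 1, by omega, ?_⟩
          intro x hx
          have := h hx
          rw [Finset.mem_insert, Finset.mem_singleton] at this
          rcases this with rfl | rfl
          · have : len v - 1 + 1 = len v := by omega
            rw [this]
            simp
          · exact absurd hx h3
      · left
        refine ⟨hsn, 0, by omega, ?_⟩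
        intro x hx
        have := h hx
        rw [Finset.mem_insert, Finset.mem_singleton] at this
        rcases this with rfl | rfl
        · exact absurd hx h1
        · simp
  have hPthIn : ∀ v ∈ R, ∀ s : Finset (V ⊕ (V × ℕ)),
      s ∈ Pth (len v) (fun i => (Sum.inl (pth v i) : V ⊕ (V × ℕ))) →
      ∃ t ∈ M, s = t.image Sum.inl := by
    rintro v hv s ⟨hsn, i, hi, h⟩
    exact hEdgeIn v hv i hi s hsn h
  refine ctr_union (ι := R) (X1 := {s : Finset (V ⊕ (V × ℕ)) | ∃ t ∈ M, s = t.image Sum.inl})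
    (Y := fun v : R => Gad (len v) (fun i => (Sum.inl (pth v i) : V ⊕ (V × ℕ)))
      (fun i => Sum.inr ((v : V), i)) (Sum.inr ((v : V), len v + 1)))
    (isCx_Hat hM R len pth) (isCx_imgInl hM) (fun v => isCx_Gad _ _ _ _) ?_ ?_ ?_ ?_ ?_
  · intro s
    constructor
    · rintro (h | ⟨v, hv, h⟩)
      · exact Or.inl h
      · exact Or.inr ⟨⟨v, hv⟩, h⟩
    · rintro (h | ⟨⟨v, hv⟩, h⟩)
      · exact Or.inl h
      · exact Or.inr ⟨v, hv, h⟩
  · rintro ⟨v, hv⟩ ⟨w, hw⟩ hvw s ⟨hsv, hsw⟩
    have hvw' : v ≠ w := fun h => hvw (Subtype.ext h)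
    have hn : ∀ x ∈ s, ∃ a, x = Sum.inl a := by
      have aux : ∀ u : V, s ∈ Gad (len u) (fun i => (Sum.inl (pth u i) : V ⊕ (V × ℕ)))
          (fun i => Sum.inr ((u : V), i)) (Sum.inr ((u : V), len u + 1)) →
          ∀ a k, (Sum.inr (a, k) : V ⊕ (V × ℕ)) ∈ s → a = u := by
        rintro u ⟨_, i, _, h | h | h⟩ a k hk
        · have := h hk
          simp at this
          exact this.1
        · have := h hk
          simp at this
          rcases this with h | h
          · exact h.1
          · exact h.1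
        · have := h hk
          simp at this
          rcases this with h | h | h
          · exact h.1
          · exact h.1
          · exact h.1
      intro x hx
      rcases x with a | ⟨a, k⟩
      · exact ⟨a, rfl⟩
      · exact absurd ((aux v hsv a k hx).symm.trans (aux w hsw a k hx)) hvw'
    rcases hkey v hv s hsv hn with h | h
    · exact hPthIn v hv s h
    · rcases hkey w hw s hsw hn with h' | h'
      · exact hPthIn w hw s h'
      · exfalso
        apply hdis v hv w hw hvw'
        exact Finset.image_injective Sum.inl_injective (h.symm.trans h')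
  · rintro ⟨v, hv⟩
    refine ctr_Gad _ (h2 v hv) _ _ _ ?_ ?_ ?_ ?_ ?_
    · intro i hi j hj hij
      exact hinj v hv hi hj (Sum.inl_injective hij)
    · intro i hi j hj hij
      simpa using hij
    · intro i _ j _ h
      simp at h
    · intro i _ h
      simp at h
    · intro i hi h
      simp at h
      omega
  · rintro ⟨v, hv⟩
    have hp : ({s : Finset (V ⊕ (V × ℕ)) | ∃ t ∈ M, s = t.image Sum.inl} ∩
        Gad (len v) (fun i => (Sum.inl (pth v i) : V ⊕ (V × ℕ)))
          (fun i => Sum.inr (v, i)) (Sum.inr (v, len v + 1))) =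
        Pth (len v) (fun i => (Sum.inl (pth v i) : V ⊕ (V × ℕ))) := by
      ext s
      constructor
      · rintro ⟨⟨t, ht, rfl⟩, hs⟩
        rcases hkey v hv _ hs (by
          intro x hx
          obtain ⟨a, _, rfl⟩ := Finset.mem_image.1 hx
          exact ⟨a, rfl⟩) with h | h
        · exact h
        · exfalso
          apply hne v hv
          rw [← Finset.image_injective Sum.inl_injective h]
          exact ht
      · intro hs
        refine ⟨hPthIn v hv s hs, ?_⟩
        obtain ⟨hsn, i, hi, h⟩ := hs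
        refine ⟨hsn, i, hi.le, Or.inl ?_⟩
        have : nx (len v) i = i + 1 := by simp [nx, hi]
        rw [this]
        intro x hx
        have := h hx
        rw [Finset.mem_insert, Finset.mem_singleton] at this
        rcases this with rfl | rfl
        · simp
        · simp
    show Ctr ({s : Finset (V ⊕ (V × ℕ)) | ∃ t ∈ M, s = t.image Sum.inl} ∩
        Gad (len v) (fun i => (Sum.inl (pth v i) : V ⊕ (V × ℕ)))
          (fun i => Sum.inr (v, i)) (Sum.inr (v, len v + 1)))
    rw [hp]
    refine ctr_Pth _ (by have := h2 v hv; omega) _ ?_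
    intro i hi j hj hij
    exact hinj v hv hi hj (Sum.inl_injective hij)
  · exact ctr_image hM hMC _ Sum.inl_injective

end Pool.Agent.Helper281.Sc
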