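import Mathlib
import Pool.Agent.Helper281.Sc.Hat

set_option autoImplicit false

namespace Pool.Agent.Helper281.Sc

open Set

universe u v w

variable {V : Type u} {X : Type v} {U : Type w}

theorem nx_le2 (l i : ℕ) : nx l i ≤ l := by
  unfold nx; split_ifs <;> omega

/-- bundle of the hypotheses on the representatives and the paths -/
structure Dat [DecidableEq V] [DecidableEq X] (M : Set (Finset V)) (ρ : V → X) (rep : V → V)
    (len : V → ℕ) (pth : V → ℕ → V) : Prop where
  cx : IsCx M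
  ul : UL M ρ
  rep1 : ∀ v, {v} ∈ M → {rep v} ∈ M ∧ ρ (rep v) = ρ v
  rep2 : ∀ v w, {v} ∈ M → {w} ∈ M → ρ v = ρ w → rep v = rep w
  pt : ∀ v, {v} ∈ M → rep v ≠ v → pth v 0 = v ∧ pth v (len v) = rep v ∧
      InjOn (pth v) (Iic (len v)) ∧ ∀ i < len v, ({pth v i, pth v (i + 1)} : Finset V) ∈ M

section dat

variable [DecidableEq V] [DecidableEq X] {M : Set (Finset V)} {ρ : V → X} {rep : V → V}
    {len : V → ℕ} {pth : V → ℕ → V}

/-- the non-representative vertices -/
def RR (M : Set (Finset V)) (rep : V → V) : Set V := {v | {v} ∈ M ∧ rep v ≠ v}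

theorem Dat.inj (h : Dat M ρ rep len pth) {x y : V} (hxy : ({x, y} : Finset V) ∈ M)
    (he : ρ x = ρ y) : x = y :=
  h.ul.1 _ hxy (by simp) (by simp) he

theorem Dat.len3 (h : Dat M ρ rep len pth) {v : V} (hv : {v} ∈ M) (hr : rep v ≠ v) :
    3 ≤ len v := by
  obtain ⟨h0, h1, hinj, hedge⟩ := h.pt v hv hr
  have hρ := (h.rep1 v hv).2
  by_contra hlt
  have hc : len v = 0 ∨ len v = 1 ∨ len v = 2 := by omega
  rcases hc with hc | hc | hc
  · rw [hc, h0] at h1; exact hr h1.symm
  · have h2 := hedge 0 (by omega)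
    rw [h0] at h2
    rw [hc] at h1
    simp only [zero_add, h1] at h2
    exact hr (h.inj h2 hρ.symm).symm
  · have h2 := hedge 0 (by omega)
    have h3 := hedge 1 (by omega)
    rw [h0] at h2
    rw [hc] at h1 hinj
    simp only [zero_add] at h2
    norm_num at h3
    rw [h1] at h3
    have hne : v ≠ pth v 1 := by
      intro he
      have := hinj (show (0:ℕ) ∈ Iic 2 by simp) (show (1:ℕ) ∈ Iic 2 by simp) (by rw [h0]; exact he)
      omega
    have h4 := h.ul.2 _ h2 _ h3 (by rw [Finset.card_pair hne]) (by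
      rw [Finset.image_insert, Finset.image_singleton, Finset.image_insert,
        Finset.image_singleton, hρ, Finset.pair_comm])
    have h5 : v ∈ ({pth v 1, rep v} : Finset V) := by rw [← h4]; simp
    rw [Finset.mem_insert, Finset.mem_singleton] at h5
    rcases h5 with h5 | h5
    · exact hne h5
    · exact hr h5.symm

/-- abbreviation for the unmerged complex -/
abbrev NN (M : Set (Finset V)) (rep : V → V) (len : V → ℕ) (pth : V → ℕ → V) :
    Set (Finset (V ⊕ (V × ℕ))) := Hat M (RR M rep) len pth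

theorem Dat.vM (h : Dat M ρ rep len pth) {v : V} (hv : {v} ∈ M) (hr : rep v ≠ v) (i : ℕ)
    (hi : i ≤ len v) : {pth v i} ∈ M := by
  obtain ⟨h0, h1, hinj, hedge⟩ := h.pt v hv hr
  have h3 := h.len3 hv hr
  cases i with
  | zero => rw [h0]; exact hv
  | succ i => exact h.cx.2 _ (hedge i (by omega)) _ (by simp) (by simp)

/-- (N2) -/
theorem Dat.N2 (h : Dat M ρ rep len pth) {τ : Finset (V ⊕ (V × ℕ))} (hτ : τ ∈ NN M rep len pth)
    {y v : V} {k : ℕ} (hy : Sum.inl y ∈ τ) (hv : Sum.inr (v, k) ∈ τ) :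
    ({v} ∈ M ∧ rep v ≠ v) ∧ ((k < len v ∧ (y = pth v k ∨ y = pth v (k + 1))) ∨
      (k = len v ∧ (y = rep v ∨ y = v))) := by
  rcases hτ with ⟨t, ht, rfl⟩ | ⟨v', hv', hne, i, hi, hg⟩
  · simp at hv
  · obtain ⟨h0, h1, -, -⟩ := h.pt v' hv'.1 hv'.2
    have key : ∀ j ≤ len v', (y = pth v' j ∨ y = pth v' (nx (len v') j)) →
        ((j < len v' ∧ (y = pth v' j ∨ y = pth v' (j + 1))) ∨
          (j = len v' ∧ (y = rep v' ∨ y = v'))) := by
      intro j hj hy'
      rcases hj.lt_or_eq with hlt | heq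
      · left
        refine ⟨hlt, ?_⟩
        rwa [nx, if_pos hlt] at hy'
      · right
        refine ⟨heq, ?_⟩
        subst heq
        rwa [nx, if_neg (lt_irrefl _), h0, h1] at hy'
    rcases hg with hg | hg | hg
    · have a1 := hg hy
      have a2 := hg hv
      simp only [Finset.mem_insert, Finset.mem_singleton, Sum.inl.injEq, Sum.inr.injEq,
        Prod.mk.injEq, reduceCtorEq, or_false, false_or] at a1 a2
      obtain ⟨rfl, rfl⟩ := a2
      exact ⟨hv', key k hi a1⟩
    · have a1 := hg hy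
      have a2 := hg hv
      simp only [Finset.mem_insert, Finset.mem_singleton, Sum.inl.injEq, Sum.inr.injEq,
        Prod.mk.injEq, reduceCtorEq, or_false, false_or] at a1 a2
      rcases a2 with ⟨rfl, rfl⟩ | ⟨rfl, rfl⟩
      · exact ⟨hv', key k hi (Or.inr a1)⟩
      · exact ⟨hv', key _ (nx_le2 _ _) (Or.inl a1)⟩
    · have a1 := hg hy
      simp at a1

/-- (N3) -/
theorem Dat.N3 (_ : Dat M ρ rep len pth) {τ : Finset (V ⊕ (V × ℕ))} (hτ : τ ∈ NN M rep len pth)
    {v v' : V} {k k' : ℕ} (hv : Sum.inr (v, k) ∈ τ) (hv' : Sum.inr (v', k') ∈ τ) : v = v' := by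
  rcases hτ with ⟨t, ht, rfl⟩ | ⟨w, hw, hne, i, hi, hg⟩
  · simp at hv
  · have key : ∀ u j, Sum.inr (u, j) ∈ τ → u = w := by
      intro u j hu
      rcases hg with hg | hg | hg
      · have a1 := hg hu
        simp only [Finset.mem_insert, Finset.mem_singleton, Sum.inr.injEq,
          Prod.mk.injEq, reduceCtorEq, or_false, false_or] at a1
        exact a1.1
      · have a1 := hg hu
        simp only [Finset.mem_insert, Finset.mem_singleton, Sum.inr.injEq,
          Prod.mk.injEq, reduceCtorEq, or_false, false_or] at a1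
        rcases a1 with a1 | a1 <;> exact a1.1
      · have a1 := hg hu
        simp only [Finset.mem_insert, Finset.mem_singleton, Sum.inr.injEq,
          Prod.mk.injEq] at a1
        rcases a1 with a1 | a1 | a1 <;> exact a1.1
    rw [key v k hv, key v' k' hv']

/-- (N1) -/
theorem Dat.N1 (h : Dat M ρ rep len pth) {τ : Finset (V ⊕ (V × ℕ))} (hτ : τ ∈ NN M rep len pth)
    {y y' : V} (hy : Sum.inl y ∈ τ) (hy' : Sum.inl y' ∈ τ) :
    ({y, y'} : Finset V) ∈ M ∨ ∃ v, {v} ∈ M ∧ rep v ≠ v ∧ (y = rep v ∨ y = v) ∧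
      (y' = rep v ∨ y' = v) := by
  rcases hτ with ⟨t, ht, rfl⟩ | ⟨v, hv, hne, i, hi, hg⟩
  · left
    simp only [Finset.mem_image, Sum.inl.injEq, exists_eq_right] at hy hy'
    refine h.cx.2 t ht _ ?_ (by simp)
    intro x hx
    rw [Finset.mem_insert, Finset.mem_singleton] at hx
    rcases hx with rfl | rfl <;> assumption
  · obtain ⟨h0, h1, -, hedge⟩ := h.pt v hv.1 hv.2
    rcases hg with hg | hg | hg
    · have a1 := hg hy
      have a2 := hg hy'
      simp only [Finset.mem_insert, Finset.mem_singleton, Sum.inl.injEq,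
        reduceCtorEq, or_false] at a1 a2
      rcases hi.lt_or_eq with hlt | heq
      · left
        rw [nx, if_pos hlt] at a1 a2
        refine h.cx.2 _ (hedge i hlt) _ ?_ (by simp)
        intro x hx
        rw [Finset.mem_insert, Finset.mem_singleton] at hx ⊢
        rcases hx with rfl | rfl <;> assumption
      · right
        subst heq
        rw [nx, if_neg (lt_irrefl _), h0, h1] at a1 a2
        exact ⟨v, hv.1, hv.2, a1, a2⟩
    · have a1 := hg hy
      have a2 := hg hy'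
      simp only [Finset.mem_insert, Finset.mem_singleton, Sum.inl.injEq,
        reduceCtorEq, or_false] at a1 a2
      left
      rw [a1, a2, Finset.pair_eq_singleton]
      exact h.vM hv.1 hv.2 _ (nx_le2 _ _)
    · have a1 := hg hy
      simp at a1

theorem Dat.vert (h : Dat M ρ rep len pth) {τ : Finset (V ⊕ (V × ℕ))} (hτ : τ ∈ NN M rep len pth)
    {y : V} (hy : Sum.inl y ∈ τ) : {y} ∈ M := by
  rcases h.N1 hτ hy hy with h1 | ⟨v, hv, -, h2, -⟩
  · rwa [Finset.pair_eq_singleton] at h1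
  · rcases h2 with rfl | rfl
    · exact (h.rep1 v hv).1
    · exact hv

/-- (A) -/
theorem Dat.A (h : Dat M ρ rep len pth) {τ : Finset (V ⊕ (V × ℕ))} (hτ : τ ∈ NN M rep len pth)
    {a : X} (hall : ∀ x ∈ τ, ∃ y, x = Sum.inl y ∧ ρ y = a) :
    ∃ w, {w} ∈ M ∧ ρ w = a ∧ ∀ x ∈ τ, x = Sum.inl w ∨ x = Sum.inl (rep w) := by
  -- either all elements are equal, or ...
  have hne : τ.Nonempty := by
    rcases hτ with ⟨t, ht, rfl⟩ | ⟨v, hv, hne, -⟩
    · rw [Finset.image_nonempty, Finset.nonempty_iff_ne_empty]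
      rintro rfl
      exact h.cx.1 ht
    · exact hne
  obtain ⟨x0, hx0⟩ := hne
  obtain ⟨y0, rfl, hy0⟩ := hall x0 hx0
  by_cases hsing : ∀ x ∈ τ, x = Sum.inl y0
  · exact ⟨y0, h.vert hτ hx0, hy0, fun x hx => Or.inl (hsing x hx)⟩
  · push Not at hsing
    obtain ⟨x1, hx1, hne1⟩ := hsing
    obtain ⟨y1, rfl, hy1⟩ := hall x1 hx1
    have hne' : y1 ≠ y0 := fun he => hne1 (by rw [he])
    -- one of `y0, y1` is the representative
    have pair : ∀ y y', Sum.inl y ∈ τ → Sum.inl y' ∈ τ → y ≠ y' →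
        (y = rep y0 ∨ y' = rep y0) := by
      intro y y' hy hy' hn
      obtain ⟨z, hz, hz2⟩ := hall _ hy
      obtain ⟨z', hz', hz2'⟩ := hall _ hy'
      rw [Sum.inl.injEq] at hz hz'
      subst hz; subst hz'
      rcases h.N1 hτ hy hy' with h1 | ⟨v, hv, hvr, h2, h3⟩
      · exact absurd (h.inj h1 (hz2.trans hz2'.symm)) hn
      · have hρv : ρ v = a := by
          rcases h2 with h2 | h2
          · rw [h2, (h.rep1 v hv).2] at hz2; exact hz2
          · rw [h2] at hz2; exact hz2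
        have hrr : rep v = rep y0 := h.rep2 v y0 hv (h.vert hτ hx0) (hρv.trans hy0.symm)
        rw [← hrr]
        rcases h2 with h2 | h2
        · exact Or.inl h2
        · rcases h3 with h3 | h3
          · exact Or.inr h3
          · exact absurd (h2.trans h3.symm) hn
    have hv0 := h.vert hτ hx0
    have hv1 := h.vert hτ hx1
    have hr10 : rep y1 = rep y0 := h.rep2 y1 y0 hv1 hv0 (hy1.trans hy0.symm)
    rcases pair y1 y0 hx1 hx0 hne' with h1 | h1
    · -- `y1` is the representative: take `w = y0`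
      refine ⟨y0, hv0, hy0, ?_⟩
      intro x hx
      obtain ⟨y, rfl, hy⟩ := hall x hx
      by_cases e0 : y = y0
      · exact Or.inl (by rw [e0])
      · rcases pair y y0 hx hx0 e0 with h2 | h2
        · exact Or.inr (by rw [h2])
        · exact absurd (h1.trans h2.symm) hne'
    · -- `y0` is the representative: take `w = y1`
      refine ⟨y1, hv1, hy1, ?_⟩
      intro x hx
      obtain ⟨y, rfl, hy⟩ := hall x hx
      by_cases e0 : y = y1
      · exact Or.inl (by rw [e0])
      · rcases pair y y1 hx hx1 e0 with h2 | h2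
        · exact Or.inr (by rw [h2, hr10])
        · exact absurd (h2.trans h1.symm) hne'

end dat

section fib

variable [DecidableEq V] [DecidableEq X] [DecidableEq U] {M : Set (Finset V)} {ρ : V → X}
    {rep : V → V} {len : V → ℕ} {pth : V → ℕ → V} {old : X → U} {nv : V → ℕ → U}

/-- the projection -/
def qq (ρ : V → X) (old : X → U) (nv : V → ℕ → U) : V ⊕ (V × ℕ) → U
  | Sum.inl v => old (ρ v)
  | Sum.inr (v, i) => nv v i

/-- membership in the enlarged star -/
def Ep (rep : V → V) (len : V → ℕ) (nv : V → ℕ → U) (σ : Finset U) (w : V)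
    (x : V ⊕ (V × ℕ)) : Prop :=
  x = Sum.inl w ∨ x = Sum.inl (rep w) ∨
    (rep w ≠ w ∧ x = Sum.inr (w, len w) ∧ nv w (len w) ∈ σ)

/-- the enlarged stars -/
def YY (M : Set (Finset V)) (ρ : V → X) (rep : V → V) (len : V → ℕ) (nv : V → ℕ → U)
    (σ : Finset U) (a : X) : Set (Finset (V ⊕ (V × ℕ))) :=
  {s | s.Nonempty ∧ ∃ w, {w} ∈ M ∧ ρ w = a ∧ ∀ x ∈ s, Ep rep len nv σ w x}

/-- the fibre over a simplex -/
def PH (M : Set (Finset V)) (ρ : V → X) (rep : V → V) (len : V → ℕ) (pth : V → ℕ → V)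
    (old : X → U) (nv : V → ℕ → U) (σ : Finset U) : Set (Finset (V ⊕ (V × ℕ))) :=
  {τ | τ ∈ NN M rep len pth ∧ τ.image (qq ρ old nv) ⊆ σ}

/-- main combinatorial claim -/
theorem Dat.main (h : Dat M ρ rep len pth) (hold : Function.Injective old)
    (hnv : ∀ v w k l, nv v k = nv w l → v = w ∧ k = l) (hon : ∀ x v k, old x ≠ nv v k)
    {σ : Finset U} {τ0 : Finset (V ⊕ (V × ℕ))} (hτ0 : τ0 ∈ NN M rep len pth)
    (himg : τ0.image (qq ρ old nv) = σ)
    {τ : Finset (V ⊕ (V × ℕ))} (hτ : τ ∈ NN M rep len pth)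
    (hτσ : τ.image (qq ρ old nv) ⊆ σ) :
    τ ⊆ τ0 ∨ ∃ a, old a ∈ σ ∧ τ ∈ YY M ρ rep len nv σ a := by
  by_cases hsub : τ ⊆ τ0
  · exact Or.inl hsub
  right
  rw [Finset.not_subset] at hsub
  obtain ⟨x, hx, hx0⟩ := hsub
  have lift : ∀ z ∈ τ, ∃ z0 ∈ τ0, qq ρ old nv z0 = qq ρ old nv z := by
    intro z hz
    have h1 : qq ρ old nv z ∈ σ := hτσ (Finset.mem_image_of_mem _ hz)
    rw [← himg, Finset.mem_image] at h1
    exact h1
  have liftr : ∀ v k, Sum.inr (v, k) ∈ τ → Sum.inr (v, k) ∈ τ0 := by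
    intro v k hz
    obtain ⟨z0, hz0, he⟩ := lift _ hz
    rcases z0 with y | ⟨v', k'⟩
    · exact absurd he (hon _ _ _)
    · obtain ⟨rfl, rfl⟩ := hnv _ _ _ _ he
      exact hz0
  have liftl : ∀ y, Sum.inl y ∈ τ → ∃ y0, Sum.inl y0 ∈ τ0 ∧ ρ y0 = ρ y := by
    intro y hz
    obtain ⟨z0, hz0, he⟩ := lift _ hz
    rcases z0 with y' | ⟨v', k'⟩
    · exact ⟨y', hz0, hold he⟩
    · exact absurd he.symm (hon _ _ _)
  rcases x with y | ⟨v, k⟩
  swap
  · exact absurd (liftr v k hx) hx0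
  obtain ⟨y0, hy0, hρ⟩ := liftl y hx
  have hyne : y ≠ y0 := by rintro rfl; exact hx0 hy0
  have hρrep : ∀ v, {v} ∈ M → ∀ z, (z = rep v ∨ z = v) → ρ z = ρ v := by
    rintro v hv z (rfl | rfl)
    · exact (h.rep1 v hv).2
    · rfl
  have c1 : ∀ y', Sum.inl y' ∈ τ → ρ y' = ρ y := by
    intro y' hy'
    by_contra hne
    obtain ⟨y0', hy0', hρ'⟩ := liftl y' hy'
    have e1 : ({y, y'} : Finset V) ∈ M := by
      rcases h.N1 hτ hx hy' with h1 | ⟨v, hv, -, h2, h3⟩
      · exact h1
      · exact absurd ((hρrep v hv _ h3).trans (hρrep v hv _ h2).symm) hne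
    have e2 : ({y0, y0'} : Finset V) ∈ M := by
      rcases h.N1 hτ0 hy0 hy0' with h1 | ⟨v, hv, -, h2, h3⟩
      · exact h1
      · have := (hρrep v hv _ h3).trans (hρrep v hv _ h2).symm
        rw [hρ, hρ'] at this
        exact absurd this hne
    have hyy : y ≠ y' := by rintro rfl; exact hne rfl
    have e3 := h.ul.2 _ e1 _ e2 (by rw [Finset.card_pair hyy]) (by
      rw [Finset.image_insert, Finset.image_singleton, Finset.image_insert,
        Finset.image_singleton, hρ, hρ'])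
    have e4 : y0 ∈ ({y, y'} : Finset V) := by rw [e3]; simp
    rw [Finset.mem_insert, Finset.mem_singleton] at e4
    rcases e4 with e4 | e4
    · exact hyne e4.symm
    · rw [e4] at hρ; exact hne hρ
  have c2 : ∀ v k, Sum.inr (v, k) ∈ τ → ({v} ∈ M ∧ rep v ≠ v) ∧ k = len v ∧ ρ v = ρ y := by
    intro v k hv
    obtain ⟨hvR, a1⟩ := h.N2 hτ hx hv
    obtain ⟨-, a2⟩ := h.N2 hτ0 hy0 (liftr v k hv)
    refine ⟨hvR, ?_⟩
    rcases a1 with ⟨hk, a1⟩ | ⟨hk, a1⟩
    · rcases a2 with ⟨-, a2⟩ | ⟨hk', -⟩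
      · exfalso
        have hM := (h.pt v hvR.1 hvR.2).2.2.2 k hk
        have hinj := h.ul.1 _ hM
        apply hyne
        apply hinj _ _ hρ.symm
        · simpa using a1
        · simpa using a2
      · omega
    · exact ⟨hk, (hρrep v hvR.1 _ a1).symm⟩
  refine ⟨ρ y, hτσ (Finset.mem_image.2 ⟨_, hx, rfl⟩), ⟨_, hx⟩, ?_⟩
  by_cases hinr : ∃ v k, Sum.inr (v, k) ∈ τ
  · obtain ⟨v, k, hv⟩ := hinr
    obtain ⟨hvR, rfl, hρv⟩ := c2 v k hv
    refine ⟨v, hvR.1, hρv, ?_⟩
    rintro (y' | ⟨v', k'⟩) hz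
    · rcases (h.N2 hτ hz hv).2 with ⟨hk, -⟩ | ⟨-, h2⟩
      · omega
      · rcases h2 with rfl | rfl
        · exact Or.inr (Or.inl rfl)
        · exact Or.inl rfl
    · obtain ⟨-, rfl, -⟩ := c2 v' k' hz
      have := h.N3 hτ hz hv
      subst this
      exact Or.inr (Or.inr ⟨hvR.2, rfl, hτσ (Finset.mem_image.2 ⟨_, hz, rfl⟩)⟩)
  · push Not at hinr
    obtain ⟨w, hw, hρw, hall⟩ := h.A hτ (a := ρ y) (by
      rintro (y' | ⟨v', k'⟩) hz
      · exact ⟨y', rfl, c1 y' hz⟩
      · exact absurd hz (hinr v' k'))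
    refine ⟨w, hw, hρw, fun z hz => ?_⟩
    rcases hall z hz with h1 | h1
    · exact Or.inl h1
    · exact Or.inr (Or.inl h1)

theorem isCx_YY (σ : Finset U) (a : X) : IsCx (YY M ρ rep len nv σ a) := by
  refine ⟨fun h => Finset.not_nonempty_empty h.1, ?_⟩
  rintro s ⟨-, w, hw, hρ, hall⟩ t hts htn
  exact ⟨htn, w, hw, hρ, fun x hx => hall x (hts hx)⟩

theorem Dat.ctr_YY (h : Dat M ρ rep len pth) (σ : Finset U) (a : X) (w : V) (hw : {w} ∈ M)
    (hρ : ρ w = a) : Ctr (YY M ρ rep len nv σ a) := by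
  refine ctr_cone (isCx_YY σ a) (Sum.inl (rep w)) ?_ ?_
  · refine ⟨by simp, w, hw, hρ, ?_⟩
    intro x hx
    rw [Finset.mem_singleton] at hx
    exact Or.inr (Or.inl hx)
  · rintro s ⟨-, w', hw', hρ', hall⟩
    refine ⟨by simp, w', hw', hρ', ?_⟩
    intro x hx
    rw [Finset.mem_insert] at hx
    rcases hx with rfl | hx
    · rw [h.rep2 w w' hw hw' (hρ.trans hρ'.symm)]
      exact Or.inr (Or.inl rfl)
    · exact hall x hx

theorem Dat.YY_sub (h : Dat M ρ rep len pth) (σ : Finset U) (a : X) (ha : old a ∈ σ) :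
    YY M ρ rep len nv σ a ⊆ PH M ρ rep len pth old nv σ := by
  rintro s ⟨hne, w, hw, hρ, hall⟩
  refine ⟨?_, ?_⟩
  · by_cases hr : rep w = w
    · left
      refine ⟨{w}, hw, ?_⟩
      rw [Finset.image_singleton]
      apply Finset.eq_singleton_iff_nonempty_unique_mem.2
      refine ⟨hne, fun x hx => ?_⟩
      rcases hall x hx with h1 | h1 | ⟨h1, -⟩
      · exact h1
      · rw [hr] at h1; exact h1
      · exact absurd hr h1
    · right
      obtain ⟨h0, h1, -, -⟩ := h.pt w hw hr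
      refine ⟨w, ⟨hw, hr⟩, hne, len w, le_rfl, Or.inl ?_⟩
      intro x hx
      simp only [Finset.mem_insert, Finset.mem_singleton]
      rw [nx, if_neg (lt_irrefl _), h0, h1]
      rcases hall x hx with h1 | h1 | ⟨-, h1, -⟩
      · exact Or.inr (Or.inl h1)
      · exact Or.inl h1
      · exact Or.inr (Or.inr h1)
  · intro u hu
    rw [Finset.mem_image] at hu
    obtain ⟨x, hx, rfl⟩ := hu
    rcases hall x hx with rfl | rfl | ⟨-, rfl, h1⟩
    · show old (ρ w) ∈ σ
      rw [hρ]; exact ha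
    · show old (ρ (rep w)) ∈ σ
      rw [(h.rep1 w hw).2, hρ]; exact ha
    · exact h1

theorem Dat.ctr_PH (h : Dat M ρ rep len pth) (hold : Function.Injective old)
    (hnv : ∀ v w k l, nv v k = nv w l → v = w ∧ k = l) (hon : ∀ x v k, old x ≠ nv v k)
    {σ : Finset U} {τ0 : Finset (V ⊕ (V × ℕ))} (hτ0 : τ0 ∈ NN M rep len pth)
    (himg : τ0.image (qq ρ old nv) = σ) (hinj : InjOn (qq ρ old nv) (τ0 : Set (V ⊕ (V × ℕ)))) :
    Ctr (PH M ρ rep len pth old nv σ) := by
  classical
  have hNcx : IsCx (NN M rep len pth) := isCx_Hat h.cx _ _ _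
  have hτ0ne : τ0.Nonempty := hNcx.nonempty hτ0
  have hPcx : IsCx (PH M ρ rep len pth old nv σ) := by
    refine ⟨fun h1 => hNcx.1 h1.1, ?_⟩
    rintro s ⟨hs, hs2⟩ t hts htn
    exact ⟨hNcx.2 s hs t hts htn, (Finset.image_subset_image hts).trans hs2⟩
  -- lifts of old vertices
  have hlift : ∀ a, old a ∈ σ → ∃ w, Sum.inl w ∈ τ0 ∧ ρ w = a := by
    intro a ha
    rw [← himg, Finset.mem_image] at ha
    obtain ⟨x, hx, he⟩ := ha
    rcases x with y | ⟨v, k⟩
    · exact ⟨y, hx, hold he⟩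
    · exact absurd he.symm (hon _ _ _)
  have hEρ : ∀ w, {w} ∈ M → ∀ y, Ep rep len nv σ w (Sum.inl y) → ρ y = ρ w := by
    intro w hw y hy
    rcases hy with h1 | h1 | ⟨-, h1, -⟩
    · rw [Sum.inl.injEq] at h1; rw [h1]
    · rw [Sum.inl.injEq] at h1; rw [h1]; exact (h.rep1 w hw).2
    · simp at h1
  refine ctr_union (ι := {a : X // old a ∈ σ}) (X1 := Cl τ0)
    (Y := fun a => YY M ρ rep len nv σ a.1) hPcx (isCx_Cl τ0) (fun a => isCx_YY σ a.1) ?_ ?_ ?_ ?_
    (ctr_Cl hτ0ne)
  · intro s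
    constructor
    · rintro ⟨hs, hs2⟩
      rcases h.main hold hnv hon hτ0 himg hs hs2 with h1 | ⟨a, ha, h1⟩
      · exact Or.inl ⟨h1, hNcx.nonempty hs⟩
      · exact Or.inr ⟨⟨a, ha⟩, h1⟩
    · rintro (⟨hs, hne⟩ | ⟨⟨a, ha⟩, hs⟩)
      · exact ⟨hNcx.2 τ0 hτ0 s hs hne, by rw [← himg]; exact Finset.image_subset_image hs⟩
      · exact h.YY_sub σ a ha hs
  · rintro ⟨a, ha⟩ ⟨b, hb⟩ hab s ⟨⟨⟨x, hx⟩, w, hw, hρ, hall⟩, ⟨-, w', hw', hρ', hall'⟩⟩
    exfalso
    dsimp only at hρ hρ'
    apply hab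
    have e1 := hall x hx
    have e2 := hall' x hx
    rcases x with y | ⟨v, k⟩
    · have f1 := hEρ w hw y e1
      have f2 := hEρ w' hw' y e2
      apply Subtype.ext
      show a = b
      rw [← hρ, ← hρ', ← f1, f2]
    · have g : ∀ u, Ep rep len nv σ u (Sum.inr (v, k)) → v = u := by
        intro u hu
        rcases hu with h1 | h1 | ⟨-, h1, -⟩
        · simp at h1
        · simp at h1
        · rw [Sum.inr.injEq, Prod.mk.injEq] at h1; exact h1.1
      apply Subtype.ext
      show a = b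
      rw [← hρ, ← hρ', ← g w e1, ← g w' e2]
  · rintro ⟨a, ha⟩
    obtain ⟨w, hw, hρ⟩ := hlift a ha
    exact h.ctr_YY σ a w (h.vert hτ0 hw) hρ
  · rintro ⟨a, ha⟩
    obtain ⟨w, hw, hρ⟩ := hlift a ha
    set g : Finset (V ⊕ (V × ℕ)) := τ0.filter (fun x => x = Sum.inl w ∨
      ∃ v, {v} ∈ M ∧ rep v ≠ v ∧ ρ v = a ∧ x = Sum.inr (v, len v)) with hg
    have hmg : ∀ x, x ∈ g ↔ x ∈ τ0 ∧ (x = Sum.inl w ∨
      ∃ v, {v} ∈ M ∧ rep v ≠ v ∧ ρ v = a ∧ x = Sum.inr (v, len v)) := by
      intro x; rw [hg, Finset.mem_filter]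
    have hgne : g.Nonempty := ⟨Sum.inl w, (hmg _).2 ⟨hw, Or.inl rfl⟩⟩
    have heq : Cl τ0 ∩ YY M ρ rep len nv σ a = Cl g := by
      ext s
      constructor
      · rintro ⟨⟨hs, hne⟩, -, w', hw', hρ', hall⟩
        refine ⟨fun x hx => ?_, hne⟩
        rw [hmg]
        refine ⟨hs hx, ?_⟩
        have e1 := hall x hx
        rcases x with y | ⟨v, k⟩
        · left
          apply hinj (Finset.mem_coe.2 (hs hx)) (Finset.mem_coe.2 hw)
          show old (ρ y) = old (ρ w)
          rw [hEρ w' hw' y e1, hρ', hρ]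
        · right
          rcases e1 with h1 | h1 | ⟨hr, h1, -⟩
          · simp at h1
          · simp at h1
          · exact ⟨w', hw', hr, hρ', h1⟩
      · rintro ⟨hs, hne⟩
        refine ⟨⟨fun x hx => ((hmg x).1 (hs hx)).1, hne⟩, hne, ?_⟩
        by_cases hex : ∃ v, {v} ∈ M ∧ rep v ≠ v ∧ ρ v = a ∧ Sum.inr (v, len v) ∈ s
        · obtain ⟨v, hv, hr, hρv, hvs⟩ := hex
          have hvτ : Sum.inr (v, len v) ∈ τ0 := ((hmg _).1 (hs hvs)).1
          refine ⟨v, hv, hρv, fun x hx => ?_⟩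
          obtain ⟨hx0, hx1⟩ := (hmg x).1 (hs hx)
          rcases hx1 with rfl | ⟨v', hv', hr', hρv', rfl⟩
          · rcases (h.N2 hτ0 hx0 hvτ).2 with ⟨hk, -⟩ | ⟨-, h2⟩
            · omega
            · rcases h2 with rfl | rfl
              · exact Or.inr (Or.inl rfl)
              · exact Or.inl rfl
          · have := h.N3 hτ0 hx0 hvτ
            subst this
            refine Or.inr (Or.inr ⟨hr, rfl, ?_⟩)
            rw [← himg]
            exact Finset.mem_image.2 ⟨_, hx0, rfl⟩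
        · refine ⟨w, h.vert hτ0 hw, hρ, fun x hx => ?_⟩
          obtain ⟨hx0, hx1⟩ := (hmg x).1 (hs hx)
          rcases hx1 with rfl | ⟨v', hv', hr', hρv', rfl⟩
          · exact Or.inl rfl
          · exact absurd ⟨v', hv', hr', hρv', hx⟩ hex
    show Ctr (Cl τ0 ∩ YY M ρ rep len nv σ a)
    rw [heq]
    exact ctr_Cl hgne

theorem mem_Nxt_iff (h : Dat M ρ rep len pth) (s : Finset U) :
    s ∈ Nxt M ρ rep len pth old nv ↔
      ∃ t ∈ NN M rep len pth, s = t.image (qq ρ old nv) := by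
  constructor
  · rintro (⟨t, ht, rfl⟩ | ⟨v, hv, hr, hne, i, hi, hg⟩)
    · refine ⟨t.image Sum.inl, Or.inl ⟨t, ht, rfl⟩, ?_⟩
      rw [Finset.image_image]; rfl
    · rcases hg with hg | hg | hg
      · have : s ⊆ Finset.image (qq ρ old nv) ({Sum.inl (pth v i),
            Sum.inl (pth v (nx (len v) i)), Sum.inr (v, i)} : Finset (V ⊕ (V × ℕ))) := by
          simpa [Finset.image_insert, Finset.image_singleton, qq] using hg
        obtain ⟨t, ht, rfl⟩ := Finset.subset_image_iff.1 this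
        exact ⟨t, Or.inr ⟨v, ⟨hv, hr⟩, (Finset.image_nonempty.1 hne), i, hi, Or.inl
          (by exact_mod_cast ht)⟩, rfl⟩
      · have : s ⊆ Finset.image (qq ρ old nv) ({Sum.inl (pth v (nx (len v) i)), Sum.inr (v, i),
            Sum.inr (v, nx (len v) i)} : Finset (V ⊕ (V × ℕ))) := by
          simpa [Finset.image_insert, Finset.image_singleton, qq] using hg
        obtain ⟨t, ht, rfl⟩ := Finset.subset_image_iff.1 this
        exact ⟨t, Or.inr ⟨v, ⟨hv, hr⟩, (Finset.image_nonempty.1 hne), i, hi, Or.inr (Or.inl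
          (by exact_mod_cast ht))⟩, rfl⟩
      · have : s ⊆ Finset.image (qq ρ old nv) ({Sum.inr (v, i),
            Sum.inr (v, nx (len v) i), Sum.inr (v, len v + 1)} : Finset (V ⊕ (V × ℕ))) := by
          simpa [Finset.image_insert, Finset.image_singleton, qq] using hg
        obtain ⟨t, ht, rfl⟩ := Finset.subset_image_iff.1 this
        exact ⟨t, Or.inr ⟨v, ⟨hv, hr⟩, (Finset.image_nonempty.1 hne), i, hi, Or.inr (Or.inr
          (by exact_mod_cast ht))⟩, rfl⟩
  · rintro ⟨t, (⟨t', ht', rfl⟩ | ⟨v, ⟨hv, hr⟩, hne, i, hi, hg⟩), rfl⟩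
    · left
      refine ⟨t', ht', ?_⟩
      rw [Finset.image_image]; rfl
    · right
      refine ⟨v, hv, hr, Finset.image_nonempty.2 hne, i, hi, ?_⟩
      rcases hg with hg | hg | hg
      · left
        have := Finset.image_subset_image (f := qq ρ old nv) hg
        simpa [Finset.image_insert, Finset.image_singleton, qq] using this
      · right; left
        have := Finset.image_subset_image (f := qq ρ old nv) hg
        simpa [Finset.image_insert, Finset.image_singleton, qq] using this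
      · right; right
        have := Finset.image_subset_image (f := qq ρ old nv) hg
        simpa [Finset.image_insert, Finset.image_singleton, qq] using this

end fib

/-- Merging the fibres of `ρ` and adding a gadget for every non-representative vertex keeps the
complex contractible. -/
theorem ctr_Nxt [DecidableEq V] [DecidableEq X] [DecidableEq U] {M : Set (Finset V)} (hM : IsCx M)
    (hMC : Ctr M) (ρ : V → X) (hul : UL M ρ) (rep : V → V) (len : V → ℕ) (pth : V → ℕ → V)
    (old : X → U) (nv : V → ℕ → U)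
    (hrep : ∀ v, {v} ∈ M → {rep v} ∈ M ∧ ρ (rep v) = ρ v)
    (hrep2 : ∀ v w, {v} ∈ M → {w} ∈ M → ρ v = ρ w → rep v = rep w)
    (hp : ∀ v, {v} ∈ M → rep v ≠ v → pth v 0 = v ∧ pth v (len v) = rep v ∧
      InjOn (pth v) (Iic (len v)) ∧ ∀ i < len v, ({pth v i, pth v (i + 1)} : Finset V) ∈ M)
    (hold : Function.Injective old) (hnv : ∀ v w k l, nv v k = nv w l → v = w ∧ k = l)
    (hon : ∀ x v k, old x ≠ nv v k) : Ctr (Nxt M ρ rep len pth old nv) := by
  classical
  have h : Dat M ρ rep len pth := ⟨hM, hul, hrep, hrep2, hp⟩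
  have hNcx : IsCx (NN M rep len pth) := isCx_Hat hM _ _ _
  have hNC : Ctr (NN M rep len pth) := by
    apply ctr_Hat hM hMC
    · rintro v ⟨hv, hr⟩
      have := h.len3 hv hr; omega
    · rintro v ⟨hv, hr⟩
      exact (hp v hv hr).2.2.1
    · rintro v ⟨hv, hr⟩
      exact (hp v hv hr).2.2.2
    · rintro v ⟨hv, hr⟩ hmem
      obtain ⟨h0, h1, -, -⟩ := hp v hv hr
      rw [h0, h1] at hmem
      exact hr (h.inj hmem (hrep v hv).2)
    · rintro v ⟨hv, hr⟩ w ⟨hw, hrw⟩ hvw he
      obtain ⟨h0, h1, -, -⟩ := hp v hv hr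
      obtain ⟨h0', h1', -, -⟩ := hp w hw hrw
      rw [h0, h1, h0', h1'] at he
      have e1 : v ∈ ({rep w, w} : Finset V) := by rw [← he]; simp
      have e2 : w ∈ ({rep v, v} : Finset V) := by rw [he]; simp
      have e3 : v = rep w := by
        rcases Finset.mem_insert.1 e1 with e | e
        · exact e
        · exact absurd (Finset.mem_singleton.1 e) hvw
      have e4 : w = rep v := by
        rcases Finset.mem_insert.1 e2 with e | e
        · exact e
        · exact absurd (Finset.mem_singleton.1 e).symm hvw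
      have e5 : ρ v = ρ w := by rw [e3]; exact (hrep w hw).2
      exact hrw ((hrep2 v w hv hw e5).symm.trans e4.symm)
  have hK : IsCx (Nxt M ρ rep len pth old nv) := by
    constructor
    · intro h0
      rw [mem_Nxt_iff h] at h0
      obtain ⟨t, ht, he⟩ := h0
      have := hNcx.nonempty ht
      rw [← Finset.image_nonempty (f := qq ρ old nv), ← he] at this
      exact Finset.not_nonempty_empty this
    · intro s hs t hts htn
      rw [mem_Nxt_iff h] at hs ⊢
      obtain ⟨t', ht', rfl⟩ := hs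
      obtain ⟨t'', ht'', rfl⟩ := Finset.subset_image_iff.1 hts
      exact ⟨t'', hNcx.2 t' ht' t'' (by exact_mod_cast ht'') (Finset.image_nonempty.1 htn), rfl⟩
  have hq : ∀ t ∈ NN M rep len pth, t.image (qq ρ old nv) ∈ Nxt M ρ rep len pth old nv :=
    fun t ht => (mem_Nxt_iff h _).2 ⟨t, ht, rfl⟩
  refine ctr_of_dominated hK hNcx hNC (Φ := PH M ρ rep len pth old nv)
    (Ψ := fun τ => Cl (τ.image (qq ρ old nv))) (Θ := Cl) ?_ ?_ ?_ ?_ ?_
  · constructor
    · intro s _
      refine ⟨fun h1 => hNcx.1 h1.1, ?_⟩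
      rintro s' ⟨hs, hs2⟩ t hts htn
      exact ⟨hNcx.2 s' hs t hts htn, (Finset.image_subset_image hts).trans hs2⟩
    · intro s _ τ hτ
      exact hτ.1
    · intro s _ t hts _ τ hτ
      exact ⟨hτ.1, hτ.2.trans hts⟩
    · intro s hs
      rw [mem_Nxt_iff h] at hs
      obtain ⟨t, ht, rfl⟩ := hs
      -- an injective lift
      have hsurj : Set.SurjOn (qq ρ old nv) (t : Set (V ⊕ (V × ℕ)))
          ((t.image (qq ρ old nv) : Finset U) : Set U) := by
        rw [Finset.coe_image]; exact Set.surjOn_image _ _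
      obtain ⟨t', ht', hbij⟩ := hsurj.exists_bijOn_subset
      have hfin : t'.Finite := t.finite_toSet.subset ht'
      set τ0 := hfin.toFinset with hτ0
      have hc : (τ0 : Set (V ⊕ (V × ℕ))) = t' := hfin.coe_toFinset
      have himg : τ0.image (qq ρ old nv) = t.image (qq ρ old nv) := by
        apply Finset.coe_injective
        rw [Finset.coe_image, hc, hbij.image_eq]
      have hsub : τ0 ⊆ t := by
        rw [← Finset.coe_subset, hc]; exact ht'
      have hne : τ0.Nonempty := by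
        rw [← Finset.image_nonempty (f := qq ρ old nv), himg, Finset.image_nonempty]
        exact hNcx.nonempty ht
      exact h.ctr_PH hold hnv hon (hNcx.2 t ht τ0 hsub hne) himg (by rw [hc]; exact hbij.injOn)
  · constructor
    · intro s _; exact isCx_Cl _
    · intro s hs
      exact Cl_sub hK (hq s hs)
    · intro s _ t hts _
      exact Cl_mono (Finset.image_subset_image hts)
    · intro s hs
      exact ctr_Cl (hK.nonempty (hq s hs))
  · constructor
    · intro s _; exact isCx_Cl _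
    · intro s hs
      exact Cl_sub hK hs
    · intro s _ t hts _
      exact Cl_mono hts
    · intro s hs
      exact ctr_Cl (hK.nonempty hs)
  · intro s hs
    exact ⟨Finset.Subset.refl _, hK.nonempty hs⟩
  · intro s _ t ht
    exact Cl_mono ht.2

end Pool.Agent.Helper281.Sc
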