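import Mathlib
import Pool.Agent.Helper281.Sc.Rp

set_option autoImplicit false

namespace Pool.Agent.Helper281.Sc

open Set

universe u v w

namespace Sys

variable {X : Type u} {VV : Type v} [MeasurableSpace X] (S : Sys X VV) {n i : ℕ}
  {M : Set (Finset VV)} {ρ : VV → X}

theorem j13_Esymm {x y : X} (h : S.E x y) : S.E y x := S.eqv.symm h

theorem j13_Etrans {x y z : X} (h : S.E x y) (h' : S.E y z) : S.E x z := S.eqv.trans h h'

theorem rho_old (M : Set (Finset VV)) (ρ : VV → X) (l : ℕ) (x : X) :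
    S.rho M ρ l (S.old x) = x := by
  have h : ∃ y, S.old y = S.old x := ⟨x, rfl⟩
  unfold rho
  rw [dif_pos h]
  exact S.old_inj h.choose_spec

theorem rho_nv (M : Set (Finset VV)) (ρ : VV → X) (l : ℕ) (v : VV) (k : ℕ) :
    S.rho M ρ l (S.nv v k) = S.nval M ρ l v k := by
  have h0 : ¬ ∃ y, S.old y = S.nv v k := fun ⟨y, hy⟩ => S.old_ne y v k hy
  have h : ∃ p : VV × ℕ, S.nv p.1 p.2 = S.nv v k := ⟨(v, k), rfl⟩
  unfold rho
  rw [dif_neg h0, dif_pos h]
  have h2 := S.nv_inj _ _ _ _ h.choose_spec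
  rw [h2.1, h2.2]

theorem j13_rho_base (M : Set (Finset VV)) (ρ : VV → X) (l : ℕ) (v : VV)
    (h1 : ¬ ∃ y, S.old y = v) (h2 : ¬ ∃ p : VV × ℕ, S.nv p.1 p.2 = v) :
    S.rho M ρ l v = S.base v := by
  unfold rho
  rw [dif_neg h1, dif_neg h2]

theorem j13_key {l k j l' k' j' : ℕ} {w w' : X} {W W' : List X}
    (h : S.pick (key l k j) w W = S.pick (key l' k' j') w' W') :
    l = l' ∧ k = k' ∧ j = j' ∧ S.col (w :: W) = S.col (w' :: W') := by
  have h1 := S.κ_pick (key l k j) w W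
  have h2 := S.κ_pick (key l' k' j') w' W'
  rw [h, h2] at h1
  simp only [key, Nat.pair_eq_pair] at h1
  exact ⟨h1.1.1.symm, h1.1.2.1.symm, h1.1.2.2.symm, h1.2.symm⟩

theorem j13_lev_nval (M : Set (Finset VV)) (ρ : VV → X) (l : ℕ) (v : VV) (k : ℕ) :
    S.lev (S.nval M ρ l v k) = l := by
  unfold lev nval
  rw [κ_pick]
  simp [key, Nat.unpair_pair]

theorem j13_path_mem (hG : S.Good n i M ρ) (v : VV) (hv : {v} ∈ M) (w : VV)
    (hw : w ∈ S.path M ρ v) : {w} ∈ M := by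
  classical
  obtain ⟨⟨hnd, hh, hl, he⟩, -⟩ := S.path_spec hG v hv
  obtain ⟨k, hk, rfl⟩ := List.getElem_of_mem hw
  by_cases h1 : k + 1 < (S.path M ρ v).length
  · refine hG.cx.2 _ (he k h1) _ ?_ (Finset.singleton_nonempty _)
    intro x hx
    simp only [Finset.mem_singleton] at hx
    simp [hx]
  · by_cases h0 : k = 0
    · subst h0
      have : (S.path M ρ v)[0] = v := by
        rw [List.head?_eq_getElem?, List.getElem?_eq_getElem hk] at hh
        exact Option.some.inj hh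
      rw [this]
      exact hv
    · obtain ⟨m, rfl⟩ : ∃ m, k = m + 1 := ⟨k - 1, by omega⟩
      refine hG.cx.2 _ (he m hk) _ ?_ (Finset.singleton_nonempty _)
      intro x hx
      simp only [Finset.mem_singleton] at hx
      simp [hx]

theorem j13_pth_mem (hG : S.Good n i M ρ) (v : VV) (hv : {v} ∈ M) (hr : S.rep M ρ v ≠ v) (j : ℕ) :
    S.pth M ρ v j ∈ S.path M ρ v := (S.pth_spec hG v hv hr).2.2.2.2 j

/-- Everything used over `v` is in the class of `base v`. -/
theorem j13_vals_E (hG : S.Good n i M ρ) (l : ℕ) (v : VV) (hv : {v} ∈ M) (k : ℕ) :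
    ∀ x ∈ S.vals M ρ l v k, S.E (S.base v) x := by
  induction k with
  | zero =>
    intro x hx
    simp only [vals, List.mem_map] at hx
    obtain ⟨w, hw, rfl⟩ := hx
    exact hG.ρE _ _ ((S.path_spec hG v hv).2 w hw)
  | succ k ih =>
    intro x hx
    simp only [vals, List.mem_append, List.mem_singleton] at hx
    rcases hx with hx | rfl
    · exact ih x hx
    · exact S.pick_E _ _ _

theorem j13_path_vals (M : Set (Finset VV)) (ρ : VV → X) (l : ℕ) (v : VV) (k : ℕ) :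
    ∀ w ∈ S.path M ρ v, ρ w ∈ S.vals M ρ l v k := by
  induction k with
  | zero =>
    intro w hw
    simp only [vals, List.mem_map]
    exact ⟨w, hw, rfl⟩
  | succ k ih =>
    intro w hw
    simp only [vals, List.mem_append]
    exact Or.inl (ih w hw)

theorem j13_nval_vals (M : Set (Finset VV)) (ρ : VV → X) (l : ℕ) (v : VV) (k m : ℕ)
    (h : k < m) : S.nval M ρ l v k ∈ S.vals M ρ l v m := by
  induction m with
  | zero => omega
  | succ m ih =>
    simp only [vals, List.mem_append, List.mem_singleton]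
    by_cases hk : k < m
    · exact Or.inl (ih hk)
    · have : k = m := by omega
      subst this
      exact Or.inr rfl

theorem j13_nval_eq (hG : S.Good n i M ρ) (l : ℕ) (v v' : VV) (hv : {v} ∈ M) (hv' : {v'} ∈ M)
    (k k' : ℕ) (h : S.nval M ρ l v k = S.nval M ρ l v' k') :
    k = k' ∧ ((∃ x, x ∈ S.vals M ρ l v k ∧ x ∈ S.vals M ρ l v' k') → v = v') := by
  unfold nval at h
  obtain ⟨-, hk, hj, hc⟩ := S.j13_key h
  refine ⟨hk, ?_⟩
  rintro ⟨x, hx, hx'⟩
  have hE : ∀ v : VV, {v} ∈ M → ∀ k, ∀ x ∈ (S.base v :: S.vals M ρ l v k),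
      ∀ y ∈ (S.base v :: S.vals M ρ l v k), ∃ n, S.γ n x = y := by
    intro v hv k x hx y hy
    have h1 : ∀ z ∈ (S.base v :: S.vals M ρ l v k), S.E (S.base v) z := by
      intro z hz
      rcases List.mem_cons.1 hz with rfl | hz
      · exact S.eqv.refl _
      · exact S.j13_vals_E hG l v hv k z hz
    exact S.j13_Etrans (S.j13_Esymm (h1 x hx)) (h1 y hy)
  have hL := S.colp _ _ (hE v hv k) (hE v' hv' k') hc
    ⟨x, List.mem_cons_of_mem _ hx, List.mem_cons_of_mem _ hx'⟩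
  have hb : S.base v = S.base v' := (List.cons.inj hL).1
  obtain ⟨y, hy⟩ := hG.cls _ hv
  obtain ⟨y', hy'⟩ := hG.cls _ hv'
  obtain ⟨c, hc1⟩ := hy v (Finset.mem_singleton_self v)
  obtain ⟨c', hc2⟩ := hy' v' (Finset.mem_singleton_self v')
  exact S.bj v v' ⟨y, c, hc1⟩ ⟨y', c', hc2⟩ hb hj

theorem j13_gad_mem {U : Type u} [DecidableEq U] {l : ℕ} {p y : ℕ → U} {s : Finset U}
    (hs : s ∈ Gad l p y (y (l + 1))) : ∀ x ∈ s, (∃ j, x = p j) ∨ ∃ k, x = y k := by
  obtain ⟨-, j, -, h⟩ := hs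
  intro x hx
  rcases h with h | h | h
  · have := h hx
    simp only [Finset.mem_insert, Finset.mem_singleton] at this
    rcases this with h | h | h
    · exact Or.inl ⟨_, h⟩
    · exact Or.inl ⟨_, h⟩
    · exact Or.inr ⟨_, h⟩
  · have := h hx
    simp only [Finset.mem_insert, Finset.mem_singleton] at this
    rcases this with h | h | h
    · exact Or.inl ⟨_, h⟩
    · exact Or.inr ⟨_, h⟩
    · exact Or.inr ⟨_, h⟩
  · have := h hx
    simp only [Finset.mem_insert, Finset.mem_singleton] at this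
    rcases this with h | h | h
    · exact Or.inr ⟨_, h⟩
    · exact Or.inr ⟨_, h⟩
    · exact Or.inr ⟨_, h⟩

theorem j13_gad_card {U : Type u} [DecidableEq U] {l : ℕ} {p y : ℕ → U} {z : U} {s : Finset U}
    (hs : s ∈ Gad l p y z) : s.card ≤ 3 := by
  obtain ⟨-, j, -, h⟩ := hs
  rcases h with h | h | h
  · exact (Finset.card_le_card h).trans Finset.card_le_three
  · exact (Finset.card_le_card h).trans Finset.card_le_three
  · exact (Finset.card_le_card h).trans Finset.card_le_three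

/-- The shape of a simplex of the next complex. -/
theorem j13_cases (hG : S.Good n i M ρ) {s : Finset VV} (hs : s ∈ S.nxt M ρ) :
    (∃ t ∈ M, ∀ x ∈ s, ∃ w ∈ t, x = S.old (ρ w) ∧ S.lev (ρ w) ≤ i) ∨
      ∃ v, {v} ∈ M ∧ ∀ x ∈ s,
        (∃ w ∈ S.path M ρ v, x = S.old (ρ w) ∧ S.lev (ρ w) ≤ i) ∨ ∃ k, x = S.nv v k := by
  classical
  rcases hs with ⟨t, ht, rfl⟩ | ⟨v, hv, hr, hs⟩
  · left
    refine ⟨t, ht, ?_⟩
    intro x hx
    obtain ⟨w, hw, rfl⟩ := Finset.mem_image.1 hx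
    refine ⟨w, hw, rfl, hG.lv w (hG.cx.2 t ht _ ?_ (Finset.singleton_nonempty _))⟩
    simpa using hw
  · right
    refine ⟨v, hv, ?_⟩
    intro x hx
    rcases j13_gad_mem hs x hx with ⟨j, hj⟩ | ⟨k, hk⟩
    · left
      have hm := S.j13_pth_mem hG v hv hr j
      exact ⟨S.pth M ρ v j, hm, hj, hG.lv _ (S.j13_path_mem hG v hv _ hm)⟩
    · exact Or.inr ⟨k, hk⟩

theorem cx_nxt (hG : S.Good n i M ρ) : IsCx (S.nxt M ρ) := by
  classical
  constructor
  · rintro (⟨t, ht, h⟩ | ⟨v, hv, hr, hs⟩)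
    · have : t = ∅ := Finset.image_eq_empty.1 h.symm
      exact hG.cx.1 (this ▸ ht)
    · exact Finset.not_nonempty_empty hs.1
  · rintro s (⟨t, ht, rfl⟩ | ⟨v, hv, hr, hs⟩) s' hs' hne
    · left
      refine ⟨t.filter (fun w => S.old (ρ w) ∈ s'), hG.cx.2 t ht _ (Finset.filter_subset _ _) ?_, ?_⟩
      · obtain ⟨x, hx⟩ := hne
        obtain ⟨w, hw, rfl⟩ := Finset.mem_image.1 (hs' hx)
        exact ⟨w, Finset.mem_filter.2 ⟨hw, hx⟩⟩
      · ext x
        simp only [Finset.mem_image, Finset.mem_filter]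
        constructor
        · intro hx
          obtain ⟨w, hw, rfl⟩ := Finset.mem_image.1 (hs' hx)
          exact ⟨w, ⟨hw, hx⟩, rfl⟩
        · rintro ⟨w, ⟨-, hx⟩, rfl⟩
          exact hx
    · right
      obtain ⟨-, j, hj, h⟩ := hs
      refine ⟨v, hv, hr, hne, j, hj, ?_⟩
      rcases h with h | h | h
      · exact Or.inl (hs'.trans h)
      · exact Or.inr (Or.inl (hs'.trans h))
      · exact Or.inr (Or.inr (hs'.trans h))

theorem cls_nxt (hG : S.Good n i M ρ) : ∀ s ∈ S.nxt M ρ, ∃ x, ∀ v ∈ s, S.In x v := by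
  intro s hs
  have hold : ∀ x y, S.E x y → S.In x (S.old y) := by
    intro x y h
    exact S.codE y x (S.j13_Esymm h) _ (S.old_cl y)
  rcases S.j13_cases hG hs with ⟨t, ht, h⟩ | ⟨v, hv, h⟩
  · obtain ⟨x, hx⟩ := hG.cls t ht
    refine ⟨x, ?_⟩
    intro u hu
    obtain ⟨w, hw, rfl, -⟩ := h u hu
    exact hold _ _ (hG.ρE _ _ (hx w hw))
  · obtain ⟨x, hx⟩ := hG.cls _ hv
    have hxv := hx v (Finset.mem_singleton_self v)
    refine ⟨x, ?_⟩
    intro u hu
    rcases h u hu with ⟨w, hw, rfl, -⟩ | ⟨k, rfl⟩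
    · refine hold _ _ (S.j13_Etrans (S.base_cl _ _ hxv) ?_)
      exact hG.ρE _ _ ((S.path_spec hG v hv).2 w hw)
    · exact (S.nv_cl x v k).1 hxv

theorem card_nxt (hG : S.Good n i M ρ) (hn : 2 ≤ n) : ∀ s ∈ S.nxt M ρ, s.card ≤ n + 1 := by
  classical
  rintro s (⟨t, ht, rfl⟩ | ⟨v, hv, hr, hs⟩)
  · exact Finset.card_image_le.trans (hG.card t ht)
  · have := j13_gad_card hs
    omega

theorem ρE_rho (hG : S.Good n i M ρ) (l : ℕ) : ∀ x v, S.In x v → S.E x (S.rho M ρ l v) := by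
  intro x v hx
  by_cases h1 : ∃ y, S.old y = v
  · obtain ⟨y, rfl⟩ := h1
    rw [rho_old]
    exact S.codI x y _ hx (S.old_cl y)
  · by_cases h2 : ∃ p : VV × ℕ, S.nv p.1 p.2 = v
    · obtain ⟨⟨v', k⟩, rfl⟩ := h2
      rw [rho_nv]
      have hx' : S.In x v' := (S.nv_cl x v' k).2 hx
      exact S.j13_Etrans (S.base_cl _ _ hx') (S.pick_E _ _ _)
    · rw [S.j13_rho_base M ρ l v h1 h2]
      exact S.base_cl _ _ hx

theorem lv_nxt (hG : S.Good n i M ρ) :
    ∀ v, {v} ∈ S.nxt M ρ → S.lev (S.rho M ρ (i + 1) v) ≤ i + 1 := by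
  intro v hv
  rcases S.j13_cases hG hv with ⟨t, ht, h⟩ | ⟨v', hv', h⟩
  · obtain ⟨w, hw, rfl, hl⟩ := h v (Finset.mem_singleton_self v)
    rw [rho_old]
    omega
  · rcases h v (Finset.mem_singleton_self v) with ⟨w, hw, rfl, hl⟩ | ⟨k, rfl⟩
    · rw [rho_old]
      omega
    · rw [rho_nv, j13_lev_nval]

theorem j13_part (hG : S.Good n i M ρ) {s t : Finset VV} (hs : s ∈ S.nxt M ρ)
    (ht : t ∈ S.nxt M ρ) {x y : VV} (hx : x ∈ s) (hy : y ∈ t)
    (h : S.rho M ρ (i + 1) x = S.rho M ρ (i + 1) y) :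
    x = y ∨ ∃ v v' k, {v} ∈ M ∧ {v'} ∈ M ∧ x = S.nv v k ∧ y = S.nv v' k ∧
      S.nval M ρ (i + 1) v k = S.nval M ρ (i + 1) v' k ∧
      (∀ z ∈ s, (∃ w ∈ S.path M ρ v, z = S.old (ρ w) ∧ S.lev (ρ w) ≤ i) ∨ ∃ m, z = S.nv v m) ∧
      (∀ z ∈ t, (∃ w ∈ S.path M ρ v', z = S.old (ρ w) ∧ S.lev (ρ w) ≤ i) ∨
        ∃ m, z = S.nv v' m) := by
  -- classification of a vertex
  have key : ∀ {s : Finset VV}, s ∈ S.nxt M ρ → ∀ x ∈ s,
      (∃ a, x = S.old a ∧ S.lev a ≤ i) ∨ ∃ v k, {v} ∈ M ∧ x = S.nv v k ∧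
        ∀ z ∈ s, (∃ w ∈ S.path M ρ v, z = S.old (ρ w) ∧ S.lev (ρ w) ≤ i) ∨ ∃ m, z = S.nv v m := by
    intro s hs x hx
    rcases S.j13_cases hG hs with ⟨t, ht, h⟩ | ⟨v, hv, h⟩
    · obtain ⟨w, hw, rfl, hl⟩ := h x hx
      exact Or.inl ⟨_, rfl, hl⟩
    · rcases h x hx with ⟨w, hw, rfl, hl⟩ | ⟨k, rfl⟩
      · exact Or.inl ⟨_, rfl, hl⟩
      · exact Or.inr ⟨v, k, hv, rfl, h⟩
  rcases key hs x hx with ⟨a, rfl, ha⟩ | ⟨v, k, hv, rfl, hS⟩
  · rcases key ht y hy with ⟨b, rfl, hb⟩ | ⟨v', k', hv', rfl, hT⟩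
    · rw [rho_old, rho_old] at h
      exact Or.inl (by rw [h])
    · rw [rho_old, rho_nv] at h
      rw [h, j13_lev_nval] at ha
      omega
  · rcases key ht y hy with ⟨b, rfl, hb⟩ | ⟨v', k', hv', rfl, hT⟩
    · rw [rho_old, rho_nv] at h
      rw [← h, j13_lev_nval] at hb
      omega
    · rw [rho_nv, rho_nv] at h
      obtain ⟨hk, -⟩ := S.j13_nval_eq hG _ v v' hv hv' k k' h
      subst hk
      exact Or.inr ⟨v, v', k, hv, hv', rfl, rfl, h, hS, hT⟩

open Classical in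
theorem ul_nxt (hG : S.Good n i M ρ) : UL (S.nxt M ρ) (S.rho M ρ (i + 1)) := by
  -- equal values over the same vertex
  constructor
  · intro s hs x hx y hy h
    rcases S.j13_part hG hs hs hx hy h with h | ⟨v, v', k, hv, hv', rfl, rfl, hnv, hS, hT⟩
    · exact h
    · rcases hS _ hy with ⟨w, -, hw, -⟩ | ⟨m, hm⟩
      · exact absurd hw.symm (S.old_ne _ _ _)
      · rw [(S.nv_inj _ _ _ _ hm).1]
  · intro s hs t ht hcard himg
    have hst : ∀ x ∈ s, ∃ y ∈ t, S.rho M ρ (i + 1) x = S.rho M ρ (i + 1) y := by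
      intro x hx
      have : S.rho M ρ (i + 1) x ∈ t.image (S.rho M ρ (i + 1)) := by
        rw [← himg]; exact Finset.mem_image_of_mem _ hx
      obtain ⟨y, hy, e⟩ := Finset.mem_image.1 this
      exact ⟨y, hy, e.symm⟩
    have hts : ∀ y ∈ t, ∃ x ∈ s, S.rho M ρ (i + 1) x = S.rho M ρ (i + 1) y := by
      intro y hy
      have : S.rho M ρ (i + 1) y ∈ s.image (S.rho M ρ (i + 1)) := by
        rw [himg]; exact Finset.mem_image_of_mem _ hy
      obtain ⟨x, hx, e⟩ := Finset.mem_image.1 this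
      exact ⟨x, hx, e⟩
    -- partners are equal
    have main : ∀ x ∈ s, ∀ y ∈ t, S.rho M ρ (i + 1) x = S.rho M ρ (i + 1) y → x = y := by
      intro x hx y hy hxy
      rcases S.j13_part hG hs ht hx hy hxy with h | ⟨v, v', k, hv, hv', rfl, rfl, hnv, hS, hT⟩
      · exact h
      · obtain ⟨u, hu, hne⟩ := Finset.exists_mem_ne hcard (S.nv v k)
        obtain ⟨u', hu', huu⟩ := hst u hu
        have hvv : v = v' := by
          rcases hS u hu with ⟨w, hw, rfl, hl⟩ | ⟨m, rfl⟩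
          · rcases hT u' hu' with ⟨w', hw', rfl, hl'⟩ | ⟨m', rfl⟩
            · rw [rho_old, rho_old] at huu
              refine (S.j13_nval_eq hG _ v v' hv hv' k k hnv).2
                ⟨ρ w, S.j13_path_vals M ρ _ v k w hw, ?_⟩
              rw [huu]
              exact S.j13_path_vals M ρ _ v' k w' hw'
            · rw [rho_old, rho_nv] at huu
              rw [huu, j13_lev_nval] at hl
              omega
          · rcases hT u' hu' with ⟨w', hw', rfl, hl'⟩ | ⟨m', rfl⟩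
            · rw [rho_old, rho_nv] at huu
              rw [← huu, j13_lev_nval] at hl'
              omega
            · rw [rho_nv, rho_nv] at huu
              obtain ⟨hm, hm2⟩ := S.j13_nval_eq hG _ v v' hv hv' m m' huu
              subst hm
              have hmk : m ≠ k := by
                rintro rfl
                exact hne rfl
              rcases lt_or_gt_of_ne hmk with h1 | h1
              · refine (S.j13_nval_eq hG _ v v' hv hv' k k hnv).2
                  ⟨S.nval M ρ (i + 1) v m, S.j13_nval_vals M ρ _ v m k h1, ?_⟩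
                rw [huu]
                exact S.j13_nval_vals M ρ _ v' m k h1
              · refine hm2 ⟨S.nval M ρ (i + 1) v k, S.j13_nval_vals M ρ _ v k m h1, ?_⟩
                rw [hnv]
                exact S.j13_nval_vals M ρ _ v' k m h1
        rw [hvv]
    ext x
    constructor
    · intro hx
      obtain ⟨y, hy, e⟩ := hst x hx
      rw [main x hx y hy e]
      exact hy
    · intro hy
      obtain ⟨y, hx, e⟩ := hts x hy
      rw [← main y hx x hy e]
      exact hx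

end Sys

end Pool.Agent.Helper281.Sc
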