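import Mathlib
import Pool.Agent.Helper281.Sc.Nx
import Pool.Agent.Helper281.Sc.Ul
import Pool.Agent.Helper281.Sc.Lb

set_option autoImplicit false

namespace Pool.Agent.Helper281.Sc

open Set

universe u v w

namespace Sys

variable {X : Type u} {VV : Type v} [MeasurableSpace X] (S : Sys X VV) {n i : ℕ}
  {M : Set (Finset VV)} {ρ : VV → X}

theorem j14_E_symm {x y : X} (h : S.E x y) : S.E y x := S.eqv.symm h

theorem j14_E_trans {x y z : X} (h : S.E x y) (h' : S.E y z) : S.E x z := S.eqv.trans h h'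

theorem j14_In_E {x y : X} {v : VV} (h : S.E x y) (hx : S.In x v) : S.In y v := S.codE x y h v hx

theorem j14_E_of_In {x y : X} {v : VV} (h : S.In x v) (h' : S.In y v) : S.E x y := S.codI x y v h h'

theorem j14_old_of_E {x y : X} (h : S.E x y) : S.In x (S.old y) :=
  S.j14_In_E (S.j14_E_symm h) (S.old_cl y)

theorem j14_E_of_old {x y : X} (h : S.In x (S.old y)) : S.E x y :=
  S.j14_E_of_In h (S.old_cl y)

open Classical in
theorem j14_gad {l : ℕ} {p y : ℕ → VV} {s : Finset VV} (hs : s ∈ Gad l p y (y (l + 1))) :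
    ∀ u ∈ s, (∃ j, u = p j) ∨ ∃ k, u = y k := by
  obtain ⟨_, i, _, h⟩ := hs
  intro u hu
  rcases h with h | h | h
  · have := h hu
    simp only [Finset.mem_insert, Finset.mem_singleton] at this
    rcases this with h1 | h1 | h1
    · exact Or.inl ⟨_, h1⟩
    · exact Or.inl ⟨_, h1⟩
    · exact Or.inr ⟨_, h1⟩
  · have := h hu
    simp only [Finset.mem_insert, Finset.mem_singleton] at this
    rcases this with h1 | h1 | h1
    · exact Or.inl ⟨_, h1⟩
    · exact Or.inr ⟨_, h1⟩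
    · exact Or.inr ⟨_, h1⟩
  · have := h hu
    simp only [Finset.mem_insert, Finset.mem_singleton] at this
    rcases this with h1 | h1 | h1
    · exact Or.inr ⟨_, h1⟩
    · exact Or.inr ⟨_, h1⟩
    · exact Or.inr ⟨_, h1⟩

theorem j14_base (hG : S.Good n i M ρ) {v : VV} (hv : {v} ∈ M) (hr : S.rep M ρ v ≠ v) :
    S.In (S.base v) v ∧ ∀ j, S.In (S.base v) (S.pth M ρ v j) := by
  classical
  obtain ⟨h0, _, _, _, hm⟩ := S.pth_spec hG v hv hr
  have h2 := (S.path_spec hG v hv).2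
  have h3 : ∀ j, S.In (S.base v) (S.pth M ρ v j) := fun j => h2 _ (hm j)
  refine ⟨?_, h3⟩
  have h4 := h3 0
  rwa [h0] at h4

open Classical in
/-- Over one class the next complex is `Nxt` of the complex over this class. -/
theorem ovr_nxt (hG : S.Good n i M ρ) (x : X) :
    S.ovr (S.nxt M ρ) x =
      Nxt (S.ovr M x) ρ (S.rep M ρ) (S.len M ρ) (S.pth M ρ) S.old S.nv := by
  ext s
  constructor
  · rintro ⟨hs, hx⟩
    rcases hs with ⟨t, ht, rfl⟩ | ⟨v, hv, hr, hg⟩
    · left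
      refine ⟨t, ⟨ht, ?_⟩, rfl⟩
      intro w hw
      have h1 : S.In x (S.old (ρ w)) := hx _ (Finset.mem_image_of_mem _ hw)
      obtain ⟨y, hy⟩ := hG.cls t ht
      have h2 : S.E y (ρ w) := hG.ρE y w (hy w hw)
      have h3 : S.E y x := S.j14_E_trans h2 (S.j14_E_symm (S.j14_E_of_old h1))
      exact S.j14_In_E h3 (hy w hw)
    · right
      refine ⟨v, ⟨hv, ?_⟩, hr, hg⟩
      intro w hw
      rw [Finset.mem_singleton] at hw
      rw [hw]
      obtain ⟨u, hu⟩ := hg.1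
      obtain ⟨b1, b2⟩ := S.j14_base hG hv hr
      rcases j14_gad hg u hu with ⟨j, hj⟩ | ⟨k, hk⟩
      · have h1 : S.In x (S.old (ρ (S.pth M ρ v j))) := by
          have := hx u hu
          rwa [hj] at this
        have h2 : S.E (S.base v) (ρ (S.pth M ρ v j)) := hG.ρE _ _ (b2 j)
        have h3 : S.E (S.base v) x := S.j14_E_trans h2 (S.j14_E_symm (S.j14_E_of_old h1))
        exact S.j14_In_E h3 b1
      · have h1 : S.In x (S.nv v k) := by
          have := hx u hu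
          rwa [hk] at this
        exact (S.nv_cl x v k).2 h1
  · intro hs
    rcases hs with ⟨t, ht, rfl⟩ | ⟨v, hv, hr, hg⟩
    · refine ⟨Or.inl ⟨t, ht.1, rfl⟩, ?_⟩
      intro u hu
      obtain ⟨w, hw, rfl⟩ := Finset.mem_image.1 hu
      exact S.j14_old_of_E (hG.ρE x w (ht.2 w hw))
    · refine ⟨Or.inr ⟨v, hv.1, hr, hg⟩, ?_⟩
      intro u hu
      have hxv : S.In x v := hv.2 v (Finset.mem_singleton_self v)
      obtain ⟨b1, b2⟩ := S.j14_base hG hv.1 hr
      rcases j14_gad hg u hu with ⟨j, hj⟩ | ⟨k, hk⟩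
      · rw [hj]
        exact S.j14_old_of_E (S.j14_E_trans (S.j14_E_of_In hxv b1) (hG.ρE _ _ (b2 j)))
      · rw [hk]
        exact (S.nv_cl x v k).1 hxv

theorem ctr_nxt (hG : S.Good n i M ρ) (x : X) : ContractibleSpace (Rlz (S.ovr (S.nxt M ρ) x)) := by
  classical
  rw [S.ovr_nxt hG x, ← ctr_iff]
  refine ctr_Nxt (M := S.ovr M x) ?_ (ctr_iff.2 (hG.ctr x)) ρ ?_ _ _ _ _ _ ?_ ?_ ?_
    S.old_inj S.nv_inj S.old_ne
  · refine ⟨fun h => hG.cx.1 h.1, fun s hs t ht hn => ⟨hG.cx.2 s hs.1 t ht hn,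
      fun v hv => hs.2 v (ht hv)⟩⟩
  · refine ⟨fun s hs => hG.ul.1 s hs.1, fun s hs t ht => hG.ul.2 s hs.1 t ht.1⟩
  · intro v hv
    obtain ⟨h1, h2, h3⟩ := S.rep_spec hG v hv.1
    refine ⟨⟨h1, ?_⟩, h2⟩
    intro w hw
    rw [Finset.mem_singleton] at hw
    rw [hw]
    have hxv : S.In x v := hv.2 v (Finset.mem_singleton_self v)
    exact S.j14_In_E (S.j14_E_symm (hG.ρE x v hxv)) h3
  · intro v w hv hw h
    exact S.rep_congr hG v w hv.1 hw.1 h
  · intro v hv hr
    obtain ⟨h1, h2, h3, h4, _⟩ := S.pth_spec hG v hv.1 hr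
    refine ⟨h1, h2, h3, fun j hj => ⟨h4 j hj, ?_⟩⟩
    obtain ⟨b1, b2⟩ := S.j14_base hG hv.1 hr
    have hxv : S.In x v := hv.2 v (Finset.mem_singleton_self v)
    have hE : S.E (S.base v) x := S.j14_E_of_In b1 hxv
    intro w hw
    rw [Finset.mem_insert, Finset.mem_singleton] at hw
    rcases hw with rfl | rfl
    · exact S.j14_In_E hE (b2 _)
    · exact S.j14_In_E hE (b2 _)

/-- One step of the swindle. -/
theorem good_step (hG : S.Good n i M ρ) (hn : 2 ≤ n) :
    S.Good n (i + 1) (S.nxt M ρ) (S.rho M ρ (i + 1)) where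
  cx := S.cx_nxt hG
  cls := S.cls_nxt hG
  card := S.card_nxt hG hn
  lbM := S.lbM_nxt hG
  lbρ := S.lbρ_rho hG (i + 1)
  ρE := S.ρE_rho hG (i + 1)
  ul := S.ul_nxt hG
  lv := S.lv_nxt hG
  ctr := S.ctr_nxt hG

end Sys

end Pool.Agent.Helper281.Sc
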