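import Mathlib
import Pool.Agent.Helper281.Sc.Stp

set_option autoImplicit false

namespace Pool.Agent.Helper281.Sc

open Set

universe u v w

namespace Sys

variable {X : Type u} {VV : Type v} [MeasurableSpace X] (S : Sys X VV) {n : ℕ}
  {M0 : Set (Finset VV)} {ρ0 : VV → X}

/-- The states of the swindle. -/
noncomputable def St (M0 : Set (Finset VV)) (ρ0 : VV → X) : ℕ → Set (Finset VV) × (VV → X)
  | 0 => (M0, ρ0)
  | i + 1 => (S.nxt (St M0 ρ0 i).1 (St M0 ρ0 i).2, S.rho (St M0 ρ0 i).1 (St M0 ρ0 i).2 (i + 1))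

open Classical in
/-- The complexes on `X`. -/
noncomputable def LL (M0 : Set (Finset VV)) (ρ0 : VV → X) (i : ℕ) : Set (Finset X) :=
  {s | ∃ t ∈ (S.St M0 ρ0 i).1, s = t.image (S.St M0 ρ0 i).2}

/-- Their union. -/
noncomputable def LU (M0 : Set (Finset VV)) (ρ0 : VV → X) : Set (Finset X) :=
  ⋃ i, S.LL M0 ρ0 i

/-- The part of a family of finite subsets of `X` over the class of `x`. -/
def ovX (L : Set (Finset X)) (x : X) : Set (Finset X) := {s | s ∈ L ∧ ∀ y ∈ s, S.E x y}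

theorem good_St (hG : S.Good n 0 M0 ρ0) (hn : 2 ≤ n) (i : ℕ) :
    S.Good n i (S.St M0 ρ0 i).1 (S.St M0 ρ0 i).2 := by
  induction i with
  | zero => exact hG
  | succ i ih => exact good_step S ih hn

theorem LL_mono (hG : S.Good n 0 M0 ρ0) (hn : 2 ≤ n) (i : ℕ) :
    S.LL M0 ρ0 i ⊆ S.LL M0 ρ0 (i + 1) := by
  classical
  rintro s ⟨t, ht, rfl⟩
  refine ⟨_, Or.inl ⟨t, ht, rfl⟩, ?_⟩
  ext y
  simp only [Finset.mem_image]
  constructor
  · rintro ⟨v, hv, rfl⟩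
    exact ⟨_, ⟨v, hv, rfl⟩, rho_old S _ _ _ _⟩
  · rintro ⟨w, ⟨v, hv, rfl⟩, rfl⟩
    exact ⟨v, hv, (rho_old S _ _ _ _).symm⟩

theorem cx_LL (hG : S.Good n 0 M0 ρ0) (hn : 2 ≤ n) (i : ℕ) : IsCx (S.LL M0 ρ0 i) := by
  classical
  have hGi := S.good_St hG hn i
  constructor
  · rintro ⟨t, ht, h⟩
    have h1 : t = ∅ := by
      rw [← Finset.not_nonempty_iff_eq_empty]
      rintro ⟨v, hv⟩
      have : (S.St M0 ρ0 i).2 v ∈ (∅ : Finset X) := by
        rw [h]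
        exact Finset.mem_image.mpr ⟨v, hv, rfl⟩
      exact absurd this (Finset.notMem_empty _)
    rw [h1] at ht
    exact hGi.cx.1 ht
  · rintro s ⟨t, ht, rfl⟩ r hr hrn
    refine ⟨t.filter (fun v => (S.St M0 ρ0 i).2 v ∈ r), hGi.cx.2 t ht _ (Finset.filter_subset _ _) ?_,
      ?_⟩
    · obtain ⟨y, hy⟩ := hrn
      obtain ⟨v, hv, hvy⟩ := Finset.mem_image.mp (hr hy)
      exact ⟨v, Finset.mem_filter.mpr ⟨hv, by rw [hvy]; exact hy⟩⟩
    · ext y
      simp only [Finset.mem_image, Finset.mem_filter]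
      constructor
      · intro hy
        obtain ⟨v, hv, hvy⟩ := Finset.mem_image.mp (hr hy)
        exact ⟨v, ⟨hv, by rw [hvy]; exact hy⟩, hvy⟩
      · rintro ⟨v, ⟨_, hv⟩, rfl⟩
        exact hv

theorem cx_LU (hG : S.Good n 0 M0 ρ0) (hn : 2 ≤ n) : IsCx (S.LU M0 ρ0) := by
  constructor
  · intro h
    obtain ⟨i, hi⟩ := mem_iUnion.mp h
    exact (S.cx_LL hG hn i).1 hi
  · intro s hs t ht htn
    obtain ⟨i, hi⟩ := mem_iUnion.mp hs
    exact mem_iUnion.mpr ⟨i, (S.cx_LL hG hn i).2 s hi t ht htn⟩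

theorem card_LU (hG : S.Good n 0 M0 ρ0) (hn : 2 ≤ n) : ∀ s ∈ S.LU M0 ρ0, s.card ≤ n + 1 := by
  classical
  intro s hs
  obtain ⟨i, t, ht, rfl⟩ := mem_iUnion.mp hs
  exact Finset.card_image_le.trans ((S.good_St hG hn i).card t ht)

theorem E_symm {x y : X} (h : S.E x y) : S.E y x := S.eqv.symm h

theorem E_trans {x y z : X} (h : S.E x y) (h' : S.E y z) : S.E x z := S.eqv.trans h h'

theorem cls_LU (hG : S.Good n 0 M0 ρ0) (hn : 2 ≤ n) :
    ∀ s ∈ S.LU M0 ρ0, ∀ x ∈ s, ∀ y ∈ s, S.E x y := by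
  classical
  intro s hs x hx y hy
  obtain ⟨i, t, ht, rfl⟩ := mem_iUnion.mp hs
  have hGi := S.good_St hG hn i
  obtain ⟨x0, hx0⟩ := hGi.cls t ht
  obtain ⟨v, hv, rfl⟩ := Finset.mem_image.mp hx
  obtain ⟨w, hw, rfl⟩ := Finset.mem_image.mp hy
  exact S.E_trans (S.E_symm (hGi.ρE x0 v (hx0 v hv))) (hGi.ρE x0 w (hx0 w hw))

theorem cx_ovX {L : Set (Finset X)} (hL : IsCx L) (x : X) : IsCx (S.ovX L x) :=
  ⟨fun h => hL.1 h.1, fun s hs t ht htn =>
    ⟨hL.2 s hs.1 t ht htn, fun y hy => hs.2 y (ht hy)⟩⟩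

theorem cx_ovr {M : Set (Finset VV)} (hM : IsCx M) (x : X) : IsCx (S.ovr M x) :=
  ⟨fun h => hM.1 h.1, fun s hs t ht htn =>
    ⟨hM.2 s hs.1 t ht htn, fun y hy => hs.2 y (ht hy)⟩⟩

theorem ctr_LU (hG : S.Good n 0 M0 ρ0) (hn : 2 ≤ n) (x : X) : Ctr (S.ovX (S.LU M0 ρ0) x) := by
  classical
  have e : S.ovX (S.LU M0 ρ0) x = ⋃ i, S.ovX (S.LL M0 ρ0 i) x := by
    ext s
    unfold ovX LU
    simp only [mem_ofPred_eq, mem_iUnion]
    constructor
    · rintro ⟨⟨i, hi⟩, h⟩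
      exact ⟨i, hi, h⟩
    · rintro ⟨i, hi, h⟩
      exact ⟨⟨i, hi⟩, h⟩
  rw [e]
  have hcx : ∀ i, IsCx (S.ovX (S.LL M0 ρ0 i) x) := fun i => S.cx_ovX (S.cx_LL hG hn i) x
  have hmono : ∀ i, S.ovX (S.LL M0 ρ0 i) x ⊆ S.ovX (S.LL M0 ρ0 (i + 1)) x :=
    fun i s hs => ⟨S.LL_mono hG hn i hs.1, hs.2⟩
  apply Un.ctr_iUnion (fun i => S.ovX (S.LL M0 ρ0 i) x) hcx hmono
  · intro i
    have hGi := S.good_St hG hn i
    have hGi1 := S.good_St hG hn (i + 1)
    apply Un.null_of_factor (N := S.ovr (S.St M0 ρ0 (i + 1)).1 x) (hcx i) (hcx (i + 1))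
      (S.cx_ovr hGi1.cx x) (hmono i) (ctr_iff.mpr (hGi1.ctr x)) S.old (S.St M0 ρ0 (i + 1)).2
    · rintro s ⟨⟨t, ht, rfl⟩, hx⟩
      constructor
      · refine Or.inl ⟨t, ht, ?_⟩
        ext w
        simp only [Finset.mem_image]
        constructor
        · rintro ⟨y, ⟨v, hv, rfl⟩, rfl⟩
          exact ⟨v, hv, rfl⟩
        · rintro ⟨v, hv, rfl⟩
          exact ⟨_, ⟨v, hv, rfl⟩, rfl⟩
      · intro w hw
        obtain ⟨y, hy, rfl⟩ := Finset.mem_image.mp hw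
        have h1 := hx y hy
        exact S.codE y x (S.E_symm h1) _ (S.old_cl y)
    · rintro t ⟨ht, hx⟩
      refine ⟨⟨t, ht, ?_⟩, ?_⟩
      · ext y
        simp only [Finset.mem_image]
      · intro y hy
        obtain ⟨v, hv, rfl⟩ := Finset.mem_image.mp hy
        exact hGi1.ρE x v (hx v hv)
    · intro y
      exact rho_old S _ _ _ _
  · obtain ⟨z0, _⟩ := ctr_iff.mpr (hG.ctr x)
    obtain ⟨t, ht, _⟩ := z0.2
    refine ⟨_, ⟨t, ht.1, rfl⟩, ?_⟩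
    intro y hy
    obtain ⟨v, hv, rfl⟩ := Finset.mem_image.mp hy
    exact hG.ρE x v (ht.2 v hv)

open Classical in
theorem exists_list {V : Type*} (f : ℕ → V) (t : Finset V) (h : ∀ v ∈ t, ∃ c, f c = v) :
    ∃ L : List ℕ, (L.map f).toFinset = t := by
  obtain ⟨g, hg⟩ : ∃ g : V → ℕ, ∀ v ∈ t, f (g v) = v := by
    refine ⟨fun v => if h : ∃ c, f c = v then h.choose else 0, fun v hv => ?_⟩
    have h1 := h v hv
    simp only [dif_pos h1]
    exact h1.choose_spec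
  refine ⟨t.toList.map g, ?_⟩
  ext v
  simp only [List.mem_toFinset, List.mem_map, Finset.mem_toList]
  constructor
  · rintro ⟨c, ⟨w, hw, rfl⟩, rfl⟩
    rw [hg w hw]
    exact hw
  · intro hv
    exact ⟨g v, ⟨v, hv, rfl⟩, hg v hv⟩

theorem ms_all (l : List ℕ) (A : ℕ → Set X) (hA : ∀ m, MeasurableSet (A m)) :
    MeasurableSet {x | ∀ m ∈ l, x ∈ A m} := by
  have : {x | ∀ m ∈ l, x ∈ A m} = ⋂ m ∈ {m | m ∈ l}, A m := by
    ext x; simp
  rw [this]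
  exact MeasurableSet.biInter (Set.to_countable _) (fun m _ => hA m)

theorem ms_ex (l : List ℕ) (A : ℕ → Set X) (hA : ∀ m, MeasurableSet (A m)) :
    MeasurableSet {x | ∃ m ∈ l, x ∈ A m} := by
  have : {x | ∃ m ∈ l, x ∈ A m} = ⋃ m ∈ {m | m ∈ l}, A m := by
    ext x; simp
  rw [this]
  exact MeasurableSet.biUnion (Set.to_countable _) (fun m _ => hA m)

open Classical in
theorem lb_LU (hG : S.Good n 0 M0 ρ0) (hn : 2 ≤ n) (l : List ℕ) :
    MeasurableSet {x | (l.map (fun m => S.γ m x)).toFinset ∈ S.LU M0 ρ0} := by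
  have e : {x | (l.map (fun m => S.γ m x)).toFinset ∈ S.LU M0 ρ0} =
      ⋃ i, ⋃ L' : List ℕ, ({x | (L'.map (S.cod x)).toFinset ∈ (S.St M0 ρ0 i).1} ∩
        ({x | ∀ m ∈ l, x ∈ {x | ∃ c ∈ L', x ∈ {x | (S.St M0 ρ0 i).2 (S.cod x c) = S.γ m x}}} ∩
        {x | ∀ c ∈ L', x ∈ {x | ∃ m ∈ l, x ∈ {x | (S.St M0 ρ0 i).2 (S.cod x c) = S.γ m x}}})) := by
    ext x
    simp only [mem_ofPred_eq, mem_iUnion, mem_inter_iff]
    constructor
    · intro h
      obtain ⟨i, t, ht, hts⟩ := mem_iUnion.mp h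
      have hGi := S.good_St hG hn i
      obtain ⟨y, hy⟩ := hGi.cls t ht
      have htn : t.Nonempty := by
        rw [Finset.nonempty_iff_ne_empty]
        rintro rfl
        exact hGi.cx.1 ht
      obtain ⟨v0, hv0⟩ := htn
      have h1 : ∀ v ∈ t, ∃ m ∈ l, (S.St M0 ρ0 i).2 v = S.γ m x := by
        intro v hv
        have h2 : (S.St M0 ρ0 i).2 v ∈ (l.map (fun m => S.γ m x)).toFinset := by
          rw [hts]
          exact Finset.mem_image.mpr ⟨v, hv, rfl⟩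
        rw [List.mem_toFinset, List.mem_map] at h2
        obtain ⟨m, hm, h3⟩ := h2
        exact ⟨m, hm, h3.symm⟩
      obtain ⟨m0, _, hm0⟩ := h1 v0 hv0
      have hyx : S.E y x :=
        S.E_trans (hGi.ρE y v0 (hy v0 hv0)) (S.E_symm ⟨m0, hm0.symm⟩)
      obtain ⟨L', hL'⟩ := exists_list (S.cod x) t (fun v hv => S.codE y x hyx v (hy v hv))
      refine ⟨i, L', ?_, ?_, ?_⟩
      · rw [hL']; exact ht
      · intro m hm
        have h2 : S.γ m x ∈ (l.map (fun m => S.γ m x)).toFinset := by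
          rw [List.mem_toFinset, List.mem_map]
          exact ⟨m, hm, rfl⟩
        rw [hts] at h2
        obtain ⟨v, hv, hvx⟩ := Finset.mem_image.mp h2
        rw [← hL', List.mem_toFinset, List.mem_map] at hv
        obtain ⟨c, hc, rfl⟩ := hv
        exact ⟨c, hc, hvx⟩
      · intro c hc
        apply h1
        rw [← hL', List.mem_toFinset, List.mem_map]
        exact ⟨c, hc, rfl⟩
    · rintro ⟨i, L', h1, h2, h3⟩
      refine mem_iUnion.mpr ⟨i, _, h1, ?_⟩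
      ext y
      simp only [List.mem_toFinset, List.mem_map, Finset.mem_image]
      constructor
      · rintro ⟨m, hm, rfl⟩
        obtain ⟨c, hc, hcm⟩ := h2 m hm
        exact ⟨_, ⟨c, hc, rfl⟩, hcm⟩
      · rintro ⟨v, ⟨c, hc, rfl⟩, rfl⟩
        obtain ⟨m, hm, hcm⟩ := h3 c hc
        exact ⟨m, hm, hcm.symm⟩
  rw [e]
  apply MeasurableSet.iUnion
  intro i
  apply MeasurableSet.iUnion
  intro L'
  have hGi := S.good_St hG hn i
  refine (hGi.lbM L').inter (MeasurableSet.inter ?_ ?_)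
  · exact ms_all l _ (fun m => ms_ex L' _ (fun c => hGi.lbρ c m))
  · exact ms_all L' _ (fun c => ms_ex l _ (fun m => hGi.lbρ c m))

end Sys

end Pool.Agent.Helper281.Sc
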