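import Mathlib
import Pool.Agent.Helper281.Sc.Lim
import Pool.Agent.Helper281.Sc.L17
import Pool.Agent.Helper281.Sc.L18
import Pool.Agent.Helper281.Sc.Gc
import Pool.Agent.Helper281.Sc.Tl

set_option autoImplicit false

namespace Pool.Agent.Helper281.Sc

open Set

universe u v w

namespace Inp

variable {X Y : Type u} [MeasurableSpace X] [MeasurableSpace Y] (D : Inp X Y)
  [StandardBorelSpace X] [StandardBorelSpace Y] [Nonempty X]

open Classical in
/-- The initial state satisfies the induction hypothesis. -/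
theorem good0 (K : Set (Finset Y)) (hK : IsCx K) (n : ℕ) (hc : ∀ s ∈ K, s.card ≤ n + 1)
    (hb : ∀ L : List ℕ, MeasurableSet {x | (L.map (fun n => D.δ n (D.f x))).toFinset ∈ K})
    (hctr : ∀ x, Ctr {s | s ∈ K ∧ ∀ y ∈ s, ∃ n, D.δ n (D.f x) = y}) :
    D.sys.Good n 0 (D.M0 K) D.rho0 := by
  refine ⟨D.M0_cx K, D.M0_cls K hK, D.M0_card K hK n hc, D.M0_lb K hb, D.rho0_lb,
    fun x v h => D.rho0_E x v h, D.M0_ul K hK, D.M0_lv K hK, fun x => ?_⟩
  rw [← ctr_iff, D.M0_ovr K hK x]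
  have hKx : IsCx {s | s ∈ K ∧ ∀ y ∈ s, ∃ n, D.δ n (D.f x) = y} := by
    refine ⟨fun h => hK.1 h.1, fun s hs t hts htn => ⟨hK.2 s hs.1 t hts htn, fun y hy => ?_⟩⟩
    exact hs.2 y (hts hy)
  have h1 := ctr_Sd hKx (hctr x)
  have h2 := ctr_Sd (isCx_Sd _) h1
  exact ctr_image (isCx_Sd _) h2
    (fun c => ((Sum.inl c : Finset (Finset Y) ⊕ X), ([] : List ℕ)))
    (fun a b hab => Sum.inl_injective (Prod.mk.inj hab).1)

open Classical in
/-- A full flag in a finite set. -/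
theorem exists_flag {Z : Type*} (s : Finset Z) : ∃ fl : ℕ → Finset Z,
    (∀ i, fl i ⊆ s) ∧ (∀ i j, i ≤ j → fl i ⊆ fl j) ∧ ∀ i ≤ s.card, (fl i).card = i := by
  refine ⟨fun i => (s.toList.take i).toFinset, fun i a ha => ?_, fun i j hij a ha => ?_,
    fun i hi => ?_⟩
  · rw [List.mem_toFinset] at ha
    exact Finset.mem_toList.1 (List.mem_of_mem_take ha)
  · rw [List.mem_toFinset] at ha ⊢
    have : s.toList.take i = (s.toList.take j).take i := by
      rw [List.take_take, min_eq_left hij]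
    rw [this] at ha
    exact List.mem_of_mem_take ha
  · rw [List.toFinset_card_of_nodup (s.nodup_toList.sublist (List.take_sublist _ _)),
      List.length_take, Finset.length_toList, min_eq_left hi]

open Classical in
/-- Top dimensional simplices survive. -/
theorem dim0 (K : Set (Finset Y)) (hK : IsCx K) (n : ℕ) (x : X)
    (h : ∃ s ∈ K, s.card = n + 1 ∧ ∀ y ∈ s, ∃ n, D.δ n (D.f x) = y) :
    ∃ s ∈ D.sys.LU (D.M0 K) D.rho0, s.card = n + 1 ∧ ∀ y ∈ s, D.sys.E x y := by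
  obtain ⟨s, hs, hcard, hx⟩ := h
  obtain ⟨fl, hfs, hfm, hfc⟩ := exists_flag s
  rw [hcard] at hfc
  have hfn : ∀ i, 1 ≤ i → (fl i).Nonempty := by
    intro i hi
    have h1 : (fl 1).card = 1 := hfc 1 (by omega)
    have h2 : (fl 1).Nonempty := Finset.card_pos.1 (by omega)
    exact h2.mono (hfm 1 i hi)
  have hfK : ∀ i, 1 ≤ i → fl i ∈ D.Kx K := fun i hi =>
    ⟨hK.2 s hs _ (hfs i) (hfn i hi), x, fun y hy => hx y (hfs i hy)⟩
  have hfinj : Set.InjOn fl (Finset.Icc 1 (n + 1) : Finset ℕ) := by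
    intro i hi j hj hij
    have hi' := (Finset.mem_Icc.1 (Finset.mem_coe.1 hi)).2
    have hj' := (Finset.mem_Icc.1 (Finset.mem_coe.1 hj)).2
    have e1 := hfc i hi'
    have e2 := hfc j hj'
    rw [hij] at e1
    omega
  set ch : ℕ → Finset (Finset Y) := fun j => (Finset.Icc 1 j).image fl with hch
  have hchm : ∀ i j, i ≤ j → ch i ⊆ ch j := fun i j hij =>
    Finset.image_subset_image (Finset.Icc_subset_Icc_right hij)
  have hchc : ∀ j ≤ n + 1, (ch j).card = j := by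
    intro j hj
    rw [hch]
    simp only
    rw [Finset.card_image_of_injOn, Nat.card_Icc]
    · omega
    · exact hfinj.mono (Finset.coe_subset.2 (Finset.Icc_subset_Icc_right hj))
  have hchn : ∀ j, 1 ≤ j → (ch j).Nonempty := fun j hj =>
    ⟨fl 1, Finset.mem_image_of_mem _ (Finset.mem_Icc.2 ⟨le_rfl, hj⟩)⟩
  have hchinj : Set.InjOn ch (Finset.Icc 1 (n + 1) : Finset ℕ) := by
    intro i hi j hj hij
    have hi' := (Finset.mem_Icc.1 (Finset.mem_coe.1 hi)).2
    have hj' := (Finset.mem_Icc.1 (Finset.mem_coe.1 hj)).2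
    have e1 := hchc i hi'
    have e2 := hchc j hj'
    rw [hij] at e1
    omega
  set t : Finset (Finset (Finset Y)) := (Finset.Icc 1 (n + 1)).image ch with ht
  have htc : t.card = n + 1 := by
    rw [ht, Finset.card_image_of_injOn hchinj, Nat.card_Icc]
    omega
  have hchK : ∀ j, 1 ≤ j → ch j ∈ Sd0 (D.Kx K) := by
    intro j hj
    refine ⟨hchn j hj, ?_, ?_⟩
    · intro a ha
      obtain ⟨i, hi, rfl⟩ := Finset.mem_image.1 ha
      exact hfK i (Finset.mem_Icc.1 hi).1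
    · intro a ha b hb
      obtain ⟨i, hi, rfl⟩ := Finset.mem_image.1 ha
      obtain ⟨i', hi', rfl⟩ := Finset.mem_image.1 hb
      rcases le_total i i' with h | h
      · exact Or.inl (hfm _ _ h)
      · exact Or.inr (hfm _ _ h)
  have htK : t ∈ Sd0 (Sd0 (D.Kx K)) := by
    refine ⟨⟨ch 1, Finset.mem_image_of_mem _ (Finset.mem_Icc.2 ⟨le_rfl, by omega⟩)⟩, ?_, ?_⟩
    · intro a ha
      obtain ⟨i, hi, rfl⟩ := Finset.mem_image.1 ha
      exact hchK i (Finset.mem_Icc.1 hi).1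
    · intro a ha b hb
      obtain ⟨i, hi, rfl⟩ := Finset.mem_image.1 ha
      obtain ⟨i', hi', rfl⟩ := Finset.mem_image.1 hb
      rcases le_total i i' with h | h
      · exact Or.inl (hchm _ _ h)
      · exact Or.inr (hchm _ _ h)
  set g : Finset (Finset Y) → VVt X Y := fun c => (Sum.inl c, ([] : List ℕ)) with hg
  have hginj : Function.Injective g := fun a b hab => Sum.inl_injective (Prod.mk.inj hab).1
  have hM : t.image g ∈ D.M0 K := ⟨t, htK, rfl⟩
  have hgc : (t.image g).card = n + 1 := by rw [Finset.card_image_of_injective _ hginj, htc]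
  refine ⟨(t.image g).image D.rho0, ?_, ?_, ?_⟩
  · exact Set.mem_iUnion.2 ⟨0, t.image g, hM, rfl⟩
  · rw [Finset.card_image_of_injOn ((D.M0_ul K hK).1 _ hM), hgc]
  · intro y hy
    obtain ⟨v, hv, rfl⟩ := Finset.mem_image.1 hy
    obtain ⟨c, hct, rfl⟩ := Finset.mem_image.1 hv
    obtain ⟨j, hj, rfl⟩ := Finset.mem_image.1 hct
    have hj1 := (Finset.mem_Icc.1 hj).1
    apply D.rho0_E
    show ∃ n, D.cod x n = (Sum.inl (ch j), [])
    rw [cod_iff_inl]
    refine ⟨⟨fl 1, Finset.mem_image_of_mem _ (Finset.mem_Icc.2 ⟨le_rfl, hj1⟩), hfn 1 le_rfl⟩, ?_⟩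
    intro a ha y hy
    obtain ⟨i, hi, rfl⟩ := Finset.mem_image.1 ha
    exact hx y (hfs i hy)

end Inp

end Pool.Agent.Helper281.Sc
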