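import Mathlib
import Pool.Agent.Helper281.Sc.Dom
import Pool.Agent.Helper281.Sc.Tl

set_option autoImplicit false

namespace Pool.Agent.Helper281.Sc

open Set

universe u v w

/-- The part of a family of finite subsets of `X` over the class of `x`. -/
def ovE {X : Type u} (γ : ℕ → X → X) (L : Set (Finset X)) (x : X) : Set (Finset X) :=
  {s | s ∈ L ∧ ∀ y ∈ s, ∃ n, γ n x = y}


theorem isCx_ovE {X : Type u} (γ : ℕ → X → X) {L : Set (Finset X)} (hL : IsCx L) (x : X) :
    IsCx (ovE γ L x) := by
  refine ⟨fun h => hL.1 h.1, ?_⟩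
  rintro s ⟨hs, hsc⟩ t hts htn
  exact ⟨hL.2 s hs t hts htn, fun y hy => hsc y (hts hy)⟩

open Classical in
/-- Attaching the missing points as leaves. -/
theorem exists_leaves {X : Type u} [MeasurableSpace X] [StandardBorelSpace X] (γ : ℕ → X → X)
    (γm : ∀ n, Measurable (γ n)) (eqv : Equivalence (fun x y : X => ∃ n, γ n x = y))
    (L : Set (Finset X)) (hcx : IsCx L) (n : ℕ) (hn : 1 ≤ n) (hcard : ∀ s ∈ L, s.card ≤ n + 1)
    (hcls : ∀ s ∈ L, ∀ x ∈ s, ∀ y ∈ s, ∃ n, γ n x = y) (hctr : ∀ x, Ctr (ovE γ L x))
    (hlb : ∀ l : List ℕ, MeasurableSet {x | (l.map (fun m => γ m x)).toFinset ∈ L}) :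
    ∃ L' : Set (Finset X), L ⊆ L' ∧ IsCx L' ∧ (∀ s ∈ L', s.card ≤ n + 1) ∧
      (∀ s ∈ L', ∀ x ∈ s, ∀ y ∈ s, ∃ n, γ n x = y) ∧ (∀ x, {x} ∈ L') ∧
      (∀ x, Ctr (ovE γ L' x)) ∧
      ∀ l : List ℕ, MeasurableSet {x | (l.map (fun m => γ m x)).toFinset ∈ L'} := by
  have hex : ∀ x, ∃ m, ({γ m x} : Finset X) ∈ L := by
    intro x
    obtain ⟨z0, _⟩ := hctr x
    obtain ⟨s, hs, hx⟩ := z0.2
    obtain ⟨y, hy⟩ := Simp_nonempty hx
    obtain ⟨m, hm⟩ := hs.2 y hy
    refine ⟨m, ?_⟩
    rw [hm]
    exact hcx.2 s hs.1 {y} (Finset.singleton_subset_iff.mpr hy) (Finset.singleton_nonempty y)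
  obtain ⟨att, hatt⟩ : ∃ att : X → X, att = fun x => γ (Nat.find (hex x)) x := ⟨_, rfl⟩
  have hattL : ∀ x, ({att x} : Finset X) ∈ L := by
    intro x
    rw [hatt]
    exact Nat.find_spec (hex x)
  have hattc : ∀ x, ∃ n, γ n x = att x := by
    intro x
    rw [hatt]
    exact ⟨_, rfl⟩
  have hsing : ∀ m : ℕ, MeasurableSet {x | ({γ m x} : Finset X) ∈ L} := by
    intro m
    have := hlb [m]
    simpa using this
  have hattm : Measurable att := by
    rw [hatt]
    exact Measurable.find γm hsing hex
  have sub2 : ∀ {s : Finset X} {x a : X}, s ⊆ {x, att x} → a ∈ s → a = x ∨ a = att x := by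
    intro s x a hs ha
    have := hs ha
    simpa using this
  have cls2 : ∀ {s : Finset X} {x a : X}, s ⊆ {x, att x} → a ∈ s → ∃ n, γ n x = a := by
    intro s x a hs ha
    rcases sub2 hs ha with h | h
    · rw [h]; exact eqv.refl x
    · rw [h]; exact hattc x
  have hnot : ∀ {s : Finset X} {x : X}, s ∈ L → ({x} : Finset X) ∉ L → x ∉ s := by
    intro s x hs hx hxs
    exact hx (hcx.2 s hs {x} (Finset.singleton_subset_iff.mpr hxs) (Finset.singleton_nonempty x))
  let L' : Set (Finset X) := L ∪ {s | s.Nonempty ∧ ∃ x, ({x} : Finset X) ∉ L ∧ s ⊆ {x, att x}}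
  have hcx' : IsCx L' := by
    refine ⟨?_, ?_⟩
    · rintro (h | h)
      · exact hcx.1 h
      · exact Finset.not_nonempty_empty h.1
    · rintro s (hs | hs) t hts htn
      · exact Or.inl (hcx.2 s hs t hts htn)
      · obtain ⟨_, x, hx, hsx⟩ := hs
        exact Or.inr ⟨htn, x, hx, hts.trans hsx⟩
  -- a nonempty subset of `{x, att x}` without `x` is `{att x}`
  have hsub1 : ∀ {s : Finset X} {x : X}, s ⊆ {x, att x} → s.Nonempty → x ∉ s → s = {att x} := by
    intro s x hs hn hx
    ext a
    rw [Finset.mem_singleton]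
    constructor
    · intro ha
      rcases sub2 hs ha with h | h
      · rw [h] at ha; exact absurd ha hx
      · exact h
    · rintro rfl
      obtain ⟨b, hb⟩ := hn
      rcases sub2 hs hb with h | h
      · rw [h] at hb; exact absurd hb hx
      · rw [← h]; exact hb
  refine ⟨L', subset_union_left, hcx', ?_, ?_, ?_, ?_, ?_⟩
  · rintro s (hs | hs)
    · exact hcard s hs
    · obtain ⟨_, x, hx, hsx⟩ := hs
      have h1 := Finset.card_le_card hsx
      have h2 : ({x, att x} : Finset X).card ≤ 2 := Finset.card_le_two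
      omega
  · rintro s (hs | hs) a ha b hb
    · exact hcls s hs a ha b hb
    · obtain ⟨_, x, hx, hsx⟩ := hs
      exact eqv.trans (eqv.symm (cls2 hsx ha)) (cls2 hsx hb)
  · intro x
    by_cases hx : ({x} : Finset X) ∈ L
    · exact Or.inl hx
    · refine Or.inr ⟨Finset.singleton_nonempty x, x, hx, ?_⟩
      simp
  · intro x
    refine ctr_union (ι := {y : X // (∃ n, γ n x = y) ∧ ({y} : Finset X) ∉ L})
      (X1 := ovE γ L x) (Y := fun y => Cl {y.1, att y.1}) (isCx_ovE γ hcx' x) (isCx_ovE γ hcx x)
      (fun i => isCx_Cl _) ?_ ?_ (fun i => ctr_Cl (by simp)) ?_ (hctr x)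
    · intro s
      constructor
      · rintro ⟨hs | hs, hsc⟩
        · exact Or.inl ⟨hs, hsc⟩
        · obtain ⟨hsn, z, hz, hsz⟩ := hs
          obtain ⟨a, ha⟩ := id hsn
          have hxz : ∃ n, γ n x = z := eqv.trans (hsc a ha) (eqv.symm (cls2 hsz ha))
          exact Or.inr ⟨⟨z, hxz, hz⟩, hsz, hsn⟩
      · rintro (hs | ⟨⟨z, hxz, hz⟩, hsz, hsn⟩)
        · exact ⟨Or.inl hs.1, hs.2⟩
        · exact ⟨Or.inr ⟨hsn, z, hz, hsz⟩, fun y hy => eqv.trans hxz (cls2 hsz hy)⟩
    · rintro ⟨y, hxy, hy⟩ ⟨z, hxz, hz⟩ hne s ⟨⟨hs1, hsn⟩, hs2, _⟩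
      have hyz : y ≠ z := fun h => hne (Subtype.ext h)
      have hys : y ∉ s := by
        intro h
        rcases sub2 hs2 h with h2 | h2
        · exact hyz h2
        · rw [h2] at hy; exact hy (hattL z)
      have h3 := hsub1 hs1 hsn hys
      rw [h3]
      refine ⟨hattL y, ?_⟩
      intro a ha
      rw [Finset.mem_singleton] at ha
      rw [ha]
      exact eqv.trans hxy (hattc y)
    · rintro ⟨y, hxy, hy⟩
      have : ovE γ L x ∩ Cl {y, att y} = Cl {att y} := by
        ext s
        constructor
        · rintro ⟨⟨hs, hsc⟩, hs1, hsn⟩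
          have h3 := hsub1 hs1 hsn (hnot hs hy)
          rw [h3]
          exact ⟨subset_rfl, Finset.singleton_nonempty _⟩
        · rintro ⟨hs1, hsn⟩
          have h3 : s = {att y} := (Finset.subset_singleton_iff.mp hs1).resolve_left hsn.ne_empty
          rw [h3]
          refine ⟨⟨hattL y, ?_⟩, ?_, Finset.singleton_nonempty _⟩
          · intro a ha
            rw [Finset.mem_singleton] at ha
            rw [ha]
            exact eqv.trans hxy (hattc y)
          · simp
      show Ctr (ovE γ L x ∩ Cl {y, att y})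
      rw [this]
      exact ctr_Cl (Finset.singleton_nonempty _)
  · intro l
    by_cases hl : l = []
    · have : {x | (l.map (fun m => γ m x)).toFinset ∈ L'} = ∅ := by
        ext x
        rw [hl]
        simp only [List.map_nil, List.toFinset_nil, mem_empty_iff_false, iff_false]
        exact hcx'.1
      rw [this]
      exact MeasurableSet.empty
    · have key : {x | (l.map (fun m => γ m x)).toFinset ∈ L'} =
          {x | (l.map (fun m => γ m x)).toFinset ∈ L} ∪
            ⋃ j : ℕ, ({x | ({γ j x} : Finset X) ∈ L}ᶜ ∩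
              ⋂ m ∈ {m | m ∈ l}, ({x | γ m x = γ j x} ∪ {x | γ m x = att (γ j x)})) := by
        ext x
        constructor
        · rintro (h | ⟨hne, z, hz, hsz⟩)
          · exact Or.inl h
          · right
            obtain ⟨a, ha⟩ := id hne
            have ha' := ha
            rw [List.mem_toFinset, List.mem_map] at ha
            obtain ⟨m, hm, hma⟩ := ha
            have hxz : ∃ n, γ n x = z := eqv.trans ⟨m, hma⟩ (eqv.symm (cls2 hsz ha'))
            obtain ⟨j, hj⟩ := hxz
            rw [mem_iUnion]
            refine ⟨j, ?_, ?_⟩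
            · intro h
              apply hz
              rw [← hj]
              exact h
            · rw [mem_iInter₂]
              intro m hm
              have : γ m x ∈ (l.map (fun m => γ m x)).toFinset := by
                rw [List.mem_toFinset, List.mem_map]
                exact ⟨m, hm, rfl⟩
              rcases sub2 hsz this with h | h
              · left
                show γ m x = γ j x
                rw [h, hj]
              · right
                show γ m x = att (γ j x)
                rw [h, hj]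
        · rintro (h | h)
          · exact Or.inl h
          · rw [mem_iUnion] at h
            obtain ⟨j, hj1, hj2⟩ := h
            rw [mem_iInter₂] at hj2
            right
            refine ⟨?_, γ j x, hj1, ?_⟩
            · obtain ⟨m, hm⟩ := List.exists_mem_of_ne_nil l hl
              refine ⟨γ m x, ?_⟩
              rw [List.mem_toFinset, List.mem_map]
              exact ⟨m, hm, rfl⟩
            · intro a ha
              rw [List.mem_toFinset, List.mem_map] at ha
              obtain ⟨m, hm, rfl⟩ := ha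
              rcases hj2 m hm with h | h
              · have h' : γ m x = γ j x := h
                rw [h']; simp
              · have h' : γ m x = att (γ j x) := h
                rw [h']; simp
      rw [key]
      refine (hlb l).union (MeasurableSet.iUnion fun j => (hsing j).compl.inter ?_)
      refine MeasurableSet.biInter (to_countable _) fun m _ => ?_
      exact (measurableSet_eq_fun (γm m) (γm j)).union
        (measurableSet_eq_fun (γm m) (hattm.comp (γm j)))


end Pool.Agent.Helper281.Sc
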