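import Mathlib

set_option autoImplicit false

namespace Pool.Agent.Helper281.Bo

open Set MeasureTheory

/-- the number coded by the first `n` bits -/
def code (b : ℕ → Bool) : ℕ → ℕ
  | 0 => 0
  | n + 1 => 2 * code b n + (if b n = true then 1 else 0)

theorem code_half (b : ℕ → Bool) (n : ℕ) : code b (n + 1) / 2 = code b n := by
  rw [code]
  split <;> omega

theorem code_le {b b' : ℕ → Bool} {n m : ℕ} (hm : m ≤ n) (h : code b n = code b' n) :
    code b m = code b' m := by
  induction n with
  | zero =>
    obtain rfl : m = 0 := by omega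
    rfl
  | succ n ih =>
    by_cases h1 : m = n + 1
    · rw [h1]; exact h
    · apply ih (by omega)
      rw [← code_half b n, ← code_half b' n, h]

theorem code_inj {b b' : ℕ → Bool} (h : ∀ n, code b n = code b' n) : b = b' := by
  funext n
  have h1 := h (n + 1)
  rw [code, code, h n] at h1
  cases hb : b n <;> cases hb' : b' n <;> simp [hb, hb'] at h1 ⊢

variable {X : Type*} [MeasurableSpace X]

theorem measurable_code {r : X → ℕ → Bool} (hr : Measurable r) (n : ℕ) :
    Measurable fun x => code (r x) n := by
  induction n with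
  | zero => exact measurable_const
  | succ n ih =>
    have h1 : Measurable fun x => (2 : ℕ) * code (r x) n := by fun_prop
    have h2 : Measurable fun x => (if r x n = true then 1 else 0 : ℕ) := by
      refine Measurable.ite ?_ measurable_const measurable_const
      exact ((measurable_pi_apply n).comp hr) (measurableSet_singleton true)
    exact h1.add h2

/-- infinitely many elements of the class of `x` have `c = v` -/
def InfAt (γ : ℕ → X → X) (c : X → ℕ) (v : ℕ) (x : X) : Prop :=
  {y | (∃ n, γ n x = y) ∧ c y = v}.Infinite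

theorem infAt_iff (γ : ℕ → X → X) (c : X → ℕ) (v : ℕ) (x : X) :
    InfAt γ c v x ↔ ∀ N, ∃ m, c (γ m x) = v ∧ ∀ k, k ≤ N → γ m x ≠ γ k x := by
  constructor
  · intro h N
    have hfin : ((fun k => γ k x) '' {k | k ≤ N}).Finite := (Set.finite_le_nat N).image _
    obtain ⟨y, ⟨⟨m, hm⟩, hc⟩, hy⟩ := (h.sdiff hfin).nonempty
    refine ⟨m, by rw [hm]; exact hc, fun k hk h1 => hy ⟨k, hk, ?_⟩⟩
    show γ k x = y
    rw [← h1, hm]
  · intro h hfin
    have hex : ∃ N, ∀ y ∈ {y | (∃ n, γ n x = y) ∧ c y = v}, ∃ k, k ≤ N ∧ γ k x = y := by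
      refine Set.Finite.induction_on_subset (motive := fun s _ => ∃ N, ∀ y ∈ s, ∃ k, k ≤ N ∧ γ k x = y) _ hfin ?_ ?_
      · exact ⟨0, fun y hy => absurd hy (Set.notMem_empty y)⟩
      · intro a s ha _ _ ih
        obtain ⟨N, hN⟩ := ih
        obtain ⟨⟨n, hn⟩, -⟩ := ha
        refine ⟨max N n, fun y hy => ?_⟩
        rcases Set.mem_insert_iff.1 hy with rfl | hy
        · exact ⟨n, le_max_right _ _, hn⟩
        · obtain ⟨k, hk, hk2⟩ := hN y hy
          exact ⟨k, hk.trans (le_max_left _ _), hk2⟩
    obtain ⟨N, hN⟩ := hex
    obtain ⟨m, hm, hm2⟩ := h N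
    obtain ⟨k, hk, hk2⟩ := hN (γ m x) ⟨⟨m, rfl⟩, hm⟩
    exact hm2 k hk hk2.symm

theorem measurableSet_infAt [StandardBorelSpace X] {γ : ℕ → X → X} (hγ : ∀ n, Measurable (γ n))
    {c : X → ℕ} (hc : Measurable c) (v : ℕ) : MeasurableSet {x | InfAt γ c v x} := by
  simp only [infAt_iff]
  simp only [Set.ofPred_forall, Set.ofPred_exists, Set.ofPred_and]
  refine MeasurableSet.iInter fun N => MeasurableSet.iUnion fun m => MeasurableSet.inter ?_ ?_
  · exact (hc.comp (hγ m)) (measurableSet_singleton v)
  · refine MeasurableSet.iInter fun k => MeasurableSet.iInter fun _ => ?_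
    exact (measurableSet_eq_fun (hγ m) (hγ k)).compl

theorem infAt_congr {γ : ℕ → X → X} (hE : Equivalence (fun x y : X => ∃ n, γ n x = y))
    {c : X → ℕ} {v : ℕ} {x y : X} (h : ∃ n, γ n x = y) : InfAt γ c v x ↔ InfAt γ c v y := by
  unfold InfAt
  have : ∀ z, (∃ n, γ n x = z) ↔ (∃ n, γ n y = z) := fun z =>
    ⟨fun h2 => hE.trans (hE.symm h) h2, fun h2 => hE.trans h h2⟩
  simp only [this]

open Classical in
theorem find_ex (γ : ℕ → X → X) (c : X → ℕ) (x : X) :
    ∃ v, InfAt γ c v x ∨ ∀ v', ¬ InfAt γ c v' x := by
  by_cases h : ∃ v, InfAt γ c v x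
  · obtain ⟨v, hv⟩ := h
    exact ⟨v, Or.inl hv⟩
  · push Not at h
    exact ⟨0, Or.inr h⟩

open Classical in
/-- the least value taken infinitely often on the class of `x` -/
noncomputable def low (γ : ℕ → X → X) (c : X → ℕ) (x : X) : ℕ := Nat.find (find_ex γ c x)

open Classical in
theorem measurable_low [StandardBorelSpace X] {γ : ℕ → X → X} (hγ : ∀ n, Measurable (γ n))
    {c : X → ℕ} (hc : Measurable c) : Measurable (low γ c) := by
  refine measurable_find (find_ex γ c) fun k => ?_
  rw [Set.ofPred_or]
  refine (measurableSet_infAt hγ hc k).union ?_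
  rw [Set.ofPred_forall]
  exact MeasurableSet.iInter fun v' => (measurableSet_infAt hγ hc v').compl

open Classical in
theorem low_spec {γ : ℕ → X → X} {c : X → ℕ} {x : X} (h : ∃ v, InfAt γ c v x) :
    InfAt γ c (low γ c x) x := by
  have := Nat.find_spec (find_ex γ c x)
  rcases this with h1 | h1
  · exact h1
  · obtain ⟨v, hv⟩ := h
    exact absurd hv (h1 v)

open Classical in
theorem low_le {γ : ℕ → X → X} {c : X → ℕ} {x : X} {v : ℕ} (h : InfAt γ c v x) :
    low γ c x ≤ v := Nat.find_min' _ (Or.inl h)

open Classical in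
theorem low_congr {γ : ℕ → X → X} (hE : Equivalence (fun x y : X => ∃ n, γ n x = y))
    {c : X → ℕ} {x y : X} (h : ∃ n, γ n x = y) : low γ c x = low γ c y := by
  by_cases hx : ∃ v, InfAt γ c v x
  · have hy : ∃ v, InfAt γ c v y := by
      obtain ⟨v, hv⟩ := hx
      exact ⟨v, (infAt_congr hE h).1 hv⟩
    exact le_antisymm (low_le ((infAt_congr hE h).2 (low_spec hy)))
      (low_le ((infAt_congr hE h).1 (low_spec hx)))
  · have hy : ¬ ∃ v, InfAt γ c v y := by
      rintro ⟨v, hv⟩
      exact hx ⟨v, (infAt_congr hE h).2 hv⟩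
    push Not at hx hy
    have h1 : low γ c x = 0 := Nat.le_zero.1 (Nat.find_min' _ (Or.inr hx))
    have h2 : low γ c y = 0 := Nat.le_zero.1 (Nat.find_min' _ (Or.inr hy))
    rw [h1, h2]

/-- On every infinite class the Borel function `κ` takes every value. -/
theorem exists_class_surjective {X : Type*} [MeasurableSpace X] [StandardBorelSpace X]
    (γ : ℕ → X → X) (hγ : ∀ n, Measurable (γ n))
    (hE : Equivalence (fun x y : X => ∃ n, γ n x = y)) :
    ∃ κ : X → ℕ, Measurable κ ∧
      ∀ x, {y | ∃ n, γ n x = y}.Infinite → ∀ k : ℕ, ∃ n, κ (γ n x) = k := by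
  classical
  obtain ⟨r, hr, hinj⟩ := MeasurableSpace.measurable_injection_nat_bool_of_countablySeparated X
  set c : ℕ → X → ℕ := fun n x => code (r x) n with hc
  have hcm : ∀ n, Measurable (c n) := fun n => measurable_code hr n
  set s : ℕ → X → ℕ := fun n => low γ (c n) with hs
  have hsm : ∀ n, Measurable (s n) := fun n => measurable_low hγ (hcm n)
  have hrk : ∀ x, ∃ n, c n x ≠ s n x ∨ ∀ m, c m x = s m x := by
    intro x
    by_cases h : ∃ n, c n x ≠ s n x
    · obtain ⟨n, hn⟩ := h
      exact ⟨n, Or.inl hn⟩
    · push Not at h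
      exact ⟨0, Or.inr h⟩
  set rank : X → ℕ := fun x => Nat.find (hrk x) with hrank
  have hrm : Measurable rank := by
    refine measurable_find hrk fun k => ?_
    rw [Set.ofPred_or]
    refine MeasurableSet.union (measurableSet_eq_fun (hcm k) (hsm k)).compl ?_
    rw [Set.ofPred_forall]
    exact MeasurableSet.iInter fun m => measurableSet_eq_fun (hcm m) (hsm m)
  -- the values of the rank on the class
  set V : X → ℕ → Prop := fun x v => ∃ m, rank (γ m x) = v with hV
  have hVm : ∀ v, MeasurableSet {x | V x v} := by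
    intro v
    simp only [hV, Set.ofPred_exists]
    exact MeasurableSet.iUnion fun m => (hrm.comp (hγ m)) (measurableSet_singleton v)
  have hVcongr : ∀ x y, (∃ n, γ n x = y) → V x = V y := by
    intro x y h
    funext v
    apply propext
    constructor
    · rintro ⟨m, hm⟩
      obtain ⟨m', hm'⟩ := hE.trans (hE.symm h) ⟨m, rfl⟩
      exact ⟨m', by rw [hm']; exact hm⟩
    · rintro ⟨m, hm⟩
      obtain ⟨m', hm'⟩ := hE.trans h ⟨m, rfl⟩
      exact ⟨m', by rw [hm']; exact hm⟩
  have hcount : ∀ n, Measurable fun x => Nat.count (V x) n := by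
    intro n
    induction n with
    | zero => simp only [Nat.count_zero]; exact measurable_const
    | succ n ih =>
      simp only [Nat.count_succ]
      exact ih.add (Measurable.ite (hVm n) measurable_const measurable_const)
  refine ⟨fun x => Nat.count (V x) (rank x), ?_, ?_⟩
  · refine measurable_to_countable' fun k => ?_
    have : (fun x => Nat.count (V x) (rank x)) ⁻¹' {k} =
        ⋃ n, (rank ⁻¹' {n}) ∩ ((fun x => Nat.count (V x) n) ⁻¹' {k}) := by
      ext x
      simp
    rw [this]
    exact MeasurableSet.iUnion fun n => (hrm (measurableSet_singleton n)).inter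
      (hcount n (measurableSet_singleton k))
  · intro x hx k
    -- some code value is taken infinitely often
    have hinf0 : ∀ n, ∃ v, InfAt γ (c n) v x := by
      intro n
      by_contra hno
      push Not at hno
      -- codes are bounded by 2 ^ n
      have hb : ∀ b : ℕ → Bool, code b n < 2 ^ n := by
        intro b
        clear hno
        induction n with
        | zero => simp [code]
        | succ n ih => rw [code, pow_succ]; split <;> omega
      apply hx
      have : {y | ∃ n, γ n x = y} ⊆ ⋃ v ∈ Finset.range (2 ^ n), {y | (∃ n, γ n x = y) ∧ c n y = v} := by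
        intro y hy
        simp only [Set.mem_iUnion, Finset.mem_range]
        exact ⟨c n y, hb _, hy, rfl⟩
      refine Set.Finite.subset ?_ this
      refine Set.Finite.biUnion (Finset.finite_toSet _) fun v _ => ?_
      exact Set.not_infinite.1 (hno v)
    have hspec : ∀ n, InfAt γ (c n) (s n x) x := fun n => low_spec (hinf0 n)
    -- compatibility
    have hhalf : ∀ n, s (n + 1) x / 2 = s n x := by
      intro n
      apply le_antisymm
      · -- one of the halves of `s n x` is infinite
        have h1 := hspec n
        have h2 : InfAt γ (c (n + 1)) (2 * s n x) x ∨ InfAt γ (c (n + 1)) (2 * s n x + 1) x := by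
          by_contra hno
          rw [not_or] at hno
          apply h1
          refine Set.Finite.subset ((Set.not_infinite.1 hno.1).union (Set.not_infinite.1 hno.2)) ?_
          rintro y ⟨hy, hy2⟩
          have h3 : c (n + 1) y / 2 = c n y := code_half (r y) n
          rw [hy2] at h3
          rcases (by omega : c (n + 1) y = 2 * s n x ∨ c (n + 1) y = 2 * s n x + 1) with h4 | h4
          · exact Or.inl ⟨hy, h4⟩
          · exact Or.inr ⟨hy, h4⟩
        rcases h2 with h2 | h2
        · have := low_le h2
          have h5 : s (n + 1) x ≤ 2 * s n x := this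
          omega
        · have := low_le h2
          have h5 : s (n + 1) x ≤ 2 * s n x + 1 := this
          omega
      · refine low_le ?_
        refine (hspec (n + 1)).mono ?_
        rintro y ⟨hy, hy2⟩
        refine ⟨hy, ?_⟩
        have h3 : c (n + 1) y / 2 = c n y := code_half (r y) n
        rw [← h3, hy2]
    have hdown : ∀ n y, c n y = s n x → ∀ m ≤ n, c m y = s m x := by
      intro n
      induction n with
      | zero =>
        intro y hy m hm
        obtain rfl : m = 0 := by omega
        exact hy
      | succ n ih =>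
        intro y hy m hm
        by_cases h1 : m = n + 1
        · rw [h1]; exact hy
        · refine ih y ?_ m (by omega)
          have h3 : c (n + 1) y / 2 = c n y := code_half (r y) n
          rw [← h3, hy, hhalf]
    have hsx : ∀ y, (∃ n, γ n x = y) → ∀ n, s n y = s n x := fun y hy n => (low_congr hE hy).symm
    -- the values are unbounded
    have hunb : ∀ N, ∃ v, N < v ∧ V x v := by
      intro N
      have hexc : {y | (∀ m, c m y = s m x)}.Subsingleton := by
        intro y hy z hz
        apply hinj
        apply code_inj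
        intro n
        exact (hy n).trans (hz n).symm
      obtain ⟨y, ⟨⟨m, hm⟩, hy⟩, hy2⟩ := ((hspec N).sdiff hexc.finite).nonempty
      refine ⟨rank y, ?_, m, by rw [hm]⟩
      have h1 := hdown N y hy
      have h2 := hsx y ⟨m, hm⟩
      have h3 := Nat.find_spec (hrk y)
      rcases h3 with h3 | h3
      · by_contra hle
        apply h3
        rw [h2]
        exact h1 _ (by push Not at hle; exact hle)
      · exfalso
        apply hy2
        intro m
        rw [h3 m, h2]
    have hVinf : (Set.ofPred (V x)).Infinite := by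
      refine Set.infinite_of_not_bddAbove ?_
      rintro ⟨N, hN⟩
      obtain ⟨v, hv, hv2⟩ := hunb N
      exact absurd (hN hv2) (by omega)
    have h1 : V x (Nat.nth (V x) k) := Nat.nth_mem_of_infinite hVinf k
    obtain ⟨n, hn⟩ := h1
    refine ⟨n, ?_⟩
    show Nat.count (V (γ n x)) (rank (γ n x)) = k
    rw [hn]
    have h2 : V x = V (γ n x) := hVcongr x (γ n x) ⟨n, rfl⟩
    have h3 : ∀ (W : ℕ → Prop) [DecidablePred W], V x = W → Nat.count W (Nat.nth (V x) k) = k := by
      rintro W _ rfl
      exact Nat.count_nth_of_infinite hVinf k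
    exact h3 _ h2

end Pool.Agent.Helper281.Bo

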