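import Mathlib
import Pool.Agent.Helper281.Sc.Fin
import Pool.Agent.Helper281.Sc.L19
import Pool.Agent.Helper281.Sc.L20
import Pool.Agent.Helper281.Sc.LN
import Pool.Agent.Helper281.Sc.Mark
import Pool.Agent.Helper281.Sc.Color

set_option autoImplicit false

namespace Pool.Agent.Helper281.Sc

open Set

universe u v w

/-- The aperiodic case. -/
theorem aperiodic_case {X Y : Type u} [MeasurableSpace X] [StandardBorelSpace X]
    [MeasurableSpace Y] [StandardBorelSpace Y] {E : X → X → Prop} {F : Y → Y → Prop}
    (hE : IsCBER E) (hF : IsCBER F) (f : X → Y) (hf : Measurable f)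
    (hinj : Function.Injective f) (hred : ∀ x x', E x x' ↔ F (f x) (f x'))
    (hinf : ∀ x, {y | E x y}.Infinite) (n : ℕ) (hn : 2 ≤ n) (K : Set (Finset Y))
    (hK : Stru n F K) :
    ∃ L : Set (Finset X), Stru n E L ∧
      ∀ x, (∃ s ∈ K, s.card = n + 1 ∧ ∀ y ∈ s, F (f x) y) →
        ∃ s ∈ L, s.card = n + 1 ∧ ∀ y ∈ s, E x y := by
  classical
  rcases isEmpty_or_nonempty X with hX | hX
  · refine ⟨∅, ⟨⟨fun h => h, fun s hs => absurd hs (by simp)⟩, fun x => isEmptyElim x,
      fun s hs => absurd hs (by simp), fun s hs => absurd hs (by simp), fun k => ?_,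
      fun x => isEmptyElim x⟩, fun x => isEmptyElim x⟩
    exact Set.Subsingleton.measurableSet Set.subsingleton_of_subsingleton
  · obtain ⟨γ, γm, hγ⟩ := LN.cber_enum E hE.equiv hE.borel hE.countable
    obtain ⟨δ, δm, hδ⟩ := LN.cber_enum F hF.equiv hF.borel hF.countable
    have hγE : (fun x y : X => ∃ n, γ n x = y) = E := by
      funext x y
      exact propext (hγ x y).symm
    have hδF : (fun x y : Y => ∃ n, δ n x = y) = F := by
      funext x y
      exact propext (hδ x y).symm
    have eqvX : Equivalence (fun x y : X => ∃ n, γ n x = y) := by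
      rw [hγE]; exact hE.equiv
    have eqvY : Equivalence (fun x y : Y => ∃ n, δ n x = y) := by
      rw [hδF]; exact hF.equiv
    obtain ⟨κ, κm, κs⟩ := Bo.exists_class_surjective γ γm eqvX
    obtain ⟨col, colm, colp⟩ := Bo.exists_list_color γ γm eqvX
    obtain ⟨r, hr⟩ := MeasureTheory.exists_measurableEmbedding_real Y
    let D : Inp X Y :=
      { γ := γ
        γm := γm
        eqv := eqvX
        κ := κ
        κm := κm
        κs := fun x k => κs x (by
          have := hinf x
          simp only [hγ] at this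
          exact this) k
        col := col
        colm := colm
        colp := colp
        δ := δ
        δm := δm
        eqvY := eqvY
        f := f
        fm := hf
        finj := hinj
        red := fun x y => by rw [← hγ, ← hδ]; exact hred x y
        r := r
        rm := hr.measurable
        rinj := hr.injective }
    have hb : ∀ L : List ℕ,
        MeasurableSet {x | (L.map (fun n => D.δ n (D.f x))).toFinset ∈ K} := by
      intro L
      exact lb_of_borel (fun n x => δ n (f x)) (fun n => (δm n).comp hf) K hK.cx.1 hK.borel L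
    have hctr : ∀ x, Ctr {s | s ∈ K ∧ ∀ y ∈ s, ∃ n, D.δ n (D.f x) = y} := by
      intro x
      have h := hK.ctr (f x)
      rw [← ctr_iff] at h
      have e : {s | s ∈ K ∧ ∀ y ∈ s, ∃ n, D.δ n (D.f x) = y} =
          {s | s ∈ K ∧ ∀ y ∈ s, F (f x) y} := by
        ext s
        simp only [mem_ofPred_eq, hδ]
        rfl
      rw [e]
      exact h
    have hG := D.good0 K hK.cx n hK.card hb hctr
    obtain ⟨L', h1, h2, h3, h4, h5, h6, h7⟩ := exists_leaves γ γm eqvX
      (D.sys.LU (D.M0 K) D.rho0) (D.sys.cx_LU hG hn) n (by omega) (D.sys.card_LU hG hn)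
      (D.sys.cls_LU hG hn) (fun x => D.sys.ctr_LU hG hn x) (fun l => D.sys.lb_LU hG hn l)
    refine ⟨L', ⟨h2, h5, ?_, h3, ?_, ?_⟩, ?_⟩
    · intro s hs x hx y hy
      rw [hγ]
      exact h4 s hs x hx y hy
    · intro k
      exact borel_of_lb γ γm L' h4 h7 k
    · intro x
      rw [← ctr_iff]
      have e : {s | s ∈ L' ∧ ∀ y ∈ s, E x y} = ovE γ L' x := by
        ext s
        simp only [mem_ofPred_eq, hγ, ovE]
      rw [e]
      exact h6 x
    · rintro x ⟨s, hs, hc, hsx⟩
      obtain ⟨t, ht, htc, htx⟩ := D.dim0 K hK.cx n x ⟨s, hs, hc, fun y hy => by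
        have := hsx y hy
        rw [hδ] at this
        exact this⟩
      refine ⟨t, h1 ht, htc, fun y hy => ?_⟩
      rw [hγ]
      exact htx y hy

end Pool.Agent.Helper281.Sc
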