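import Mathlib
import Pool.Agent.Helper281.Sc.Ap
import Pool.Agent.Helper281.Sc.Gc
import Pool.Agent.Helper281.Sc.Tl

set_option autoImplicit false

namespace Pool.Agent.Helper281.Sc

open Set

universe u v w

theorem gen_inst {A : Type u} [MeasurableSpace A] {k : ℕ} (i1 i2 : DecidableEq A)
    (L : Set (Finset A))
    (h : MeasurableSet {v : Fin (k + 1) → A | Function.Injective v ∧
      (@Finset.image _ _ i1 v Finset.univ) ∈ L}) :
    MeasurableSet {v : Fin (k + 1) → A | Function.Injective v ∧
      (@Finset.image _ _ i2 v Finset.univ) ∈ L} := by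
  have e : i1 = i2 := Subsingleton.elim _ _
  subst e
  exact h

/-- The general case: on finite classes use a cone over a skeleton. -/
theorem general_case {X Y : Type u} [MeasurableSpace X] [StandardBorelSpace X]
    [MeasurableSpace Y] [StandardBorelSpace Y] {E : X → X → Prop} {F : Y → Y → Prop}
    (hE : IsCBER E) (hF : IsCBER F) (f : X → Y) (hf : Measurable f)
    (hinj : Function.Injective f) (hred : ∀ x x', E x x' ↔ F (f x) (f x'))
    (n : ℕ) (hn : 2 ≤ n) (K : Set (Finset Y)) (hK : Stru n F K) :
    ∃ L : Set (Finset X), Stru n E L ∧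
      ∀ x, (∃ s ∈ K, s.card = n + 1 ∧ ∀ y ∈ s, F (f x) y) →
        (∃ t : Finset X, t.card = n + 1 ∧ ∀ y ∈ t, E x y) →
        ∃ s ∈ L, s.card = n + 1 ∧ ∀ y ∈ s, E x y := by
  classical
  obtain ⟨γ, hγm, hγ⟩ := Pool.Agent.Helper281.LN.cber_enum E hE.equiv hE.borel hE.countable
  obtain ⟨r, hr⟩ := MeasureTheory.exists_measurableEmbedding_real X
  have hEm : ∀ {x y}, E x y → E y x := fun h => hE.equiv.symm h
  have hEt : ∀ {x y z}, E x y → E y z → E x z := fun h h' => hE.equiv.trans h h'
  have hEr : ∀ x, E x x := hE.equiv.refl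
  -- the infinite part
  let A : Set X := {x | {y | E x y}.Infinite}
  have hAinv : ∀ {x y}, E x y → x ∈ A → y ∈ A := by
    intro x y hxy hx
    have : {z | E y z} = {z | E x z} := by
      ext z
      exact ⟨fun h => hEt hxy h, fun h => hEt (hEm hxy) h⟩
    show {z | E y z}.Infinite
    rw [this]
    exact hx
  have hAc : Aᶜ = ⋃ N : ℕ, ⋂ m : ℕ, ⋃ k ∈ Finset.range N, {x | r (γ m x) = r (γ k x)} := by
    ext x
    simp only [mem_compl_iff, mem_iUnion, mem_iInter, Finset.mem_range, exists_prop, mem_ofPred_eq]
    have h1 : {y | E x y} = Set.range (fun m => γ m x) := by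
      ext y
      exact hγ x y
    constructor
    · intro hx
      have hfin : {y | E x y}.Finite := by
        by_contra h
        exact hx h
      rw [h1] at hfin
      -- each value attained has an index
      have h2 : ∀ y : X, ∃ k : ℕ, y ∈ Set.range (fun m => γ m x) → γ k x = y := by
        intro y
        by_cases hy : y ∈ Set.range (fun m => γ m x)
        · obtain ⟨k, hk⟩ := hy
          exact ⟨k, fun _ => hk⟩
        · exact ⟨0, fun h => absurd h hy⟩
      choose g hg using h2
      refine ⟨(hfin.toFinset.sup g) + 1, fun m => ⟨g (γ m x), ?_, ?_⟩⟩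
      · refine Nat.lt_succ_of_le ?_
        exact Finset.le_sup (f := g) (hfin.mem_toFinset.2 ⟨m, rfl⟩)
      · rw [hg _ ⟨m, rfl⟩]
    · rintro ⟨N, hN⟩ hx
      apply hx
      rw [h1]
      refine ((Finset.range N).finite_toSet.image (fun k => γ k x)).subset ?_
      rintro y ⟨m, rfl⟩
      obtain ⟨k, hk, hk2⟩ := hN m
      exact ⟨k, by simpa using hk, (hr.injective hk2).symm⟩
  have hAm : MeasurableSet A := by
    rw [← MeasurableSet.compl_iff, hAc]
    refine MeasurableSet.iUnion fun N => MeasurableSet.iInter fun m => ?_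
    refine MeasurableSet.biUnion (Finset.range N).countable_toSet fun k _ => ?_
    exact measurableSet_eq_fun (hr.measurable.comp (hγm m)) (hr.measurable.comp (hγm k))
  have : StandardBorelSpace A := hAm.standardBorel
  -- least points
  let lst : X → Prop := fun x => ∀ y, E x y → r x ≤ r y
  have hlstm : MeasurableSet {x | lst x} := by
    have : {x | lst x} = ⋂ m : ℕ, {x | r x ≤ r (γ m x)} := by
      ext x
      simp only [mem_iInter, mem_ofPred_eq]
      constructor
      · intro h m
        exact h _ ((hγ x _).2 ⟨m, rfl⟩)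
      · intro h y hy
        obtain ⟨m, hm⟩ := (hγ x y).1 hy
        rw [← hm]
        exact h m
    rw [this]
    exact MeasurableSet.iInter fun m =>
      measurableSet_le hr.measurable (hr.measurable.comp (hγm m))
  have hlu : ∀ {x y}, lst x → lst y → E x y → x = y := by
    intro x y hx hy h
    exact hr.injective (le_antisymm (hx y h) (hy x (hEm h)))
  have hle : ∀ x, x ∉ A → ∃ m, E x m ∧ lst m := by
    intro x hx
    have hfin : {y | E x y}.Finite := by
      by_contra h
      exact hx h
    obtain ⟨m, hm, hm2⟩ := hfin.exists_minimalFor r _ ⟨x, hEr x⟩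
    refine ⟨m, hm, fun y hy => ?_⟩
    have hxy : E x y := hEt hm hy
    rcases le_total (r m) (r y) with h | h
    · exact h
    · exact hm2 hxy h
  -- the aperiodic part
  let E' : A → A → Prop := fun x y => E x.1 y.1
  have hE' : IsCBER E' := by
    refine ⟨⟨fun x => hEr _, fun h => hEm h, fun h h' => hEt h h'⟩, ?_, ?_⟩
    · have : {p : A × A | E' p.1 p.2} =
          (fun p : A × A => ((p.1 : X), (p.2 : X))) ⁻¹' {p : X × X | E p.1 p.2} := rfl
      rw [this]
      apply measurableSet_preimage _ hE.borel
      exact (measurable_subtype_coe.comp measurable_fst).prodMk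
        (measurable_subtype_coe.comp measurable_snd)
    · intro x
      exact (hE.countable x.1).preimage Subtype.val_injective
  have hinf' : ∀ x : A, {y | E' x y}.Infinite := by
    intro x hfin
    apply x.2
    refine (hfin.image Subtype.val).subset ?_
    intro y hy
    exact ⟨⟨y, hAinv hy x.2⟩, hy, rfl⟩
  obtain ⟨L', hL', hL'2⟩ := aperiodic_case hE' hF (fun x : A => f x.1)
    (hf.comp measurable_subtype_coe) (hinj.comp Subtype.val_injective)
    (fun x x' => hred x.1 x'.1) hinf' n hn K hK
  let LF : Set (Finset X) := {s | s.Nonempty ∧ (∀ x ∈ s, x ∉ A) ∧ (∀ x ∈ s, ∀ y ∈ s, E x y) ∧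
    s.card ≤ n + 1 ∧ (s.card = n + 1 → ∃ y ∈ s, lst y)}
  let LA : Set (Finset X) := {s | ∃ t ∈ L', s = t.image Subtype.val}
  have hLA : ∀ s ∈ LA, ∀ x ∈ s, x ∈ A := by
    rintro s ⟨t, ht, rfl⟩ x hx
    obtain ⟨a, _, rfl⟩ := Finset.mem_image.1 hx
    exact a.2
  have hLAn : ∀ s ∈ LA, s.Nonempty := by
    rintro s ⟨t, ht, rfl⟩
    exact (hL'.cx.nonempty ht).image _
  have cxLF : IsCx LF := by
    refine ⟨fun h => Finset.not_nonempty_empty h.1, ?_⟩
    rintro s ⟨h1, h2, h3, h4, h5⟩ t hts htn
    refine ⟨htn, fun x hx => h2 x (hts hx), fun x hx y hy => h3 x (hts hx) y (hts hy),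
      (Finset.card_le_card hts).trans h4, ?_⟩
    intro ht
    have : t = s := Finset.eq_of_subset_of_card_le hts (by omega)
    rw [this] at ht ⊢
    exact h5 ht
  have cxLA : IsCx LA := by
    refine ⟨fun h => Finset.not_nonempty_empty (hLAn _ h), ?_⟩
    rintro s ⟨t, ht, rfl⟩ u hu hun
    refine ⟨t.filter (fun a => a.1 ∈ u), ?_, ?_⟩
    · refine hL'.cx.2 t ht _ (Finset.filter_subset _ _) ?_
      obtain ⟨x, hx⟩ := hun
      obtain ⟨a, ha, rfl⟩ := Finset.mem_image.1 (hu hx)
      exact ⟨a, Finset.mem_filter.2 ⟨ha, hx⟩⟩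
    · ext x
      constructor
      · intro hx
        obtain ⟨a, ha, rfl⟩ := Finset.mem_image.1 (hu hx)
        exact Finset.mem_image.2 ⟨a, Finset.mem_filter.2 ⟨ha, hx⟩, rfl⟩
      · intro hx
        obtain ⟨a, ha, rfl⟩ := Finset.mem_image.1 hx
        exact (Finset.mem_filter.1 ha).2
  have cxL : IsCx (LF ∪ LA) := by
    refine ⟨?_, ?_⟩
    · rintro (h | h)
      · exact cxLF.1 h
      · exact cxLA.1 h
    · rintro s (h | h) t hts htn
      · exact Or.inl (cxLF.2 s h t hts htn)
      · exact Or.inr (cxLA.2 s h t hts htn)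
  refine ⟨LF ∪ LA, ⟨cxL, ?_, ?_, ?_, ?_, ?_⟩, ?_⟩
  · -- singletons
    intro x
    by_cases hx : x ∈ A
    · right
      exact ⟨{⟨x, hx⟩}, hL'.sing _, by simp⟩
    · left
      refine ⟨Finset.singleton_nonempty x, ?_, ?_, ?_, ?_⟩
      · intro y hy
        rw [Finset.mem_singleton.1 hy]
        exact hx
      · intro y hy z hz
        rw [Finset.mem_singleton.1 hy, Finset.mem_singleton.1 hz]
        exact hEr x
      · simp
      · intro h
        simp at h
        omega
  · -- classes
    rintro s (h | ⟨t, ht, rfl⟩) x hx y hy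
    · exact h.2.2.1 x hx y hy
    · obtain ⟨a, ha, rfl⟩ := Finset.mem_image.1 hx
      obtain ⟨b, hb, rfl⟩ := Finset.mem_image.1 hy
      exact hL'.cls t ht a ha b hb
  · -- cardinality
    rintro s (h | ⟨t, ht, rfl⟩)
    · exact h.2.2.2.1
    · exact Finset.card_image_le.trans (hL'.card t ht)
  · -- Borel
    intro k
    have hset : {v : Fin (k + 1) → X | Function.Injective v ∧
        Finset.univ.image v ∈ LF ∪ LA} =
        ({v : Fin (k + 1) → X | (∀ i j, i ≠ j → r (v i) ≠ r (v j)) ∧ (∀ i, v i ∉ A) ∧
          (∀ i j, E (v i) (v j)) ∧ k + 1 ≤ n + 1 ∧ (k = n → ∃ i, lst (v i))}) ∪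
        ((fun (v : Fin (k + 1) → A) (i : Fin (k + 1)) => (v i : X)) ''
          {v : Fin (k + 1) → A | Function.Injective v ∧ Finset.univ.image v ∈ L'}) := by
      ext v
      constructor
      · rintro ⟨hv, h | ⟨t, ht, hvt⟩⟩
        · left
          obtain ⟨h1, h2, h3, h4, h5⟩ := h
          rw [Finset.card_image_of_injective _ hv, Finset.card_univ, Fintype.card_fin] at h4 h5
          refine ⟨fun i j hij h => hij (hv (hr.injective h)), fun i => h2 _ (by simp),
            fun i j => h3 _ (by simp) _ (by simp), h4, ?_⟩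
          intro hk
          obtain ⟨y, hy, hy2⟩ := h5 (by omega)
          obtain ⟨i, _, rfl⟩ := Finset.mem_image.1 hy
          exact ⟨i, hy2⟩
        · right
          have hvA : ∀ i, v i ∈ A := by
            intro i
            have : v i ∈ Finset.univ.image v := by simp
            rw [hvt] at this
            obtain ⟨a, _, ha⟩ := Finset.mem_image.1 this
            rw [← ha]
            exact a.2
          refine ⟨fun i => ⟨v i, hvA i⟩, ⟨?_, ?_⟩, rfl⟩
          · intro i j hij
            exact hv (congrArg Subtype.val hij)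
          · have : Finset.univ.image (fun i => (⟨v i, hvA i⟩ : A)) = t := by
              apply Finset.image_injective Subtype.val_injective
              rw [← hvt, Finset.image_image]
              rfl
            rw [this]
            exact ht
      · rintro (⟨h1, h2, h3, h4, h5⟩ | ⟨w, ⟨hw1, hw2⟩, rfl⟩)
        · have hv : Function.Injective v := by
            intro i j hij
            by_contra hne
            exact h1 i j hne (by rw [hij])
          refine ⟨hv, Or.inl ⟨?_, ?_, ?_, ?_, ?_⟩⟩
          · exact Finset.univ_nonempty.image _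
          · intro x hx
            obtain ⟨i, _, rfl⟩ := Finset.mem_image.1 hx
            exact h2 i
          · intro x hx y hy
            obtain ⟨i, _, rfl⟩ := Finset.mem_image.1 hx
            obtain ⟨j, _, rfl⟩ := Finset.mem_image.1 hy
            exact h3 i j
          · rw [Finset.card_image_of_injective _ hv, Finset.card_univ, Fintype.card_fin]
            exact h4
          · rw [Finset.card_image_of_injective _ hv, Finset.card_univ, Fintype.card_fin]
            intro hk
            obtain ⟨i, hi⟩ := h5 (by omega)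
            exact ⟨v i, by simp, hi⟩
        · refine ⟨?_, Or.inr ⟨_, hw2, ?_⟩⟩
          · intro i j hij
            exact hw1 (Subtype.ext hij)
          · rw [Finset.image_image]
            rfl
    rw [hset]
    refine MeasurableSet.union ?_ ?_
    · have hpi : ∀ i : Fin (k + 1), Measurable (fun v : Fin (k + 1) → X => v i) :=
        fun i => measurable_pi_apply i
      have e1 : {v : Fin (k + 1) → X | (∀ i j, i ≠ j → r (v i) ≠ r (v j)) ∧ (∀ i, v i ∉ A) ∧
          (∀ i j, E (v i) (v j)) ∧ k + 1 ≤ n + 1 ∧ (k = n → ∃ i, lst (v i))} =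
          (⋂ i, ⋂ j, {v : Fin (k + 1) → X | i ≠ j → r (v i) ≠ r (v j)}) ∩
          ((⋂ i, {v : Fin (k + 1) → X | v i ∉ A}) ∩
          ((⋂ i, ⋂ j, {v : Fin (k + 1) → X | E (v i) (v j)}) ∩
          ({v : Fin (k + 1) → X | k + 1 ≤ n + 1} ∩
          {v : Fin (k + 1) → X | k = n → ∃ i, lst (v i)}))) := by
        ext v
        simp only [mem_inter_iff, mem_iInter, mem_ofPred_eq]
      rw [e1]
      refine MeasurableSet.inter ?_ (MeasurableSet.inter ?_ (MeasurableSet.inter ?_
        (MeasurableSet.inter ?_ ?_)))
      · refine MeasurableSet.iInter fun i => MeasurableSet.iInter fun j => ?_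
        by_cases hij : i = j
        · simp [hij]
        · simp only [ne_eq, hij, not_false_eq_true, forall_const]
          refine (measurableSet_eq_fun (hr.measurable.comp (measurable_pi_apply i))
            (hr.measurable.comp (measurable_pi_apply j))).compl
      · refine MeasurableSet.iInter fun i => ?_
        exact hpi i hAm.compl
      · refine MeasurableSet.iInter fun i => MeasurableSet.iInter fun j => ?_
        exact ((hpi i).prodMk (hpi j)) hE.borel
      · exact MeasurableSet.const _
      · by_cases hk : k = n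
        · have : {v : Fin (k + 1) → X | k = n → ∃ i, lst (v i)} =
              ⋃ i, {v : Fin (k + 1) → X | lst (v i)} := by
            ext v
            simp only [mem_iUnion, mem_ofPred_eq]
            exact ⟨fun h => h hk, fun h _ => h⟩
          rw [this]
          refine MeasurableSet.iUnion fun i => ?_
          exact hpi i hlstm
        · have : {v : Fin (k + 1) → X | k = n → ∃ i, lst (v i)} = univ := by
            ext v
            simp [hk]
          rw [this]
          exact MeasurableSet.univ
    · have hme : MeasurableEmbedding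
          (fun (v : Fin (k + 1) → A) (i : Fin (k + 1)) => (v i : X)) := by
        apply Measurable.measurableEmbedding
        · exact measurable_pi_lambda _ fun i =>
            measurable_subtype_coe.comp (measurable_pi_apply i)
        · intro v w h
          funext i
          exact Subtype.ext (congrFun h i)
      rw [hme.measurableSet_image]
      exact gen_inst _ _ L' (hL'.borel k)
  · -- contractibility
    intro x
    by_cases hx : x ∈ A
    · have e : {s | s ∈ LF ∪ LA ∧ ∀ y ∈ s, E x y} =
          {s : Finset X | ∃ t ∈ {t | t ∈ L' ∧ ∀ y ∈ t, E' ⟨x, hx⟩ y},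
            s = t.image Subtype.val} := by
        ext s
        constructor
        · rintro ⟨h | ⟨t, ht, rfl⟩, hs⟩
          · obtain ⟨y, hy⟩ := h.1
            exact absurd (hAinv (hs y hy) hx) (h.2.1 y hy)
          · exact ⟨t, ⟨ht, fun y hy => hs y.1 (Finset.mem_image_of_mem _ hy)⟩, rfl⟩
        · rintro ⟨t, ⟨ht, ht2⟩, rfl⟩
          refine ⟨Or.inr ⟨t, ht, rfl⟩, ?_⟩
          intro y hy
          obtain ⟨a, ha, rfl⟩ := Finset.mem_image.1 hy
          exact ht2 a ha
      rw [e, ← ctr_iff]
      apply ctr_image _ _ _ Subtype.val_injective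
      · refine ⟨fun h => hL'.cx.1 h.1, ?_⟩
        rintro s ⟨hs, hs2⟩ t hts htn
        exact ⟨hL'.cx.2 s hs t hts htn, fun y hy => hs2 y (hts hy)⟩
      · rw [ctr_iff]
        exact hL'.ctr ⟨x, hx⟩
    · have e : {s | s ∈ LF ∪ LA ∧ ∀ y ∈ s, E x y} = {s | s ∈ LF ∧ ∀ y ∈ s, E x y} := by
        ext s
        constructor
        · rintro ⟨h | h, hs⟩
          · exact ⟨h, hs⟩
          · obtain ⟨y, hy⟩ := hLAn s h
            exact absurd (hAinv (hEm (hs y hy)) (hLA s h y hy)) hx
        · rintro ⟨h, hs⟩
          exact ⟨Or.inl h, hs⟩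
      rw [e, ← ctr_iff]
      obtain ⟨m, hm, hm2⟩ := hle x hx
      have hmA : m ∉ A := fun h => hx (hAinv (hEm hm) h)
      apply ctr_cone _ m
      · refine ⟨?_, ?_⟩
        · refine ⟨Finset.singleton_nonempty m, ?_, ?_, ?_, ?_⟩
          · intro y hy
            rw [Finset.mem_singleton.1 hy]
            exact hmA
          · intro y hy z hz
            rw [Finset.mem_singleton.1 hy, Finset.mem_singleton.1 hz]
            exact hEr m
          · simp
          · intro _
            exact ⟨m, by simp, hm2⟩
        · intro y hy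
          rw [Finset.mem_singleton.1 hy]
          exact hm
      · rintro s ⟨⟨h1, h2, h3, h4, h5⟩, hs⟩
        have hEms : ∀ y ∈ insert m s, E x y := by
          intro y hy
          rcases Finset.mem_insert.1 hy with rfl | hy
          · exact hm
          · exact hs y hy
        refine ⟨⟨Finset.insert_nonempty m s, ?_, ?_, ?_, ?_⟩, hEms⟩
        · intro y hy hyA
          exact hx (hAinv (hEm (hEms y hy)) hyA)
        · intro y hy z hz
          exact hEt (hEm (hEms y hy)) (hEms z hz)
        · by_cases hc : s.card = n + 1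
          · obtain ⟨y, hy, hy2⟩ := h5 hc
            have : y = m := hlu hy2 hm2 (hEt (hEm (hs y hy)) hm)
            rw [Finset.insert_eq_of_mem (this ▸ hy)]
            exact h4
          · have := Finset.card_insert_le m s
            omega
        · intro _
          exact ⟨m, Finset.mem_insert_self _ _, hm2⟩
      · refine ⟨fun h => cxLF.1 h.1, ?_⟩
        rintro s ⟨hs, hs2⟩ t hts htn
        exact ⟨cxLF.2 s hs t hts htn, fun y hy => hs2 y (hts hy)⟩
  · -- top-dimensional simplices
    rintro x hxK ⟨t, ht, ht2⟩
    by_cases hx : x ∈ A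
    · obtain ⟨s, hs, hs2, hs3⟩ := hL'2 ⟨x, hx⟩ hxK
      refine ⟨s.image Subtype.val, Or.inr ⟨s, hs, rfl⟩, ?_, ?_⟩
      · rw [Finset.card_image_of_injective _ Subtype.val_injective]
        exact hs2
      · intro y hy
        obtain ⟨a, ha, rfl⟩ := Finset.mem_image.1 hy
        exact hs3 a ha
    · obtain ⟨m, hm, hm2⟩ := hle x hx
      have hcard : n ≤ (t.erase m).card := by
        have := Finset.pred_card_le_card_erase (s := t) (a := m)
        omega
      obtain ⟨u, hu, hu2⟩ := Finset.exists_subset_card_eq hcard
      have hmu : m ∉ u := fun h => by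
        have := hu h
        simp at this
      have hEs : ∀ y ∈ insert m u, E x y := by
        intro y hy
        rcases Finset.mem_insert.1 hy with rfl | hy
        · exact hm
        · exact ht2 y (Finset.mem_of_mem_erase (hu hy))
      have hc : (insert m u).card = n + 1 := by
        rw [Finset.card_insert_of_notMem hmu, hu2]
      refine ⟨insert m u, Or.inl ⟨Finset.insert_nonempty m u, ?_, ?_, hc.le, ?_⟩, hc, hEs⟩
      · intro y hy hyA
        exact hx (hAinv (hEm (hEs y hy)) hyA)
      · intro y hy z hz
        exact hEt (hEm (hEs y hy)) (hEs z hz)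
      · intro _
        exact ⟨m, Finset.mem_insert_self _ _, hm2⟩

end Pool.Agent.Helper281.Sc
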